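import Pool.Agent.Helper304.Ses.Defs

open AlgebraicGeometry CategoryTheory Limits TopologicalSpace

namespace Pool.Agent.Helper304.Ses

/-- The pull back of a section. -/
noncomputable def LB.Sec.pull {T S : Scheme.{0}} (f : T ⟶ S) {L : LB S} (t : L.Sec) :
    (L.pull f).Sec where
  s i := pb f _ (t.s i)
  compat i j := by
    have h := congrArg (pb f (L.U i ⊓ L.U j)) (t.compat i j)
    rw [map_mul, pb_res, pb_res] at h
    exact h

end Pool.Agent.Helper304.Ses
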