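import Pool.Agent.Helper304.Ses.Ma6

open AlgebraicGeometry CategoryTheory Limits TopologicalSpace

namespace Pool.Agent.Helper304.Ses

/-- TARGET -/
theorem neg_sec {X P P' B C : Scheme.{0}} (L : LB X) (f1 f2 : P' ⟶ X) (pm : P ⟶ P')
    (β : B ⟶ P) (N : LB B) (m n : ℕ) (hmn : 2 * n < m)
    [IsIntegral C] (h : C ⟶ B) (r : C ⟶ X)
    (h1 : h ≫ β ≫ pm ≫ f1 = r) (h2 : h ≫ β ≫ pm ≫ f2 = r)
    (v : ∀ (a : N.ι) (i : L.ι), Γ(C, h ⁻¹ᵁ N.U a ⊓ r ⁻¹ᵁ L.U i))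
    (hv : ∀ a i, IsUnit (v a i))
    (hvc : ∀ a b i j, ∀ (W : C.Opens) (hW : W ≤ h ⁻¹ᵁ N.U a ⊓ r ⁻¹ᵁ L.U i)
      (hW' : W ≤ h ⁻¹ᵁ N.U b ⊓ r ⁻¹ᵁ L.U j)
      (hWr : W ≤ r ⁻¹ᵁ (L.U i ⊓ L.U j)) (hWh : W ≤ h ⁻¹ᵁ (N.U a ⊓ N.U b)),
      res hW (v a i) * res hWr (pb r _ (L.g i j)) =
        res hWh (pb h _ (N.g a b)) * res hW' (v b j))
    (y : L.Sec) (hy : r (genericPoint C) ∈ y.nonvan) (x : C) (hx : r x ∉ y.nonvan) :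
    ∃ t : ((((((((L.pull f1).tensor (L.pull f2)).pull pm).pull β).pow n).tensor ((N.pow m).dual)).dual.pow 1).pull h).Sec,
      (∃ x, x ∈ t.nonvan) ∧ ∃ x, x ∉ t.nonvan := by
  set M := (((((((L.pull f1).tensor (L.pull f2)).pull pm).pull β).pow n).tensor ((N.pow m).dual)).dual.pow 1).pull h with hM
  have hO1 : ∀ X : (L.ι × L.ι) × N.ι, M.U X ≤ r ⁻¹ᵁ L.U X.1.1 := by
    intro X
    have e : M.U X ≤ (h ≫ β ≫ pm ≫ f1) ⁻¹ᵁ L.U X.1.1 :=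
      fun z hz => hz.1.1
    rw [h1] at e
    exact e
  have hO2 : ∀ X : (L.ι × L.ι) × N.ι, M.U X ≤ r ⁻¹ᵁ L.U X.1.2 := by
    intro X
    have e : M.U X ≤ (h ≫ β ≫ pm ≫ f2) ⁻¹ᵁ L.U X.1.2 :=
      fun z hz => hz.1.2
    rw [h2] at e
    exact e
  have hO3 : ∀ X : (L.ι × L.ι) × N.ι, M.U X ≤ h ⁻¹ᵁ N.U X.2 := by
    intro X
    exact fun z hz => hz.2
  have hg : ∀ X Y : (L.ι × L.ι) × N.ι,
      M.g X Y = (res (fun z hz => ⟨hO1 Y hz.2, hO1 X hz.1⟩ : M.U X ⊓ M.U Y ≤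
          r ⁻¹ᵁ (L.U Y.1.1 ⊓ L.U X.1.1)) (pb r _ (L.g Y.1.1 X.1.1)) *
        res (fun z hz => ⟨hO2 Y hz.2, hO2 X hz.1⟩ : M.U X ⊓ M.U Y ≤
          r ⁻¹ᵁ (L.U Y.1.2 ⊓ L.U X.1.2)) (pb r _ (L.g Y.1.2 X.1.2))) ^ n *
        res (fun z hz => ⟨hO3 X hz.1, hO3 Y hz.2⟩ : M.U X ⊓ M.U Y ≤
          h ⁻¹ᵁ (N.U X.2 ⊓ N.U Y.2)) (pb h _ (N.g X.2 Y.2)) ^ m := by
    intro X Y
    have c0 : M.U X ⊓ M.U Y ≤ h ⁻¹ᵁ (((((((L.pull f1).tensor (L.pull f2)).pull pm).pull β).pow n).tensor ((N.pow m).dual)).U Y ⊓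
        ((((((L.pull f1).tensor (L.pull f2)).pull pm).pull β).pow n).tensor ((N.pow m).dual)).U X) := fun z hz => ⟨hz.2, hz.1⟩
    have c1 : M.U X ⊓ M.U Y ≤ (h ≫ β) ⁻¹ᵁ ((((L.pull f1).tensor (L.pull f2)).pull pm).U Y.1 ⊓ (((L.pull f1).tensor (L.pull f2)).pull pm).U X.1) :=
      fun z hz => ⟨hz.2.1, hz.1.1⟩
    refine (no_nef_g1 h ((((((L.pull f1).tensor (L.pull f2)).pull pm).pull β).pow n).tensor ((N.pow m).dual)) X Y c0).trans ?_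
    refine (no_nef_g2 h β (((L.pull f1).tensor (L.pull f2)).pull pm) N m n X Y (M.U X ⊓ M.U Y) c0 c1
      (fun z hz => ⟨hO3 X hz.1, hO3 Y hz.2⟩)).trans ?_
    congr 2
    have c2 : M.U X ⊓ M.U Y ≤ ((h ≫ β) ≫ pm) ⁻¹ᵁ
        (((L.pull f1).tensor (L.pull f2)).U Y.1 ⊓ ((L.pull f1).tensor (L.pull f2)).U X.1) := c1
    refine (no_nef_pull (h ≫ β) pm ((L.pull f1).tensor (L.pull f2)) Y.1 X.1 _ c1 c2).trans ?_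
    exact no_nef_g3 ((h ≫ β) ≫ pm) f1 f2
      L r (by rw [← h1, Category.assoc, Category.assoc])
      (by rw [← h2, Category.assoc, Category.assoc]) Y.1 X.1 _ c2 _ _
  let tt : ∀ X : (L.ι × L.ι) × N.ι, Γ(C, M.U X) := fun X =>
    res (fun z hz => ⟨hO3 X hz, hO1 X hz⟩ : M.U X ≤ h ⁻¹ᵁ N.U X.2 ⊓ r ⁻¹ᵁ L.U X.1.1)
      (v X.2 X.1.1) ^ m *
    res (fun z hz => ⟨hO1 X hz, hO2 X hz⟩ : M.U X ≤ r ⁻¹ᵁ (L.U X.1.1 ⊓ L.U X.1.2))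
      (pb r (L.U X.1.1 ⊓ L.U X.1.2) (L.g X.1.1 X.1.2)) ^ n *
    res (hO1 X) (pb r _ (y.s X.1.1)) ^ (m - 2 * n)
  -- cocycle relation for `G` on an open set `W`
  have hG : ∀ (W : C.Opens) (i j k : L.ι) (a : W ≤ r ⁻¹ᵁ (L.U i ⊓ L.U j))
      (b : W ≤ r ⁻¹ᵁ (L.U j ⊓ L.U k)) (c : W ≤ r ⁻¹ᵁ (L.U i ⊓ L.U k)),
      res a (pb r _ (L.g i j)) * res b (pb r _ (L.g j k)) = res c (pb r _ (L.g i k)) := by
    intro W i j k a b c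
    have e := congrArg (fun z => res (fun z hz => ⟨a hz, (b hz).2⟩ :
      W ≤ r ⁻¹ᵁ (L.U i ⊓ L.U j ⊓ L.U k)) (pb r _ z)) (L.g_mul i j k)
    simp only [map_mul, pb_res, res_res] at e
    exact e
  have hG1 : ∀ (W : C.Opens) (i : L.ι) (a : W ≤ r ⁻¹ᵁ (L.U i ⊓ L.U i)),
      res a (pb r _ (L.g i i)) = 1 := by
    intro W i a
    rw [L.g_self, map_one, map_one]
  have hY : ∀ (W : C.Opens) (i j : L.ι) (a : W ≤ r ⁻¹ᵁ L.U i) (b : W ≤ r ⁻¹ᵁ L.U j)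
      (c : W ≤ r ⁻¹ᵁ (L.U i ⊓ L.U j)),
      res a (pb r _ (y.s i)) = res c (pb r _ (L.g i j)) * res b (pb r _ (y.s j)) := by
    intro W i j a b c
    have e := congrArg (fun z => res c (pb r _ z)) (y.compat i j)
    simp only [map_mul, pb_res, res_res] at e
    exact e
  have hcompat : ∀ X Y : (L.ι × L.ι) × N.ι, res inf_le_left (tt X) =
      M.g X Y * res inf_le_right (tt Y) := by
    intro X Y
    rw [hg]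
    simp only [tt, map_mul, map_pow, res_res]
    set W := M.U X ⊓ M.U Y with hWdef
    have w1 : W ≤ r ⁻¹ᵁ L.U X.1.1 := fun z hz => hO1 X hz.1
    have w2 : W ≤ r ⁻¹ᵁ L.U X.1.2 := fun z hz => hO2 X hz.1
    have w3 : W ≤ h ⁻¹ᵁ N.U X.2 := fun z hz => hO3 X hz.1
    have w4 : W ≤ r ⁻¹ᵁ L.U Y.1.1 := fun z hz => hO1 Y hz.2
    have w5 : W ≤ r ⁻¹ᵁ L.U Y.1.2 := fun z hz => hO2 Y hz.2
    have w6 : W ≤ h ⁻¹ᵁ N.U Y.2 := fun z hz => hO3 Y hz.2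
    have a1 := hvc X.2 Y.2 X.1.1 Y.1.1 W (fun z hz => ⟨w3 hz, w1 hz⟩) (fun z hz => ⟨w6 hz, w4 hz⟩)
      (fun z hz => ⟨w1 hz, w4 hz⟩) (fun z hz => ⟨w3 hz, w6 hz⟩)
    have a2 := hG W X.1.1 Y.1.1 X.1.1 (fun z hz => ⟨w1 hz, w4 hz⟩) (fun z hz => ⟨w4 hz, w1 hz⟩)
      (fun z hz => ⟨w1 hz, w1 hz⟩)
    rw [hG1] at a2
    have a3 := hG W X.1.1 Y.1.1 Y.1.2 (fun z hz => ⟨w1 hz, w4 hz⟩) (fun z hz => ⟨w4 hz, w5 hz⟩)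
      (fun z hz => ⟨w1 hz, w5 hz⟩)
    have a4 := hG W X.1.1 Y.1.2 X.1.2 (fun z hz => ⟨w1 hz, w5 hz⟩) (fun z hz => ⟨w5 hz, w2 hz⟩)
      (fun z hz => ⟨w1 hz, w2 hz⟩)
    rw [← a3] at a4
    have a5 := hY W X.1.1 Y.1.1 w1 w4 (fun z hz => ⟨w1 hz, w4 hz⟩)
    exact no_nef_alg m n hmn.le _ _ _ _ _ _ _ _ _ _ a1 a2 a4.symm a5
  let t : M.Sec := ⟨tt, hcompat⟩
  have hzero : x ∉ t.nonvan := by
    intro hxt
    refine hx ?_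
    unfold LB.Sec.nonvan at hxt
    rw [Opens.mem_iSup] at hxt
    obtain ⟨X, hX⟩ := hxt
    have hX1 : x ∈ C.basicOpen (tt X) := hX
    simp only [tt] at hX1
    rw [Scheme.basicOpen_mul] at hX1
    have hX2 := hX1.2
    rw [Scheme.basicOpen_pow _ _ (by omega), no_nef_bo_res, no_nef_bo_pb] at hX2
    unfold LB.Sec.nonvan
    rw [Opens.mem_iSup]
    exact ⟨X.1.1, hX2.2⟩
  obtain ⟨i, hi⟩ := L.cov (r (genericPoint C))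
  obtain ⟨a, ha⟩ := N.cov (h (genericPoint C))
  have hmem : genericPoint C ∈ M.U ((i, i), a) := by
    have e1 : genericPoint C ∈ r ⁻¹ᵁ L.U i := hi
    have e2 : genericPoint C ∈ (h ≫ β ≫ pm ≫ f1) ⁻¹ᵁ L.U i := by
      rw [h1]; exact e1
    have e3 : genericPoint C ∈ (h ≫ β ≫ pm ≫ f2) ⁻¹ᵁ L.U i := by
      rw [h2]; exact e1
    exact ⟨⟨e2, e3⟩, ha⟩
  have hb : genericPoint C ∈ C.basicOpen (tt ((i, i), a)) := by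
    simp only [tt]
    rw [Scheme.basicOpen_mul, Scheme.basicOpen_mul]
    refine ⟨⟨?_, ?_⟩, ?_⟩
    · rw [Scheme.basicOpen_of_isUnit _ (((hv a i).map _).pow m)]
      exact hmem
    · rw [L.g_self, map_one, map_one, one_pow, Scheme.basicOpen_of_isUnit _ isUnit_one]
      exact hmem
    · rw [Scheme.basicOpen_pow _ _ (by omega), no_nef_bo_res, no_nef_bo_pb]
      exact ⟨hmem, (mem_basicOpen_of_nonvan y _ i hi).1 hy⟩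
  refine ⟨t, ⟨genericPoint C, ?_⟩, ⟨x, hzero⟩⟩
  unfold LB.Sec.nonvan
  rw [Opens.mem_iSup]
  exact ⟨((i, i), a), hb⟩

end Pool.Agent.Helper304.Ses
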