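import Pool.Agent.Helper304.Ses.Defs

open AlgebraicGeometry CategoryTheory Limits TopologicalSpace

namespace Pool.Agent.Helper304.Ses

theorem dim_one_inc {C X : Scheme.{0}} (k : C ⟶ X) [IsFinite k] {a b : C} (hab : a ⤳ b)
    (hk : k a = k b) : a = b := by
  have hd := k.isDiscrete_preimage_singleton (k b)
  have hdt : DiscreteTopology ↥(k ⁻¹' {k b}) := hd.to_subtype
  let a' : ↥(k ⁻¹' {k b}) := ⟨a, hk⟩
  let b' : ↥(k ⁻¹' {k b}) := ⟨b, rfl⟩
  have h1 : a' ⤳ b' := (subtype_specializes_iff a' b').2 hab
  have h2 : a' = b' := h1.eq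
  exact congrArg Subtype.val h2

/-- TARGET -/
theorem dim_one {X X' C : Scheme.{0}} (p : X' ⟶ X) [IsFinite p] (j : C ⟶ X')
    [IsClosedImmersion j] [IsIntegral C] (η : X) (h : (j ≫ p) (genericPoint C) = η)
    (h1 : ∀ z : X, η ⤳ z → z = η ∨ IsClosed {z}) (h2 : ¬ IsClosed {η}) :
    topologicalKrullDim C = 1 := by
  obtain ⟨k, hk⟩ : ∃ k : C ⟶ X, k = j ≫ p := ⟨_, rfl⟩
  have hfin : IsFinite k := by
    rw [hk]
    infer_instance
  rw [← hk] at h
  have hcl : ∀ z : C, z ≠ genericPoint C → IsClosed {z} := by
    intro z hz
    have h3 : genericPoint C ⤳ z := genericPoint_specializes z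
    have h4 : η ⤳ k z := by
      rw [← h]
      exact h3.map k.continuous
    have h5 : IsClosed {k z} := by
      rcases h1 _ h4 with h5 | h5
      · exact absurd (dim_one_inc k h3 (h.trans h5.symm)).symm hz
      · exact h5
    rw [← closure_subset_iff_isClosed]
    intro z' hz'
    have h6 : z ⤳ z' := specializes_iff_mem_closure.2 hz'
    have h7 : k z ⤳ k z' := h6.map k.continuous
    have h8 : k z' ∈ closure {k z} := specializes_iff_mem_closure.1 h7
    rw [h5.closure_eq] at h8
    exact (dim_one_inc k h6 (Set.mem_singleton_iff.1 h8).symm).symm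
  apply le_antisymm
  · rw [topologicalKrullDim, Order.krullDim_le_one_iff]
    intro Z
    have hZi := Z.isIrreducible'
    have hZc := Z.isClosed'
    have hgen := hZi.closure_genericPoint hZc
    by_cases hz : hZi.genericPoint = genericPoint C
    · right
      intro W _
      have h3 : Z.carrier = Set.univ := by
        rw [← hgen, hz]
        exact genericPoint_closure C
      intro x _
      show x ∈ Z.carrier
      rw [h3]
      exact Set.mem_univ x
    · left
      intro W hW
      have h3 : Z.carrier = {hZi.genericPoint} := by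
        rw [← (hcl _ hz).closure_eq]
        exact hgen.symm
      intro x hx
      have hx' : x ∈ Z.carrier := hx
      rw [h3] at hx'
      obtain ⟨y, hy⟩ := W.isIrreducible'.nonempty
      have hyZ : y ∈ Z.carrier := hW hy
      rw [h3] at hyZ
      rw [Set.mem_singleton_iff] at hx' hyZ
      show x ∈ W.carrier
      rw [hx', ← hyZ]
      exact hy
  · rw [topologicalKrullDim, Order.one_le_krullDim_iff]
    have h3 : ∃ z', z' ∈ closure {η} ∧ z' ≠ η := by
      by_contra hcon
      push Not at hcon
      apply h2
      rw [← closure_subset_iff_isClosed]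
      intro z hz
      exact hcon z hz
    obtain ⟨z', hz', hne⟩ := h3
    have h4 : IsClosed (Set.range k) := k.isClosedMap.isClosed_range
    have h5 : closure {η} ⊆ Set.range k := by
      apply closure_minimal _ h4
      rintro _ rfl
      exact ⟨_, h⟩
    obtain ⟨z, rfl⟩ := h5 hz'
    have hzne : z ≠ genericPoint C := by
      intro hzz
      apply hne
      rw [hzz, h]
    refine ⟨⟨{z}, isIrreducible_singleton, hcl z hzne⟩,
      ⟨Set.univ, IrreducibleSpace.isIrreducible_univ C, isClosed_univ⟩, ?_⟩
    refine lt_of_le_of_ne ?_ ?_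
    · intro x _
      exact Set.mem_univ x
    · intro heq
      have h6 : ({z} : Set C) = Set.univ := congrArg IrreducibleCloseds.carrier heq
      have h7 : genericPoint C ∈ ({z} : Set C) := by
        rw [h6]
        exact Set.mem_univ _
      exact hzne (Set.mem_singleton_iff.1 h7).symm

end Pool.Agent.Helper304.Ses
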