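import Pool.Agent.Helper304.Ses.Pub
import Pool.Agent.Helper304.Ses.Ma10

open AlgebraicGeometry CategoryTheory Limits TopologicalSpace

namespace Pool.Agent.Helper304.Seshadri

/-- conversion of line bundles -/
noncomputable def toOld {S : Scheme.{0}} (L : LB S) : Ses.LB S where
  ι := L.I
  U := L.U
  cov := fun x => L.ok.1 x
  g := L.g
  g_self := L.ok.2.1
  g_mul := fun i j k => L.ok.2.2 i j k _ (Ses.inc12 _ _ _) (Ses.inc23 _ _ _) (Ses.inc13 _ _ _)

theorem old_ok {S : Scheme.{0}} (L : Ses.LB S) : IsCocycle (S := S) (I := L.ι) L.U L.g := by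
  refine ⟨L.cov, L.g_self, fun i j k W h1 h2 h3 => ?_⟩
  have e : ∀ (W : S.Opens) (h1 : W ≤ L.U i ⊓ L.U j) (h2 : W ≤ L.U j ⊓ L.U k)
      (h3 : W ≤ L.U i ⊓ L.U k),
      Ses.res h1 (L.g i j) * Ses.res h2 (L.g j k) = Ses.res h3 (L.g i k) := by
    intro W h1 h2 h3
    have hW : W ≤ L.U i ⊓ L.U j ⊓ L.U k := le_inf h1 (h2.trans inf_le_right)
    have a := congrArg (Ses.res hW) (L.g_mul i j k)
    simp only [map_mul, Ses.res_res] at a
    exact a
  exact e W h1 h2 h3

/-- conversion of line bundles -/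
noncomputable def toNew {S : Scheme.{0}} (L : Ses.LB S) : LB S where
  I := L.ι
  U := L.U
  g := L.g
  ok := old_ok L

theorem old_new {S : Scheme.{0}} (L : Ses.LB S) : toOld (toNew L) = L := rfl

/-- conversion of sections -/
noncomputable def secOld {S : Scheme.{0}} {L : LB S} (t : Sec L) : (toOld L).Sec where
  s := t.s
  compat := fun i j => t.ok i j _ (sub_refl _) (cap_left _ _) (cap_right _ _) |>.trans (by
    congr 1
    exact res_self _ _)

theorem sec_ok {S : Scheme.{0}} {L : LB S} (t : (toOld L).Sec) : IsSection L t.s := by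
  intro i j W h hi hj
  have e : ∀ (W : S.Opens) (h : W ≤ (toOld L).U i ⊓ (toOld L).U j) (hi : W ≤ (toOld L).U i)
      (hj : W ≤ (toOld L).U j),
      Ses.res hi (t.s i) = Ses.res h ((toOld L).g i j) * Ses.res hj (t.s j) := by
    intro W h hi hj
    have a := congrArg (Ses.res h) (t.compat i j)
    simp only [map_mul, Ses.res_res] at a
    exact a
  exact e W h hi hj

/-- conversion of sections -/
noncomputable def secNew {S : Scheme.{0}} {L : LB S} (t : (toOld L).Sec) : Sec L where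
  s := t.s
  ok := sec_ok t

theorem nonzeroAt_iff {S : Scheme.{0}} {L : LB S} (t : Sec L) (x : Pt S) :
    NonzeroAt t x ↔ (show (S : Type) from x) ∈ (secOld t).nonvan := by
  unfold Ses.LB.Sec.nonvan
  rw [Opens.mem_iSup]
  exact Iff.rfl

theorem nonzeroAt_iff' {S : Scheme.{0}} {L : LB S} (t : (toOld L).Sec) (x : Pt S) :
    NonzeroAt (secNew t) x ↔ (show (S : Type) from x) ∈ t.nonvan := by
  unfold Ses.LB.Sec.nonvan
  rw [Opens.mem_iSup]
  exact Iff.rfl

theorem old_tensor {S : Scheme.{0}} (L M : LB S) :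
    toOld (tensor L M) = (toOld L).tensor (toOld M) := rfl

theorem old_dual {S : Scheme.{0}} (L : LB S) : toOld (dual L) = (toOld L).dual := rfl

theorem old_pow {S : Scheme.{0}} (L : LB S) (n : ℕ) : toOld (pow L n) = (toOld L).pow n := rfl

theorem lb_ext {S : Scheme.{0}} (L M : Ses.LB S) (hι : L.ι = M.ι) (hU : HEq L.U M.U)
    (hg : HEq L.g M.g) : L = M := by
  cases L
  cases M
  simp only at hι
  subst hι
  simp only at hU
  have := eq_of_heq hU
  subst this
  simp only at hg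
  have := eq_of_heq hg
  subst this
  rfl

theorem pull_aux {T S : Scheme.{0}} (f : T ⟶ S) (U V : S.Opens)
    (h : f ⁻¹ᵁ U ⊓ f ⁻¹ᵁ V ≤ f ⁻¹ᵁ (U ⊓ V)) (x : Γ(T, f ⁻¹ᵁ (U ⊓ V))) :
    Ses.res h x = (show Γ(T, f ⁻¹ᵁ U ⊓ f ⁻¹ᵁ V) from x) :=
  Ses.res_self (U := f ⁻¹ᵁ (U ⊓ V)) x

theorem old_pull {T S : Scheme.{0}} (f : T ⟶ S) (L : LB S) :
    toOld (pull f L) = (toOld L).pull f := by
  refine lb_ext _ _ rfl HEq.rfl (heq_of_eq ?_)
  funext i j
  exact pull_aux f (L.U i) (L.U j) _ _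

theorem pull_pow_dual {T S : Scheme.{0}} (f : T ⟶ S) (L : Ses.LB S) (n : ℕ) :
    (L.pull f).dual.pow n = (L.dual.pow n).pull f := by
  refine lb_ext _ _ rfl HEq.rfl (heq_of_eq ?_)
  funext i j
  have h1 : Ses.pb f (L.U i ⊓ L.U j) ((Ses.res (Ses.incS (L.U i) (L.U j)) (L.g j i)) ^ n) =
      (Ses.res (f.preimage_mono (Ses.incS (L.U i) (L.U j)))
        (Ses.pb f (L.U j ⊓ L.U i) (L.g j i))) ^ n := by
    rw [map_pow, Ses.pb_res]
  exact h1.symm

theorem ideal_eq {Z S : Scheme.{0}} (j : Z ⟶ S) [IsClosedImmersion j] (V : S.affineOpens) :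
    j.ker.ideal V = RingHom.ker (j.app V).hom := by
  rw [Scheme.Hom.ker_apply]

/-- conversion of Cartier divisors -/
noncomputable def cartOld {Z S : Scheme.{0}} {j : Z ⟶ S} (E : Cartier j) : Ses.Cartier j where
  closed := E.closed
  N := toOld E.N
  one := secOld E.e
  ideal := fun i V h => by
    have := E.closed
    rw [ideal_eq]
    exact (E.ok i (V : S.Opens) h V.2).1
  regular := fun i V h => (E.ok i (V : S.Opens) h V.2).2

/-- conversion of Cartier divisors -/
noncomputable def cartNew {Z S : Scheme.{0}} {j : Z ⟶ S} (E : Ses.Cartier j) : Cartier j where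
  closed := E.closed
  N := toNew E.N
  e := secNew (L := toNew E.N) E.one
  ok := fun i V h hV => by
    have := E.closed
    have h1 := E.ideal i ⟨V, hV⟩ h
    rw [ideal_eq] at h1
    exact ⟨h1, E.regular i ⟨V, hV⟩ h⟩

theorem blowup_old {B V W : Scheme.{0}} {β : B ⟶ V} {i : W ⟶ V} (h : IsBlowup β i) :
    Ses.IsBlowup β i :=
  ⟨h.1.map cartOld, fun T f hf => h.2 T f (hf.map cartNew)⟩

theorem ample_new {S : Scheme.{0}} (L : Ses.LB S) (h : L.IsAmple) : IsAmple (toNew L) := by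
  intro x
  obtain ⟨n, hn, t, h1, h2⟩ := h x
  have e : toOld (pow (toNew L) n) = L.pow n := rfl
  refine ⟨n, hn, secNew (L := pow (toNew L) n) t, t.nonvan, h2, h1, fun y => ?_⟩
  exact (nonzeroAt_iff' (L := pow (toNew L) n) t y).symm

theorem cover_old {X X' : Scheme.{0}} {p : X' ⟶ X} (h : IsCover p) : Ses.IsCover p :=
  ⟨h.finite, h.etale, h.connected⟩

theorem cover_new {X X' : Scheme.{0}} {p : X' ⟶ X} (h : Ses.IsCover p) : IsCover p :=
  ⟨h.finite, h.etale, h.connected⟩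

theorem large_new {X : Scheme.{0}} {s : X ⟶ SpecC} (h : Ses.HasLargeAlgPi1 s) :
    HasLargeAlgPi1 s := by
  intro Z f h1 h2 h3
  obtain ⟨X', p, hp, hg⟩ := h Z f h1 h2 h3
  exact ⟨X', p, cover_new hp, hg⟩

end Pool.Agent.Helper304.Seshadri
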