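import Pool.Agent.Helper304.Ses.Ms1

open MvPolynomial AlgebraicGeometry CategoryTheory Limits TopologicalSpace
open Pool.Agent.Helper198.Sch

namespace Pool.Agent.Helper304.Ses

attribute [local instance] MvPolynomial.gradedAlgebra

variable {σ : Type} (J : HI σ ℂ)

/-- The line bundle `O(1)` on `V_+(J)`, on a covering by charts `D J (e i)`. -/
noncomputable def O1 {I : Type} (e : I → σ) (he : ∀ x : V J, ∃ i, x ∈ V.D J (e i)) :
    LB (V J) where
  ι := I
  U i := V.D J (e i)
  cov := he
  g i j := res inf_le_left (secD J (e i) (frac J (e i) (e j)))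
  g_self i := by
    rw [frac_self, map_one, map_one]
  g_mul i j k := by
    rw [res_res, res_res, res_res]
    have h := secD_trans J (e i) (e j) (e k) (V.D J (e i) ⊓ V.D J (e j) ⊓ V.D J (e k))
      (inf_le_left.trans inf_le_left) (inf_le_left.trans inf_le_right)
    exact h.symm

/-- The coordinate `X a` as a section of `O(1)`. -/
noncomputable def coord {I : Type} (e : I → σ) (he : ∀ x : V J, ∃ i, x ∈ V.D J (e i)) (a : σ) :
    (O1 J e he).Sec where
  s i := secD J (e i) (frac J (e i) a)
  compat i j := secD_trans J (e i) (e j) a _ _ _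

end Pool.Agent.Helper304.Ses
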