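import Pool.Agent.Helper304.Ses.Md1
import Pool.Agent.Helper304.Ses.Oone

open MvPolynomial AlgebraicGeometry CategoryTheory Limits TopologicalSpace
open Pool.Agent.Helper198.Sch

namespace Pool.Agent.Helper304.Ses

attribute [local instance] MvPolynomial.gradedAlgebra

/-- the four charts of the surface used below -/
def eX : Fin 2 × Fin 2 → IX := fun q => some (q.1.castSucc, q.2.castSucc)

theorem XS_cover (P : XS) : ∃ q : Fin 2 × Fin 2, P ∈ V.D JS (eX q) := XS_cover0 P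

theorem XS_chart00 : ∃ e : Ch JS (some (0, 0)) ≃ₐ[ℂ] BS 1 2 2 (-1),
      e (frac JS (some (0, 0)) (some (1, 0))) = bx 1 2 2 (-1) 0 ∧
      e (frac JS (some (0, 0)) (some (2, 0))) = bx 1 2 2 (-1) 1 ∧
      e (frac JS (some (0, 0)) (some (0, 1))) = bx 1 2 2 (-1) 2 ∧
      e (frac JS (some (0, 0)) (some (0, 2))) = bx 1 2 2 (-1) 3 ∧
      e (frac JS (some (0, 0)) none) = bx 1 2 2 (-1) 4 :=
  XS_chart 0 0 1 1 1 2 2 (-1) (Or.inl ⟨rfl, rfl, rfl, rfl, rfl, rfl, rfl, rfl⟩)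

end Pool.Agent.Helper304.Ses
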