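import Mathlib

/-!
Line bundles given by transition functions, effective Cartier divisors, blow-ups, nef line
bundles and Seshadri numbers.  Everything over the complex numbers.
-/

open AlgebraicGeometry CategoryTheory Limits TopologicalSpace

namespace Pool.Agent.Helper304.Ses

/-- The spectrum of the complex numbers. -/
noncomputable abbrev SpecC : Scheme.{0} := Spec (.of ℂ)

/-- Restriction of functions from an open set `U` to a smaller open set `V`. -/
noncomputable def res {S : Scheme.{0}} {U V : S.Opens} (h : V ≤ U) : Γ(S, U) →+* Γ(S, V) :=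
  (S.presheaf.map (homOfLE h).op).hom

/-- Pull back of functions along a morphism of schemes. -/
noncomputable def pb {T S : Scheme.{0}} (f : T ⟶ S) (U : S.Opens) : Γ(S, U) →+* Γ(T, f ⁻¹ᵁ U) :=
  (f.app U).hom

lemma res_res {S : Scheme.{0}} {U V W : S.Opens} (h : V ≤ U) (h' : W ≤ V) (x : Γ(S, U)) :
    res h' (res h x) = res (h'.trans h) x := by
  unfold res
  rw [← CommRingCat.comp_apply, ← S.presheaf.map_comp]
  rfl

lemma res_self {S : Scheme.{0}} {U : S.Opens} (x : Γ(S, U)) : res (le_refl U) x = x := by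
  unfold res
  rw [Subsingleton.elim (homOfLE (le_refl U)).op (𝟙 (Opposite.op U)), S.presheaf.map_id]
  rfl

lemma pb_res {T S : Scheme.{0}} (f : T ⟶ S) {U V : S.Opens} (h : V ≤ U) (x : Γ(S, U)) :
    pb f V (res h x) = res (f.preimage_mono h) (pb f U x) := by
  unfold pb res
  rw [← CommRingCat.comp_apply, ← CommRingCat.comp_apply, f.naturality]
  rfl

theorem inc12 {S : Scheme.{0}} (U V W : S.Opens) : U ⊓ V ⊓ W ≤ U ⊓ V :=
  le_inf (inf_le_left.trans inf_le_left) (inf_le_left.trans inf_le_right)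

theorem inc23 {S : Scheme.{0}} (U V W : S.Opens) : U ⊓ V ⊓ W ≤ V ⊓ W :=
  le_inf (inf_le_left.trans inf_le_right) inf_le_right

theorem inc13 {S : Scheme.{0}} (U V W : S.Opens) : U ⊓ V ⊓ W ≤ U ⊓ W :=
  le_inf (inf_le_left.trans inf_le_left) inf_le_right

theorem incL {S : Scheme.{0}} (U V U' V' : S.Opens) : (U ⊓ V) ⊓ (U' ⊓ V') ≤ U ⊓ U' :=
  inf_le_inf inf_le_left inf_le_left

theorem incR {S : Scheme.{0}} (U V U' V' : S.Opens) : (U ⊓ V) ⊓ (U' ⊓ V') ≤ V ⊓ V' :=
  inf_le_inf inf_le_right inf_le_right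

theorem incS {S : Scheme.{0}} (U V : S.Opens) : U ⊓ V ≤ V ⊓ U :=
  le_inf inf_le_right inf_le_left

/-- A line bundle on the scheme `S`, given by an open covering `U i` and transition functions
`g i j` on `U i ⊓ U j` which satisfy the cocycle condition. -/
structure LB (S : Scheme.{0}) where
  /-- index set of the covering -/
  ι : Type
  /-- the open sets of the covering -/
  U : ι → S.Opens
  cov : ∀ x : S, ∃ i, x ∈ U i
  /-- the transition functions -/
  g : ∀ i j, Γ(S, U i ⊓ U j)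
  g_self : ∀ i, g i i = 1
  g_mul : ∀ i j k, res (inc12 (U i) (U j) (U k)) (g i j) * res (inc23 (U i) (U j) (U k)) (g j k) =
    res (inc13 (U i) (U j) (U k)) (g i k)

/-- A global section of the line bundle `L`: functions `s i` on the sets `U i` with
`s i = g i j * s j` on `U i ⊓ U j`. -/
structure LB.Sec {S : Scheme.{0}} (L : LB S) where
  /-- the local functions -/
  s : ∀ i, Γ(S, L.U i)
  compat : ∀ i j, res inf_le_left (s i) = L.g i j * res inf_le_right (s j)

/-- The open set on which the section `t` does not vanish. -/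
noncomputable def LB.Sec.nonvan {S : Scheme.{0}} {L : LB S} (t : L.Sec) : S.Opens :=
  ⨆ i, S.basicOpen (t.s i)

theorem LB.tensor_cov {S : Scheme.{0}} (L M : LB S) (x : S) :
    ∃ i : L.ι × M.ι, x ∈ L.U i.1 ⊓ M.U i.2 := by
  obtain ⟨i, hi⟩ := L.cov x
  obtain ⟨j, hj⟩ := M.cov x
  exact ⟨(i, j), hi, hj⟩

/-- transition functions of the tensor product -/
noncomputable def LB.tensorG {S : Scheme.{0}} (L M : LB S) (i j : L.ι × M.ι) :
    Γ(S, (L.U i.1 ⊓ M.U i.2) ⊓ (L.U j.1 ⊓ M.U j.2)) :=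
  res (incL (L.U i.1) (M.U i.2) (L.U j.1) (M.U j.2)) (L.g i.1 j.1) *
    res (incR (L.U i.1) (M.U i.2) (L.U j.1) (M.U j.2)) (M.g i.2 j.2)

theorem LB.tensor_self {S : Scheme.{0}} (L M : LB S) (i : L.ι × M.ι) :
    L.tensorG M i i = 1 := by
  unfold LB.tensorG
  rw [L.g_self, M.g_self, map_one, map_one, one_mul]

theorem LB.tensor_mul {S : Scheme.{0}} (L M : LB S) (i j k : L.ι × M.ι) :
    res (inc12 (L.U i.1 ⊓ M.U i.2) (L.U j.1 ⊓ M.U j.2) (L.U k.1 ⊓ M.U k.2)) (L.tensorG M i j) *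
      res (inc23 (L.U i.1 ⊓ M.U i.2) (L.U j.1 ⊓ M.U j.2) (L.U k.1 ⊓ M.U k.2)) (L.tensorG M j k) =
    res (inc13 (L.U i.1 ⊓ M.U i.2) (L.U j.1 ⊓ M.U j.2) (L.U k.1 ⊓ M.U k.2))
      (L.tensorG M i k) := by
  unfold LB.tensorG
  simp only [map_mul, res_res]
  have h1 := congrArg (res (inf_le_inf (inf_le_inf inf_le_left inf_le_left) inf_le_left :
    (L.U i.1 ⊓ M.U i.2) ⊓ (L.U j.1 ⊓ M.U j.2) ⊓ (L.U k.1 ⊓ M.U k.2) ≤
      L.U i.1 ⊓ L.U j.1 ⊓ L.U k.1)) (L.g_mul i.1 j.1 k.1)
  have h2 := congrArg (res (inf_le_inf (inf_le_inf inf_le_right inf_le_right) inf_le_right :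
    (L.U i.1 ⊓ M.U i.2) ⊓ (L.U j.1 ⊓ M.U j.2) ⊓ (L.U k.1 ⊓ M.U k.2) ≤
      M.U i.2 ⊓ M.U j.2 ⊓ M.U k.2)) (M.g_mul i.2 j.2 k.2)
  simp only [map_mul, res_res] at h1 h2
  rw [← h1, ← h2]
  ring

/-- The tensor product of two line bundles. -/
noncomputable def LB.tensor {S : Scheme.{0}} (L M : LB S) : LB S where
  ι := L.ι × M.ι
  U i := L.U i.1 ⊓ M.U i.2
  cov := L.tensor_cov M
  g := L.tensorG M
  g_self := L.tensor_self M
  g_mul := L.tensor_mul M

theorem LB.dual_self {S : Scheme.{0}} (L : LB S) (i : L.ι) :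
    res (incS (L.U i) (L.U i)) (L.g i i) = 1 := by
  rw [L.g_self, map_one]

theorem LB.dual_mul {S : Scheme.{0}} (L : LB S) (i j k : L.ι) :
    res (inc12 (L.U i) (L.U j) (L.U k)) (res (incS (L.U i) (L.U j)) (L.g j i)) *
      res (inc23 (L.U i) (L.U j) (L.U k)) (res (incS (L.U j) (L.U k)) (L.g k j)) =
    res (inc13 (L.U i) (L.U j) (L.U k)) (res (incS (L.U i) (L.U k)) (L.g k i)) := by
  simp only [res_res]
  have h1 := congrArg (res (le_inf (le_inf inf_le_right (inf_le_left.trans inf_le_right))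
    (inf_le_left.trans inf_le_left) : L.U i ⊓ L.U j ⊓ L.U k ≤
      L.U k ⊓ L.U j ⊓ L.U i)) (L.g_mul k j i)
  simp only [map_mul, res_res] at h1
  rw [← h1]
  ring

/-- The dual of a line bundle. -/
noncomputable def LB.dual {S : Scheme.{0}} (L : LB S) : LB S where
  ι := L.ι
  U := L.U
  cov := L.cov
  g i j := res (incS (L.U i) (L.U j)) (L.g j i)
  g_self := L.dual_self
  g_mul := L.dual_mul

theorem LB.pow_self {S : Scheme.{0}} (L : LB S) (n : ℕ) (i : L.ι) : (L.g i i) ^ n = 1 := by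
  rw [L.g_self, one_pow]

theorem LB.pow_mul {S : Scheme.{0}} (L : LB S) (n : ℕ) (i j k : L.ι) :
    res (inc12 (L.U i) (L.U j) (L.U k)) (L.g i j ^ n) *
      res (inc23 (L.U i) (L.U j) (L.U k)) (L.g j k ^ n) =
    res (inc13 (L.U i) (L.U j) (L.U k)) (L.g i k ^ n) := by
  rw [map_pow, map_pow, map_pow, ← mul_pow, L.g_mul]

/-- The `n`-th tensor power of a line bundle, `n ≥ 0`. -/
noncomputable def LB.pow {S : Scheme.{0}} (L : LB S) (n : ℕ) : LB S where
  ι := L.ι
  U := L.U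
  cov := L.cov
  g i j := (L.g i j) ^ n
  g_self := L.pow_self n
  g_mul := L.pow_mul n

theorem LB.pull_self {T S : Scheme.{0}} (f : T ⟶ S) (L : LB S) (i : L.ι) :
    pb f (L.U i ⊓ L.U i) (L.g i i) = 1 := by
  rw [L.g_self]
  exact map_one _

theorem LB.pull_mul {T S : Scheme.{0}} (f : T ⟶ S) (L : LB S) (i j k : L.ι) :
    res (inc12 (f ⁻¹ᵁ (L.U i)) (f ⁻¹ᵁ (L.U j)) (f ⁻¹ᵁ (L.U k))) (pb f (L.U i ⊓ L.U j) (L.g i j)) *
      res (inc23 (f ⁻¹ᵁ (L.U i)) (f ⁻¹ᵁ (L.U j)) (f ⁻¹ᵁ (L.U k)))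
        (pb f (L.U j ⊓ L.U k) (L.g j k)) =
    res (inc13 (f ⁻¹ᵁ (L.U i)) (f ⁻¹ᵁ (L.U j)) (f ⁻¹ᵁ (L.U k)))
      (pb f (L.U i ⊓ L.U k) (L.g i k)) := by
  have h1 := congrArg (pb f (L.U i ⊓ L.U j ⊓ L.U k)) (L.g_mul i j k)
  rw [map_mul, pb_res, pb_res, pb_res] at h1
  exact h1

/-- The pull back of a line bundle along a morphism. -/
noncomputable def LB.pull {T S : Scheme.{0}} (f : T ⟶ S) (L : LB S) : LB T where
  ι := L.ι
  U i := f ⁻¹ᵁ (L.U i)
  cov x := L.cov (f x)
  g i j := pb f (L.U i ⊓ L.U j) (L.g i j)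
  g_self := LB.pull_self f L
  g_mul := LB.pull_mul f L

/-- The line bundle `L` on the (quasi-compact) scheme `S` is ample: every point has a
neighbourhood which is affine and is the non-vanishing set of a section of a positive power
of `L`. -/
def LB.IsAmple {S : Scheme.{0}} (L : LB S) : Prop :=
  ∀ x : S, ∃ n : ℕ, 1 ≤ n ∧ ∃ t : (L.pow n).Sec, x ∈ t.nonvan ∧ IsAffineOpen t.nonvan

/-- `j : Z ⟶ S` is (the inclusion of) an effective Cartier divisor with line bundle `N = O(Z)`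
and canonical section `one`: a closed immersion whose ideal is generated on `N.U i` by the
function `one.s i`, which is not a zero divisor. -/
structure Cartier {Z S : Scheme.{0}} (j : Z ⟶ S) where
  closed : IsClosedImmersion j
  /-- the line bundle `O(Z)` -/
  N : LB S
  /-- the canonical section of `O(Z)`, with zero scheme `Z` -/
  one : N.Sec
  ideal : ∀ (i : N.ι) (V : S.affineOpens) (h : (V : S.Opens) ≤ N.U i),
    j.ker.ideal V = Ideal.span {res h (one.s i)}
  regular : ∀ (i : N.ι) (V : S.affineOpens) (h : (V : S.Opens) ≤ N.U i),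
    res h (one.s i) ∈ nonZeroDivisors Γ(S, V)

/-- `β : B ⟶ V` is the blow-up of `V` along the closed subscheme `i : W ⟶ V`: the inverse image
of `W` in `B` is an effective Cartier divisor, and every morphism `f : T ⟶ V` for which
the inverse image of `W` is an effective Cartier divisor factors uniquely through `β`. -/
def IsBlowup {B V W : Scheme.{0}} (β : B ⟶ V) (i : W ⟶ V) : Prop :=
  Nonempty (Cartier (pullback.snd i β)) ∧
    ∀ (T : Scheme.{0}) (f : T ⟶ V), Nonempty (Cartier (pullback.snd i f)) →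
      ∃! g : T ⟶ B, g ≫ β = f

/-- The line bundle `D` on the proper complex scheme `V` is nef: for no integral proper complex
scheme `C` with a morphism `h : C ⟶ V` and no `n ≥ 1` the line bundle `h^* D^{-n}` has a
non-zero section with a zero.  (For an integral curve `C` this means `deg (D | C) ≥ 0`.) -/
def IsNef {V : Scheme.{0}} (sV : V ⟶ SpecC) (D : LB V) : Prop :=
  ∀ (C : Scheme.{0}) (h : C ⟶ V), IsIntegral C → IsProper (h ≫ sV) →
    ∀ n : ℕ, 1 ≤ n → ∀ t : ((D.dual.pow n).pull h).Sec, (∃ x : C, x ∉ t.nonvan) →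
      ∀ i, t.s i = 0

/-- The Seshadri number of the line bundle `M` on `V` along `i : W ⟶ V`: the supremum of all
`m / n`, where `m, n` are natural numbers, `n ≥ 1`, such that the line bundle
`β^* M^n ⊗ O(-m E)` on the blow-up `β : B ⟶ V` of `W` is nef. -/
noncomputable def seshadri {V W : Scheme.{0}} (sV : V ⟶ SpecC) (M : LB V) (i : W ⟶ V) :
    ENNReal :=
  ⨆ (B : Scheme.{0}) (β : B ⟶ V) (_ : IsBlowup β i) (E : Cartier (pullback.snd i β))
    (m : ℕ) (n : ℕ) (_ : 1 ≤ n)
    (_ : IsNef (β ≫ sV) (((M.pull β).pow n).tensor ((E.N.pow m).dual))), (m / n : ENNReal)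

/-- For a morphism `p : X' ⟶ X` of complex schemes and a line bundle `L` on `X`: the line bundle
`(p × p)^* (p₁^* L ⊗ p₂^* L)` on `X' × X'`. -/
noncomputable def Mp {X X' : Scheme.{0}} (s : X ⟶ SpecC) (L : LB X) (p : X' ⟶ X) :
    LB (pullback (p ≫ s) (p ≫ s)) :=
  (L.pull (pullback.fst (p ≫ s) (p ≫ s) ≫ p)).tensor
    (L.pull (pullback.snd (p ≫ s) (p ≫ s) ≫ p))

/-- `ε(M_p; D')`: the Seshadri number of `M_p` along the diagonal of `X' × X'`. -/
noncomputable def epsDiag {X X' : Scheme.{0}} (s : X ⟶ SpecC) (L : LB X) (p : X' ⟶ X) : ENNReal :=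
  seshadri (pullback.fst (p ≫ s) (p ≫ s) ≫ p ≫ s) (Mp s L p) (pullback.diagonal (p ≫ s))

/-- `p : X' ⟶ X` is a connected finite étale covering. -/
structure IsCover {X X' : Scheme.{0}} (p : X' ⟶ X) : Prop where
  finite : IsFinite p
  etale : Etale p
  connected : ConnectedSpace X'

/-- The algebraic fundamental group of `X` is large: the algebraic universal cover of `X`
contains no complete subvariety of positive dimension.  That is: a non-constant morphism
`h : Z ⟶ X` from an integral proper complex scheme `Z` does not lift to all connected finite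
étale coverings of `X`. -/
def HasLargeAlgPi1 {X : Scheme.{0}} (s : X ⟶ SpecC) : Prop :=
  ∀ (Z : Scheme.{0}) (h : Z ⟶ X), IsIntegral Z → IsProper (h ≫ s) → (∃ a b : Z, h a ≠ h b) →
    ∃ (X' : Scheme.{0}) (p : X' ⟶ X), IsCover p ∧ ¬ ∃ g : Z ⟶ X', g ≫ p = h

/-- The complex constants as functions on an open subset of a complex scheme. -/
noncomputable def cst {X : Scheme.{0}} (s : X ⟶ SpecC) (U : X.Opens) : ℂ →+* Γ(X, U) :=
  ((Scheme.ΓSpecIso (.of ℂ)).inv ≫ s.appTop ≫ X.presheaf.map (homOfLE (le_top : U ≤ ⊤)).op).hom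

/-- the inclusion of the closed subscheme of fixed points of `σ` -/
noncomputable def fixι {X : Scheme.{0}} (s : X ⟶ SpecC) (σ : X ⟶ X) (hσ : σ ≫ s = s) :
    pullback (pullback.diagonal s) (pullback.lift (𝟙 X) σ (by rw [hσ, Category.id_comp])) ⟶ X :=
  pullback.snd _ _

end Pool.Agent.Helper304.Ses
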