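import Mathlib

/-! Affine coordinate rings of the curve and of the surface. -/

open MvPolynomial

namespace Pool.Agent.Helper304.Ses

/-- equation of the affine Fermat cubic -/
noncomputable def relA : MvPolynomial (Fin 2) ℂ := 1 + X 0 ^ 3 + X 1 ^ 3

/-- coordinate ring of the affine Fermat cubic `1 + x³ + z³ = 0` -/
abbrev AE : Type := MvPolynomial (Fin 2) ℂ ⧸ Ideal.span {relA}

noncomputable def ax : AE := Ideal.Quotient.mk _ (X 0)
noncomputable def az : AE := Ideal.Quotient.mk _ (X 1)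

/-- the parameters `q = al + be y² + ga x² + de x² y²` are in general position -/
structure Good (al be ga de : ℂ) : Prop where
  hal : al ≠ 0
  hbe : be ≠ 0
  hga : ga ≠ 0
  hde : de ≠ 0
  det : al * de ≠ be * ga
  h1 : ∀ t : ℂ, t ^ 3 = 1 → al + be * t ≠ 0
  h2 : ∀ t : ℂ, t ^ 3 = 1 → ga + de * t ≠ 0
  h3 : ∀ t : ℂ, t ^ 3 = 1 → al + ga * t ≠ 0
  h4 : ∀ t : ℂ, t ^ 3 = 1 → be + de * t ≠ 0
  h5 : ∀ s t : ℂ, s ^ 3 = 1 → t ^ 3 = 1 → al + be * t + ga * s + de * s * t ≠ 0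

/-- the three equations of the affine surface, in the variables
`x = X 0, z = X 1, y = X 2, v = X 3, w = X 4` -/
noncomputable def relB (al be ga de : ℂ) : Fin 3 → MvPolynomial (Fin 5) ℂ :=
  ![1 + X 0 ^ 3 + X 1 ^ 3, 1 + X 2 ^ 3 + X 3 ^ 3,
    X 4 ^ 2 - (C al + C be * X 2 ^ 2 + C ga * X 0 ^ 2 + C de * X 0 ^ 2 * X 2 ^ 2)]

/-- coordinate ring of the affine surface -/
abbrev BS (al be ga de : ℂ) : Type :=
  MvPolynomial (Fin 5) ℂ ⧸ Ideal.span (Set.range (relB al be ga de))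

/-- the coordinate functions -/
noncomputable def bx (al be ga de : ℂ) (i : Fin 5) : BS al be ga de := Ideal.Quotient.mk _ (X i)

end Pool.Agent.Helper304.Ses
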