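import Pool.Agent.Helper198.SchE
import Pool.Agent.Helper304.Ses.Defs
import Pool.Agent.Helper304.Ses.Rings

/-! The example: the Fermat cubic `E` and the double covering `XS` of `E × E`. -/

open MvPolynomial AlgebraicGeometry CategoryTheory Limits TopologicalSpace
open Pool.Agent.Helper198.Sch

namespace Pool.Agent.Helper304.Ses

attribute [local instance] MvPolynomial.gradedAlgebra

/-! ### The curve -/

/-- the equation of the Fermat cubic -/
noncomputable def fE : MvPolynomial (Fin 3) ℂ := X 0 ^ 3 + X 1 ^ 3 + X 2 ^ 3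

lemma fE_hom : fE.IsHomogeneous 3 := by
  unfold fE
  exact ((isHomogeneous_X_pow 0 3).add (isHomogeneous_X_pow 1 3)).add (isHomogeneous_X_pow 2 3)

/-- the homogeneous ideal of the Fermat cubic -/
noncomputable def JE : HI (Fin 3) ℂ := HI.ofSet {fE} (by
  rintro f rfl
  exact ⟨3, fE_hom⟩)

/-- the Fermat cubic `x₀³ + x₁³ + x₂³ = 0` in the projective plane -/
noncomputable abbrev E : Scheme.{0} := V JE

/-- its structure morphism -/
noncomputable abbrev sE : E ⟶ SpecC := V.str JE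

/-! ### The surface -/

/-- The index set of the coordinates `U_ab = x_a y_b` (`some (a, b)`) and `w` (`none`) of `P^9`. -/
abbrev IX := Option (Fin 3 × Fin 3)

/-- the coordinate `U_ab` -/
noncomputable def UX (a b : Fin 3) : MvPolynomial IX ℂ := X (some (a, b))

/-- the quadratic form `q` -/
noncomputable def qX : MvPolynomial IX ℂ :=
  UX 0 0 ^ 2 + 2 * UX 0 1 ^ 2 + 2 * UX 1 0 ^ 2 - UX 1 1 ^ 2

/-- the equations of the surface -/
def setS : Set (MvPolynomial IX ℂ) :=
  {f | ∃ a b c d, f = UX a b * UX c d - UX a d * UX c b} ∪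
  {f | ∃ b, f = UX 0 b ^ 3 + UX 1 b ^ 3 + UX 2 b ^ 3} ∪
  {f | ∃ a, f = UX a 0 ^ 3 + UX a 1 ^ 3 + UX a 2 ^ 3} ∪
  {X none ^ 2 - qX}

lemma setS_hom : ∀ f ∈ setS, ∃ n, f.IsHomogeneous n := by
  rintro f (((⟨a, b, c, d, rfl⟩ | ⟨b, rfl⟩) | ⟨a, rfl⟩) | rfl)
  · exact ⟨2, ((isHomogeneous_X _ _).mul (isHomogeneous_X _ _)).sub
      ((isHomogeneous_X _ _).mul (isHomogeneous_X _ _))⟩
  · exact ⟨3, ((isHomogeneous_X_pow _ 3).add (isHomogeneous_X_pow _ 3)).add
      (isHomogeneous_X_pow _ 3)⟩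
  · exact ⟨3, ((isHomogeneous_X_pow _ 3).add (isHomogeneous_X_pow _ 3)).add
      (isHomogeneous_X_pow _ 3)⟩
  · refine ⟨2, (isHomogeneous_X_pow _ 2).sub ?_⟩
    unfold qX UX
    have h2 : (2 : MvPolynomial IX ℂ).IsHomogeneous 0 := isHomogeneous_C _ (2 : ℂ)
    have h3 : ∀ i : IX, (2 * X i ^ 2 : MvPolynomial IX ℂ).IsHomogeneous 2 := fun i => by
      have := h2.mul (isHomogeneous_X_pow (R := ℂ) i 2)
      simpa using this
    exact (((isHomogeneous_X_pow _ 2).add (h3 _)).add (h3 _)).sub (isHomogeneous_X_pow _ 2)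

/-- the homogeneous ideal of the surface -/
noncomputable def JS : HI IX ℂ := HI.ofSet setS setS_hom

/-- the surface -/
noncomputable abbrev XS : Scheme.{0} := V JS

/-- its structure morphism -/
noncomputable abbrev sX : XS ⟶ SpecC := V.str JS

end Pool.Agent.Helper304.Ses
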