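import Pool.Agent.Helper304.Ses.Conv

open AlgebraicGeometry CategoryTheory Limits TopologicalSpace

namespace Pool.Agent.Helper304.Seshadri

theorem prodMap_fst {X X' : Scheme.{0}} (s : X ⟶ SpecC) (p : X' ⟶ X) :
    prodMap s p ≫ pullback.fst s s = pullback.fst (p ≫ s) (p ≫ s) ≫ p := by
  unfold prodMap
  exact pullback.lift_fst _ _ _

theorem prodMap_snd {X X' : Scheme.{0}} (s : X ⟶ SpecC) (p : X' ⟶ X) :
    prodMap s p ≫ pullback.snd s s = pullback.snd (p ≫ s) (p ≫ s) ≫ p := by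
  unfold prodMap
  exact pullback.lift_snd _ _ _

theorem old_Mp {X X' : Scheme.{0}} (s : X ⟶ Ses.SpecC) (L : Ses.LB X) (p : X' ⟶ X) :
    toOld (Mp s (toNew L) p) = ((L.pull (pullback.fst s s)).tensor
      (L.pull (pullback.snd s s))).pull (prodMap s p) := by
  have e1 : toOld (pull (pullback.fst s s) (toNew L)) = L.pull (pullback.fst s s) :=
    old_pull _ (toNew L)
  have e2 : toOld (pull (pullback.snd s s) (toNew L)) = L.pull (pullback.snd s s) :=
    old_pull _ (toNew L)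
  exact (old_pull _ _).trans
    (congrArg (Ses.LB.pull (prodMap s p)) (congrArg₂ Ses.LB.tensor e1 e2))

theorem old_twist {B V : Scheme.{0}} (β : B ⟶ V) (M : LB V) (N : LB B) (m n : ℕ) :
    toOld (twist β M N m n) = (((toOld M).pull β).pow n).tensor (((toOld N).pow m).dual) := by
  have e : toOld (twist β M N m n) =
      ((toOld (pull β M)).pow n).tensor (((toOld N).pow m).dual) := rfl
  rw [e, old_pull]

theorem key_eq {V B : Scheme.{0}} (β : B ⟶ V) (M : LB V) (N : LB B) (m n : ℕ) {C : Scheme.{0}}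
    (h : C ⟶ B) (M' : Ses.LB V) (hM : toOld M = M') :
    toOld (pow (dual (pull h (twist β M N m n))) 1) =
    (((((M'.pull β).pow n).tensor (((toOld N).pow m).dual)).dual.pow 1).pull h) := by
  have e1 : toOld (pow (dual (pull h (twist β M N m n))) 1) =
      ((toOld (pull h (twist β M N m n))).dual.pow 1) := rfl
  rw [e1, old_pull, pull_pow_dual, old_twist, hM]

theorem new_upper {X : Scheme.{0}} (s : X ⟶ Ses.SpecC) [IsIntegral X] [IsProper s] (σ : X ⟶ X)
    (hσ : σ ≫ s = s) (F : Ses.Cartier (Ses.fixι s σ hσ)) (y y2 : F.N.Sec) (η : X)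
    (hw : η ∉ F.one.nonvan) (hy : η ∈ y.nonvan)
    (i0 : F.N.ι) (hi0 : η ∈ F.N.U i0)
    (hyc : ∀ c : ℂ, η ∈ X.basicOpen (y2.s i0 - Ses.cst s _ c * y.s i0))
    (hspec : ∀ z : X, η ⤳ z → z = η ∨ IsClosed {z}) (hnc : ¬ IsClosed {η})
    {X' : Scheme.{0}} (p : X' ⟶ X) (hp : IsCover p) : epsDiag s (toNew F.N) p ≤ 2 := by
  unfold epsDiag seshadri
  apply sSup_le
  rintro t ⟨B, β, E, m, n, hβ, hn, hnef, rfl⟩
  by_contra hcon
  have hmn : 2 * n < m := by
    by_contra hle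
    push Not at hle
    apply hcon
    apply ENNReal.div_le_of_le_mul
    exact_mod_cast hle
  obtain ⟨C, h, hCi, hCp, hdim, ht⟩ := Ses.exists_neg s σ hσ F y y2 η hw hy i0 hi0 hyc hspec hnc p
    (cover_old hp) (prodMap s p) (prodMap_fst s p) (prodMap_snd s p) β (blowup_old hβ) (cartOld E)
    m n hmn
  have hprop : IsProper (h ≫ β ≫ squareStr (p ≫ s)) := by
    exact hCp
  refine hnef C h ⟨hCi, by rwa [← Category.assoc] at hprop, hdim⟩ ?_
  have key := key_eq β (Mp s (toNew F.N) p) E.N m n h _ (old_Mp s F.N p)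
  obtain ⟨t', hx, hy⟩ : ∃ t' : (toOld (pow (dual (pull h (twist β
      (Mp s (toNew F.N) p) E.N m n))) 1)).Sec,
      (∃ x, x ∈ t'.nonvan) ∧ ∃ x, x ∉ t'.nonvan := by
    rw [key]
    exact ht
  obtain ⟨x, hx⟩ := hx
  obtain ⟨z, hz⟩ := hy
  exact ⟨1, secNew t', le_rfl, ⟨x, (nonzeroAt_iff' t' x).2 hx⟩,
    ⟨z, fun hz' => hz ((nonzeroAt_iff' t' z).1 hz')⟩⟩

end Pool.Agent.Helper304.Seshadri
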