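import Pool.Agent.Helper304.Ses.Adefs

open AlgebraicGeometry CategoryTheory Limits TopologicalSpace

namespace Pool.Agent.Helper304.Ses

/-- factoring through the fixed locus -/
lemma fix_lift {X W : Scheme.{0}} (s : X ⟶ SpecC) (σ : X ⟶ X) (hσ : σ ≫ s = s) (r : W ⟶ X)
    (hr : r ≫ σ = r) : ∃ l, l ≫ fixι s σ hσ = r := by
  refine ⟨pullback.lift r r ?_, ?_⟩
  · have h1 : pullback.lift (𝟙 X) σ (by rw [hσ, Category.id_comp]) ≫ pullback.fst s s = 𝟙 X :=
      pullback.lift_fst _ _ _
    have h2 : pullback.lift (𝟙 X) σ (by rw [hσ, Category.id_comp]) ≫ pullback.snd s s = σ :=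
      pullback.lift_snd _ _ _
    apply pullback.hom_ext
    · rw [Category.assoc, Category.assoc, pullback.diagonal_fst, h1]
    · rw [Category.assoc, Category.assoc, pullback.diagonal_snd, h2, Category.comp_id, hr]
  · exact pullback.lift_snd _ _ _

lemma fix_sig {X : Scheme.{0}} (s : X ⟶ SpecC) (σ : X ⟶ X) (hσ : σ ≫ s = s) :
    fixι s σ hσ ≫ σ = fixι s σ hσ := by
  have h := pullback.condition (f := pullback.diagonal s)
    (g := pullback.lift (𝟙 X) σ (by rw [hσ, Category.id_comp]))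
  have h1 := congrArg (fun t => t ≫ pullback.fst s s) h
  have h2 := congrArg (fun t => t ≫ pullback.snd s s) h
  simp only [Category.assoc, pullback.diagonal_fst, pullback.diagonal_snd, Category.comp_id,
    pullback.lift_fst, pullback.lift_snd] at h1 h2
  exact h2.symm.trans h1

/-- TARGET -/
theorem exists_T {X X' : Scheme.{0}} (s : X ⟶ SpecC) [IsSeparated s] (σ : X ⟶ X)
    (hσ : σ ≫ s = s) (p : X' ⟶ X) [IsFinite p] [Etale p] :
    ∃ (T : Scheme.{0}) (f : T ⟶ pullback (p ≫ s) (p ≫ s)),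
      Flat (f ≫ pullback.fst (p ≫ s) (p ≫ s) ≫ p) ∧
      (pullback.snd (pullback.diagonal (p ≫ s)) f).ker =
        (pullback.snd (fixι s σ hσ) (f ≫ pullback.fst (p ≫ s) (p ≫ s) ≫ p)).ker ∧
      ∀ (C : Scheme.{0}) (j : C ⟶ X'), j ≫ p ≫ σ = j ≫ p →
        ∃ c : C ⟶ T, c ≫ f = j ≫ pullback.diagonal (p ≫ s) := by
  -- the graph
  let a : pullback (p ≫ σ) p ⟶ X' := pullback.fst (p ≫ σ) p
  let b : pullback (p ≫ σ) p ⟶ X' := pullback.snd (p ≫ σ) p
  have hab : a ≫ p ≫ σ = b ≫ p := pullback.condition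
  have hab2 : a ≫ p ≫ s = b ≫ p ≫ s := by
    have h1 : a ≫ p ≫ s = (a ≫ p ≫ σ) ≫ s := by simp only [Category.assoc, hσ]
    rw [h1, hab, Category.assoc]
  let fG : pullback (p ≫ σ) p ⟶ pullback (p ≫ s) (p ≫ s) := pullback.lift a b hab2
  have hfG1 : fG ≫ pullback.fst (p ≫ s) (p ≫ s) = a := pullback.lift_fst _ _ _
  have hfG2 : fG ≫ pullback.snd (p ≫ s) (p ≫ s) = b := pullback.lift_snd _ _ _
  have haE : Etale a := inferInstanceAs (Etale (pullback.fst (p ≫ σ) p))
  -- the closed subscheme Z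
  let z := pullback.snd (fixι s σ hσ) (a ≫ p)
  have hfixc : IsClosedImmersion (fixι s σ hσ) :=
    inferInstanceAs (IsClosedImmersion (pullback.snd (pullback.diagonal s)
      (pullback.lift (𝟙 X) σ (by rw [hσ, Category.id_comp]))))
  have hzc : IsClosedImmersion z := inferInstanceAs (IsClosedImmersion (pullback.snd (fixι s σ hσ) (a ≫ p)))
  have hz1 : z ≫ a ≫ p ≫ σ = z ≫ a ≫ p := by
    have h1 : pullback.fst (fixι s σ hσ) (a ≫ p) ≫ fixι s σ hσ = z ≫ a ≫ p :=
      pullback.condition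
    have h2 : z ≫ a ≫ p ≫ σ = (z ≫ a ≫ p) ≫ σ := by simp only [Category.assoc]
    rw [h2, ← h1, Category.assoc, fix_sig]
  have hz2 : (z ≫ a) ≫ p = (z ≫ b) ≫ p := by
    rw [Category.assoc, Category.assoc, ← hab, hz1]
  let z2 : pullback (fixι s σ hσ) (a ≫ p) ⟶ pullback p p := pullback.lift (z ≫ a) (z ≫ b) hz2
  have hz21 : z2 ≫ pullback.fst p p = z ≫ a := pullback.lift_fst _ _ _
  have hz22 : z2 ≫ pullback.snd p p = z ≫ b := pullback.lift_snd _ _ _
  let d := pullback.snd (pullback.diagonal p) z2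
  have hdiag : IsOpenImmersion (pullback.diagonal p) := inferInstance
  have hdo : IsOpenImmersion d := inferInstanceAs (IsOpenImmersion (pullback.snd (pullback.diagonal p) z2))
  have hd : d ≫ z ≫ a = d ≫ z ≫ b := by
    have h1 : pullback.fst (pullback.diagonal p) z2 ≫ pullback.diagonal p = d ≫ z2 :=
      pullback.condition
    have h2 := congrArg (fun t => t ≫ pullback.fst p p) h1
    have h3 := congrArg (fun t => t ≫ pullback.snd p p) h1
    simp only [Category.assoc, pullback.diagonal_fst, pullback.diagonal_snd, Category.comp_id,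
      hz21, hz22] at h2 h3
    exact h2.symm.trans h3
  -- the open subscheme T
  have hcl : IsClosed (z '' (Set.range d)ᶜ) :=
    z.isClosedEmbedding.isClosedMap _ d.isOpenEmbedding.isOpen_range.isClosed_compl
  let T : (pullback (p ≫ σ) p).Opens := ⟨(z '' (Set.range d)ᶜ)ᶜ, hcl.isOpen_compl⟩
  have hq : (T.ι ≫ fG) ≫ pullback.fst (p ≫ s) (p ≫ s) ≫ p = T.ι ≫ a ≫ p := by
    rw [Category.assoc, ← Category.assoc fG, hfG1]
  refine ⟨T, T.ι ≫ fG, ?_, ?_, ?_⟩
  · rw [hq]
    infer_instance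
  · apply le_antisymm
    · -- Z_T factors through D_T
      let zT := pullback.snd (fixι s σ hσ) ((T.ι ≫ fG) ≫ pullback.fst (p ≫ s) (p ≫ s) ≫ p)
      let dT := pullback.snd (pullback.diagonal (p ≫ s)) (T.ι ≫ fG)
      have h1 : pullback.fst (fixι s σ hσ) ((T.ι ≫ fG) ≫ pullback.fst (p ≫ s) (p ≫ s) ≫ p) ≫
          fixι s σ hσ = (zT ≫ T.ι) ≫ a ≫ p := by
        have h0 : zT ≫ (T.ι ≫ fG) ≫ pullback.fst (p ≫ s) (p ≫ s) ≫ p = zT ≫ T.ι ≫ a ≫ p :=
          congrArg (fun t => zT ≫ t) hq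
        exact (pullback.condition.trans h0).trans (Category.assoc _ _ _).symm
      let w : pullback (fixι s σ hσ) ((T.ι ≫ fG) ≫ pullback.fst (p ≫ s) (p ≫ s) ≫ p) ⟶
        pullback (fixι s σ hσ) (a ≫ p) := pullback.lift _ (zT ≫ T.ι) h1
      have hw : w ≫ z = zT ≫ T.ι := pullback.lift_snd _ _ _
      have hwr : Set.range w ⊆ Set.range d := by
        rintro _ ⟨x, rfl⟩
        by_contra hcon
        have h2 : z (w x) ∈ z '' (Set.range d)ᶜ := ⟨w x, hcon, rfl⟩
        have h3 : z (w x) = T.ι (zT x) := by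
          rw [← Scheme.Hom.comp_apply, hw, Scheme.Hom.comp_apply]
        have h4 : T.ι (zT x) ∈ T := (zT x).2
        rw [← h3] at h4
        exact h4 h2
      let w' := IsOpenImmersion.lift d w hwr
      have hw' : w' ≫ d = w := IsOpenImmersion.lift_fac _ _ _
      have h5 : (zT ≫ T.ι) ≫ a = (zT ≫ T.ι) ≫ b := by
        rw [← hw, ← hw']
        simp only [Category.assoc]
        rw [hd]
      have h6 : ((zT ≫ T.ι) ≫ a) ≫ pullback.diagonal (p ≫ s) = zT ≫ T.ι ≫ fG := by
        apply pullback.hom_ext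
        · simp only [Category.assoc, pullback.diagonal_fst, Category.comp_id, hfG1]
        · simp only [Category.assoc, pullback.diagonal_snd, Category.comp_id, hfG2]
          simpa only [Category.assoc] using h5
      have h7 : pullback.lift _ zT h6 ≫ dT = zT := pullback.lift_snd _ _ _
      change dT.ker ≤ zT.ker
      rw [← h7]
      exact Scheme.Hom.le_ker_comp _ _
    · -- D_T factors through Z_T
      let zT := pullback.snd (fixι s σ hσ) ((T.ι ≫ fG) ≫ pullback.fst (p ≫ s) (p ≫ s) ≫ p)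
      let dT := pullback.snd (pullback.diagonal (p ≫ s)) (T.ι ≫ fG)
      have h1 : pullback.fst (pullback.diagonal (p ≫ s)) (T.ι ≫ fG) ≫ pullback.diagonal (p ≫ s) =
          dT ≫ T.ι ≫ fG := pullback.condition
      have h2 := congrArg (fun t => t ≫ pullback.fst (p ≫ s) (p ≫ s)) h1
      have h3 := congrArg (fun t => t ≫ pullback.snd (p ≫ s) (p ≫ s)) h1
      simp only [Category.assoc, pullback.diagonal_fst, pullback.diagonal_snd, Category.comp_id,
        hfG1, hfG2] at h2 h3
      have h4 : dT ≫ T.ι ≫ a = dT ≫ T.ι ≫ b := h2.symm.trans h3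
      have h5 : (dT ≫ T.ι ≫ a ≫ p) ≫ σ = dT ≫ T.ι ≫ a ≫ p := by
        have h6 : (dT ≫ T.ι ≫ a ≫ p) ≫ σ = dT ≫ T.ι ≫ (a ≫ p ≫ σ) := by
          simp only [Category.assoc]
        have h7 : dT ≫ T.ι ≫ (b ≫ p) = (dT ≫ T.ι ≫ b) ≫ p := by simp only [Category.assoc]
        rw [h6, hab, h7, ← h4]
        simp only [Category.assoc]
      obtain ⟨l, hl⟩ := fix_lift s σ hσ _ h5
      have h8 : l ≫ fixι s σ hσ = dT ≫ (T.ι ≫ fG) ≫ pullback.fst (p ≫ s) (p ≫ s) ≫ p := by
        exact hl.trans (congrArg (fun t => dT ≫ t) hq).symm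
      have h9 : pullback.lift l dT h8 ≫ zT = dT := pullback.lift_snd _ _ _
      change zT.ker ≤ dT.ker
      rw [← h9]
      exact Scheme.Hom.le_ker_comp _ _
  · intro C j hj
    have h1 : j ≫ (p ≫ σ) = j ≫ p := hj
    let g : C ⟶ pullback (p ≫ σ) p := pullback.lift j j h1
    have hga : g ≫ a = j := pullback.lift_fst _ _ _
    have hgb : g ≫ b = j := pullback.lift_snd _ _ _
    have h2 : (j ≫ p) ≫ σ = j ≫ p := by rw [Category.assoc, hj]
    obtain ⟨l, hl⟩ := fix_lift s σ hσ _ h2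
    have h3 : l ≫ fixι s σ hσ = g ≫ a ≫ p := by
      rw [hl, ← Category.assoc, hga]
    let g' : C ⟶ pullback (fixι s σ hσ) (a ≫ p) := pullback.lift l g h3
    have hg' : g' ≫ z = g := pullback.lift_snd _ _ _
    have h4 : j ≫ pullback.diagonal p = g' ≫ z2 := by
      apply pullback.hom_ext
      · simp only [Category.assoc, pullback.diagonal_fst, Category.comp_id, hz21]
        rw [← Category.assoc, hg', hga]
      · simp only [Category.assoc, pullback.diagonal_snd, Category.comp_id, hz22]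
        rw [← Category.assoc, hg', hgb]
    let g'' : C ⟶ pullback (pullback.diagonal p) z2 := pullback.lift j g' h4
    have hg'' : g'' ≫ d = g' := pullback.lift_snd _ _ _
    have hr : Set.range g ⊆ Set.range T.ι := by
      rw [Scheme.Opens.range_ι]
      rintro _ ⟨x, rfl⟩
      intro hx
      obtain ⟨y, hy, hyx⟩ := hx
      apply hy
      refine ⟨g'' x, ?_⟩
      apply z.isClosedEmbedding.injective
      rw [hyx, ← Scheme.Hom.comp_apply, ← Scheme.Hom.comp_apply, ← Category.assoc, hg'', hg']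
    refine ⟨IsOpenImmersion.lift T.ι g hr, ?_⟩
    rw [← Category.assoc, IsOpenImmersion.lift_fac]
    apply pullback.hom_ext
    · simp only [Category.assoc, pullback.diagonal_fst, Category.comp_id, hfG1, hga]
    · simp only [Category.assoc, pullback.diagonal_snd, Category.comp_id, hfG2, hgb]

end Pool.Agent.Helper304.Ses
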