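import Pool.Agent.Helper304.Ses.Adefs

open AlgebraicGeometry CategoryTheory Limits TopologicalSpace

namespace Pool.Agent.Helper304.Ses

section aux284

open Scheme IdealSheafData

lemma comap_ideal_affine {X Y : Scheme.{0}} [IsAffine X] [IsAffine Y] (f : X ⟶ Y)
    (J : Y.IdealSheafData) :
    (J.comap f).ideal ⟨⊤, isAffineOpen_top X⟩ =
      (J.ideal ⟨⊤, isAffineOpen_top Y⟩).map f.appTop.hom := by
  apply le_antisymm
  · have h : J.comap f ≤ ofIdealTop ((J.ideal ⟨⊤, isAffineOpen_top Y⟩).map f.appTop.hom) := by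
      rw [← le_map_iff_comap_le]
      apply le_of_isAffine
      rw [ideal_map_of_isAffineHom]
      intro x hx
      rw [Ideal.mem_comap, ofIdealTop_ideal]
      have h1 : f.appTop.hom x ∈ (J.ideal ⟨⊤, isAffineOpen_top Y⟩).map f.appTop.hom :=
        Ideal.mem_map_of_mem _ hx
      have h2 := Ideal.mem_map_of_mem (res (le_refl (⊤ : X.Opens))) h1
      rw [res_self] at h2
      exact h2
    have := h ⟨⊤, isAffineOpen_top X⟩
    simpa using this
  · have h : J ≤ (J.comap f).map f := le_map_comap _ _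
    have := h ⟨⊤, isAffineOpen_top Y⟩
    rw [ideal_map_of_isAffineHom] at this
    exact Ideal.map_le_iff_le_comap.mpr this

lemma comap_ideal_top {X : Scheme.{0}} (V : X.affineOpens) (J : X.IdealSheafData) :
    (J.comap V.1.ι).ideal ⟨⊤, haveI : IsAffine V.1.toScheme := V.2; isAffineOpen_top _⟩ =
      (J.ideal V).map V.1.topIso.inv.hom := by
  have : IsAffine V.1.toScheme := V.2
  rw [ideal_comap_of_isOpenImmersion]
  have hle : (V.1.ι ''ᵁ ⊤ : X.Opens) ≤ V.1 := by simp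
  rw [← map_ideal' J (U := ⟨V.1.ι ''ᵁ ⊤, (isAffineOpen_top _).image_of_isOpenImmersion V.1.ι⟩)
    (V := V) (homOfLE hle).op]
  have h1 : (V.1.ι.appIso ⊤).inv.hom = ((V.1.ι.appIso ⊤).commRingCatIsoToRingEquiv.symm : _ →+* _) := rfl
  rw [h1]
  erw [Ideal.comap_symm]
  erw [Ideal.map_map]
  congr 1
  change (V.1.ι.appIso ⊤).hom.hom.comp (X.presheaf.map (homOfLE hle).op).hom = V.1.topIso.inv.hom
  rw [← CommRingCat.hom_comp]
  congr 1
  rw [Scheme.Opens.ι_appIso, Iso.refl_hom]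
  exact (Category.comp_id _).trans rfl

lemma comap_ideal {S T : Scheme.{0}} (q : T ⟶ S) (I : S.IdealSheafData) (W : S.affineOpens)
    (V : T.affineOpens) (e : V.1 ≤ q ⁻¹ᵁ W.1) :
    (I.comap q).ideal V = (I.ideal W).map (q.appLE W.1 V.1 e).hom := by
  have hV : IsAffine V.1.toScheme := V.2
  have hW : IsAffine W.1.toScheme := W.2
  have h1 := comap_ideal_top V (I.comap q)
  have h2 : V.1.ι ≫ q = q.resLE W.1 V.1 e ≫ W.1.ι := by simp
  rw [← comap_comp, h2, comap_comp, comap_ideal_affine, comap_ideal_top, Ideal.map_map] at h1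
  have h3 : (q.resLE W.1 V.1 e).appTop.hom.comp W.1.topIso.inv.hom =
    V.1.topIso.inv.hom.comp (q.appLE W.1 V.1 e).hom := by
    rw [← CommRingCat.hom_comp, ← CommRingCat.hom_comp]
    congr 1
    rw [Scheme.Hom.appTop, Scheme.Hom.resLE_app_top, Iso.inv_hom_id_assoc]
  rw [h3, ← Ideal.map_map] at h1
  have h4 := congrArg (Ideal.map V.1.topIso.hom.hom) h1
  have h5 : V.1.topIso.hom.hom.comp V.1.topIso.inv.hom = RingHom.id _ := by
    rw [← CommRingCat.hom_comp, Iso.inv_hom_id, CommRingCat.hom_id]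
  rw [Ideal.map_map, h5, Ideal.map_map _ V.1.topIso.hom.hom, h5, Ideal.map_id, Ideal.map_id] at h4
  exact h4.symm


lemma exists_affine_nhd {S T : Scheme.{0}} (q : T ⟶ S) (U : S.Opens)
    (V : T.affineOpens) (h : (V : T.Opens) ≤ q ⁻¹ᵁ U) (x : T) (hx : x ∈ (V : T.Opens)) :
    ∃ (W : S.affineOpens) (V' : T.affineOpens), W.1 ≤ U ∧ V'.1 ≤ V.1 ∧ x ∈ V'.1 ∧
      V'.1 ≤ q ⁻¹ᵁ W.1 := by
  obtain ⟨W, hW, hxW, hWU⟩ := exists_isAffineOpen_mem_and_subset (U := U) (x := q x) (h hx)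
  have hx2 : x ∈ (V.1 ⊓ q ⁻¹ᵁ W : T.Opens) := ⟨hx, hxW⟩
  obtain ⟨V', hV', hxV', hV'V⟩ := exists_isAffineOpen_mem_and_subset hx2
  exact ⟨⟨W, hW⟩, ⟨V', hV'⟩, hWU, fun y hy => (hV'V hy).1, hxV', fun y hy => (hV'V hy).2⟩

lemma res_appLE {S T : Scheme.{0}} (q : T ⟶ S) {U W : S.Opens} {V V' : T.Opens}
    (h : V ≤ q ⁻¹ᵁ U) (hWU : W ≤ U) (hV : V' ≤ V) (e : V' ≤ q ⁻¹ᵁ W) (f : Γ(S, U)) :
    (q.appLE W V' e).hom (res hWU f) = res hV (res h (pb q U f)) := by
  rw [res_res]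
  have h1 : (q.appLE W V' e).hom (res hWU f) = res e (pb q W (res hWU f)) := rfl
  rw [h1, pb_res, res_res]

theorem ideal_pull_aux {Z S T : Scheme.{0}} {j : Z ⟶ S} (F : Cartier j) (q : T ⟶ S) (i : F.N.ι)
    (V : T.affineOpens) (h : (V : T.Opens) ≤ q ⁻¹ᵁ F.N.U i) :
    (pullback.snd j q).ker.ideal V = Ideal.span {res h (pb q _ (F.one.s i))} := by
  have := F.closed
  have h0 : (pullback.snd j q).ker = j.ker.comap q := by
    rw [← ker_fst_of_isClosedImmersion, ← Hom.ker_comp_of_isIso (pullbackSymmetry j q).hom,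
      pullbackSymmetry_hom_comp_fst]
  rw [h0, V.2.ideal_ext_iff]
  intro x hx
  obtain ⟨W, V', hWU, hV'V, hxV', e⟩ := exists_affine_nhd q _ V h x hx
  have h1 : (j.ker.comap q).ideal V' = Ideal.span {res hV'V (res h (pb q _ (F.one.s i)))} := by
    rw [comap_ideal q j.ker W V' e, F.ideal i W hWU, Ideal.map_span, Set.image_singleton,
      res_appLE q h hWU hV'V e]
  have h2 : T.presheaf.germ V x hx = T.presheaf.map (homOfLE hV'V).op ≫
      T.presheaf.germ V' x hxV' := by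
    rw [TopCat.Presheaf.germ_res]
  rw [h2, CommRingCat.hom_comp, ← Ideal.map_map, ← Ideal.map_map, map_ideal' (j.ker.comap q) (U := V')
    (V := V), h1, Ideal.map_span, Set.image_singleton, Ideal.map_span, Set.image_singleton,
    Ideal.map_span, Set.image_singleton]
  rfl

theorem regular_pull_aux {Z S T : Scheme.{0}} {j : Z ⟶ S} (F : Cartier j) (q : T ⟶ S) [Flat q]
    (i : F.N.ι) (V : T.affineOpens) (h : (V : T.Opens) ≤ q ⁻¹ᵁ F.N.U i) :
    res h (pb q _ (F.one.s i)) ∈ nonZeroDivisors Γ(T, V) := by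
  rw [mem_nonZeroDivisors_iff_right]
  intro z hz
  have hmain : ∀ x : T, ∀ hx : x ∈ (V : T.Opens), ∃ (V' : T.affineOpens) (hV'V : V'.1 ≤ V.1),
      x ∈ V'.1 ∧ res hV'V z = 0 := by
    intro x hx
    obtain ⟨W, V', hWU, hV'V, hxV', e⟩ := exists_affine_nhd q _ V h x hx
    refine ⟨V', hV'V, hxV', ?_⟩
    have hfl := q.flat_appLE W.2 V'.2 e
    have hnz := F.regular i W hWU
    have hnz' : (q.appLE W.1 V'.1 e).hom (res hWU (F.one.s i)) ∈ nonZeroDivisors Γ(T, V'.1) := by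
      algebraize [(q.appLE W.1 V'.1 e).hom]
      have h5 := Module.Flat.isSMulRegular_of_nonZeroDivisors (M := Γ(T, V'.1)) hnz
      rw [mem_nonZeroDivisors_iff_right]
      intro y hy
      apply h5
      change res hWU (F.one.s i) • y = res hWU (F.one.s i) • 0
      rw [smul_zero, Algebra.smul_def, mul_comm]
      exact hy
    rw [res_appLE q h hWU hV'V e, mem_nonZeroDivisors_iff_right] at hnz'
    apply hnz'
    rw [← map_mul, hz, map_zero]
  choose V' hV'V hxV' hz0 using hmain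
  refine TopCat.Sheaf.eq_of_locally_eq' ⟨T.presheaf, T.IsSheaf⟩ (fun x : V.1 => (V' x.1 x.2).1) V.1
    (fun x => homOfLE (hV'V x.1 x.2)) ?_ z 0 ?_
  · intro x hx
    exact Opens.mem_iSup.2 ⟨⟨x, hx⟩, hxV' x hx⟩
  · intro x
    exact (hz0 x.1 x.2).trans (map_zero (res (hV'V x.1 x.2))).symm

end aux284

/-- TARGET 1 -/
theorem ideal_pull {Z S T : Scheme.{0}} {j : Z ⟶ S} (F : Cartier j) (q : T ⟶ S) (i : F.N.ι)
    (V : T.affineOpens) (h : (V : T.Opens) ≤ q ⁻¹ᵁ F.N.U i) :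
    (pullback.snd j q).ker.ideal V = Ideal.span {res h (pb q _ (F.one.s i))} := by
  exact ideal_pull_aux F q i V h

/-- TARGET 2 -/
theorem regular_pull {Z S T : Scheme.{0}} {j : Z ⟶ S} (F : Cartier j) (q : T ⟶ S) [Flat q]
    (i : F.N.ι) (V : T.affineOpens) (h : (V : T.Opens) ≤ q ⁻¹ᵁ F.N.U i) :
    res h (pb q _ (F.one.s i)) ∈ nonZeroDivisors Γ(T, V) := by
  exact regular_pull_aux F q i V h

end Pool.Agent.Helper304.Ses
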