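import Pool.Agent.Helper304.Ses.Adefs

open AlgebraicGeometry CategoryTheory Limits TopologicalSpace

namespace Pool.Agent.Helper304.Ses

/-- TARGET 1 -/
theorem ker_eq_of_iso {A B T : Scheme.{0}} (e : A ≅ B) (a : A ⟶ T) (b : B ⟶ T)
    (h : e.hom ≫ b = a) : a.ker = b.ker := by
  rw [← h]
  exact Scheme.Hom.ker_comp_of_isIso e.hom b

/-- TARGET 2 -/
theorem ker_pull_pull {W V B T : Scheme.{0}} (i : W ⟶ V) (β : B ⟶ V) (g : T ⟶ B) (f : T ⟶ V)
    (h : g ≫ β = f) : (pullback.snd (pullback.snd i β) g).ker = (pullback.snd i f).ker := by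
  subst h
  exact ker_eq_of_iso (pullbackLeftPullbackSndIso i β g) _ _
    (pullbackLeftPullbackSndIso_hom_snd i β g)

/-- TARGET 3 -/
theorem pb_comp {R T S : Scheme.{0}} (f : R ⟶ T) (g : T ⟶ S) (U : S.Opens) (x : Γ(S, U)) :
    pb (f ≫ g) U x = pb f (g ⁻¹ᵁ U) (pb g U x) := by
  unfold pb
  rw [Scheme.Hom.comp_app]
  rfl

/-- TARGET 4 -/
theorem pb_congr {T S : Scheme.{0}} (f g : T ⟶ S) (h : f = g) (U : S.Opens) (x : Γ(S, U))
    (W : T.Opens) (hW : W ≤ f ⁻¹ᵁ U) (hW' : W ≤ g ⁻¹ᵁ U) :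
    res hW (pb f U x) = res hW' (pb g U x) := by
  subst h
  rfl

end Pool.Agent.Helper304.Ses
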