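import Pool.Agent.Helper304.Ses.Adefs

open AlgebraicGeometry CategoryTheory Limits TopologicalSpace

namespace Pool.Agent.Helper304.Ses

theorem uos_ext {T : Scheme.{0}} (W : T.Opens) (a b : Γ(T, W))
    (h : ∀ (V : T.affineOpens) (h : (V : T.Opens) ≤ W), res h a = res h b) : a = b := by
  apply T.IsSheaf.section_ext
  intro x hx
  obtain ⟨_, ⟨V, hV, rfl⟩, hxV, hVU⟩ :=
    T.isBasis_affineOpens.exists_subset_of_mem_open hx W.isOpen
  exact ⟨V, hVU, hxV, h ⟨V, hV⟩ hVU⟩

theorem uos_eq {T : Scheme.{0}} (W : T.Opens) (v v' w : Γ(T, W))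
    (hreg : ∀ (V : T.affineOpens) (h : (V : T.Opens) ≤ W), res h w ∈ nonZeroDivisors Γ(T, V))
    (h : v * w = v' * w) : v = v' := by
  apply uos_ext
  intro V hV
  have h1 := congrArg (res hV) h
  rw [map_mul, map_mul] at h1
  exact (mul_cancel_right_mem_nonZeroDivisors (hreg V hV)).1 h1

theorem uos_quot {T : Scheme.{0}} (W : T.Opens) (e w : Γ(T, W))
    (hreg : ∀ (V : T.affineOpens) (h : (V : T.Opens) ≤ W), res h w ∈ nonZeroDivisors Γ(T, V))
    (hspan : ∀ (V : T.affineOpens) (h : (V : T.Opens) ≤ W),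
      Ideal.span {res h e} = Ideal.span {res h w}) :
    ∃ v : Γ(T, W), e = v * w := by
  have h1 : ∀ V : {V : T.affineOpens // (V : T.Opens) ≤ W}, ∃ a : Γ(T, (V.1 : T.Opens)),
      a * res V.2 w = res V.2 e := by
    intro V
    have h2 : res V.2 e ∈ Ideal.span {res V.2 w} := by
      rw [← hspan V.1 V.2]
      exact Ideal.mem_span_singleton_self _
    exact Ideal.mem_span_singleton'.1 h2
  choose a ha using h1
  have hglue : ∃ v : Γ(T, W), ∀ V : {V : T.affineOpens // (V : T.Opens) ≤ W},
      res V.2 v = a V := by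
    obtain ⟨v, hv, -⟩ := T.sheaf.existsUnique_gluing'
      (fun V : {V : T.affineOpens // (V : T.Opens) ≤ W} => (V.1 : T.Opens)) W
      (fun V => homOfLE V.2) (by
        intro x hx
        obtain ⟨_, ⟨V, hV, rfl⟩, hxV, hVU⟩ :=
          T.isBasis_affineOpens.exists_subset_of_mem_open hx W.isOpen
        exact (le_iSup (fun V : {V : T.affineOpens // (V : T.Opens) ≤ W} => (V.1 : T.Opens))
          ⟨⟨V, hV⟩, hVU⟩) hxV) a (by
        intro i j
        show res inf_le_left (a i) = res inf_le_right (a j)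
        apply uos_eq _ _ _ (res (inf_le_left.trans i.2) w)
        · intro V hV
          rw [res_res]
          exact hreg V _
        · have h3 := congrArg
            (res (inf_le_left : (i.1 : T.Opens) ⊓ (j.1 : T.Opens) ≤ i.1)) (ha i)
          have h4 := congrArg
            (res (inf_le_right : (i.1 : T.Opens) ⊓ (j.1 : T.Opens) ≤ j.1)) (ha j)
          rw [map_mul, res_res, res_res] at h3 h4
          rw [h3, h4])
    exact ⟨v, hv⟩
  obtain ⟨v, hv⟩ := hglue
  refine ⟨v, uos_ext W _ _ fun V hV => ?_⟩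
  have h5 : res hV v = a ⟨V, hV⟩ := hv ⟨V, hV⟩
  rw [map_mul, h5, ha ⟨V, hV⟩]

/-- TARGET 1 -/
theorem unit_of_span {T : Scheme.{0}} (W : T.Opens) (e w : Γ(T, W))
    (hreg : ∀ (V : T.affineOpens) (h : (V : T.Opens) ≤ W), res h w ∈ nonZeroDivisors Γ(T, V))
    (hspan : ∀ (V : T.affineOpens) (h : (V : T.Opens) ≤ W),
      Ideal.span {res h e} = Ideal.span {res h w}) :
    ∃ v : Γ(T, W), IsUnit v ∧ e = v * w := by
  obtain ⟨v, hv⟩ := uos_quot W e w hreg hspan
  have hreg' : ∀ (V : T.affineOpens) (h : (V : T.Opens) ≤ W),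
      res h e ∈ nonZeroDivisors Γ(T, V) := by
    intro V hV
    have h2 : res hV w ∈ Ideal.span {res hV e} := by
      rw [hspan V hV]
      exact Ideal.mem_span_singleton_self _
    obtain ⟨c, hc⟩ := Ideal.mem_span_singleton'.1 h2
    have h3 := hreg V hV
    rw [← hc] at h3
    exact (mul_mem_nonZeroDivisors.1 h3).2
  obtain ⟨v', hv'⟩ := uos_quot W w e hreg' (fun V hV => (hspan V hV).symm)
  have h4 : v * v' = 1 := by
    apply uos_eq W _ _ e hreg'
    rw [mul_assoc, ← hv', ← hv, one_mul]
  exact ⟨v, IsUnit.of_mul_eq_one _ h4, hv⟩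

/-- TARGET 2: `v` above is unique -/
theorem eq_of_regular {T : Scheme.{0}} (W : T.Opens) (v v' w : Γ(T, W))
    (hreg : ∀ (V : T.affineOpens) (h : (V : T.Opens) ≤ W), res h w ∈ nonZeroDivisors Γ(T, V))
    (h : v * w = v' * w) : v = v' :=
  uos_eq W v v' w hreg h

/-- TARGET 3 -/
theorem exists_closure {X : Scheme.{0}} (x : X) :
    ∃ (C : Scheme.{0}) (j : C ⟶ X) (_ : IsIntegral C), IsClosedImmersion j ∧
      j (genericPoint C) = x := by
  have hqc : QuasiCompact (X.fromSpecResidueField x) := inferInstance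
  have hinj : ∀ U : (X.fromSpecResidueField x).image.Opens,
      Function.Injective ((X.fromSpecResidueField x).toImage.app U) := fun U =>
    (TopCat.Presheaf.app_injective_iff_stalkFunctor_map_injective
      (F := (X.fromSpecResidueField x).image.sheaf) (X.fromSpecResidueField x).toImage.c).1
      (fun y => (X.fromSpecResidueField x).stalkFunctor_toImage_injective y) U
  obtain ⟨p⟩ : Nonempty (Spec (X.residueField x)) := inferInstance
  have hsub : Subsingleton (Spec (X.residueField x)) := inferInstance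
  set y := (X.fromSpecResidueField x).toImage p with hy
  have hdense : DenseRange (X.fromSpecResidueField x).toImage :=
    (X.fromSpecResidueField x).toImage.denseRange
  have hint : IsIntegral (X.fromSpecResidueField x).image := by
    refine ⟨⟨y⟩, ?_⟩
    intro U hU
    have hne : Nonempty ((X.fromSpecResidueField x).toImage ⁻¹ᵁ U) := by
      obtain ⟨z⟩ := hU
      obtain ⟨q, hq⟩ := hdense.exists_mem_open U.isOpen ⟨z.1, z.2⟩
      exact ⟨⟨q, hq⟩⟩
    exact (hinj U).isDomain ((X.fromSpecResidueField x).toImage.app U).hom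
  refine ⟨_, (X.fromSpecResidueField x).imageι, hint, inferInstance, ?_⟩
  have hgen : IsGenericPoint y (Set.univ : Set (X.fromSpecResidueField x).image) := by
    have h1 : Set.range (X.fromSpecResidueField x).toImage = {y} := by
      ext z
      constructor
      · rintro ⟨q, rfl⟩
        rw [Subsingleton.elim q p]
        rfl
      · rintro rfl
        exact ⟨p, rfl⟩
    have h2 := hdense.closure_range
    rw [h1] at h2
    exact h2
  have h3 : genericPoint (X.fromSpecResidueField x).image = y :=
    (genericPoint_spec (X.fromSpecResidueField x).image).eq hgen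
  rw [h3, hy]
  have h4 : (X.fromSpecResidueField x).imageι ((X.fromSpecResidueField x).toImage p) =
      X.fromSpecResidueField x p := by
    rw [← Scheme.Hom.comp_apply, (X.fromSpecResidueField x).toImage_imageι]
  rw [h4]
  exact X.fromSpecResidueField_apply x p

end Pool.Agent.Helper304.Ses
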