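import Pool.Agent.Helper304.Ses.Adefs
import Pool.Agent.Helper304.Ses.Ma2

open AlgebraicGeometry CategoryTheory Limits TopologicalSpace

namespace Pool.Agent.Helper304.Ses

/-- TARGET -/
theorem fixed_of_vanish {X C : Scheme.{0}} (s : X ⟶ SpecC) (σ : X ⟶ X)
    (hσ : σ ≫ s = s) (F : Cartier (fixι s σ hσ)) [IsIntegral C] (r : C ⟶ X)
    (h : r (genericPoint C) ∉ F.one.nonvan) : r ≫ σ = r := by
  haveI := F.closed
  have hfix : fixι s σ hσ ≫ σ = fixι s σ hσ := by
    have hc := pullback.condition (f := pullback.diagonal s)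
      (g := pullback.lift (𝟙 X) σ (by rw [hσ, Category.id_comp]))
    have h1 := congrArg (fun t => t ≫ pullback.fst s s) hc
    have h2 := congrArg (fun t => t ≫ pullback.snd s s) hc
    simp only [Category.assoc, pullback.diagonal_fst, pullback.diagonal_snd, pullback.lift_fst,
      pullback.lift_snd, Category.comp_id] at h1 h2
    unfold fixι
    rw [← h2, h1]
  -- the closed immersion
  let k := pullback.snd (fixι s σ hσ) r
  haveI hk : IsClosedImmersion k := inferInstance
  have hgen : genericPoint C ∈ k.ker.support := by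
    obtain ⟨i, hi⟩ := F.N.cov (r (genericPoint C))
    have hi' : genericPoint C ∈ r ⁻¹ᵁ F.N.U i := hi
    obtain ⟨V, hV, hxV, hVU⟩ := (C.isBasis_affineOpens).exists_subset_of_mem_open hi' (r ⁻¹ᵁ F.N.U i).isOpen
    obtain ⟨V, hVa, rfl⟩ := hV
    have hle : (⟨V, hVa⟩ : C.affineOpens).1 ≤ r ⁻¹ᵁ F.N.U i := hVU
    rw [Scheme.IdealSheafData.mem_support_iff_of_mem (U := ⟨V, hVa⟩) hxV]
    rw [ideal_pull F r i ⟨V, hVa⟩ hle]
    rw [Scheme.zeroLocus_span, Scheme.mem_zeroLocus_iff]
    intro f hf hx
    rw [Set.mem_singleton_iff] at hf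
    subst hf
    apply h
    have h3 : genericPoint C ∈ C.basicOpen (pb r _ (F.one.s i)) := by
      have := C.basicOpen_res (pb r _ (F.one.s i)) (homOfLE hle).op
      have h4 : genericPoint C ∈ V ⊓ C.basicOpen (pb r _ (F.one.s i)) := by
        rw [← this]
        exact hx
      exact h4.2
    have h5 : genericPoint C ∈ r ⁻¹ᵁ X.basicOpen (F.one.s i) := by
      rw [Scheme.preimage_basicOpen]
      exact h3
    have h6 : r (genericPoint C) ∈ X.basicOpen (F.one.s i) := h5
    exact (le_iSup (fun i => X.basicOpen (F.one.s i)) i) h6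
  have hrange : genericPoint C ∈ Set.range k := by
    have h1 : genericPoint C ∈ closure (Set.range k) := by
      rw [← Scheme.Hom.support_ker]
      exact hgen
    rwa [k.isClosedEmbedding.isClosed_range.closure_eq] at h1
  haveI hsurj : Surjective k := by
    constructor
    rw [← Set.range_eq_univ]
    have h1 : IsClosed (Set.range k) := k.isClosedEmbedding.isClosed_range
    have h2 := (genericPoint_spec C)
    apply Set.eq_univ_of_univ_subset
    have h3 : closure {genericPoint C} = (⊤ : Set C) := h2
    rw [← Set.top_eq_univ, ← h3]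
    exact h1.closure_subset_iff.mpr (Set.singleton_subset_iff.mpr hrange)
  haveI hiso : IsIso k := isIso_of_isClosedImmersion_of_surjective k
  have hcond : pullback.fst (fixι s σ hσ) r ≫ fixι s σ hσ = k ≫ r := pullback.condition
  have hr : r = inv k ≫ pullback.fst (fixι s σ hσ) r ≫ fixι s σ hσ := by
    rw [hcond, IsIso.inv_hom_id_assoc]
  rw [hr]
  simp only [Category.assoc, hfix]


end Pool.Agent.Helper304.Ses
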