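import Pool.Agent.Helper304.Ses.Adefs

open AlgebraicGeometry CategoryTheory Limits TopologicalSpace

namespace Pool.Agent.Helper304.Ses

/-- TARGET 1 -/
theorem nonvan_pull {T S : Scheme.{0}} (f : T ⟶ S) {L : LB S} (t : L.Sec) :
    (t.pull f).nonvan = f ⁻¹ᵁ t.nonvan := by
  unfold LB.Sec.nonvan
  rw [Scheme.Hom.preimage_iSup]
  change (⨆ i : L.ι, T.basicOpen (pb f (L.U i) (t.s i))) = _
  apply iSup_congr
  intro i
  rw [Scheme.preimage_basicOpen]
  rfl

/-- TARGET 2 -/
theorem pb_cst {T S : Scheme.{0}} (f : T ⟶ S) (s : S ⟶ SpecC) (U : S.Opens) (c : ℂ) :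
    pb f U (cst s U c) = cst (f ≫ s) (f ⁻¹ᵁ U) c := by
  unfold pb cst
  rw [← CommRingCat.comp_apply]
  congr 2
  rw [Category.assoc, Category.assoc, Scheme.Hom.naturality, Scheme.Hom.comp_appTop,
    Category.assoc]
  rfl

/-- TARGET 4: if `x` lies in `U i` and the section does not vanish at `x` then `x` lies in
`basicOpen (t.s i)`. -/
theorem mem_basicOpen_of_nonvan {S : Scheme.{0}} {L : LB S} (t : L.Sec) (x : S) (i : L.ι)
    (hx : x ∈ L.U i) : x ∈ t.nonvan ↔ x ∈ S.basicOpen (t.s i) := by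
  constructor
  · intro h
    obtain ⟨j, hj⟩ := Opens.mem_iSup.1 h
    have hxj : x ∈ L.U j := S.basicOpen_le _ hj
    have hg : x ∈ S.basicOpen (L.g i j) := by
      have h1 := L.g_mul i j i
      rw [L.g_self, map_one] at h1
      have h2 : IsUnit (res (le_inf (inf_le_left.trans inf_le_left)
          (inf_le_left.trans inf_le_right) : L.U i ⊓ L.U j ⊓ L.U i ≤ L.U i ⊓ L.U j) (L.g i j)) :=
        IsUnit.of_mul_eq_one _ h1
      have h3 := S.basicOpen_of_isUnit h2
      have h4 : x ∈ L.U i ⊓ L.U j ⊓ L.U i := ⟨⟨hx, hxj⟩, hx⟩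
      rw [← h3] at h4
      unfold res at h4
      rw [S.basicOpen_res] at h4
      exact h4.2
    have h5 : x ∈ S.basicOpen (L.g i j * res inf_le_right (t.s j)) := by
      rw [S.basicOpen_mul]
      refine ⟨hg, ?_⟩
      unfold res
      rw [S.basicOpen_res]
      exact ⟨⟨hx, hxj⟩, hj⟩
    rw [← t.compat i j] at h5
    unfold res at h5
    rw [S.basicOpen_res] at h5
    exact h5.2
  · intro h
    exact Opens.mem_iSup.2 ⟨i, h⟩

theorem const_of_nonvan_isUnit {C : Scheme.{0}} (L : LB C)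
    (y : L.Sec) (hy : ∀ x, x ∈ y.nonvan) (i : L.ι) : IsUnit (y.s i) := by
  apply C.toRingedSpace.isUnit_of_isUnit_germ
  intro x hx
  have h1 := (mem_basicOpen_of_nonvan y x i hx).1 (hy x)
  exact (C.mem_basicOpen _ x hx).1 h1

theorem const_of_nonvan_bij {C : Scheme.{0}} (sC : C ⟶ SpecC) [IsIntegral C] [IsProper sC] :
    Function.Surjective (cst sC ⊤) := by
  have h1 : sC.appTop.hom.Finite := finite_appTop_of_universallyClosed ℂ sC
  have h2 : ((Scheme.ΓSpecIso (.of ℂ)).inv ≫ sC.appTop).hom.IsIntegral := by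
    rw [CommRingCat.hom_comp]
    apply RingHom.IsIntegral.trans
    · apply RingHom.isIntegral_of_surjective
      exact (Scheme.ΓSpecIso (.of ℂ)).symm.commRingCatIsoToRingEquiv.surjective
    · exact h1.to_isIntegral
  have h3 := IsAlgClosed.ringHom_bijective_of_isIntegral
    ((Scheme.ΓSpecIso (.of ℂ)).inv ≫ sC.appTop).hom h2
  have h4 : cst sC ⊤ = ((Scheme.ΓSpecIso (.of ℂ)).inv ≫ sC.appTop).hom := by
    unfold cst
    congr 1
    rw [Subsingleton.elim (homOfLE (le_top : (⊤ : C.Opens) ≤ ⊤)).op (𝟙 (Opposite.op ⊤)),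
      C.presheaf.map_id]
    rw [Category.comp_id]
  rw [h4]
  exact h3.2

/-- TARGET 3: a quotient of two sections of a line bundle on a proper integral scheme,
the denominator without zeros, is constant. -/
theorem const_of_nonvan {C : Scheme.{0}} (sC : C ⟶ SpecC) [IsIntegral C] [IsProper sC] (L : LB C)
    (y y2 : L.Sec) (hy : ∀ x, x ∈ y.nonvan) : ∃ c : ℂ, ∀ i, y2.s i = cst sC _ c * y.s i := by
  have hu := const_of_nonvan_isUnit L y hy
  choose u hu' using hu
  obtain ⟨q, hq⟩ : ∃ q : ∀ i, Γ(C, L.U i), ∀ i, y2.s i = q i * y.s i := by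
    refine ⟨fun i => y2.s i * ((u i)⁻¹ : Γ(C, L.U i)ˣ), fun i => ?_⟩
    rw [← hu' i, mul_assoc, Units.inv_mul, mul_one]
  have hcomp : ∀ i j, res (inf_le_left : L.U i ⊓ L.U j ≤ L.U i) (q i) =
      res (inf_le_right : L.U i ⊓ L.U j ≤ L.U j) (q j) := by
    intro i j
    have h1 := y.compat i j
    have h2 := y2.compat i j
    rw [hq i, hq j, map_mul, map_mul, h1] at h2
    -- cancel
    have h3 : IsUnit (res (inf_le_left : L.U i ⊓ L.U j ≤ L.U i) (y.s i)) := by
      rw [← hu' i]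
      exact (u i).isUnit.map _
    rw [h1] at h3
    have h4 : (res (inf_le_left : L.U i ⊓ L.U j ≤ L.U i) (q i) -
        res (inf_le_right : L.U i ⊓ L.U j ≤ L.U j) (q j)) *
        (L.g i j * res (inf_le_right : L.U i ⊓ L.U j ≤ L.U j) (y.s j)) = 0 := by
      rw [sub_mul, h2]
      ring
    have h5 := (h3.mul_left_eq_zero).1 h4
    exact sub_eq_zero.1 h5
  obtain ⟨Q, hQ, -⟩ := C.sheaf.existsUnique_gluing' L.U ⊤ (fun i => homOfLE le_top)
    (fun x _ => Opens.mem_iSup.2 (L.cov x)) q (fun i j => hcomp i j)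
  obtain ⟨c, hc⟩ := const_of_nonvan_bij sC Q
  refine ⟨c, fun i => ?_⟩
  have h6 : res (le_top : L.U i ≤ ⊤) Q = q i := hQ i
  have h7 : res (le_top : L.U i ≤ ⊤) (cst sC ⊤ c) = cst sC (L.U i) c := by
    unfold res cst
    rw [← CommRingCat.comp_apply]
    congr 2
    rw [Category.assoc, Category.assoc, ← C.presheaf.map_comp]
    rfl
  rw [hq i, ← h6, ← hc, h7]

end Pool.Agent.Helper304.Ses
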