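import Pool.Agent.Helper304.Ses.Adefs
import Pool.Agent.Helper304.Ses.Ma7

open AlgebraicGeometry CategoryTheory Limits TopologicalSpace

namespace Pool.Agent.Helper304.Ses

theorem no_nef_alg {A : Type*} [CommRing A] (m n : ℕ) (hmn : 2 * n ≤ m)
    (va vb Nab Gij Gik Gki Gkl Glj Yi Yk : A) (h1 : va * Gik = Nab * vb) (h2 : Gik * Gki = 1)
    (h3 : Gij = Gik * Gkl * Glj) (h4 : Yi = Gik * Yk) :
    va ^ m * Gij ^ n * Yi ^ (m - 2 * n) =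
      (Gki * Glj) ^ n * Nab ^ m * (vb ^ m * Gkl ^ n * Yk ^ (m - 2 * n)) := by
  obtain ⟨d, rfl⟩ := Nat.exists_eq_add_of_le hmn
  have e1 : 2 * n + d - 2 * n = d := by omega
  rw [e1, h3, h4]
  have e2 : (Gki * Glj) ^ n * Nab ^ (2 * n + d) * (vb ^ (2 * n + d) * Gkl ^ n * Yk ^ d) =
      (Nab * vb) ^ (2 * n + d) * ((Gki * Glj) ^ n * (Gkl ^ n * Yk ^ d)) := by
    rw [mul_pow]; ring
  rw [e2, ← h1]
  have e3 : (va * Gik) ^ (2 * n + d) * ((Gki * Glj) ^ n * (Gkl ^ n * Yk ^ d)) =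
      va ^ (2 * n + d) * (Gik * Gkl * Glj) ^ n * (Gik * Yk) ^ d * (Gik * Gki) ^ n := by ring
  rw [e3, h2, one_pow, mul_one]

theorem no_nef_pb_comp {T S R : Scheme.{0}} (f : T ⟶ S) (g : S ⟶ R) (U : R.Opens) (x : Γ(R, U)) :
    pb f (g ⁻¹ᵁ U) (pb g U x) = pb (f ≫ g) U x := rfl

theorem no_nef_pb_congr {T S : Scheme.{0}} {f g : T ⟶ S} (hfg : f = g) {U : S.Opens} {W : T.Opens}
    (h1 : W ≤ f ⁻¹ᵁ U) (h2 : W ≤ g ⁻¹ᵁ U) (x : Γ(S, U)) :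
    res h1 (pb f U x) = res h2 (pb g U x) := by
  subst hfg
  rfl

theorem no_nef_bo_res {S : Scheme.{0}} {U V : S.Opens} (h : V ≤ U) (f : Γ(S, U)) :
    S.basicOpen (res h f) = V ⊓ S.basicOpen f := S.basicOpen_res _ _

theorem no_nef_bo_pb {T S : Scheme.{0}} (f : T ⟶ S) {U : S.Opens} (x : Γ(S, U)) :
    T.basicOpen (pb f U x) = f ⁻¹ᵁ (S.basicOpen x) := (Scheme.preimage_basicOpen f x).symm

theorem no_nef_pow {T S : Scheme.{0}} (f : T ⟶ S) (L : LB S) (k : ℕ) (i j : L.ι) (W : T.Opens)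
    (hW : W ≤ f ⁻¹ᵁ ((L.pow k).U i ⊓ (L.pow k).U j)) (hW' : W ≤ f ⁻¹ᵁ (L.U i ⊓ L.U j)) :
    res hW (pb f _ ((L.pow k).g i j)) = res hW' (pb f _ (L.g i j)) ^ k := by
  rw [← map_pow, ← map_pow]
  rfl

theorem no_nef_dual {T S : Scheme.{0}} (f : T ⟶ S) (L : LB S) (i j : L.ι) (W : T.Opens)
    (hW : W ≤ f ⁻¹ᵁ (L.dual.U i ⊓ L.dual.U j)) (hW' : W ≤ f ⁻¹ᵁ (L.U j ⊓ L.U i)) :
    res hW (pb f _ (L.dual.g i j)) = res hW' (pb f _ (L.g j i)) := by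
  have hW2 : W ≤ f ⁻¹ᵁ (L.U i ⊓ L.U j) := hW
  have e : res hW (pb f _ (L.dual.g i j)) = res hW2 (pb f (L.U i ⊓ L.U j)
    (res (le_inf inf_le_right inf_le_left : L.U i ⊓ L.U j ≤ L.U j ⊓ L.U i) (L.g j i))) := rfl
  rw [e, pb_res, res_res]

theorem no_nef_tensor {T S : Scheme.{0}} (f : T ⟶ S) (L M : LB S) (i j : L.ι × M.ι) (W : T.Opens)
    (hW : W ≤ f ⁻¹ᵁ ((L.tensor M).U i ⊓ (L.tensor M).U j)) (hW1 : W ≤ f ⁻¹ᵁ (L.U i.1 ⊓ L.U j.1))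
    (hW2 : W ≤ f ⁻¹ᵁ (M.U i.2 ⊓ M.U j.2)) :
    res hW (pb f _ ((L.tensor M).g i j)) =
      res hW1 (pb f _ (L.g i.1 j.1)) * res hW2 (pb f _ (M.g i.2 j.2)) := by
  have hW3 : W ≤ f ⁻¹ᵁ ((L.U i.1 ⊓ M.U i.2) ⊓ (L.U j.1 ⊓ M.U j.2)) := hW
  have e : res hW (pb f _ ((L.tensor M).g i j)) = res hW3 (pb f _
      (res (inf_le_inf inf_le_left inf_le_left :
        (L.U i.1 ⊓ M.U i.2) ⊓ (L.U j.1 ⊓ M.U j.2) ≤ L.U i.1 ⊓ L.U j.1) (L.g i.1 j.1) *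
      res (inf_le_inf inf_le_right inf_le_right :
        (L.U i.1 ⊓ M.U i.2) ⊓ (L.U j.1 ⊓ M.U j.2) ≤ M.U i.2 ⊓ M.U j.2) (M.g i.2 j.2))) := rfl
  rw [e, map_mul, map_mul, pb_res, pb_res, res_res, res_res]

theorem no_nef_pull {T S R : Scheme.{0}} (f : T ⟶ S) (k : S ⟶ R) (L : LB R) (i j : L.ι)
    (W : T.Opens)
    (hW : W ≤ f ⁻¹ᵁ ((L.pull k).U i ⊓ (L.pull k).U j)) (hW' : W ≤ (f ≫ k) ⁻¹ᵁ (L.U i ⊓ L.U j)) :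
    res hW (pb f _ ((L.pull k).g i j)) = res hW' (pb (f ≫ k) _ (L.g i j)) := rfl

theorem no_nef_pull' {T S : Scheme.{0}} (f : T ⟶ S) (L : LB S) (i j : L.ι) (W : T.Opens)
    (hW : W ≤ (L.pull f).U i ⊓ (L.pull f).U j) (hW' : W ≤ f ⁻¹ᵁ (L.U i ⊓ L.U j)) :
    res hW ((L.pull f).g i j) = res hW' (pb f _ (L.g i j)) := rfl

theorem no_nef_g1 {C B : Scheme.{0}} (h : C ⟶ B) (D : LB B) (X Y : D.ι)
    (c : ((D.dual.pow 1).pull h).U X ⊓ ((D.dual.pow 1).pull h).U Y ≤ h ⁻¹ᵁ (D.U Y ⊓ D.U X)) :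
    ((D.dual.pow 1).pull h).g X Y = res c (pb h _ (D.g Y X)) := by
  rw [← res_self (((D.dual.pow 1).pull h).g X Y)]
  have c1 : ((D.dual.pow 1).pull h).U X ⊓ ((D.dual.pow 1).pull h).U Y ≤
    h ⁻¹ᵁ ((D.dual.pow 1).U X ⊓ (D.dual.pow 1).U Y) := fun z hz => hz
  have c2 : ((D.dual.pow 1).pull h).U X ⊓ ((D.dual.pow 1).pull h).U Y ≤
    h ⁻¹ᵁ (D.dual.U X ⊓ D.dual.U Y) := fun z hz => hz
  refine (no_nef_pull' h (D.dual.pow 1) X Y _ _ c1).trans ?_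
  refine (no_nef_pow h D.dual 1 X Y _ c1 c2).trans ?_
  rw [pow_one]
  exact no_nef_dual h D X Y _ c2 c

theorem no_nef_g2 {C B P : Scheme.{0}} (h : C ⟶ B) (β : B ⟶ P) (M : LB P) (N : LB B) (m n : ℕ)
    (X Y : M.ι × N.ι) (W : C.Opens)
    (c : W ≤ h ⁻¹ᵁ ((((M.pull β).pow n).tensor ((N.pow m).dual)).U Y ⊓
      (((M.pull β).pow n).tensor ((N.pow m).dual)).U X))
    (c1 : W ≤ (h ≫ β) ⁻¹ᵁ (M.U Y.1 ⊓ M.U X.1)) (c2 : W ≤ h ⁻¹ᵁ (N.U X.2 ⊓ N.U Y.2)) :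
    res c (pb h _ ((((M.pull β).pow n).tensor ((N.pow m).dual)).g Y X)) =
      res c1 (pb (h ≫ β) _ (M.g Y.1 X.1)) ^ n * res c2 (pb h _ (N.g X.2 Y.2)) ^ m := by
  have d1 : W ≤ h ⁻¹ᵁ (((M.pull β).pow n).U Y.1 ⊓ ((M.pull β).pow n).U X.1) := c1
  have d2 : W ≤ h ⁻¹ᵁ ((N.pow m).dual.U Y.2 ⊓ (N.pow m).dual.U X.2) :=
    fun z hz => ⟨(c2 hz).2, (c2 hz).1⟩
  refine (no_nef_tensor h ((M.pull β).pow n) ((N.pow m).dual) Y X W c d1 d2).trans ?_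
  congr 1
  · exact no_nef_pow h (M.pull β) n Y.1 X.1 W d1 c1
  · refine (no_nef_dual h (N.pow m) Y.2 X.2 W d2 c2).trans ?_
    exact no_nef_pow h N m X.2 Y.2 W c2 c2

theorem no_nef_g3 {C P X : Scheme.{0}} (k : C ⟶ P) (f1 f2 : P ⟶ X) (L : LB X) (r : C ⟶ X)
    (e1 : k ≫ f1 = r) (e2 : k ≫ f2 = r)
    (a b : L.ι × L.ι) (W : C.Opens)
    (c : W ≤ k ⁻¹ᵁ (((L.pull f1).tensor (L.pull f2)).U a ⊓ ((L.pull f1).tensor (L.pull f2)).U b))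
    (c1 : W ≤ r ⁻¹ᵁ (L.U a.1 ⊓ L.U b.1)) (c2 : W ≤ r ⁻¹ᵁ (L.U a.2 ⊓ L.U b.2)) :
    res c (pb k _ (((L.pull f1).tensor (L.pull f2)).g a b)) =
      res c1 (pb r _ (L.g a.1 b.1)) * res c2 (pb r _ (L.g a.2 b.2)) := by
  have d1 : W ≤ k ⁻¹ᵁ ((L.pull f1).U a.1 ⊓ (L.pull f1).U b.1) :=
    fun z hz => ⟨(c hz).1.1, (c hz).2.1⟩
  have d2 : W ≤ k ⁻¹ᵁ ((L.pull f2).U a.2 ⊓ (L.pull f2).U b.2) :=
    fun z hz => ⟨(c hz).1.2, (c hz).2.2⟩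
  have d3 : W ≤ (k ≫ f1) ⁻¹ᵁ (L.U a.1 ⊓ L.U b.1) := d1
  have d4 : W ≤ (k ≫ f2) ⁻¹ᵁ (L.U a.2 ⊓ L.U b.2) := d2
  refine (no_nef_tensor k (L.pull f1) (L.pull f2) a b W c d1 d2).trans ?_
  congr 1
  · refine (no_nef_pull k f1 L a.1 b.1 W d1 d3).trans ?_
    exact no_nef_pb_congr e1 d3 c1 _
  · refine (no_nef_pull k f2 L a.2 b.2 W d2 d4).trans ?_
    exact no_nef_pb_congr e2 d4 c2 _

/-- TARGET -/
theorem no_nef {X X' B C : Scheme.{0}} (s : X ⟶ SpecC) (L : LB X) (p : X' ⟶ X)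
    (β : B ⟶ pullback (p ≫ s) (p ≫ s)) (N : LB B) (m n : ℕ) (hmn : 2 * n < m)
    [IsIntegral C] (h : C ⟶ B)
    (hprop : IsProper (h ≫ β ≫ pullback.fst (p ≫ s) (p ≫ s) ≫ p ≫ s)) (r : C ⟶ X)
    (h1 : h ≫ β ≫ pullback.fst (p ≫ s) (p ≫ s) ≫ p = r)
    (h2 : h ≫ β ≫ pullback.snd (p ≫ s) (p ≫ s) ≫ p = r)
    (v : ∀ (a : N.ι) (i : L.ι), Γ(C, h ⁻¹ᵁ N.U a ⊓ r ⁻¹ᵁ L.U i))
    (hv : ∀ a i, IsUnit (v a i))
    (hvc : ∀ a b i j, ∀ (W : C.Opens) (hW : W ≤ h ⁻¹ᵁ N.U a ⊓ r ⁻¹ᵁ L.U i)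
      (hW' : W ≤ h ⁻¹ᵁ N.U b ⊓ r ⁻¹ᵁ L.U j)
      (hWr : W ≤ r ⁻¹ᵁ (L.U i ⊓ L.U j)) (hWh : W ≤ h ⁻¹ᵁ (N.U a ⊓ N.U b)),
      res hW (v a i) * res hWr (pb r _ (L.g i j)) =
        res hWh (pb h _ (N.g a b)) * res hW' (v b j))
    (y : L.Sec) (hy : r (genericPoint C) ∈ y.nonvan) (x : C) (hx : r x ∉ y.nonvan) :
    ¬ IsNef (β ≫ pullback.fst (p ≫ s) (p ≫ s) ≫ p ≫ s)
      ((((Mp s L p).pull β).pow n).tensor ((N.pow m).dual)) := by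
  intro hnef
  set M := (((((Mp s L p).pull β).pow n).tensor ((N.pow m).dual)).dual.pow 1).pull h with hM
  have hO1 : ∀ X : (L.ι × L.ι) × N.ι, M.U X ≤ r ⁻¹ᵁ L.U X.1.1 := by
    intro X
    have e : M.U X ≤ (h ≫ β ≫ pullback.fst (p ≫ s) (p ≫ s) ≫ p) ⁻¹ᵁ L.U X.1.1 :=
      fun z hz => hz.1.1
    rw [h1] at e
    exact e
  have hO2 : ∀ X : (L.ι × L.ι) × N.ι, M.U X ≤ r ⁻¹ᵁ L.U X.1.2 := by
    intro X
    have e : M.U X ≤ (h ≫ β ≫ pullback.snd (p ≫ s) (p ≫ s) ≫ p) ⁻¹ᵁ L.U X.1.2 :=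
      fun z hz => hz.1.2
    rw [h2] at e
    exact e
  have hO3 : ∀ X : (L.ι × L.ι) × N.ι, M.U X ≤ h ⁻¹ᵁ N.U X.2 := by
    intro X
    exact fun z hz => hz.2
  have hg : ∀ X Y : (L.ι × L.ι) × N.ι,
      M.g X Y = (res (fun z hz => ⟨hO1 Y hz.2, hO1 X hz.1⟩ : M.U X ⊓ M.U Y ≤
          r ⁻¹ᵁ (L.U Y.1.1 ⊓ L.U X.1.1)) (pb r _ (L.g Y.1.1 X.1.1)) *
        res (fun z hz => ⟨hO2 Y hz.2, hO2 X hz.1⟩ : M.U X ⊓ M.U Y ≤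
          r ⁻¹ᵁ (L.U Y.1.2 ⊓ L.U X.1.2)) (pb r _ (L.g Y.1.2 X.1.2))) ^ n *
        res (fun z hz => ⟨hO3 X hz.1, hO3 Y hz.2⟩ : M.U X ⊓ M.U Y ≤
          h ⁻¹ᵁ (N.U X.2 ⊓ N.U Y.2)) (pb h _ (N.g X.2 Y.2)) ^ m := by
    intro X Y
    have c0 : M.U X ⊓ M.U Y ≤ h ⁻¹ᵁ (((((Mp s L p).pull β).pow n).tensor ((N.pow m).dual)).U Y ⊓
        ((((Mp s L p).pull β).pow n).tensor ((N.pow m).dual)).U X) := fun z hz => ⟨hz.2, hz.1⟩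
    have c1 : M.U X ⊓ M.U Y ≤ (h ≫ β) ⁻¹ᵁ ((Mp s L p).U Y.1 ⊓ (Mp s L p).U X.1) :=
      fun z hz => ⟨hz.2.1, hz.1.1⟩
    refine (no_nef_g1 h ((((Mp s L p).pull β).pow n).tensor ((N.pow m).dual)) X Y c0).trans ?_
    refine (no_nef_g2 h β (Mp s L p) N m n X Y (M.U X ⊓ M.U Y) c0 c1
      (fun z hz => ⟨hO3 X hz.1, hO3 Y hz.2⟩)).trans ?_
    congr 2
    exact no_nef_g3 (h ≫ β) (pullback.fst (p ≫ s) (p ≫ s) ≫ p) (pullback.snd (p ≫ s) (p ≫ s) ≫ p)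
      L r (by rw [← h1, Category.assoc]) (by rw [← h2, Category.assoc]) Y.1 X.1 _ c1 _ _
  let tt : ∀ X : (L.ι × L.ι) × N.ι, Γ(C, M.U X) := fun X =>
    res (fun z hz => ⟨hO3 X hz, hO1 X hz⟩ : M.U X ≤ h ⁻¹ᵁ N.U X.2 ⊓ r ⁻¹ᵁ L.U X.1.1)
      (v X.2 X.1.1) ^ m *
    res (fun z hz => ⟨hO1 X hz, hO2 X hz⟩ : M.U X ≤ r ⁻¹ᵁ (L.U X.1.1 ⊓ L.U X.1.2))
      (pb r (L.U X.1.1 ⊓ L.U X.1.2) (L.g X.1.1 X.1.2)) ^ n *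
    res (hO1 X) (pb r _ (y.s X.1.1)) ^ (m - 2 * n)
  -- cocycle relation for `G` on an open set `W`
  have hG : ∀ (W : C.Opens) (i j k : L.ι) (a : W ≤ r ⁻¹ᵁ (L.U i ⊓ L.U j))
      (b : W ≤ r ⁻¹ᵁ (L.U j ⊓ L.U k)) (c : W ≤ r ⁻¹ᵁ (L.U i ⊓ L.U k)),
      res a (pb r _ (L.g i j)) * res b (pb r _ (L.g j k)) = res c (pb r _ (L.g i k)) := by
    intro W i j k a b c
    have e := congrArg (fun z => res (fun z hz => ⟨a hz, (b hz).2⟩ :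
      W ≤ r ⁻¹ᵁ (L.U i ⊓ L.U j ⊓ L.U k)) (pb r _ z)) (L.g_mul i j k)
    simp only [map_mul, pb_res, res_res] at e
    exact e
  have hG1 : ∀ (W : C.Opens) (i : L.ι) (a : W ≤ r ⁻¹ᵁ (L.U i ⊓ L.U i)),
      res a (pb r _ (L.g i i)) = 1 := by
    intro W i a
    rw [L.g_self, map_one, map_one]
  have hY : ∀ (W : C.Opens) (i j : L.ι) (a : W ≤ r ⁻¹ᵁ L.U i) (b : W ≤ r ⁻¹ᵁ L.U j)
      (c : W ≤ r ⁻¹ᵁ (L.U i ⊓ L.U j)),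
      res a (pb r _ (y.s i)) = res c (pb r _ (L.g i j)) * res b (pb r _ (y.s j)) := by
    intro W i j a b c
    have e := congrArg (fun z => res c (pb r _ z)) (y.compat i j)
    simp only [map_mul, pb_res, res_res] at e
    exact e
  have hcompat : ∀ X Y : (L.ι × L.ι) × N.ι, res inf_le_left (tt X) =
      M.g X Y * res inf_le_right (tt Y) := by
    intro X Y
    rw [hg]
    simp only [tt, map_mul, map_pow, res_res]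
    set W := M.U X ⊓ M.U Y with hWdef
    have w1 : W ≤ r ⁻¹ᵁ L.U X.1.1 := fun z hz => hO1 X hz.1
    have w2 : W ≤ r ⁻¹ᵁ L.U X.1.2 := fun z hz => hO2 X hz.1
    have w3 : W ≤ h ⁻¹ᵁ N.U X.2 := fun z hz => hO3 X hz.1
    have w4 : W ≤ r ⁻¹ᵁ L.U Y.1.1 := fun z hz => hO1 Y hz.2
    have w5 : W ≤ r ⁻¹ᵁ L.U Y.1.2 := fun z hz => hO2 Y hz.2
    have w6 : W ≤ h ⁻¹ᵁ N.U Y.2 := fun z hz => hO3 Y hz.2
    have a1 := hvc X.2 Y.2 X.1.1 Y.1.1 W (fun z hz => ⟨w3 hz, w1 hz⟩) (fun z hz => ⟨w6 hz, w4 hz⟩)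
      (fun z hz => ⟨w1 hz, w4 hz⟩) (fun z hz => ⟨w3 hz, w6 hz⟩)
    have a2 := hG W X.1.1 Y.1.1 X.1.1 (fun z hz => ⟨w1 hz, w4 hz⟩) (fun z hz => ⟨w4 hz, w1 hz⟩)
      (fun z hz => ⟨w1 hz, w1 hz⟩)
    rw [hG1] at a2
    have a3 := hG W X.1.1 Y.1.1 Y.1.2 (fun z hz => ⟨w1 hz, w4 hz⟩) (fun z hz => ⟨w4 hz, w5 hz⟩)
      (fun z hz => ⟨w1 hz, w5 hz⟩)
    have a4 := hG W X.1.1 Y.1.2 X.1.2 (fun z hz => ⟨w1 hz, w5 hz⟩) (fun z hz => ⟨w5 hz, w2 hz⟩)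
      (fun z hz => ⟨w1 hz, w2 hz⟩)
    rw [← a3] at a4
    have a5 := hY W X.1.1 Y.1.1 w1 w4 (fun z hz => ⟨w1 hz, w4 hz⟩)
    exact no_nef_alg m n hmn.le _ _ _ _ _ _ _ _ _ _ a1 a2 a4.symm a5
  let t : M.Sec := ⟨tt, hcompat⟩
  have hzero := hnef C h inferInstance hprop 1 le_rfl t (by
    refine ⟨x, fun hxt => hx ?_⟩
    unfold LB.Sec.nonvan at hxt
    rw [Opens.mem_iSup] at hxt
    obtain ⟨X, hX⟩ := hxt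
    have hX1 : x ∈ C.basicOpen (tt X) := hX
    simp only [tt] at hX1
    rw [Scheme.basicOpen_mul] at hX1
    have hX2 := hX1.2
    rw [Scheme.basicOpen_pow _ _ (by omega), no_nef_bo_res, no_nef_bo_pb] at hX2
    unfold LB.Sec.nonvan
    rw [Opens.mem_iSup]
    exact ⟨X.1.1, hX2.2⟩)
  obtain ⟨i, hi⟩ := L.cov (r (genericPoint C))
  obtain ⟨a, ha⟩ := N.cov (h (genericPoint C))
  have hmem : genericPoint C ∈ M.U ((i, i), a) := by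
    have e1 : genericPoint C ∈ r ⁻¹ᵁ L.U i := hi
    have e2 : genericPoint C ∈ (h ≫ β ≫ pullback.fst (p ≫ s) (p ≫ s) ≫ p) ⁻¹ᵁ L.U i := by
      rw [h1]; exact e1
    have e3 : genericPoint C ∈ (h ≫ β ≫ pullback.snd (p ≫ s) (p ≫ s) ≫ p) ⁻¹ᵁ L.U i := by
      rw [h2]; exact e1
    exact ⟨⟨e2, e3⟩, ha⟩
  have hz := hzero ((i, i), a)
  have hz' : tt ((i, i), a) = 0 := hz
  have hb : genericPoint C ∈ C.basicOpen (tt ((i, i), a)) := by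
    simp only [tt]
    rw [Scheme.basicOpen_mul, Scheme.basicOpen_mul]
    refine ⟨⟨?_, ?_⟩, ?_⟩
    · rw [Scheme.basicOpen_of_isUnit _ (((hv a i).map _).pow m)]
      exact hmem
    · rw [L.g_self, map_one, map_one, one_pow, Scheme.basicOpen_of_isUnit _ isUnit_one]
      exact hmem
    · rw [Scheme.basicOpen_pow _ _ (by omega), no_nef_bo_res, no_nef_bo_pb]
      exact ⟨hmem, (mem_basicOpen_of_nonvan y _ i hi).1 hy⟩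
  rw [hz', Scheme.basicOpen_zero] at hb
  exact hb

end Pool.Agent.Helper304.Ses
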