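import Pool.Agent.Helper304.Ses.Defs

open AlgebraicGeometry CategoryTheory Limits TopologicalSpace

namespace Pool.Agent.Helper304.Ses

/-- In a noetherian space connected components are open. -/
lemma isOpen_cc {T : Type*} [TopologicalSpace T] [NoetherianSpace T] (y : T) :
    IsOpen (connectedComponent y) := by
  have hc : (connectedComponent y)ᶜ =
      ⋃ W ∈ {W ∈ irreducibleComponents T | W ⊆ (connectedComponent y)ᶜ}, W := by
    ext z
    simp only [Set.mem_iUnion, Set.mem_ofPred_eq]
    constructor
    · intro hz
      refine ⟨irreducibleComponent z, ⟨irreducibleComponent_mem_irreducibleComponents z, ?_⟩,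
        mem_irreducibleComponent⟩
      intro w hw hw'
      have h1 : w ∈ connectedComponent z :=
        isIrreducible_irreducibleComponent.isPreirreducible.isPreconnected.subset_connectedComponent
          mem_irreducibleComponent hw
      have h2 : connectedComponent z = connectedComponent y := by
        rw [connectedComponent_eq h1, connectedComponent_eq hw']
      exact hz (h2 ▸ mem_connectedComponent)
    · rintro ⟨W, ⟨_, hW⟩, hz⟩
      exact hW hz
  have hcl : IsClosed (connectedComponent y)ᶜ := by
    rw [hc]
    exact (NoetherianSpace.finite_irreducibleComponents.subset (fun W hW => hW.1)).isClosed_biUnion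
      fun W hW ↦ isClosed_of_mem_irreducibleComponents W hW.1
  simpa using hcl.isOpen_compl

/-- TARGET 1: a connected component of a finite étale covering. -/
theorem exists_component {X Y : Scheme.{0}} (s : X ⟶ SpecC) [IsProper s] (q : Y ⟶ X)
    [IsFinite q] [Etale q] [Nonempty Y] :
    ∃ (X' : Scheme.{0}) (j : X' ⟶ Y), IsCover (j ≫ q) := by
  have h1 : IsLocallyNoetherian Y := LocallyOfFiniteType.isLocallyNoetherian (q ≫ s)
  have h2 : CompactSpace Y := (quasiCompact_iff_compactSpace (f := q ≫ s)).mp inferInstance
  have h3 : IsNoetherian Y := { __ := h1 }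
  obtain ⟨y⟩ := ‹Nonempty Y›
  let U : Y.Opens := ⟨connectedComponent y, isOpen_cc y⟩
  have hcl : IsClosed (Set.range U.ι) := by
    rw [Scheme.Opens.range_ι]
    exact isClosed_connectedComponent
  have hci : IsClosedImmersion U.ι := IsClosedImmersion.of_isPreimmersion _ hcl
  refine ⟨U, U.ι, ⟨inferInstance, inferInstance, ?_⟩⟩
  exact isConnected_iff_connectedSpace.mp isConnected_connectedComponent

/-- TARGET 2: finite étale morphisms to connected schemes are surjective. -/
theorem surj_of {X Y : Scheme.{0}} (q : Y ⟶ X) [IsFinite q] [Etale q] [Nonempty Y]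
    [ConnectedSpace X] (x : X) : ∃ y : Y, q y = x := by
  have ho : IsOpen (Set.range q) := by
    have := q.isOpenMap
    exact this.isOpen_range
  have hc : IsClosed (Set.range q) := q.isClosedMap.isClosed_range
  have := IsClopen.eq_univ ⟨hc, ho⟩ (Set.range_nonempty _)
  have hx : x ∈ Set.range q := this ▸ Set.mem_univ x
  exact hx

end Pool.Agent.Helper304.Ses
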