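import Pool.Agent.Helper304.Ses.Adefs
import Pool.Agent.Helper304.Ses.Ma1
import Pool.Agent.Helper304.Ses.Ma2
import Pool.Agent.Helper304.Ses.Ma3
import Pool.Agent.Helper304.Ses.Ma4
import Pool.Agent.Helper304.Ses.Ma5
import Pool.Agent.Helper304.Ses.Ma6
import Pool.Agent.Helper304.Ses.Ma7
import Pool.Agent.Helper304.Ses.Mb1

open AlgebraicGeometry CategoryTheory Limits TopologicalSpace

namespace Pool.Agent.Helper304.Ses

/-- the comparison of the two Cartier divisors on `T` -/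
theorem exists_units {V B W T X Z : Scheme.{0}} (i : W ⟶ V) (β : B ⟶ V)
    (E : Cartier (pullback.snd i β)) (k : Z ⟶ X) (F : Cartier k) (q : T ⟶ X) [Flat q]
    (f : T ⟶ V) (g : T ⟶ B) (hg : g ≫ β = f)
    (hker : (pullback.snd i f).ker = (pullback.snd k q).ker) :
    ∃ v : ∀ (a : E.N.ι) (l : F.N.ι), Γ(T, g ⁻¹ᵁ E.N.U a ⊓ q ⁻¹ᵁ F.N.U l),
      (∀ a l, IsUnit (v a l)) ∧
      ∀ a l, res inf_le_left (pb g _ (E.one.s a)) = v a l * res inf_le_right (pb q _ (F.one.s l)) := by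
  have key : ∀ (a : E.N.ι) (l : F.N.ι), ∃ v : Γ(T, g ⁻¹ᵁ E.N.U a ⊓ q ⁻¹ᵁ F.N.U l),
      IsUnit v ∧ res inf_le_left (pb g _ (E.one.s a)) =
        v * res inf_le_right (pb q _ (F.one.s l)) := by
    intro a l
    apply unit_of_span
    · intro V h
      rw [res_res]
      exact regular_pull F q l V _
    · intro V h
      rw [res_res, res_res, ← ideal_pull F q l V _, ← ideal_pull E g a V _, ← hker,
        ker_pull_pull i β g f hg]
  choose v hv1 hv2 using key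
  exact ⟨v, hv1, hv2⟩

/-- the comparison units are compatible with the transition functions -/
theorem units_compat {B T X Z Y : Scheme.{0}} {b : Y ⟶ B}
    (E : Cartier b) (k : Z ⟶ X) (F : Cartier k) (q : T ⟶ X) [Flat q] (g : T ⟶ B)
    (v : ∀ (a : E.N.ι) (l : F.N.ι), Γ(T, g ⁻¹ᵁ E.N.U a ⊓ q ⁻¹ᵁ F.N.U l))
    (hv : ∀ a l, res inf_le_left (pb g _ (E.one.s a)) = v a l * res inf_le_right (pb q _ (F.one.s l)))
    (a a' : E.N.ι) (l l' : F.N.ι) (W : T.Opens) (hW : W ≤ g ⁻¹ᵁ E.N.U a ⊓ q ⁻¹ᵁ F.N.U l)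
    (hW' : W ≤ g ⁻¹ᵁ E.N.U a' ⊓ q ⁻¹ᵁ F.N.U l') (hWq : W ≤ q ⁻¹ᵁ (F.N.U l ⊓ F.N.U l'))
    (hWg : W ≤ g ⁻¹ᵁ (E.N.U a ⊓ E.N.U a')) :
    res hW (v a l) * res hWq (pb q _ (F.N.g l l')) =
      res hWg (pb g _ (E.N.g a a')) * res hW' (v a' l') := by
  apply eq_of_regular W _ _ (res (hW'.trans inf_le_right) (pb q _ (F.one.s l')))
  · intro V h
    rw [res_res]
    exact regular_pull F q l' V _
  · have e1 := congrArg (res hW) (hv a l)
    have e2 := congrArg (res hW') (hv a' l')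
    have e3 := congrArg (res hWq) (congrArg (pb q (F.N.U l ⊓ F.N.U l')) (F.one.compat l l'))
    have e4 := congrArg (res hWg) (congrArg (pb g (E.N.U a ⊓ E.N.U a')) (E.one.compat a a'))
    simp only [map_mul, pb_res, res_res] at e1 e2 e3 e4
    rw [mul_assoc, ← e3, ← e1, e4, e2, mul_assoc]

theorem upper_bound {X : Scheme.{0}} (s : X ⟶ SpecC) [IsIntegral X] [IsProper s] (σ : X ⟶ X)
    (hσ : σ ≫ s = s) (F : Cartier (fixι s σ hσ)) (y y2 : F.N.Sec) (η : X)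
    (hw : η ∉ F.one.nonvan) (hy : η ∈ y.nonvan)
    (i0 : F.N.ι) (hi0 : η ∈ F.N.U i0)
    (hyc : ∀ c : ℂ, η ∈ X.basicOpen (y2.s i0 - cst s _ c * y.s i0))
    {X' : Scheme.{0}} (p : X' ⟶ X) (hp : IsCover p) : epsDiag s F.N p ≤ 2 := by
  have := hp.finite
  have := hp.etale
  have := hp.connected
  unfold epsDiag seshadri
  refine iSup_le fun B => iSup_le fun β => iSup_le fun hβ => iSup_le fun E => iSup_le fun m =>
    iSup_le fun n => iSup_le fun hn => iSup_le fun hnef => ?_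
  by_contra hcon
  have hmn : 2 * n < m := by
    by_contra hle
    push Not at hle
    apply hcon
    apply ENNReal.div_le_of_le_mul
    exact_mod_cast hle
  obtain ⟨T, f, hflat, hker, hC⟩ := exists_T s σ hσ p
  have hcl : IsClosedImmersion (pullback.snd (pullback.diagonal (p ≫ s)) f) := by
    infer_instance
  let q := f ≫ pullback.fst (p ≫ s) (p ≫ s) ≫ p
  have hflat' : Flat q := hflat
  have hid : ∀ (i : (F.N.pull q).ι) (V : T.affineOpens) (h : (V : T.Opens) ≤ (F.N.pull q).U i),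
      (pullback.snd (pullback.diagonal (p ≫ s)) f).ker.ideal V =
        Ideal.span {res h ((F.one.pull q).s i)} := by
    intro i V h
    rw [hker]
    exact ideal_pull F q i V h
  have hrg : ∀ (i : (F.N.pull q).ι) (V : T.affineOpens) (h : (V : T.Opens) ≤ (F.N.pull q).U i),
      res h ((F.one.pull q).s i) ∈ nonZeroDivisors Γ(T, V) := by
    intro i V h
    exact regular_pull F q i V h
  have G : Cartier (pullback.snd (pullback.diagonal (p ≫ s)) f) :=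
    ⟨hcl, F.N.pull q, F.one.pull q, hid, hrg⟩
  obtain ⟨g, hg, -⟩ := hβ.2 T f ⟨G⟩
  replace hg : g ≫ β = f := hg
  obtain ⟨v, hv1, hv2⟩ := exists_units (pullback.diagonal (p ≫ s)) β E (fixι s σ hσ) F q f g hg hker
  obtain ⟨η', hη'⟩ := surj_of p η
  obtain ⟨C, j, hCint, hjcl, hj⟩ := exists_closure η'
  have hr : (j ≫ p) (genericPoint C) = η := by
    rw [Scheme.Hom.comp_apply, hj, hη']
  have hfix : (j ≫ p) ≫ σ = j ≫ p := by
    apply fixed_of_vanish s σ hσ F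
    rw [hr]
    exact hw
  obtain ⟨c, hc⟩ := hC C j (by rw [← Category.assoc]; exact hfix)
  have hcq : c ≫ q = j ≫ p := by
    have h1 : c ≫ q = (c ≫ f) ≫ pullback.fst (p ≫ s) (p ≫ s) ≫ p := by
      simp only [q, Category.assoc]
    rw [h1, hc, Category.assoc, pullback.diagonal_fst_assoc]
  have h1 : (c ≫ g) ≫ β ≫ pullback.fst (p ≫ s) (p ≫ s) ≫ p = j ≫ p := by
    have : (c ≫ g) ≫ β ≫ pullback.fst (p ≫ s) (p ≫ s) ≫ p =
        (c ≫ (g ≫ β)) ≫ pullback.fst (p ≫ s) (p ≫ s) ≫ p := by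
      simp only [Category.assoc]
    rw [this, hg, hc, Category.assoc, pullback.diagonal_fst_assoc]
  have h2 : (c ≫ g) ≫ β ≫ pullback.snd (p ≫ s) (p ≫ s) ≫ p = j ≫ p := by
    have : (c ≫ g) ≫ β ≫ pullback.snd (p ≫ s) (p ≫ s) ≫ p =
        (c ≫ (g ≫ β)) ≫ pullback.snd (p ≫ s) (p ≫ s) ≫ p := by
      simp only [Category.assoc]
    rw [this, hg, hc, Category.assoc, pullback.diagonal_snd_assoc]
  have hprop : IsProper ((j ≫ p) ≫ s) := by
    infer_instance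
  -- a zero of `y` on `C`
  have hzero : ∃ x : C, (j ≫ p) x ∉ y.nonvan := by
    by_contra hall
    push Not at hall
    obtain ⟨z, hz⟩ := const_of_nonvan ((j ≫ p) ≫ s) (F.N.pull (j ≫ p)) (y.pull (j ≫ p))
      (y2.pull (j ≫ p)) (by
        intro x
        rw [nonvan_pull]
        exact hall x)
    have hz0 := hz i0
    have hb : genericPoint C ∈ (j ≫ p) ⁻¹ᵁ X.basicOpen (y2.s i0 - cst s _ z * y.s i0) := by
      change (j ≫ p) (genericPoint C) ∈ X.basicOpen (y2.s i0 - cst s _ z * y.s i0)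
      rw [hr]
      exact hyc z
    rw [Scheme.preimage_basicOpen] at hb
    have hb2 : (Scheme.Hom.app (j ≫ p) (F.N.U i0)) (y2.s i0 - cst s _ z * y.s i0) = 0 := by
      have : pb (j ≫ p) _ (y2.s i0 - cst s _ z * y.s i0) = 0 := by
        rw [map_sub, map_mul, pb_cst]
        rw [sub_eq_zero]
        exact hz0
      exact this
    rw [hb2, Scheme.basicOpen_zero] at hb
    exact hb
  obtain ⟨x, hx⟩ := hzero
  have hnef' := hnef
  refine no_nef s F.N p β E.N m n hmn (c ≫ g) ?_ (j ≫ p) h1 h2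
    (fun a l => res ?_ (pb c _ (v a l))) ?_ ?_ y ?_ x hx hnef'
  · have : (c ≫ g) ≫ β ≫ pullback.fst (p ≫ s) (p ≫ s) ≫ p ≫ s = (j ≫ p) ≫ s := by
      rw [← h1]
      simp only [Category.assoc]
    rw [this]
    exact hprop
  · intro z hz
    refine ⟨hz.1, ?_⟩
    have hz2 : (j ≫ p) z ∈ F.N.U l := hz.2
    rw [← hcq] at hz2
    exact hz2
  · intro a l
    exact ((hv1 a l).map _).map _
  · intro a b i l W hW hW' hWr hWh
    have hcq' : ∀ z : C, q (c z) = (j ≫ p) z := by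
      intro z
      rw [← hcq]
      rfl
    have hA : (g ⁻¹ᵁ E.N.U a ⊓ q ⁻¹ᵁ F.N.U i) ⊓ (g ⁻¹ᵁ E.N.U b ⊓ q ⁻¹ᵁ F.N.U l) ≤
        q ⁻¹ᵁ (F.N.U i ⊓ F.N.U l) := fun z hz => ⟨hz.1.2, hz.2.2⟩
    have hB : (g ⁻¹ᵁ E.N.U a ⊓ q ⁻¹ᵁ F.N.U i) ⊓ (g ⁻¹ᵁ E.N.U b ⊓ q ⁻¹ᵁ F.N.U l) ≤
        g ⁻¹ᵁ (E.N.U a ⊓ E.N.U b) := fun z hz => ⟨hz.1.1, hz.2.1⟩
    have k1 := congrArg (pb c ((g ⁻¹ᵁ E.N.U a ⊓ q ⁻¹ᵁ F.N.U i) ⊓ (g ⁻¹ᵁ E.N.U b ⊓ q ⁻¹ᵁ F.N.U l)))
      (units_compat E (fixι s σ hσ) F q g v hv2 a b i l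
        ((g ⁻¹ᵁ E.N.U a ⊓ q ⁻¹ᵁ F.N.U i) ⊓ (g ⁻¹ᵁ E.N.U b ⊓ q ⁻¹ᵁ F.N.U l))
        inf_le_left inf_le_right hA hB)
    have hWc : W ≤ c ⁻¹ᵁ ((g ⁻¹ᵁ E.N.U a ⊓ q ⁻¹ᵁ F.N.U i) ⊓ (g ⁻¹ᵁ E.N.U b ⊓ q ⁻¹ᵁ F.N.U l)) := by
      intro z hz
      refine ⟨⟨(hW hz).1, ?_⟩, ⟨(hW' hz).1, ?_⟩⟩
      · change q (c z) ∈ F.N.U i
        rw [hcq']
        exact (hW hz).2
      · change q (c z) ∈ F.N.U l
        rw [hcq']
        exact (hW' hz).2
    have hx1 : W ≤ c ⁻¹ᵁ (q ⁻¹ᵁ (F.N.U i ⊓ F.N.U l)) :=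
      fun z hz => ⟨(hWc hz).1.2, (hWc hz).2.2⟩
    have hx2 : W ≤ c ⁻¹ᵁ (g ⁻¹ᵁ (E.N.U a ⊓ E.N.U b)) :=
      fun z hz => ⟨(hWc hz).1.1, (hWc hz).2.1⟩
    have k2 := congrArg (res hWc) k1
    rw [map_mul, map_mul, map_mul, map_mul] at k2
    have k5 : res hWc (pb c _ (res hA (pb q _ (F.N.g i l)))) =
        res hx1 (pb c _ (pb q _ (F.N.g i l))) :=
      (congrArg (res hWc) (pb_res c hA _)).trans (res_res _ _ _)
    have k6 : res hWc (pb c _ (res hB (pb g _ (E.N.g a b)))) =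
        res hx2 (pb c _ (pb g _ (E.N.g a b))) :=
      (congrArg (res hWc) (pb_res c hB _)).trans (res_res _ _ _)
    have k7 : res hWc (pb c _ (res inf_le_left (v a i))) =
        res (hWc.trans (c.preimage_mono inf_le_left)) (pb c _ (v a i)) :=
      (congrArg (res hWc) (pb_res c inf_le_left _)).trans (res_res _ _ _)
    have k8 : res hWc (pb c _ (res inf_le_right (v b l))) =
        res (hWc.trans (c.preimage_mono inf_le_right)) (pb c _ (v b l)) :=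
      (congrArg (res hWc) (pb_res c inf_le_right _)).trans (res_res _ _ _)
    have k3 : res hWr (pb (j ≫ p) _ (F.N.g i l)) =
        res hx1 (pb c _ (pb q _ (F.N.g i l))) := by
      rw [← pb_comp]
      exact pb_congr _ _ hcq.symm _ _ _ _ _
    have k4 : res hWh (pb (c ≫ g) _ (E.N.g a b)) =
        res hx2 (pb c _ (pb g _ (E.N.g a b))) := by
      rw [← pb_comp]
      exact pb_congr _ _ rfl _ _ _ _ _
    exact (congrArg₂ (fun x y => x * y) ((res_res _ _ _).trans k7.symm) (k3.trans k5.symm)).trans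
      (k2.trans (congrArg₂ (fun x y => x * y) (k4.trans k6.symm)
        ((res_res _ _ _).trans k8.symm)).symm)
  · rw [hr]
    exact hy

end Pool.Agent.Helper304.Ses
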