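import Pool.Agent.Helper304.Ses.Defs

open AlgebraicGeometry CategoryTheory Limits TopologicalSpace

namespace Pool.Agent.Helper304.Ses

/-- the iterates of a self map -/
noncomputable def iter {E : Scheme.{0}} (φ : E ⟶ E) : ℕ → (E ⟶ E)
  | 0 => 𝟙 E
  | k + 1 => iter φ k ≫ φ

theorem nl_top {Z E : Type} [TopologicalSpace Z] [TopologicalSpace E] [NoetherianSpace Z]
    [QuasiSober Z] [IrreducibleSpace Z]
    (hE : ∀ x : E, IsClosed ({x} : Set E) ∨ ∀ y : E, x ⤳ y) (P0 : E)
    (hP0 : IsClosed ({P0} : Set E))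
    (φ : E → E) (hφ : Continuous φ)
    (h2 : ∀ P : E, IsClosed ({P} : Set E) → ∃ Q Q' : E, Q ≠ Q' ∧ φ Q = P ∧ φ Q' = P)
    (h : Z → E) (hc : Continuous h) (hnc : ∃ a b : Z, h a ≠ h b)
    (hl : ∀ k : ℕ, ∃ g : Z → E, Continuous g ∧ IsClosedMap g ∧ ∀ z, φ^[k] (g z) = h z) :
    False := by
  classical
  obtain ⟨a0, b0, hab⟩ := hnc
  have hcl : ∀ {P x : E}, IsClosed ({P} : Set E) → P ⤳ x → x = P := by
    intro P x hP hx
    have := hx.mem_closed hP rfl
    exact this
  have hA : ∀ (k : ℕ) (Q P : E), IsClosed ({P} : Set E) → φ^[k] Q = P →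
      IsClosed ({Q} : Set E) := by
    intro k Q P hP hQ
    rcases hE Q with h1 | h1
    · exact h1
    · exfalso
      have h3 : ∀ y, φ^[k] y = P := by
        intro y
        have h4 := (h1 y).map (hφ.iterate k)
        rw [hQ] at h4
        exact hcl hP h4
      obtain ⟨g, _, _, hg⟩ := hl k
      apply hab
      rw [← hg a0, ← hg b0, h3, h3]
  have hB : ∀ (k : ℕ) (P : E), IsClosed ({P} : Set E) →
      ∃ S : Finset E, S.card = 2 ^ k ∧ ∀ Q ∈ S, φ^[k] Q = P := by
    intro k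
    induction k with
    | zero => exact fun P _ => ⟨{P}, by simp, fun Q hQ => by simpa using hQ⟩
    | succ k ih =>
      intro P hP
      obtain ⟨Q1, Q2, hne, e1, e2⟩ := h2 P hP
      obtain ⟨S1, c1, s1⟩ := ih Q1 (hA 1 Q1 P hP e1)
      obtain ⟨S2, c2, s2⟩ := ih Q2 (hA 1 Q2 P hP e2)
      have hdisj : Disjoint S1 S2 := by
        rw [Finset.disjoint_left]
        intro x hx1 hx2
        exact hne ((s1 x hx1).symm.trans (s2 x hx2))
      refine ⟨S1 ∪ S2, ?_, ?_⟩
      · rw [Finset.card_union_of_disjoint hdisj, c1, c2, pow_succ]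
        ring
      · intro Q hQ
        rw [Function.iterate_succ_apply']
        rcases Finset.mem_union.1 hQ with hQ | hQ
        · rw [s1 Q hQ, e1]
        · rw [s2 Q hQ, e2]
  have hF : IsClosed (h ⁻¹' {P0}) := hP0.preimage hc
  have hqs : QuasiSober (h ⁻¹' {P0} : Set Z) := hF.isClosedEmbedding_subtypeVal.quasiSober
  have hfin : (irreducibleComponents (h ⁻¹' {P0} : Set Z)).Finite :=
    NoetherianSpace.finite_irreducibleComponents
  have hfin' : Finite (irreducibleComponents (h ⁻¹' {P0} : Set Z)) := hfin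
  obtain ⟨k, hk⟩ : ∃ k, k = Nat.card (irreducibleComponents (h ⁻¹' {P0} : Set Z)) := ⟨_, rfl⟩
  obtain ⟨S, hS, hSP⟩ := hB k P0 hP0
  obtain ⟨g, gc, gcl, hg⟩ := hl k
  have hsurj : Function.Surjective g := by
    rcases hE (g (genericPoint Z)) with h1 | h1
    · exfalso
      have h3 : ∀ z, g z = g (genericPoint Z) := fun z =>
        hcl h1 ((genericPoint_specializes z).map gc)
      apply hab
      rw [← hg a0, ← hg b0, h3 a0, h3 b0]
    · intro y
      exact (h1 y).mem_closed gcl.isClosed_range ⟨_, rfl⟩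
  choose zf hzf using hsurj
  have hmem : ∀ Q ∈ S, zf Q ∈ h ⁻¹' {P0} := by
    intro Q hQ
    show h (zf Q) = P0
    rw [← hg, hzf, hSP Q hQ]
  let f : S → irreducibleComponents (h ⁻¹' {P0} : Set Z) := fun Q =>
    ⟨irreducibleComponent (⟨zf Q.1, hmem Q.1 Q.2⟩ : (h ⁻¹' {P0} : Set Z)),
      irreducibleComponent_mem_irreducibleComponents _⟩
  have hinj : Function.Injective f := by
    rintro ⟨Q, hQ⟩ ⟨Q', hQ'⟩ heq
    have heq' : irreducibleComponent (⟨zf Q, hmem Q hQ⟩ : (h ⁻¹' {P0} : Set Z)) =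
        irreducibleComponent (⟨zf Q', hmem Q' hQ'⟩ : (h ⁻¹' {P0} : Set Z)) :=
      congrArg Subtype.val heq
    obtain ⟨c, hcgen⟩ := QuasiSober.sober
      (isIrreducible_irreducibleComponent (x := (⟨zf Q, hmem Q hQ⟩ : (h ⁻¹' {P0} : Set Z))))
      isClosed_irreducibleComponent
    have key : ∀ z : (h ⁻¹' {P0} : Set Z),
        z ∈ irreducibleComponent (⟨zf Q, hmem Q hQ⟩ : (h ⁻¹' {P0} : Set Z)) →
        g z.1 = g c.1 := by
      intro z hz
      have h3 : c ⤳ z := by
        rw [specializes_iff_mem_closure, hcgen.def]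
        exact hz
      have h4 : g c.1 ⤳ g z.1 := (h3.map continuous_subtype_val).map gc
      have h5 : IsClosed ({g c.1} : Set E) := hA k _ P0 hP0 (by rw [hg]; exact c.2)
      exact hcl h5 h4
    have k1 := key ⟨zf Q, hmem Q hQ⟩ mem_irreducibleComponent
    have k2 := key ⟨zf Q', hmem Q' hQ'⟩ (by rw [heq']; exact mem_irreducibleComponent)
    have k3 : g (zf Q) = g (zf Q') := k1.trans k2.symm
    rw [hzf, hzf] at k3
    exact Subtype.ext k3
  have hcard := Nat.card_le_card_of_injective f hinj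
  rw [← hk, Nat.card_eq_fintype_card, Fintype.card_coe, hS] at hcard
  exact absurd hcard (not_le.2 Nat.lt_two_pow_self)

theorem iter_apply {E : Scheme.{0}} (φ : E ⟶ E) (k : ℕ) (x : E) : iter φ k x = φ^[k] x := by
  induction k with
  | zero => simp [iter]
  | succ k ih =>
    rw [Function.iterate_succ_apply', ← ih]
    simp [iter]

theorem iter_comp {E : Scheme.{0}} (sE : E ⟶ SpecC) (φ : E ⟶ E) (hφ : φ ≫ sE = sE) (k : ℕ) :
    iter φ k ≫ sE = sE := by
  induction k with
  | zero => simp [iter]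
  | succ k ih => rw [iter, Category.assoc, hφ, ih]

/-- TARGET: a non-constant morphism from a proper integral scheme to the curve `E` cannot
factor through all iterates of `φ`. -/
theorem no_lift {Z E : Scheme.{0}} (sE : E ⟶ SpecC) [IsIntegral E] [IsProper sE]
    (hE : ∀ x : E, IsClosed {x} ∨ ∀ y : E, x ⤳ y) (P0 : E) (hP0 : IsClosed {P0})
    (φ : E ⟶ E) (hφ : φ ≫ sE = sE)
    (h2 : ∀ P : E, IsClosed {P} → ∃ Q Q' : E, Q ≠ Q' ∧ φ Q = P ∧ φ Q' = P)
    [IsIntegral Z] (h : Z ⟶ E) (hp : IsProper (h ≫ sE)) (hnc : ∃ a b : Z, h a ≠ h b)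
    (hl : ∀ k, ∃ g : Z ⟶ E, g ≫ iter φ k = h) : False := by
  have hln : IsLocallyNoetherian Z := LocallyOfFiniteType.isLocallyNoetherian (h ≫ sE)
  have hcomp : CompactSpace Z := by
    have : QuasiCompact (h ≫ sE) := inferInstance
    exact QuasiCompact.compactSpace_of_compactSpace (h ≫ sE)
  have hnoeth : IsNoetherian Z := { }
  refine nl_top (Z := Z) (E := E) hE P0 hP0 φ φ.continuous h2 h h.continuous hnc ?_
  intro k
  obtain ⟨g, hg⟩ := hl k
  have hgs : g ≫ sE = h ≫ sE := by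
    rw [← hg, Category.assoc, iter_comp sE φ hφ]
  have hpr : IsProper (g ≫ sE) := by rw [hgs]; exact hp
  have hpg : IsProper g := IsProper.of_comp g sE
  refine ⟨g, g.continuous, g.isClosedMap, fun z => ?_⟩
  rw [← iter_apply, ← hg]
  simp

end Pool.Agent.Helper304.Ses
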