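import Pool.Agent.Helper304.Ses.Defs
import Pool.Agent.Helper304.Ses.Mb1
import Pool.Agent.Helper304.Ses.Mb2

open AlgebraicGeometry CategoryTheory Limits TopologicalSpace

namespace Pool.Agent.Helper304.Ses

/-- TARGET (the theorems above may be used). -/
theorem large_of {X E : Scheme.{0}} (s : X ⟶ SpecC) (sE : E ⟶ SpecC) [IsIntegral X] [IsProper s]
    [IsIntegral E] [IsProper sE] (f : Fin 2 → (X ⟶ E)) (hf : ∀ i, f i ≫ sE = s)
    (hcl : ∀ x : X, (∀ i, IsClosed {f i x}) → IsClosed {x})
    (hE : ∀ x : E, IsClosed {x} ∨ ∀ y : E, x ⤳ y)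
    (P0 : E) (hP0 : IsClosed {P0})
    (φ : E ⟶ E) [IsFinite φ] [Etale φ] (hφ : φ ≫ sE = sE)
    (h2 : ∀ P : E, IsClosed {P} → ∃ Q Q' : E, Q ≠ Q' ∧ φ Q = P ∧ φ Q' = P) :
    HasLargeAlgPi1 s := by
  intro Z h hZ hp hab
  -- properness of the composites
  have hcomp : ∀ i, (h ≫ f i) ≫ sE = h ≫ s := fun i => by rw [Category.assoc, hf]
  have hpE : ∀ i, IsProper ((h ≫ f i) ≫ sE) := fun i => by rw [hcomp]; exact hp
  have hpi : ∀ i, IsProper (h ≫ f i) := fun i => by
    have := hpE i
    exact IsProper.of_comp (h ≫ f i) sE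
  -- some composite is nonconstant
  have hnc : ∃ i, ∃ a b : Z, (h ≫ f i) a ≠ (h ≫ f i) b := by
    by_contra hcon
    push Not at hcon
    obtain ⟨a, b, hne⟩ := hab
    have hgen : ∀ z : Z, genericPoint Z ⤳ z := fun z => genericPoint_specializes z
    have hclE : ∀ i, IsClosed {f i (h (genericPoint Z))} := by
      intro i
      have hpp := hpi i
      have h1 : IsClosedMap (h ≫ f i) := (h ≫ f i).isClosedMap
      have h2 : Set.range (h ≫ f i) = {f i (h (genericPoint Z))} := by
        ext y
        constructor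
        · rintro ⟨z, rfl⟩
          rw [Set.mem_singleton_iff, hcon i z (genericPoint Z)]
          rfl
        · intro hy
          rw [Set.mem_singleton_iff] at hy
          exact ⟨genericPoint Z, by rw [hy]; rfl⟩
      rw [← h2]
      exact h1.isClosed_range
    have hclx := hcl _ hclE
    have hconst : ∀ z : Z, h z = h (genericPoint Z) := by
      intro z
      have h1 : h (genericPoint Z) ⤳ h z := (hgen z).map h.continuous
      have h2 := h1.mem_closure
      rw [hclx.closure_eq] at h2
      exact h2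
    exact hne ((hconst a).trans (hconst b).symm)
  obtain ⟨i, hi⟩ := hnc
  -- a level to which `h ≫ f i` does not lift
  obtain ⟨k, hk⟩ : ∃ k, ∀ g : Z ⟶ E, g ≫ iter φ k ≠ h ≫ f i := by
    by_contra hcon
    push Not at hcon
    exact no_lift sE hE P0 hP0 φ hφ h2 (h ≫ f i) (hpE i) hi hcon
  -- iterates are finite étale
  have hiter : ∀ k, IsFinite (iter φ k) ∧ Etale (iter φ k) := by
    intro k
    induction k with
    | zero =>
      constructor
      · show IsFinite (𝟙 E); infer_instance
      · show Etale (𝟙 E); infer_instance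
    | succ k ih =>
      obtain ⟨h1, h2⟩ := ih
      constructor
      · show IsFinite (iter φ k ≫ φ); infer_instance
      · show Etale (iter φ k ≫ φ); infer_instance
  obtain ⟨hfin, het⟩ := hiter k
  have hqf : IsFinite (pullback.fst (f i) (iter φ k)) := inferInstance
  have hqe : Etale (pullback.fst (f i) (iter φ k)) := inferInstance
  have hne : Nonempty (pullback (f i) (iter φ k) : Scheme.{0}) := by
    obtain ⟨x⟩ : Nonempty X := inferInstance
    have : ConnectedSpace E := inferInstance
    obtain ⟨e, he⟩ := surj_of (iter φ k) (f i x)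
    obtain ⟨z, -, -⟩ := Scheme.Pullback.exists_preimage_pullback (f := f i) (g := iter φ k) x e
      he.symm
    exact ⟨z⟩
  obtain ⟨X', j, hcov⟩ := exists_component s (pullback.fst (f i) (iter φ k))
  refine ⟨X', j ≫ pullback.fst (f i) (iter φ k), hcov, ?_⟩
  rintro ⟨g, hg⟩
  apply hk (g ≫ j ≫ pullback.snd (f i) (iter φ k))
  rw [Category.assoc, Category.assoc, ← pullback.condition, ← hg]
  simp only [Category.assoc]

end Pool.Agent.Helper304.Ses
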