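import Pool.Agent.Helper304.Ses.Ex

open MvPolynomial AlgebraicGeometry CategoryTheory Limits TopologicalSpace
open Pool.Agent.Helper198.Sch

namespace Pool.Agent.Helper304.Ses

attribute [local instance] MvPolynomial.gradedAlgebra

theorem vprop_surj {σ : Type} (J : HI σ ℂ) :
    Function.Surjective (algebraMap ℂ (qgrad J.toIdeal 0)) := by
  rintro ⟨x, hx⟩
  obtain ⟨f, hf, hfx⟩ := mem_qgrad.1 hx
  have h1 : f.totalDegree = 0 := Nat.le_zero.1 hf.totalDegree_le
  rw [totalDegree_eq_zero_iff_eq_C] at h1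
  refine ⟨coeff 0 f, ?_⟩
  apply Subtype.ext
  show (algebraMap ℂ (MvPolynomial σ ℂ ⧸ J.toIdeal)) (coeff 0 f) = x
  rw [← hfx]
  conv_rhs => rw [h1]
  rfl

theorem vprop_ft {σ : Type} [Finite σ] (J : HI σ ℂ) :
    Algebra.FiniteType (qgrad J.toIdeal 0) (MvPolynomial σ ℂ ⧸ J.toIdeal) := by
  have : IsScalarTower ℂ (qgrad J.toIdeal 0) (MvPolynomial σ ℂ ⧸ J.toIdeal) := by
    constructor
    intro a b c
    show ((a • b : qgrad J.toIdeal 0) : MvPolynomial σ ℂ ⧸ J.toIdeal) * c = a • ((b : MvPolynomial σ ℂ ⧸ J.toIdeal) * c)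
    rw [Submodule.coe_smul, smul_mul_assoc]
  exact Algebra.FiniteType.of_restrictScalars_finiteType ℂ _ _

/-- `V_+(J)` is proper over `R`. -/
theorem V_proper {σ : Type} [Finite σ] (J : HI σ ℂ) : IsProper (V.str J) := by
  have := vprop_ft J
  have h1 : IsProper (Proj.toSpecZero (qgrad J.toIdeal)) := inferInstance
  have h2 : IsClosedImmersion (Spec.map (CommRingCat.ofHom (algebraMap ℂ (qgrad J.toIdeal 0)))) :=
    IsClosedImmersion.spec_of_surjective _ (vprop_surj J)
  have h3 : IsProper (Spec.map (CommRingCat.ofHom (algebraMap ℂ (qgrad J.toIdeal 0)))) := inferInstance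
  have h4 : IsProper (Proj.toSpecZero (qgrad J.toIdeal) ≫
    Spec.map (CommRingCat.ofHom (algebraMap ℂ (qgrad J.toIdeal 0)))) := inferInstance
  exact h4

end Pool.Agent.Helper304.Ses
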