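import Pool.Agent.Helper304.Ses.Ex

open MvPolynomial AlgebraicGeometry CategoryTheory Limits TopologicalSpace
open Pool.Agent.Helper198.Sch

namespace Pool.Agent.Helper304.Ses

attribute [local instance] MvPolynomial.gradedAlgebra

lemma fE_univ (c a b : Fin 3) (hca : c ≠ a) (hcb : c ≠ b) (hab : a ≠ b) {M : Type*} [AddCommMonoid M]
    (f : Fin 3 → M) : f 0 + f 1 + f 2 = f c + f a + f b := by
  have h : (Finset.univ : Finset (Fin 3)) = {c, a, b} := by
    have h' : ∀ i j l : Fin 3, i ≠ j → i ≠ l → j ≠ l →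
      (Finset.univ : Finset (Fin 3)) = {i, j, l} := by decide
    exact h' c a b hca hcb hab
  rw [← Fin.sum_univ_three, h, Finset.sum_insert, Finset.sum_insert, Finset.sum_singleton, add_assoc]
  · simpa using hab
  · simp only [Finset.mem_insert, Finset.mem_singleton, not_or]
    exact ⟨hca, hcb⟩

lemma aeval_fE {A : Type*} [CommRing A] [Algebra ℂ A] (u : Fin 3 → A) (c a b : Fin 3) (hca : c ≠ a)
    (hcb : c ≠ b) (hab : a ≠ b) : aeval u fE = u c ^ 3 + u a ^ 3 + u b ^ 3 := by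
  have h : aeval u fE = u 0 ^ 3 + u 1 ^ 3 + u 2 ^ 3 := by
    unfold fE
    simp
  rw [h]
  exact fE_univ c a b hca hcb hab (fun s => u s ^ 3)

lemma axaz : (1 : AE) + ax ^ 3 + az ^ 3 = 0 := by
  have : Ideal.Quotient.mk (Ideal.span {relA}) (1 + X 0 ^ 3 + X 1 ^ 3) = 0 :=
    Ideal.Quotient.eq_zero_iff_mem.2 (Ideal.subset_span rfl)
  rw [map_add, map_add, map_pow, map_pow, map_one] at this
  exact this

noncomputable def uE (c a : Fin 3) : Fin 3 → AE := fun s => if s = c then 1 else if s = a then ax else az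

lemma uE_sat (c a b : Fin 3) (hca : c ≠ a) (hcb : c ≠ b) (hab : a ≠ b) :
    ∀ f ∈ JE.toIdeal, aeval (uE c a) f = 0 := by
  apply aeval_ofSet
  rintro f rfl
  rw [aeval_fE (uE c a) c a b hca hcb hab]
  have h1 : uE c a c = 1 := by simp [uE]
  have h2 : uE c a a = ax := by simp [uE, hca.symm]
  have h3 : uE c a b = az := by simp [uE, hcb.symm, hab.symm]
  rw [h1, h2, h3, one_pow]
  exact axaz

noncomputable def chE_to (c a b : Fin 3) (hca : c ≠ a) (hcb : c ≠ b) (hab : a ≠ b) : Ch JE c →ₐ[ℂ] AE :=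
  chLift JE c (uE c a) (by simp [uE]) (uE_sat c a b hca hcb hab)

noncomputable def chE_from (c a b : Fin 3) (hca : c ≠ a) (hcb : c ≠ b) (hab : a ≠ b) : AE →ₐ[ℂ] Ch JE c :=
  Ideal.Quotient.liftₐ _ (aeval ![frac JE c a, frac JE c b]) (by
      have h2 : Ideal.span {relA} ≤
        RingHom.ker (aeval ![frac JE c a, frac JE c b] : MvPolynomial (Fin 2) ℂ →ₐ[ℂ] _).toRingHom := by
        rw [Ideal.span_le]
        rintro _ rfl
        change aeval _ relA = 0
        have h3 := aeval_frac_eq_zero JE c fE (mem_ofSet (S := {fE}) rfl)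
        rw [aeval_fE _ c a b hca hcb hab, frac_self, one_pow] at h3
        simpa [relA] using h3
      intro f hf
      exact h2 hf)

lemma chE_from_ax (c a b : Fin 3) (hca : c ≠ a) (hcb : c ≠ b) (hab : a ≠ b) :
    chE_from c a b hca hcb hab ax = frac JE c a := by
  change aeval _ (X 0) = _
  rw [aeval_X]; rfl

lemma chE_from_az (c a b : Fin 3) (hca : c ≠ a) (hcb : c ≠ b) (hab : a ≠ b) :
    chE_from c a b hca hcb hab az = frac JE c b := by
  change aeval _ (X 1) = _
  rw [aeval_X]; rfl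

lemma chE_to_frac (c a b : Fin 3) (hca : c ≠ a) (hcb : c ≠ b) (hab : a ≠ b) (s : Fin 3) :
    chE_to c a b hca hcb hab (frac JE c s) = uE c a s := by
  rw [chE_to, chLift_frac]

lemma mem_D_iffE (c : Fin 3) (x : V JE) :
    x ∈ V.D JE c ↔ gen JE c ∉ ProjectiveSpectrum.asHomogeneousIdeal (𝒜 := qgrad JE.toIdeal) x :=
  Proj.mem_basicOpen _ _ _

lemma E_cases (c a b : Fin 3) (hca : c ≠ a) (hcb : c ≠ b) (hab : a ≠ b) (s : Fin 3) :
    s = c ∨ s = a ∨ s = b := by
  have h' : ∀ i j l s : Fin 3, i ≠ j → i ≠ l → j ≠ l → s = i ∨ s = j ∨ s = l := by decide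
  exact h' c a b s hca hcb hab

/-- The charts of the Fermat cubic. -/
theorem E_chart (c a b : Fin 3) (hca : c ≠ a) (hcb : c ≠ b) (hab : a ≠ b) :
    ∃ e : Ch JE c ≃ₐ[ℂ] AE, e (frac JE c a) = ax ∧ e (frac JE c b) = az := by
  refine ⟨AlgEquiv.ofAlgHom (chE_to c a b hca hcb hab) (chE_from c a b hca hcb hab) ?_ ?_, ?_, ?_⟩
  · apply Ideal.Quotient.algHom_ext
    apply MvPolynomial.algHom_ext
    intro s
    fin_cases s
    · change chE_to c a b hca hcb hab (chE_from c a b hca hcb hab ax) = ax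
      rw [chE_from_ax, chE_to_frac]
      simp [uE, hca.symm]
    · change chE_to c a b hca hcb hab (chE_from c a b hca hcb hab az) = az
      rw [chE_from_az, chE_to_frac]
      simp [uE, hcb.symm, hab.symm]
  · apply ch_algHom_ext
    intro s
    rw [AlgHom.comp_apply, AlgHom.id_apply, chE_to_frac]
    rcases E_cases c a b hca hcb hab s with rfl | rfl | rfl
    · have h1 : uE s a s = 1 := by simp [uE]
      rw [h1, map_one, frac_self]
    · have h1 : uE c s s = ax := by simp [uE, hca.symm]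
      rw [h1, chE_from_ax]
    · have h1 : uE c a s = az := by simp [uE, hcb.symm, hab.symm]
      rw [h1, chE_from_az]
  · change chE_to c a b hca hcb hab (frac JE c a) = ax
    rw [chE_to_frac]
    simp [uE, hca.symm]
  · change chE_to c a b hca hcb hab (frac JE c b) = az
    rw [chE_to_frac]
    simp [uE, hcb.symm, hab.symm]

/-- two of the charts cover the curve -/
theorem E_cover (a b : Fin 3) (hab : a ≠ b) (P : E) : P ∈ V.D JE a ∨ P ∈ V.D JE b := by
  by_contra hcon
  push Not at hcon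
  obtain ⟨h1, h2⟩ := hcon
  rw [mem_D_iffE, not_not] at h1 h2
  obtain ⟨c, hc⟩ := V.exists_mem_D JE P
  rw [mem_D_iffE] at hc
  have hca : c ≠ a := by rintro rfl; exact hc h1
  have hcb : c ≠ b := by rintro rfl; exact hc h2
  have h3 : Ideal.Quotient.mk JE.toIdeal fE = 0 :=
    Ideal.Quotient.eq_zero_iff_mem.2 (mem_ofSet (S := {fE}) rfl)
  have h4 : Ideal.Quotient.mk JE.toIdeal fE = gen JE c ^ 3 + gen JE a ^ 3 + gen JE b ^ 3 := by
    have : Ideal.Quotient.mk JE.toIdeal fE = gen JE 0 ^ 3 + gen JE 1 ^ 3 + gen JE 2 ^ 3 := by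
      unfold fE
      simp [gen]
    rw [this]
    exact fE_univ c a b hca hcb hab (fun s => gen JE s ^ 3)
  rw [h4] at h3
  have h5 : gen JE c ^ 3 = -(gen JE a ^ 3 + gen JE b ^ 3) := by linear_combination h3
  have h6 : gen JE c ^ 3 ∈ (ProjectiveSpectrum.asHomogeneousIdeal (𝒜 := qgrad JE.toIdeal) P).toIdeal := by
    rw [h5]
    refine Ideal.neg_mem_iff _ |>.2 (Ideal.add_mem _ ?_ ?_)
    · exact Ideal.pow_mem_of_mem _ h1 3 (by norm_num)
    · exact Ideal.pow_mem_of_mem _ h2 3 (by norm_num)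
  exact hc (P.isPrime.mem_of_pow_mem 3 h6)

end Pool.Agent.Helper304.Ses
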