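import Pool.Agent.Helper304.Ses.Rings

/-! Affine coordinate rings of the curve and of the surface. -/

open MvPolynomial

namespace Pool.Agent.Helper304.Ses

theorem irr_relA : Irreducible relA := by
  rw [← MulEquiv.irreducible_iff (finSuccEquiv ℂ 1)]
  have e1 : finSuccEquiv ℂ 1 (X 1) = Polynomial.C (X 0) := finSuccEquiv_X_succ (j := 0)
  have h1 : finSuccEquiv ℂ 1 relA =
      Polynomial.X ^ 3 + Polynomial.C (1 + X 0 ^ 3 : MvPolynomial (Fin 1) ℂ) := by
    simp only [relA, map_add, map_pow, map_one, e1, finSuccEquiv_X_zero]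
    ring
  rw [h1]
  set c : MvPolynomial (Fin 1) ℂ := 1 + X 0 ^ 3 with hc
  let ev : MvPolynomial (Fin 1) ℂ →+* ℂ := eval (fun _ => (-1 : ℂ))
  have hmon : (Polynomial.X ^ 3 + Polynomial.C c : Polynomial (MvPolynomial (Fin 1) ℂ)).Monic :=
    Polynomial.monic_X_pow_add_C c (by norm_num)
  have hdeg : (Polynomial.X ^ 3 + Polynomial.C c : Polynomial (MvPolynomial (Fin 1) ℂ)).degree
      = 3 := Polynomial.degree_X_pow_add_C (by norm_num) c
  have hP : (RingHom.ker ev).IsPrime := RingHom.ker_isPrime ev
  have hc0 : c ∈ RingHom.ker ev := by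
    rw [RingHom.mem_ker]
    simp only [ev, hc, map_add, map_one, map_pow, eval_X]
    norm_num
  have hder : ∀ q ∈ (RingHom.ker ev) ^ 2, ev (pderiv 0 q) = 0 := by
    intro q hq
    rw [pow_two] at hq
    refine Submodule.mul_induction_on hq ?_ ?_
    · intro m hm n hn
      rw [RingHom.mem_ker] at hm hn
      rw [Derivation.leibniz]
      simp only [smul_eq_mul, map_add, map_mul, hm, hn]
      ring
    · intro x y hx hy
      rw [map_add, map_add, hx, hy, add_zero]
  refine Polynomial.irreducible_of_eisenstein_criterion hP ?_ ?_ ?_ ?_ hmon.isPrimitive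
  · rw [hmon.leadingCoeff]
    intro h
    rw [RingHom.mem_ker, map_one] at h
    exact one_ne_zero h
  · intro n hn
    rw [hdeg] at hn
    have hn3 : n < 3 := by exact_mod_cast hn
    rw [Polynomial.coeff_add, Polynomial.coeff_X_pow, Polynomial.coeff_C, if_neg (by omega),
      zero_add]
    split_ifs with h
    · exact hc0
    · exact Ideal.zero_mem _
  · rw [hdeg]
    norm_num
  · rw [Polynomial.coeff_add, Polynomial.coeff_X_pow, Polynomial.coeff_C, if_neg (by norm_num),
      zero_add, if_pos rfl]
    intro h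
    have h2 := hder c h
    have h3 : pderiv 0 c = 3 * (X 0 : MvPolynomial (Fin 1) ℂ) ^ 2 := by
      rw [hc, map_add, pderiv_one, zero_add, Derivation.leibniz_pow, pderiv_X_self]
      simp
    rw [h3] at h2
    simp only [ev, map_mul, map_pow, eval_X, map_ofNat] at h2
    norm_num at h2

theorem AE_isDomain : IsDomain AE := by
  have h1 : Prime relA := irr_relA.prime
  have h3 : (Ideal.span {relA}).IsPrime := by
    rw [Ideal.span_singleton_prime h1.ne_zero]
    exact h1
  exact Ideal.Quotient.isDomain _

/-- dimension at most one -/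
theorem AE_dim (P : Ideal AE) (hP : P.IsPrime) (h0 : P ≠ ⊥) : P.IsMaximal := by
  have hdom := AE_isDomain
  let φ : Polynomial ℂ →+* AE := (Polynomial.aeval ax : Polynomial ℂ →ₐ[ℂ] AE).toRingHom
  letI : Algebra (Polynomial ℂ) AE := φ.toAlgebra
  have hφX : algebraMap (Polynomial ℂ) AE Polynomial.X = ax := by
    change (Polynomial.aeval ax : Polynomial ℂ →ₐ[ℂ] AE) Polynomial.X = ax
    simp
  have hφC : ∀ a : ℂ, algebraMap (Polynomial ℂ) AE (Polynomial.C a) =
      Ideal.Quotient.mk _ (C a) := by
    intro a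
    change (Polynomial.aeval ax : Polynomial ℂ →ₐ[ℂ] AE) (Polynomial.C a) = _
    rw [Polynomial.aeval_C]
    rfl
  have hrel : az ^ 3 + (1 + ax ^ 3) = 0 := by
    have : Ideal.Quotient.mk (Ideal.span {relA}) relA = 0 :=
      Ideal.Quotient.eq_zero_iff_mem.2 (Ideal.mem_span_singleton_self _)
    have h2 : Ideal.Quotient.mk (Ideal.span {relA}) relA = 1 + ax ^ 3 + az ^ 3 := by
      simp only [relA, map_add, map_pow, map_one]
      rfl
    rw [h2] at this
    rw [← this]
    ring
  have hintz : IsIntegral (Polynomial ℂ) az := by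
    refine ⟨Polynomial.X ^ 3 + Polynomial.C (1 + Polynomial.X ^ 3),
      Polynomial.monic_X_pow_add_C _ (by norm_num), ?_⟩
    rw [Polynomial.eval₂_add, Polynomial.eval₂_pow, Polynomial.eval₂_X, Polynomial.eval₂_C,
      map_add, map_one, map_pow, hφX]
    exact hrel
  have hint : Algebra.IsIntegral (Polynomial ℂ) AE := by
    constructor
    intro y
    obtain ⟨p, rfl⟩ := Ideal.Quotient.mk_surjective y
    induction p using MvPolynomial.induction_on with
    | C a =>
      rw [← hφC]
      exact isIntegral_algebraMap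
    | add p q hp hq =>
      rw [map_add]
      exact hp.add hq
    | mul_X p i hp =>
      rw [map_mul]
      refine hp.mul ?_
      fin_cases i
      · change IsIntegral (Polynomial ℂ) ax
        rw [← hφX]
        exact isIntegral_algebraMap
      · exact hintz
  have h1 : P.comap (algebraMap (Polynomial ℂ) AE) ≠ ⊥ := by
    intro h
    exact h0 (Ideal.eq_bot_of_comap_eq_bot h)
  have h2 : (P.comap (algebraMap (Polynomial ℂ) AE)).IsPrime := inferInstance
  have h3 := Ring.DimensionLEOne.maximalOfPrime h1 h2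
  exact Ideal.isMaximal_of_isIntegral_of_isMaximal_comap P h3

end Pool.Agent.Helper304.Ses
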