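import Pool.Agent.Helper304.Ses.Ex
import Pool.Agent.Helper198.SchO
import Pool.Agent.Helper304.Ses.Mc2
import Pool.Agent.Helper304.Ses.Mr2

open MvPolynomial AlgebraicGeometry CategoryTheory Limits TopologicalSpace
open Pool.Agent.Helper198.Sch

namespace Pool.Agent.Helper304.Ses

attribute [local instance] MvPolynomial.gradedAlgebra

theorem E_ev (a b : ℂ) (h : 1 + a ^ 3 + b ^ 3 = 0) :
    ∃ φ : AE →+* ℂ, φ ax = a ∧ φ az = b := by
  refine ⟨Ideal.Quotient.lift (Ideal.span {relA})
    (MvPolynomial.aeval ![a, b] : MvPolynomial (Fin 2) ℂ →ₐ[ℂ] ℂ).toRingHom ?_, ?_, ?_⟩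
  · intro f hf
    have h2 : Ideal.span {relA} ≤ RingHom.ker
        (MvPolynomial.aeval ![a, b] : MvPolynomial (Fin 2) ℂ →ₐ[ℂ] ℂ).toRingHom := by
      rw [Ideal.span_le]
      rintro g rfl
      change (MvPolynomial.aeval ![a, b] : MvPolynomial (Fin 2) ℂ →ₐ[ℂ] ℂ) relA = 0
      simp [relA, h]
    exact h2 hf
  · change (MvPolynomial.aeval ![a, b] : MvPolynomial (Fin 2) ℂ →ₐ[ℂ] ℂ) (X 0) = a
    simp
  · change (MvPolynomial.aeval ![a, b] : MvPolynomial (Fin 2) ℂ →ₐ[ℂ] ℂ) (X 1) = b
    simp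

theorem E_ax_ne : ax ≠ 0 := by
  intro h
  obtain ⟨φ, h1, -⟩ := E_ev (-1) 0 (by ring)
  rw [h, map_zero] at h1
  norm_num at h1

theorem E_others (c : Fin 3) : ∃ a b : Fin 3, c ≠ a ∧ c ≠ b ∧ a ≠ b := by
  revert c
  decide

theorem E_ch_isDomain (c : Fin 3) : IsDomain (Ch JE c) := by
  obtain ⟨a, b, h1, h2, h3⟩ := E_others c
  obtain ⟨e, -, -⟩ := E_chart c a b h1 h2 h3
  haveI := AE_isDomain
  exact e.toMulEquiv.isDomain AE

theorem E_ch_dim (c : Fin 3) (P : Ideal (Ch JE c)) (hP : P.IsPrime) (h0 : P ≠ ⊥) :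
    P.IsMaximal := by
  obtain ⟨a, b, h1, h2, h3⟩ := E_others c
  obtain ⟨e, -, -⟩ := E_chart c a b h1 h2 h3
  have e' : Ch JE c ≃+* AE := e.toRingEquiv
  set P' : Ideal AE := P.comap (e'.symm : AE →+* Ch JE c) with hP'
  have hPP : P'.comap (e' : Ch JE c →+* AE) = P := by
    ext x
    simp [hP', Ideal.mem_comap]
  have hp : P'.IsPrime := Ideal.comap_isPrime _ _
  have hne : P' ≠ ⊥ := by
    intro h
    apply h0
    rw [← hPP, h, eq_bot_iff]
    intro x hx
    rw [Ideal.mem_comap, Ideal.mem_bot] at hx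
    rw [Ideal.mem_bot]
    exact e'.injective (by simpa using hx)
  haveI := AE_dim P' hp hne
  rw [← hPP]
  exact Ideal.comap_isMaximal_of_surjective _ e'.surjective

/-- the generic point of the chart `c` -/
noncomputable def E_bot (c : Fin 3) : Spec (.of (Ch JE c)) :=
  haveI := E_ch_isDomain c
  (⟨⊥, Ideal.isPrime_bot⟩ : PrimeSpectrum (Ch JE c))

theorem E_bot_asIdeal (c : Fin 3) : (E_bot c).asIdeal = (⊥ : Ideal (Ch JE c)) := rfl

/-- TARGET 1 -/
theorem E_integral : IsIntegral E := by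
  refine V.isIntegral_of_charts JE (ι := Fin 2) ![0, 1] ?_ ?_ (V.chart JE 0 (E_bot 0)) ?_
  · intro x
    rcases E_cover 0 1 (by decide) x with h | h
    · exact ⟨0, h⟩
    · exact ⟨1, h⟩
  · intro i
    exact E_ch_isDomain _
  · intro i
    fin_cases i
    · exact (V.mem_range_chart JE 0 _).1 ⟨_, rfl⟩
    · refine (V.chart_mem_D JE 0 1 (E_bot 0)).2 ?_
      rw [E_bot_asIdeal, Ideal.mem_bot]
      intro h
      obtain ⟨e, h1, -⟩ := E_chart 0 1 2 (by decide) (by decide) (by decide)
      rw [h, map_zero] at h1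
      exact E_ax_ne h1.symm

/-- TARGET 2 -/
theorem E_dim : ∀ x : E, IsClosed {x} ∨ ∀ y : E, x ⤳ y := by
  intro x
  by_cases hx : ∀ y : E, x ⤳ y
  · exact Or.inr hx
  · left
    rw [← closure_eq_iff_isClosed]
    apply Set.Subset.antisymm
    · intro y hy
      have hxy : x ⤳ y := specializes_iff_mem_closure.2 hy
      obtain ⟨c, hc⟩ := V.exists_mem_D JE y
      have hxc : x ∈ V.D JE c := hxy.mem_open (V.D JE c).isOpen hc
      obtain ⟨Q, hQ⟩ := (V.mem_range_chart JE c y).2 hc
      obtain ⟨P, hP⟩ := (V.mem_range_chart JE c x).2 hxc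
      subst hQ
      subst hP
      have hemb := (V.chart JE c).isOpenEmbedding
      have hPQ : P ⤳ Q := hemb.isInducing.specializes_iff.1 hxy
      have hle : P.asIdeal ≤ Q.asIdeal := (PrimeSpectrum.le_iff_specializes P Q).2 hPQ
      have hne : P.asIdeal ≠ ⊥ := by
        intro h0
        apply hx
        intro z
        haveI := E_integral
        have hd : Dense (V.D JE c : Set E) := (V.D JE c).isOpen.dense ⟨_, hxc⟩
        have hsub : (V.D JE c : Set E) ⊆ closure {V.chart JE c P} := by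
          intro w hw
          obtain ⟨W, rfl⟩ := (V.mem_range_chart JE c w).2 hw
          rw [← specializes_iff_mem_closure]
          apply hemb.isInducing.specializes_iff.2
          refine (PrimeSpectrum.le_iff_specializes P W).1 ?_
          change P.asIdeal ≤ W.asIdeal
          rw [h0]
          exact bot_le
        have hcl : closure {V.chart JE c P} = (Set.univ : Set E) := by
          rw [Set.eq_univ_iff_forall]
          intro w
          have h1 := closure_mono hsub
          rw [closure_closure, hd.closure_eq] at h1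
          exact h1 (Set.mem_univ w)
        rw [specializes_iff_mem_closure, hcl]
        exact Set.mem_univ z
      have hmax := E_ch_dim c P.asIdeal P.isPrime hne
      have heq : P.asIdeal = Q.asIdeal := hmax.eq_of_le Q.isPrime.ne_top hle
      have hPQ2 : P = Q := PrimeSpectrum.ext heq
      rw [hPQ2]
      exact Set.mem_singleton _
    · exact subset_closure

/-- TARGET 3 -/
theorem E_point : ∃ P : E, IsClosed {P} := by
  obtain ⟨e, -, -⟩ := E_chart 0 1 2 (by decide) (by decide) (by decide)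
  obtain ⟨φ, h1, -⟩ := E_ev (-1) 0 (by ring)
  have e' : Ch JE 0 ≃+* AE := e.toRingEquiv
  let ψ : Ch JE 0 →+* ℂ := φ.comp (e' : Ch JE 0 →+* AE)
  haveI hker : (RingHom.ker ψ).IsPrime := RingHom.ker_isPrime ψ
  let P : Spec (.of (Ch JE 0)) := (⟨RingHom.ker ψ, hker⟩ : PrimeSpectrum (Ch JE 0))
  refine ⟨V.chart JE 0 P, ?_⟩
  rcases E_dim (V.chart JE 0 P) with h | h
  · exact h
  · exfalso
    have hemb := (V.chart JE 0).isOpenEmbedding
    have h2 : P ⤳ E_bot 0 := hemb.isInducing.specializes_iff.1 (h _)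
    have h3 : P.asIdeal ≤ (E_bot 0).asIdeal := (PrimeSpectrum.le_iff_specializes P (E_bot 0)).2 h2
    rw [E_bot_asIdeal] at h3
    have h4 : e'.symm (ax + 1) ∈ P.asIdeal := by
      change ψ (e'.symm (ax + 1)) = 0
      simp [ψ, h1]
    have h5 := h3 h4
    rw [Ideal.mem_bot] at h5
    have h6 : ax + 1 = 0 := by
      have := congrArg e' h5
      simpa using this
    obtain ⟨φ', h7, -⟩ := E_ev 0 (-1) (by ring)
    have h8 := congrArg φ' h6
    rw [map_add, h7, map_one, map_zero] at h8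
    norm_num at h8

end Pool.Agent.Helper304.Ses
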