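import Pool.Agent.Helper304.Ses.SecD
import Pool.Agent.Helper198.SchO

open MvPolynomial AlgebraicGeometry CategoryTheory Limits TopologicalSpace
open Pool.Agent.Helper198.Sch

namespace Pool.Agent.Helper304.Ses

attribute [local instance] MvPolynomial.gradedAlgebra

variable {σ : Type} (J : HI σ ℂ)

section g1

open HomogeneousLocalization

/-- the degree zero localisation at the product -/
abbrev ChP (c c' : σ) : Type :=
  HomogeneousLocalization.Away (qgrad J.toIdeal) (gen J c * gen J c')

/-- first map -/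
noncomputable def toL (c c' : σ) : Ch J c →+* ChP J c c' :=
  awayMap (qgrad J.toIdeal) (gen_mem J c') (rfl : gen J c * gen J c' = gen J c * gen J c')

/-- second map -/
noncomputable def toR (c c' : σ) : Ch J c' →+* ChP J c c' :=
  awayMap (qgrad J.toIdeal) (gen_mem J c) (mul_comm (gen J c) (gen J c'))

theorem toL_alg (c c' : σ) (z : ℂ) :
    toL J c c' (algebraMap ℂ (Ch J c) z) = toR J c c' (algebraMap ℂ (Ch J c') z) := by
  have h1 : toL J c c' (algebraMap ℂ (Ch J c) z) = fromZeroRingHom (qgrad J.toIdeal) _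
      (algebraMap ℂ (qgrad J.toIdeal 0) z) := awayMap_fromZeroRingHom _ _ _ _
  have h2 : toR J c c' (algebraMap ℂ (Ch J c') z) = fromZeroRingHom (qgrad J.toIdeal) _
      (algebraMap ℂ (qgrad J.toIdeal 0) z) := awayMap_fromZeroRingHom _ _ _ _
  rw [h1, h2]

theorem toL_val (c c' a : σ) :
    algebraMap (MvPolynomial σ ℂ ⧸ J.toIdeal) (Localization.Away (gen J c * gen J c')) (gen J c) *
      (toL J c c' (frac J c a)).val =
    algebraMap (MvPolynomial σ ℂ ⧸ J.toIdeal) (Localization.Away (gen J c * gen J c')) (gen J a) := by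
  have hd : gen J c ∣ gen J c * gen J c' := ⟨gen J c', rfl⟩
  have h := congrArg (Localization.awayLift (algebraMap (MvPolynomial σ ℂ ⧸ J.toIdeal)
    (Localization.Away (gen J c * gen J c'))) (gen J c)
    (isUnit_of_dvd_unit (map_dvd _ hd) (IsLocalization.Away.algebraMap_isUnit _)))
    (chVal_frac J c a)
  rw [map_mul] at h
  have e : ∀ b, (Localization.awayLift (algebraMap (MvPolynomial σ ℂ ⧸ J.toIdeal)
    (Localization.Away (gen J c * gen J c'))) (gen J c)
    (isUnit_of_dvd_unit (map_dvd _ hd) (IsLocalization.Away.algebraMap_isUnit _)))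
    (algebraMap _ _ b) = algebraMap _ _ b := fun b => IsLocalization.Away.lift_eq _ _ _
  rw [e, e] at h
  have h2 := val_awayMap (qgrad J.toIdeal) (gen_mem J c')
    (rfl : gen J c * gen J c' = gen J c * gen J c') (frac J c a)
  have h3 : (toL J c c' (frac J c a)).val = _ := h2
  rw [h3]
  exact h

theorem toR_val (c c' a : σ) :
    algebraMap (MvPolynomial σ ℂ ⧸ J.toIdeal) (Localization.Away (gen J c * gen J c')) (gen J c') *
      (toR J c c' (frac J c' a)).val =
    algebraMap (MvPolynomial σ ℂ ⧸ J.toIdeal) (Localization.Away (gen J c * gen J c')) (gen J a) := by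
  have hd : gen J c' ∣ gen J c * gen J c' := ⟨gen J c, mul_comm _ _⟩
  have h := congrArg (Localization.awayLift (algebraMap (MvPolynomial σ ℂ ⧸ J.toIdeal)
    (Localization.Away (gen J c * gen J c'))) (gen J c')
    (isUnit_of_dvd_unit (map_dvd _ hd) (IsLocalization.Away.algebraMap_isUnit _)))
    (chVal_frac J c' a)
  rw [map_mul] at h
  have e : ∀ b, (Localization.awayLift (algebraMap (MvPolynomial σ ℂ ⧸ J.toIdeal)
    (Localization.Away (gen J c * gen J c'))) (gen J c')
    (isUnit_of_dvd_unit (map_dvd _ hd) (IsLocalization.Away.algebraMap_isUnit _)))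
    (algebraMap _ _ b) = algebraMap _ _ b := fun b => IsLocalization.Away.lift_eq _ _ _
  rw [e, e] at h
  have h2 := val_awayMap (qgrad J.toIdeal) (gen_mem J c)
    (mul_comm (gen J c) (gen J c')) (frac J c' a)
  have h3 : (toR J c c' (frac J c' a)).val = _ := h2
  rw [h3]
  exact h

theorem toL_toR (c c' a : σ) :
    toL J c c' (frac J c c') * toR J c c' (frac J c' a) = toL J c c' (frac J c a) := by
  apply HomogeneousLocalization.val_injective
  rw [HomogeneousLocalization.val_mul]
  have hu : IsUnit (algebraMap (MvPolynomial σ ℂ ⧸ J.toIdeal)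
      (Localization.Away (gen J c * gen J c')) (gen J c)) :=
    isUnit_of_dvd_unit (map_dvd _ ⟨_, rfl⟩) (IsLocalization.Away.algebraMap_isUnit (gen J c * gen J c'))
  apply hu.mul_left_cancel
  rw [← mul_assoc, toL_val, toR_val, toL_val]

/-- two charts give the same morphism -/
theorem chart_eq {R : Type} [CommRing R] (c c' : σ) (α : Ch J c →+* R) (β : Ch J c' →+* R)
    (h0 : ∀ z, α (algebraMap ℂ _ z) = β (algebraMap ℂ _ z))
    (h1 : ∀ a, α (frac J c a) = α (frac J c c') * β (frac J c' a)) :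
    Spec.map (CommRingCat.ofHom α) ≫ V.chart J c = Spec.map (CommRingCat.ofHom β) ≫ V.chart J c' := by
  have hunit : IsUnit (α (frac J c c')) := by
    have h2 := h1 c
    rw [frac_self, map_one] at h2
    exact IsUnit.of_mul_eq_one _ h2.symm
  let algI : Algebra (Ch J c) (ChP J c c') := (toL J c c').toAlgebra
  have hloc : IsLocalization.Away (frac J c c') (ChP J c c') := by
    rw [← V.isLocalizationElem_eq]
    exact HomogeneousLocalization.Away.isLocalization_mul (gen_mem J c) (gen_mem J c') rfl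
      one_ne_zero
  let γ : ChP J c c' →+* R := IsLocalization.Away.lift (frac J c c') hunit
  have hγ : ∀ x, γ (toL J c c' x) = α x := fun x =>
    IsLocalization.Away.lift_eq (frac J c c') hunit x
  have hγL : γ.comp (toL J c c') = α := RingHom.ext hγ
  have hγR : γ.comp (toR J c c') = β := by
    apply ch_ringHom_ext
    · intro z
      rw [RingHom.comp_apply, ← toL_alg, hγ, h0]
    · intro a
      rw [RingHom.comp_apply]
      apply hunit.mul_left_cancel
      rw [← h1, ← hγ (frac J c c'), ← map_mul, toL_toR, hγ]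
  have eL : Spec.map (CommRingCat.ofHom (toL J c c')) ≫ V.chart J c =
      Proj.awayι (qgrad J.toIdeal) (gen J c * gen J c')
        (SetLike.mul_mem_graded (gen_mem J c) (gen_mem J c')) (by norm_num) :=
    Proj.SpecMap_awayMap_awayι (qgrad J.toIdeal) (gen_mem J c) one_pos (gen_mem J c') rfl
  have eR : Spec.map (CommRingCat.ofHom (toR J c c')) ≫ V.chart J c' =
      Proj.awayι (qgrad J.toIdeal) (gen J c * gen J c')
        (SetLike.mul_mem_graded (gen_mem J c) (gen_mem J c')) (by norm_num) :=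
    Proj.SpecMap_awayMap_awayι (qgrad J.toIdeal) (gen_mem J c') one_pos (gen_mem J c)
      (mul_comm (gen J c) (gen J c'))
  rw [← hγL, ← hγR, CommRingCat.ofHom_comp, CommRingCat.ofHom_comp, Spec.map_comp, Spec.map_comp,
    Category.assoc, Category.assoc, eL, eR]

theorem cst_fac {T : Scheme.{0}} (sT : T ⟶ SpecC) (W : T.Opens) :
    W.toSpecΓ ≫ Spec.map (CommRingCat.ofHom (cst sT W)) = W.ι ≫ sT := by
  have h : CommRingCat.ofHom (cst sT W) =
    (Scheme.ΓSpecIso (.of ℂ)).inv ≫ sT.appTop ≫ T.presheaf.map (homOfLE (le_top : W ≤ ⊤)).op := rfl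
  rw [h, Spec.map_comp, Spec.map_comp, Category.assoc,
    Scheme.Opens.toSpecΓ_SpecMap_presheaf_map_top_assoc,
    ← Scheme.toSpecΓ_naturality_assoc, toSpecΓ_SpecMap_ΓSpecIso_inv]
  simp

end g1

/-- Glueing of a morphism to `V_+(J)` given locally by vectors of coordinates. -/
theorem exists_glue {T : Scheme.{0}} (sT : T ⟶ SpecC) {I : Type} (W : I → T.Opens)
    (hW : ∀ x : T, ∃ i, x ∈ W i) (c : I → σ) (ρ : ∀ i, Ch J (c i) →+* Γ(T, W i))
    (hρ : ∀ i z, ρ i (algebraMap ℂ _ z) = cst sT (W i) z)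
    (hc : ∀ i j a, res inf_le_left (ρ i (frac J (c i) a)) =
      (res inf_le_left (ρ i (frac J (c i) (c j))) * res inf_le_right (ρ j (frac J (c j) a)) :
        Γ(T, W i ⊓ W j))) :
    ∃ f : T ⟶ V J, f ≫ V.str J = sT ∧
      ∀ i, (W i).ι ≫ f = (W i).toSpecΓ ≫ Spec.map (CommRingCat.ofHom (ρ i)) ≫ V.chart J (c i) := by
  have hcov : IsOpenCover W := by
    apply TopologicalSpace.Opens.ext
    ext x
    simp only [Opens.coe_iSup, Set.mem_iUnion, Opens.coe_top, Set.mem_univ, iff_true]
    exact hW x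
  let 𝒰 := T.openCoverOfIsOpenCover W hcov
  have hglue : ∀ i j : I, pullback.fst (W i).ι (W j).ι ≫ (W i).toSpecΓ ≫
      Spec.map (CommRingCat.ofHom (ρ i)) ≫ V.chart J (c i) =
      pullback.snd (W i).ι (W j).ι ≫ (W j).toSpecΓ ≫
      Spec.map (CommRingCat.ofHom (ρ j)) ≫ V.chart J (c j) := by
    intro i j
    rw [← cancel_epi (isPullback_opens_inf (W i) (W j)).isoPullback.hom]
    rw [IsPullback.isoPullback_hom_fst_assoc, IsPullback.isoPullback_hom_snd_assoc]
    rw [← Scheme.Opens.toSpecΓ_SpecMap_presheaf_map_assoc,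
      ← Scheme.Opens.toSpecΓ_SpecMap_presheaf_map_assoc]
    congr 1
    have key := chart_eq J (c i) (c j)
      ((res (inf_le_left : W i ⊓ W j ≤ W i)).comp (ρ i))
      ((res (inf_le_right : W i ⊓ W j ≤ W j)).comp (ρ j)) (by
        intro z
        rw [RingHom.comp_apply, RingHom.comp_apply, hρ, hρ]
        have e : ∀ (U U' : T.Opens) (h : U' ≤ U), res h (cst sT U z) = cst sT U' z := by
          intro U U' h
          exact res_res (U := ⊤) le_top h _
        rw [e, e]) (hc i j)
    rw [CommRingCat.ofHom_comp, CommRingCat.ofHom_comp, Spec.map_comp, Spec.map_comp,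
      Category.assoc, Category.assoc] at key
    exact key
  obtain ⟨f, hf⟩ : ∃ f : T ⟶ V J, ∀ i : I, (W i).ι ≫ f =
      (W i).toSpecΓ ≫ Spec.map (CommRingCat.ofHom (ρ i)) ≫ V.chart J (c i) :=
    ⟨𝒰.glueMorphisms (fun i => (W i).toSpecΓ ≫ Spec.map (CommRingCat.ofHom (ρ i)) ≫
      V.chart J (c i)) hglue, fun i => Scheme.Cover.ι_glueMorphisms 𝒰 _ hglue i⟩
  refine ⟨f, ?_, hf⟩
  apply Scheme.Cover.hom_ext 𝒰
  intro (i : I)
  change (W i).ι ≫ f ≫ V.str J = (W i).ι ≫ sT
  rw [← Category.assoc, hf i, Category.assoc, Category.assoc, V.chart_str,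
    ← Spec.map_comp, ← CommRingCat.ofHom_comp]
  have h1 : (ρ i).comp (algebraMap ℂ (Ch J (c i))) = cst sT (W i) := RingHom.ext (hρ i)
  rw [h1]
  exact cst_fac sT (W i)

end Pool.Agent.Helper304.Ses
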