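import Pool.Agent.Helper304.Ses.SecD
import Pool.Agent.Helper198.SchO

open MvPolynomial AlgebraicGeometry CategoryTheory Limits TopologicalSpace
open Pool.Agent.Helper198.Sch

namespace Pool.Agent.Helper304.Ses

attribute [local instance] MvPolynomial.gradedAlgebra

variable {σ : Type} (J : HI σ ℂ)

theorem secD_bijective (c : σ) : Function.Bijective (secD J c) := by
  have h : IsIso (Proj.awayToSection (qgrad J.toIdeal) (gen J c)) := by
    rw [← Proj.basicOpenIsoAway_hom _ _ (gen_mem J c) one_pos]
    infer_instance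
  exact ConcreteCategory.bijective_of_isIso (Proj.awayToSection (qgrad J.toIdeal) (gen J c))

theorem isAffineOpen_D (c : σ) : IsAffineOpen (V.D J c) :=
  Proj.isAffineOpen_basicOpen _ _ (gen_mem J c) one_pos

theorem ι_D' (c : σ) : (V.D J c).toSpecΓ ≫
    Spec.map (CommRingCat.ofHom (R := Ch J c) (S := Γ(V J, V.D J c)) (secD J c)) ≫ V.chart J c =
    (V.D J c).ι := by
  have h : Proj.basicOpenToSpec (qgrad J.toIdeal) (gen J c) ≫
      Proj.awayι (qgrad J.toIdeal) (gen J c) (gen_mem J c) one_pos =
      (Proj.basicOpen (qgrad J.toIdeal) (gen J c)).ι := by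
    rw [Proj.awayι, ← Proj.basicOpenIsoSpec_hom _ _ (gen_mem J c) one_pos,
      Iso.hom_inv_id_assoc]
  rw [Proj.basicOpenToSpec, Category.assoc] at h
  exact h

theorem secD_const (c : σ) (z : ℂ) :
    secD J c (algebraMap ℂ _ z) = cst (V.str J) (V.D J c) z := by
  have h := congrArg (· ≫ V.str J) (ι_D' J c)
  simp only [Category.assoc, V.chart_str] at h
  rw [← Spec.map_comp] at h
  have h2 := congrArg Scheme.Hom.appTop h
  rw [Scheme.Hom.comp_appTop, Scheme.Hom.comp_appTop, Scheme.Opens.toSpecΓ_appTop] at h2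
  have h3 := congrArg (fun t => (Scheme.ΓSpecIso (.of ℂ)).inv ≫ t ≫ (V.D J c).topIso.hom) h2
  simp only [Category.assoc, Iso.inv_hom_id, Category.comp_id] at h3
  rw [← Scheme.ΓSpecIso_inv_naturality_assoc, Iso.inv_hom_id, Category.comp_id] at h3
  have h4 : Scheme.Hom.appTop (V.D J c).ι ≫ (V.D J c).topIso.hom =
      (V J).presheaf.map (homOfLE (le_top : V.D J c ≤ ⊤)).op := by
    rw [Scheme.Opens.ι_appTop]
    exact ((V J).presheaf.map_comp _ _).symm
  rw [h4] at h3
  exact congrArg (fun t => t.hom z) h3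

theorem awayMap_frac (c c' a : σ) :
    HomogeneousLocalization.awayMap (qgrad J.toIdeal) (gen_mem J c')
      (rfl : gen J c * gen J c' = gen J c * gen J c') (frac J c a) =
    HomogeneousLocalization.awayMap (qgrad J.toIdeal) (gen_mem J c')
      (rfl : gen J c * gen J c' = gen J c * gen J c') (frac J c c') *
    HomogeneousLocalization.awayMap (qgrad J.toIdeal) (gen_mem J c)
      (mul_comm (gen J c) (gen J c')) (frac J c' a) := by
  apply HomogeneousLocalization.val_injective
  rw [HomogeneousLocalization.val_mul]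
  unfold frac HomogeneousLocalization.Away.mk
  rw [HomogeneousLocalization.val_awayMap_mk, HomogeneousLocalization.val_awayMap_mk,
    HomogeneousLocalization.val_awayMap_mk, Localization.mk_mul, Localization.mk_eq_mk_iff,
    Localization.r_iff_exists]
  refine ⟨1, ?_⟩
  simp only [OneMemClass.coe_one, one_mul, pow_one, Submonoid.mk_mul_mk]
  ring

theorem secD_trans (c c' a : σ) (W : (V J).Opens) (h : W ≤ V.D J c) (h' : W ≤ V.D J c') :
    res h (secD J c (frac J c a)) =
      res h (secD J c (frac J c c')) * res h' (secD J c' (frac J c' a)) := by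
  have hW : W ≤ Proj.basicOpen (qgrad J.toIdeal) (gen J c * gen J c') := by
    rw [Proj.basicOpen_mul]
    exact le_inf h h'
  have e1 : ∀ y : Ch J c, res h (secD J c y) = res (S := V J) hW
      ((Proj.awayToSection (qgrad J.toIdeal) (gen J c * gen J c')).hom
        (HomogeneousLocalization.awayMap (qgrad J.toIdeal) (gen_mem J c')
          (rfl : gen J c * gen J c' = gen J c * gen J c') y)) := by
    intro y
    have hy := congrArg (fun t => t.hom y) (Proj.awayMap_awayToSection (qgrad J.toIdeal)
      (gen_mem J c') (rfl : gen J c * gen J c' = gen J c * gen J c'))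
    have hy' : (Proj.awayToSection (qgrad J.toIdeal) (gen J c * gen J c')).hom
        (HomogeneousLocalization.awayMap (qgrad J.toIdeal) (gen_mem J c')
          (rfl : gen J c * gen J c' = gen J c * gen J c') y) =
        res (S := V J) (Proj.basicOpen_mono _ _ _ ⟨_, rfl⟩ :
          Proj.basicOpen (qgrad J.toIdeal) (gen J c * gen J c') ≤ V.D J c) (secD J c y) := hy
    rw [hy']
    exact (res_res (S := V J) (Proj.basicOpen_mono _ _ _ ⟨_, rfl⟩ :
          Proj.basicOpen (qgrad J.toIdeal) (gen J c * gen J c') ≤ V.D J c) hW _).symm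
  have e2 : ∀ y : Ch J c', res h' (secD J c' y) = res (S := V J) hW
      ((Proj.awayToSection (qgrad J.toIdeal) (gen J c * gen J c')).hom
        (HomogeneousLocalization.awayMap (qgrad J.toIdeal) (gen_mem J c)
          (mul_comm (gen J c) (gen J c')) y)) := by
    intro y
    have hy := congrArg (fun t => t.hom y) (Proj.awayMap_awayToSection (qgrad J.toIdeal)
      (gen_mem J c) (mul_comm (gen J c) (gen J c')))
    have hy' : (Proj.awayToSection (qgrad J.toIdeal) (gen J c * gen J c')).hom
        (HomogeneousLocalization.awayMap (qgrad J.toIdeal) (gen_mem J c)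
          (mul_comm (gen J c) (gen J c')) y) =
        res (S := V J) (Proj.basicOpen_mono _ _ _ ⟨_, mul_comm _ _⟩ :
          Proj.basicOpen (qgrad J.toIdeal) (gen J c * gen J c') ≤ V.D J c') (secD J c' y) := hy
    rw [hy']
    exact (res_res (S := V J) (Proj.basicOpen_mono _ _ _ ⟨_, mul_comm _ _⟩ :
          Proj.basicOpen (qgrad J.toIdeal) (gen J c * gen J c') ≤ V.D J c') hW _).symm
  rw [e1, e1, e2, awayMap_frac, map_mul]
  exact map_mul (res (S := V J) hW) _ _

lemma fromSpec_D (c : σ) : (isAffineOpen_D J c).fromSpec =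
    Spec.map (CommRingCat.ofHom (R := Ch J c) (S := Γ(V J, V.D J c)) (secD J c)) ≫
      V.chart J c := by
  have h1 : (isAffineOpen_D J c).isoSpec.hom ≫ (isAffineOpen_D J c).fromSpec = (V.D J c).ι :=
    (isAffineOpen_D J c).isoSpec_hom_fromSpec
  rw [← cancel_epi (isAffineOpen_D J c).isoSpec.hom, h1]
  exact (ι_D' J c).symm

theorem basicOpen_secD (c a : σ) :
    (V J).basicOpen (secD J c (frac J c a)) = V.D J c ⊓ V.D J a := by
  have hD := isAffineOpen_D J c
  have key : ∀ y : Spec Γ(V J, V.D J c), (hD.fromSpec y ∈ (V J).basicOpen (secD J c (frac J c a)) ↔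
      hD.fromSpec y ∈ V.D J a) := by
    intro y
    have h1 : y ∈ hD.fromSpec ⁻¹ᵁ (V J).basicOpen (secD J c (frac J c a)) ↔
        y ∈ PrimeSpectrum.basicOpen (secD J c (frac J c a)) := by
      rw [hD.fromSpec_preimage_basicOpen]
      exact Iff.rfl
    have h2 : hD.fromSpec y = V.chart J c
        (Spec.map (CommRingCat.ofHom (R := Ch J c) (S := Γ(V J, V.D J c)) (secD J c)) y) := by
      rw [fromSpec_D]
      rfl
    refine h1.trans ?_
    rw [h2, V.chart_mem_D]
    exact Iff.rfl
  have hr : ∀ x, x ∈ V.D J c → ∃ y, hD.fromSpec y = x := by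
    intro x hx
    have : x ∈ Set.range hD.fromSpec := by
      rw [hD.range_fromSpec]
      exact hx
    exact this
  apply TopologicalSpace.Opens.ext
  ext x
  constructor
  · intro hx
    have hxc : x ∈ V.D J c := (V J).basicOpen_le _ hx
    obtain ⟨y, rfl⟩ := hr x hxc
    exact ⟨hxc, (key y).1 hx⟩
  · rintro ⟨hxc, hxa⟩
    obtain ⟨y, rfl⟩ := hr x hxc
    exact (key y).2 hxa

theorem ι_D (c : σ) : (V.D J c).toSpecΓ ≫
    Spec.map (CommRingCat.ofHom (R := Ch J c) (S := Γ(V J, V.D J c)) (secD J c)) ≫ V.chart J c =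
    (V.D J c).ι := ι_D' J c

end Pool.Agent.Helper304.Ses
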