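import Pool.Agent.Helper304.Ses.Phi
import Pool.Agent.Helper304.Ses.Ms1
import Pool.Agent.Helper304.Ses.Mg1
import Pool.Agent.Helper304.Ses.Mc2

open MvPolynomial AlgebraicGeometry CategoryTheory Limits TopologicalSpace
open Pool.Agent.Helper198.Sch

namespace Pool.Agent.Helper304.Ses

attribute [local instance] MvPolynomial.gradedAlgebra

section
variable {σ : Type} (J : HI σ ℂ)

end

theorem phiv_span_gen (om : ℂ) (hom : om ^ 2 + om + 1 = 0) {R : Type} [CommRing R] [Algebra ℂ R]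
    (u : Fin 3 → R) (h : u 0 = 1 ∨ u 1 = 1) :
    Ideal.span {phiv om u 0, phiv om u 1} = (⊤ : Ideal R) := by
  have hne : om ^ 2 - om ≠ 0 := by
    intro h
    have h1 : om ^ 2 = om := sub_eq_zero.1 h
    have h2 : om = -1/2 := by linear_combination (1/2) * hom - (1/2) * h
    rw [h2] at h1
    norm_num at h1
  have m0 : phiv om u 0 ∈ Ideal.span {phiv om u 0, phiv om u 1} := Ideal.subset_span (by simp)
  have m1 : phiv om u 1 ∈ Ideal.span {phiv om u 0, phiv om u 1} := Ideal.subset_span (by simp)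
  generalize Ideal.span {phiv om u 0, phiv om u 1} = I at m0 m1
  have e0 : phiv om u 0 = u 0 ^ 3 - algebraMap ℂ R om * u 1 ^ 3 := rfl
  have e1 : phiv om u 1 = algebraMap ℂ R (om ^ 2) * u 1 ^ 3 - u 0 ^ 3 := rfl
  have s1 : u 1 ^ 3 ∈ I := by
    have h : u 1 ^ 3 = algebraMap ℂ R ((om ^ 2 - om)⁻¹) * (phiv om u 0 + phiv om u 1) := by
      rw [e0, e1]
      have : algebraMap ℂ R ((om ^ 2 - om)⁻¹) * algebraMap ℂ R (om ^ 2 - om) = 1 := by
        rw [← map_mul, inv_mul_cancel₀ hne, map_one]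
      rw [map_sub] at this
      linear_combination (- u 1 ^ 3) * this
    rw [h]
    exact I.mul_mem_left _ (I.add_mem m0 m1)
  have s0 : u 0 ^ 3 ∈ I := by
    have h : u 0 ^ 3 = phiv om u 0 + algebraMap ℂ R om * u 1 ^ 3 := by rw [e0]; ring
    rw [h]
    exact I.add_mem m0 (I.mul_mem_left _ s1)
  rw [Ideal.eq_top_iff_one]
  rcases h with h | h
  · rw [h] at s0; simpa using s0
  · rw [h] at s1; simpa using s1

/-- TARGET 1 -/
theorem phiv_span (om : ℂ) (hom : om ^ 2 + om + 1 = 0) (c : Fin 2) :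
    Ideal.span {phiv om (frac JE c.castSucc) 0, phiv om (frac JE c.castSucc) 1} =
      (⊤ : Ideal (Ch JE c.castSucc)) := by
  fin_cases c
  · exact phiv_span_gen om hom _ (Or.inl (frac_self JE 0))
  · exact phiv_span_gen om hom _ (Or.inr (frac_self JE 1))

/-- TARGET 2 -/
theorem phiv_rel (om : ℂ) (hom : om ^ 2 + om + 1 = 0) {R : Type} [CommRing R] [Algebra ℂ R]
    (u : Fin 3 → R) (hu : u 0 ^ 3 + u 1 ^ 3 + u 2 ^ 3 = 0) :
    phiv om u 0 ^ 3 + phiv om u 1 ^ 3 + phiv om u 2 ^ 3 = 0 := by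
  have hw : (algebraMap ℂ R om) ^ 2 + algebraMap ℂ R om + 1 = 0 := by
    rw [← map_pow, ← map_add, ← map_one (algebraMap ℂ R), ← map_add, hom, map_zero]
  have e0 : phiv om u 0 = u 0 ^ 3 - algebraMap ℂ R om * u 1 ^ 3 := rfl
  have e1 : phiv om u 1 = algebraMap ℂ R (om ^ 2) * u 1 ^ 3 - u 0 ^ 3 := rfl
  have e2 : phiv om u 2 = algebraMap ℂ R (om - om ^ 2) * (u 0 * u 1 * u 2) := rfl
  rw [e0, e1, e2, map_sub, map_pow]
  set w := algebraMap ℂ R om with hwdef
  set P := u 0 ^ 3 with hP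
  set Q := u 1 ^ 3 with hQ
  have e3 : (w - w ^ 2) ^ 3 * P * Q * u 2 ^ 3 = ((w - w ^ 2) * (u 0 * u 1 * u 2)) ^ 3 := by
    rw [hP, hQ]; ring
  rw [← e3]
  linear_combination ((w - w ^ 2) ^ 3 * P * Q) * hu +
    ((Q ^ 3 + (P ^ 2 * Q + P * Q ^ 2)) * w ^ 4 - (Q ^ 3 + 4 * (P ^ 2 * Q + P * Q ^ 2)) * w ^ 3 +
      (3 * P ^ 2 * Q + 3 * (P ^ 2 * Q + P * Q ^ 2)) * w ^ 2 - 3 * P ^ 2 * Q * w) * hw

theorem frac_rel_753 (c : Fin 3) :
    frac JE c 0 ^ 3 + frac JE c 1 ^ 3 + frac JE c 2 ^ 3 = 0 := by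
  have h := aeval_frac_eq_zero JE c fE (mem_ofSet rfl)
  simpa [fE] using h

theorem phiv_smul_753 (om : ℂ) {R : Type} [CommRing R] [Algebra ℂ R] (u v : Fin 3 → R) (l : R)
    (h : ∀ a, u a = l * v a) (a : Fin 3) : phiv om u a = l ^ 3 * phiv om v a := by
  fin_cases a
  · show u 0 ^ 3 - algebraMap ℂ R om * u 1 ^ 3 = l ^ 3 * (v 0 ^ 3 - algebraMap ℂ R om * v 1 ^ 3)
    rw [h 0, h 1]; ring
  · show algebraMap ℂ R (om ^ 2) * u 1 ^ 3 - u 0 ^ 3 =
      l ^ 3 * (algebraMap ℂ R (om ^ 2) * v 1 ^ 3 - v 0 ^ 3)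
    rw [h 0, h 1]; ring
  · show algebraMap ℂ R (om - om ^ 2) * (u 0 * u 1 * u 2) =
      l ^ 3 * (algebraMap ℂ R (om - om ^ 2) * (v 0 * v 1 * v 2))
    rw [h 0, h 1, h 2]; ring

section phi753
variable (om : ℂ)

/-- the coordinates of the image point -/
noncomputable def u753 (c k : Fin 2) (a : Fin 3) : PhR om c k :=
  algebraMap _ (PhR om c k) (phiv om (frac JE c.castSucc) a) *
      IsLocalization.Away.invSelf (phiv om (frac JE c.castSucc) k.castSucc)

theorem u753_one (c k : Fin 2) : u753 om c k k.castSucc = 1 := IsLocalization.Away.mul_invSelf _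

theorem u753_rel (hom : om ^ 2 + om + 1 = 0) (c k : Fin 2) :
    ∀ f ∈ JE.toIdeal, aeval (u753 om c k) f = 0 := by
  apply aeval_ofSet
  rintro f rfl
  have h := phiv_rel om hom (frac JE c.castSucc) (frac_rel_753 c.castSucc)
  have h2 := congrArg (algebraMap (Ch JE c.castSucc) (PhR om c k)) h
  simp only [map_add, map_pow, map_zero] at h2
  simp only [fE, map_add, map_pow, aeval_X, u753]
  linear_combination (IsLocalization.Away.invSelf
    (phiv om (frac JE c.castSucc) k.castSucc) : PhR om c k) ^ 3 * h2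

/-- the ring map for the chart pair -/
noncomputable def sg753 (hom : om ^ 2 + om + 1 = 0) (c k : Fin 2) :
    Ch JE k.castSucc →ₐ[ℂ] PhR om c k :=
  chLift JE k.castSucc (u753 om c k) (u753_one om c k) (u753_rel om hom c k)

theorem sg753_frac (hom : om ^ 2 + om + 1 = 0) (c k : Fin 2) (a : Fin 3) :
    sg753 om hom c k (frac JE k.castSucc a) *
      algebraMap _ (PhR om c k) (phiv om (frac JE c.castSucc) k.castSucc) =
      algebraMap _ (PhR om c k) (phiv om (frac JE c.castSucc) a) := by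
  unfold sg753
  rw [chLift_frac]
  unfold u753
  rw [mul_assoc, mul_comm (IsLocalization.Away.invSelf _),
    IsLocalization.Away.mul_invSelf, mul_one]

/-- the section -/
noncomputable def fs753 (c k : Fin 2) : Γ(E, V.D JE c.castSucc) :=
  secD JE c.castSucc (phiv om (frac JE c.castSucc) k.castSucc)

/-- the open set -/
noncomputable def W753 (c k : Fin 2) : E.Opens := E.basicOpen (fs753 om c k)

theorem W753_le (c k : Fin 2) : W753 om c k ≤ V.D JE c.castSucc := E.basicOpen_le _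

theorem isUnit753 (c k : Fin 2) : IsUnit (((res (W753_le om c k)).comp (secD JE c.castSucc))
    (phiv om (frac JE c.castSucc) k.castSucc)) :=
  E.toRingedSpace.isUnit_res_basicOpen (fs753 om c k)

/-- the map from the localisation -/
noncomputable def L753 (c k : Fin 2) : PhR om c k →+* Γ(E, W753 om c k) :=
  IsLocalization.Away.lift (phiv om (frac JE c.castSucc) k.castSucc) (isUnit753 om c k)

theorem L753_alg (c k : Fin 2) (x : Ch JE c.castSucc) :
    L753 om c k (algebraMap _ _ x) = res (W753_le om c k) (secD JE c.castSucc x) :=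
  IsLocalization.Away.lift_eq _ _ _

theorem res_cst753 {X : Scheme.{0}} (s : X ⟶ SpecC) {U W : X.Opens} (h : W ≤ U) (z : ℂ) :
    res h (cst s U z) = cst s W z := by
  unfold cst res
  rw [← CommRingCat.comp_apply, Category.assoc, Category.assoc, ← X.presheaf.map_comp]
  rfl

theorem cover753 (hom : om ^ 2 + om + 1 = 0) (x : E) : ∃ i : Fin 2 × Fin 2, x ∈ W753 om i.1 i.2 := by
  have key : ∀ c : Fin 2, x ∈ V.D JE c.castSucc → ∃ k : Fin 2, x ∈ W753 om c k := by
    intro c hx
    have h1 := phiv_span om hom c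
    rw [Ideal.eq_top_iff_one, Ideal.mem_span_pair] at h1
    obtain ⟨a, b, hab⟩ := h1
    have h2 := congrArg (fun t => E.presheaf.germ (V.D JE c.castSucc) x hx (secD JE c.castSucc t)) hab
    simp only [map_add, map_mul, map_one] at h2
    have h3 := IsLocalRing.isUnit_or_isUnit_of_isUnit_add (h2 ▸ isUnit_one)
    rcases h3 with h3 | h3
    · exact ⟨0, (E.mem_basicOpen _ x hx).2 (isUnit_of_mul_isUnit_right h3)⟩
    · exact ⟨1, (E.mem_basicOpen _ x hx).2 (isUnit_of_mul_isUnit_right h3)⟩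
  rcases E_cover 0 1 (by decide) x with h | h
  · obtain ⟨k, hk⟩ := key 0 h
    exact ⟨(0, k), hk⟩
  · obtain ⟨k, hk⟩ := key 1 h
    exact ⟨(1, k), hk⟩


/-- the composite ring map -/
noncomputable def rho753 (hom : om ^ 2 + om + 1 = 0) (c k : Fin 2) :
    Ch JE k.castSucc →+* Γ(E, W753 om c k) :=
  (L753 om c k).comp (sg753 om hom c k).toRingHom

theorem rho753_const (hom : om ^ 2 + om + 1 = 0) (c k : Fin 2) (z : ℂ) :
    rho753 om hom c k (algebraMap ℂ _ z) = cst sE (W753 om c k) z := by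
  have h1 : sg753 om hom c k (algebraMap ℂ _ z) =
      algebraMap (Ch JE c.castSucc) (PhR om c k) (algebraMap ℂ _ z) := by
    rw [AlgHom.commutes, ← IsScalarTower.algebraMap_apply]
  have h2 : rho753 om hom c k (algebraMap ℂ _ z) = L753 om c k (sg753 om hom c k (algebraMap ℂ _ z)) :=
    rfl
  rw [h2, h1, L753_alg, secD_const, res_cst753]

/-- the values of the coordinates of `phiv` on the open set -/
noncomputable def P753 (c k : Fin 2) (a : Fin 3) : Γ(E, W753 om c k) :=
  res (W753_le om c k) (secD JE c.castSucc (phiv om (frac JE c.castSucc) a))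

theorem rho753_frac (hom : om ^ 2 + om + 1 = 0) (c k : Fin 2) (a : Fin 3) :
    rho753 om hom c k (frac JE k.castSucc a) * P753 om c k k.castSucc = P753 om c k a := by
  have h := congrArg (L753 om c k) (sg753_frac om hom c k a)
  rw [map_mul, L753_alg, L753_alg] at h
  exact h

theorem isUnit_P753 (c k : Fin 2) : IsUnit (P753 om c k k.castSucc) := isUnit753 om c k

theorem secD_phiv753 (c : Fin 3) (a : Fin 3) {W : E.Opens} (h : W ≤ V.D JE c) :
    letI : Algebra ℂ Γ(E, W) := (cst sE W).toAlgebra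
    res h (secD JE c (phiv om (frac JE c) a)) = phiv om (fun b => res h (secD JE c (frac JE c b))) a := by
  letI : Algebra ℂ Γ(E, W) := (cst sE W).toAlgebra
  have hc : ∀ z : ℂ, res h (secD JE c (algebraMap ℂ _ z)) = algebraMap ℂ Γ(E, W) z := by
    intro z
    rw [secD_const, res_cst753]
    rfl
  fin_cases a
  · show res h (secD JE c (frac JE c 0 ^ 3 - algebraMap ℂ _ om * frac JE c 1 ^ 3)) =
      res h (secD JE c (frac JE c 0)) ^ 3 - algebraMap ℂ _ om * res h (secD JE c (frac JE c 1)) ^ 3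
    simp only [map_sub, map_mul, map_pow, hc]
  · show res h (secD JE c (algebraMap ℂ _ (om ^ 2) * frac JE c 1 ^ 3 - frac JE c 0 ^ 3)) =
      algebraMap ℂ _ (om ^ 2) * res h (secD JE c (frac JE c 1)) ^ 3 -
        res h (secD JE c (frac JE c 0)) ^ 3
    rw [map_sub, map_sub, map_mul, map_mul, hc]
    simp only [map_pow]
  · show res h (secD JE c (algebraMap ℂ _ (om - om ^ 2) *
        (frac JE c 0 * frac JE c 1 * frac JE c 2))) =
      algebraMap ℂ _ (om - om ^ 2) * (res h (secD JE c (frac JE c 0)) *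
        res h (secD JE c (frac JE c 1)) * res h (secD JE c (frac JE c 2)))
    rw [map_mul, map_mul, hc]
    simp only [map_mul]

theorem phiv_trans753 (c c' : Fin 3) (a : Fin 3) {W : E.Opens} (h : W ≤ V.D JE c)
    (h' : W ≤ V.D JE c') :
    res h (secD JE c (phiv om (frac JE c) a)) =
      res h (secD JE c (frac JE c c')) ^ 3 *
        res h' (secD JE c' (phiv om (frac JE c') a)) := by
  letI : Algebra ℂ Γ(E, W) := (cst sE W).toAlgebra
  rw [secD_phiv753, secD_phiv753]
  apply phiv_smul_753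
  intro b
  exact secD_trans JE c c' b W h h'

theorem compat753 (hom : om ^ 2 + om + 1 = 0) (i j : Fin 2 × Fin 2) (a : Fin 3) :
    res inf_le_left (rho753 om hom i.1 i.2 (frac JE i.2.castSucc a)) =
      (res inf_le_left (rho753 om hom i.1 i.2 (frac JE i.2.castSucc j.2.castSucc)) *
        res inf_le_right (rho753 om hom j.1 j.2 (frac JE j.2.castSucc a)) :
        Γ(E, W753 om i.1 i.2 ⊓ W753 om j.1 j.2)) := by
  have hP : ∀ b, res inf_le_left (P753 om i.1 i.2 b) =
      (res (inf_le_left.trans (W753_le om i.1 i.2)) (secD JE i.1.castSucc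
        (frac JE i.1.castSucc j.1.castSucc)) ^ 3 * res inf_le_right (P753 om j.1 j.2 b) :
        Γ(E, W753 om i.1 i.2 ⊓ W753 om j.1 j.2)) := by
    intro b
    unfold P753
    rw [res_res, res_res]
    exact phiv_trans753 om _ _ b _ _
  have h1 := congrArg (res (inf_le_left : W753 om i.1 i.2 ⊓ W753 om j.1 j.2 ≤ W753 om i.1 i.2))
    (rho753_frac om hom i.1 i.2 a)
  have h2 := congrArg (res (inf_le_left : W753 om i.1 i.2 ⊓ W753 om j.1 j.2 ≤ W753 om i.1 i.2))
    (rho753_frac om hom i.1 i.2 j.2.castSucc)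
  have h3 := congrArg (res (inf_le_right : W753 om i.1 i.2 ⊓ W753 om j.1 j.2 ≤ W753 om j.1 j.2))
    (rho753_frac om hom j.1 j.2 a)
  have u1 : IsUnit (res (inf_le_left : W753 om i.1 i.2 ⊓ W753 om j.1 j.2 ≤ W753 om i.1 i.2)
    (P753 om i.1 i.2 i.2.castSucc)) := (isUnit_P753 om i.1 i.2).map _
  have u2 : IsUnit (res (inf_le_right : W753 om i.1 i.2 ⊓ W753 om j.1 j.2 ≤ W753 om j.1 j.2)
    (P753 om j.1 j.2 j.2.castSucc)) := (isUnit_P753 om j.1 j.2).map _
  rw [map_mul, hP a] at h1
  rw [map_mul, hP j.2.castSucc] at h2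
  rw [map_mul] at h3
  apply (u1.mul u2).mul_right_cancel
  set A := res (inf_le_left : W753 om i.1 i.2 ⊓ W753 om j.1 j.2 ≤ W753 om i.1 i.2)
    (P753 om i.1 i.2 i.2.castSucc)
  set B := res (inf_le_right : W753 om i.1 i.2 ⊓ W753 om j.1 j.2 ≤ W753 om j.1 j.2)
    (P753 om j.1 j.2 j.2.castSucc)
  linear_combination B * h1 - (res inf_le_right (rho753 om hom j.1 j.2 (frac JE j.2.castSucc a))) *
    B * h2 - (res (inf_le_left.trans (W753_le om i.1 i.2)) (secD JE i.1.castSucc
        (frac JE i.1.castSucc j.1.castSucc)) ^ 3) * B * h3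

/-- the open immersion of the affine piece -/
noncomputable def j753 (c k : Fin 2) : Spec (.of (PhR om c k)) ⟶ E :=
  Spec.map (CommRingCat.ofHom (algebraMap (Ch JE c.castSucc) (PhR om c k))) ≫
    V.chart JE c.castSucc

instance (c k : Fin 2) : Mono (j753 om c k) := by
  unfold j753
  infer_instance

/-- the map from the open set to the affine scheme -/
noncomputable def th753 (c k : Fin 2) : (W753 om c k).toScheme ⟶ Spec (.of (PhR om c k)) :=
  (W753 om c k).toSpecΓ ≫
    Spec.map (CommRingCat.ofHom (R := PhR om c k) (S := Γ(E, W753 om c k)) (L753 om c k))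

theorem ι_W753 (c k : Fin 2) : th753 om c k ≫ j753 om c k = (W753 om c k).ι := by
  have h1 : (W753 om c k).ι = (W753 om c k).toSpecΓ ≫
      Spec.map (E.presheaf.map (homOfLE (W753_le om c k)).op) ≫
      Spec.map (CommRingCat.ofHom (R := Ch JE c.castSucc) (S := Γ(V JE, V.D JE c.castSucc))
        (secD JE c.castSucc)) ≫ V.chart JE c.castSucc := by
    rw [← E.homOfLE_ι (W753_le om c k), ← ι_D JE c.castSucc, ← Category.assoc,
      ← Scheme.Opens.toSpecΓ_SpecMap_presheaf_map, Category.assoc]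
  rw [h1]
  unfold th753 j753
  rw [Category.assoc]
  congr 1
  rw [← Category.assoc, ← Category.assoc, ← Spec.map_comp, ← Spec.map_comp]
  congr 2
  ext x
  exact L753_alg om c k x

theorem range_j753 (c k : Fin 2) : Set.range (j753 om c k) ⊆ Set.range (W753 om c k).ι := by
  rintro _ ⟨p, rfl⟩
  rw [Scheme.Opens.range_ι]
  have hq : (Spec.map (CommRingCat.ofHom (algebraMap (Ch JE c.castSucc) (PhR om c k))) p) ∈
      PrimeSpectrum.basicOpen (phiv om (frac JE c.castSucc) k.castSucc) := by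
    intro h
    have h' : algebraMap (Ch JE c.castSucc) (PhR om c k)
      (phiv om (frac JE c.castSucc) k.castSucc) ∈ p.asIdeal := h
    exact p.isPrime.ne_top (Ideal.eq_top_of_isUnit_mem _ h'
      (IsLocalization.Away.algebraMap_isUnit _))
  have hj : j753 om c k p = V.chart JE c.castSucc
      (Spec.map (CommRingCat.ofHom (algebraMap (Ch JE c.castSucc) (PhR om c k))) p) := by
    unfold j753
    rfl
  have hy : j753 om c k p ∈ V.D JE c.castSucc := by
    rw [hj]
    exact (V.mem_range_chart JE c.castSucc _).1 ⟨_, rfl⟩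
  let y : (V.D JE c.castSucc).toScheme := ⟨j753 om c k p, hy⟩
  have h1 : (V.D JE c.castSucc).ι y = j753 om c k p := rfl
  have h2 : V.chart JE c.castSucc ((Spec.map (CommRingCat.ofHom (R := Ch JE c.castSucc)
      (S := Γ(V JE, V.D JE c.castSucc)) (secD JE c.castSucc))) ((V.D JE c.castSucc).toSpecΓ y)) =
      (V.D JE c.castSucc).ι y := by
    rw [← ι_D JE c.castSucc]
    rfl
  rw [h1, hj] at h2
  have h3 := (V.chart JE c.castSucc).isOpenEmbedding.injective h2
  rw [← h3] at hq
  have h4 : y ∈ (V.D JE c.castSucc).toSpecΓ ⁻¹ᵁ PrimeSpectrum.basicOpen (fs753 om c k) := hq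
  rw [Scheme.Opens.toSpecΓ_preimage_basicOpen] at h4
  exact h4

theorem fin753 (c k : Fin 2) {Z : Scheme.{0}} (f : E ⟶ Z)
    (g : Spec (.of (PhR om c k)) ⟶ Z) (h : (W753 om c k).ι ≫ f = th753 om c k ≫ g) :
    j753 om c k ≫ f = g := by
  have h1 := IsOpenImmersion.lift_fac (W753 om c k).ι (j753 om c k) (range_j753 om c k)
  have h2 : IsOpenImmersion.lift (W753 om c k).ι (j753 om c k) (range_j753 om c k) ≫
      th753 om c k = 𝟙 _ := by
    rw [← cancel_mono (j753 om c k), Category.assoc, ι_W753, h1, Category.id_comp]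
  rw [← h1, Category.assoc, h, ← Category.assoc, h2, Category.id_comp]

end phi753

/-- TARGET 3: the self map exists. -/
theorem exists_phi0 (om : ℂ) (hom : om ^ 2 + om + 1 = 0) :
    ∃ φ : E ⟶ E, φ ≫ sE = sE ∧ IsPhi om φ := by
  obtain ⟨φ, h1, h2⟩ := exists_glue JE sE (fun i : Fin 2 × Fin 2 => W753 om i.1 i.2)
    (cover753 om hom) (fun i => i.2.castSucc) (fun i => rho753 om hom i.1 i.2)
    (fun i z => rho753_const om hom i.1 i.2 z) (fun i j a => compat753 om hom i j a)
  refine ⟨φ, h1, fun c k => ⟨sg753 om hom c k, sg753_frac om hom c k, ?_⟩⟩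
  have h3 := h2 (c, k)
  have h4 := fin753 om c k φ (Spec.map (CommRingCat.ofHom (sg753 om hom c k).toRingHom) ≫
    V.chart JE k.castSucc) (by
      rw [h3]
      unfold th753
      rw [Category.assoc, ← Category.assoc (Spec.map _) (Spec.map _), ← Spec.map_comp]
      rfl)
  rw [← h4]
  unfold j753
  rw [Category.assoc]

end Pool.Agent.Helper304.Ses
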