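import Pool.Agent.Helper304.Ses.Phi
import Pool.Agent.Helper304.Ses.Mc2

open MvPolynomial AlgebraicGeometry CategoryTheory Limits TopologicalSpace
open Pool.Agent.Helper198.Sch

namespace Pool.Agent.Helper304.Ses

attribute [local instance] MvPolynomial.gradedAlgebra

theorem phi_etale_ring_uniq {B : Type} [CommRing B] (I : Ideal B) (hI : ∀ a ∈ I, ∀ b ∈ I, a * b = 0)
    (h3 : IsUnit (3 : B)) (X Z X' Z' : B) (hX : X ^ 3 = X' ^ 3) (hZ : Z ^ 3 = Z' ^ 3)
    (hXZ : X * Z = X' * Z') (h1 : 1 + X ^ 3 + Z ^ 3 = 0) (dX : X - X' ∈ I) (dZ : Z - Z' ∈ I) :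
    X = X' ∧ Z = Z' := by
  have e1 := hI _ dX _ dX
  have e2 := hI _ dZ _ dZ
  have e3 := hI _ dX _ dZ
  have f1 : 3 * (X ^ 2 * (X' - X)) = 0 := by
    linear_combination (-1 : B) * hX + (2 * X + X') * (-1) * e1 + 0 * hZ
  have f2 : 3 * (Z ^ 2 * (Z' - Z)) = 0 := by
    linear_combination (-1 : B) * hZ + (2 * Z + Z') * (-1) * e2
  have f1' : X ^ 2 * (X' - X) = 0 := (h3.mul_right_eq_zero).1 f1
  have f2' : Z ^ 2 * (Z' - Z) = 0 := (h3.mul_right_eq_zero).1 f2
  have f3 : X * (Z' - Z) + Z * (X' - X) = 0 := by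
    linear_combination (-1 : B) * hXZ - e3
  constructor
  · have : X' - X = 0 := by
      linear_combination (X' - X) * h1 - X * f1' - Z ^ 2 * f3 + X * f2'
    exact (sub_eq_zero.1 this).symm
  · have : Z' - Z = 0 := by
      linear_combination (Z' - Z) * h1 - Z * f2' - X ^ 2 * f3 + Z * f1'
    exact (sub_eq_zero.1 this).symm

theorem phi_etale_ring_ex {B : Type} [CommRing B] (I : Ideal B) (hI : ∀ a ∈ I, ∀ b ∈ I, a * b = 0)
    (i3 : B) (h3 : i3 * 3 = 1) (V W Q X Z : B) (hVW : 1 + V + W = 0) (hQ : Q ^ 3 = V * W)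
    (ha : V - X ^ 3 ∈ I) (hb : W - Z ^ 3 ∈ I) (hq : Q - X * Z ∈ I) :
    ∃ X' Z' : B, X' - X ∈ I ∧ Z' - Z ∈ I ∧ X' ^ 3 = V ∧ Z' ^ 3 = W ∧ X' * Z' = Q := by
  obtain ⟨a, rfl⟩ : ∃ a, V = X ^ 3 + a := ⟨V - X ^ 3, by ring⟩
  obtain ⟨b, rfl⟩ : ∃ b, W = Z ^ 3 + b := ⟨W - Z ^ 3, by ring⟩
  obtain ⟨q, rfl⟩ : ∃ q, Q = X * Z + q := ⟨Q - X * Z, by ring⟩
  have ha' : a ∈ I := by simpa using ha
  have hb' : b ∈ I := by simpa using hb
  have hq' : q ∈ I := by simpa using hq
  have aa := hI a ha' a ha'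
  have ab := hI a ha' b hb'
  have bb := hI b hb' b hb'
  have aq := hI a ha' q hq'
  have bq := hI b hb' q hq'
  have qq := hI q hq' q hq'
  have key : 3 * X ^ 2 * Z ^ 2 * q = a * Z ^ 3 + b * X ^ 3 := by
    linear_combination hQ + ab - (3 * X * Z + q) * qq
  refine ⟨X + (X * (b - a) * i3 - Z ^ 2 * q), Z + (Z * (a - b) * i3 - X ^ 2 * q), ?_, ?_, ?_, ?_, ?_⟩
  · rw [add_sub_cancel_left]
    exact I.sub_mem (I.mul_mem_right _ (I.mul_mem_left _ (I.sub_mem hb' ha'))) (I.mul_mem_left _ hq')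
  · rw [add_sub_cancel_left]
    exact I.sub_mem (I.mul_mem_right _ (I.mul_mem_left _ (I.sub_mem ha' hb'))) (I.mul_mem_left _ hq')
  · have hδ : X * (b - a) * i3 - Z ^ 2 * q ∈ I :=
      I.sub_mem (I.mul_mem_right _ (I.mul_mem_left _ (I.sub_mem hb' ha'))) (I.mul_mem_left _ hq')
    have dd := hI _ hδ _ hδ
    have e : 3 * X ^ 2 * (X * (b - a) * i3 - Z ^ 2 * q) = a := by
      linear_combination (X ^ 3 * (b - a)) * h3 - key - a * hVW + aa + ab
    linear_combination e + (3 * X + (X * (b - a) * i3 - Z ^ 2 * q)) * dd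
  · have hδ : Z * (a - b) * i3 - X ^ 2 * q ∈ I :=
      I.sub_mem (I.mul_mem_right _ (I.mul_mem_left _ (I.sub_mem ha' hb'))) (I.mul_mem_left _ hq')
    have dd := hI _ hδ _ hδ
    have e : 3 * Z ^ 2 * (Z * (a - b) * i3 - X ^ 2 * q) = b := by
      linear_combination (Z ^ 3 * (a - b)) * h3 - key - b * hVW + bb + ab
    linear_combination e + (3 * Z + (Z * (a - b) * i3 - X ^ 2 * q)) * dd
  · have hδ : X * (b - a) * i3 - Z ^ 2 * q ∈ I :=
      I.sub_mem (I.mul_mem_right _ (I.mul_mem_left _ (I.sub_mem hb' ha'))) (I.mul_mem_left _ hq')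
    have hε : Z * (a - b) * i3 - X ^ 2 * q ∈ I :=
      I.sub_mem (I.mul_mem_right _ (I.mul_mem_left _ (I.sub_mem ha' hb'))) (I.mul_mem_left _ hq')
    have dd := hI _ hδ _ hε
    linear_combination dd - q * hVW + aq + bq

theorem phi_etale_ring_data (om : ℂ) (hom : om ^ 2 + om + 1 = 0) (c k : Fin 2) :
    ∃ (c' k' : Fin 3) (a b a' b' : ℂ), (∀ i : Fin 3, i = c.castSucc ∨ i = c' ∨ i = 2) ∧
      (∀ i : Fin 3, i = k.castSucc ∨ i = k' ∨ i = 2) ∧ c.castSucc ≠ c' ∧ c.castSucc ≠ 2 ∧ c' ≠ 2 ∧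
      k.castSucc ≠ k' ∧ k.castSucc ≠ 2 ∧ k' ≠ 2 ∧
      a' * b - a * b' ≠ 0 ∧
      (∀ (R : Type) [CommRing R] [Algebra ℂ R] (v : R),
        (algebraMap ℂ R a * v + algebraMap ℂ R b) ^ 3 +
          (algebraMap ℂ R a' * v + algebraMap ℂ R b') ^ 3 =
          algebraMap ℂ R (om - om ^ 2) ^ 3 * (v * (1 + v))) ∧
      (∀ (R : Type) [CommRing R] [Algebra ℂ R] (u : Fin 3 → R), u c.castSucc = 1 →
        phiv om u k.castSucc = algebraMap ℂ R a * u c' ^ 3 + algebraMap ℂ R b ∧
        phiv om u k' = algebraMap ℂ R a' * u c' ^ 3 + algebraMap ℂ R b' ∧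
        phiv om u 2 = algebraMap ℂ R (om - om ^ 2) * (u c' * u 2)) ∧
      (∀ (R : Type) [CommRing R] (u : Fin 3 → R), u c.castSucc = 1 →
        u 0 ^ 3 + u 1 ^ 3 + u 2 ^ 3 = 1 + u c' ^ 3 + u 2 ^ 3) ∧
      (∀ (R : Type) [CommRing R] (u : Fin 3 → R), u k.castSucc = 1 →
        u 0 ^ 3 + u 1 ^ 3 + u 2 ^ 3 = 1 + u k' ^ 3 + u 2 ^ 3) := by
  have hne : om ^ 2 - om ≠ 0 := by
    intro h
    have h1 : om * (om - 1) = 0 := by linear_combination h
    rcases mul_eq_zero.1 h1 with h2 | h2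
    · rw [h2] at hom; norm_num at hom
    · have h3 : om = 1 := by linear_combination h2
      rw [h3] at hom; norm_num at hom
  have hne' : om - om ^ 2 ≠ 0 := by
    intro h
    exact hne (by linear_combination -h)
  have hw : ∀ (R : Type) [CommRing R] [Algebra ℂ R],
      (algebraMap ℂ R om) ^ 2 + algebraMap ℂ R om + 1 = 0 := by
    intro R _ _
    have := congrArg (algebraMap ℂ R) hom
    simpa using this
  fin_cases c <;> fin_cases k
  · refine ⟨1, 1, -om, 1, om ^ 2, -1, ?_, ?_, ?_, ?_, ?_, ?_, ?_, ?_, ?_, ?_, ?_, ?_, ?_⟩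
    · decide
    · decide
    · decide
    · decide
    · decide
    · decide
    · decide
    · decide
    · intro h; apply hne; linear_combination h
    · intro R _ _ v
      simp only [map_neg, map_one, map_pow, map_sub]
      generalize hg : algebraMap ℂ R om = w
      have h := hw R
      rw [hg] at h
      linear_combination (w ^ 3 * (w - 1) * v ^ 3 + w ^ 2 * (1 - w) * (3 - w) * v ^ 2
        - w * (1 - w) * (w ^ 2 - 3 * w + 3) * v) * h
    · intro R _ _ u hu
      have hu' : u 0 = 1 := hu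
      refine ⟨?_, ?_, ?_⟩
      · show u 0 ^ 3 - algebraMap ℂ R om * u 1 ^ 3 = _
        rw [hu']; simp; ring
      · show algebraMap ℂ R (om ^ 2) * u 1 ^ 3 - u 0 ^ 3 = _
        rw [hu']; simp; ring
      · show algebraMap ℂ R (om - om ^ 2) * (u 0 * u 1 * u 2) = _
        rw [hu']; ring
    · intro R _ u hu
      have hu' : u 0 = 1 := hu
      rw [hu']; ring
    · intro R _ u hu
      have hu' : u 0 = 1 := hu
      rw [hu']; ring
  · refine ⟨1, 0, om ^ 2, -1, -om, 1, ?_, ?_, ?_, ?_, ?_, ?_, ?_, ?_, ?_, ?_, ?_, ?_, ?_⟩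
    · decide
    · decide
    · decide
    · decide
    · decide
    · decide
    · decide
    · decide
    · intro h; apply hne'; linear_combination h
    · intro R _ _ v
      simp only [map_neg, map_one, map_pow, map_sub]
      generalize hg : algebraMap ℂ R om = w
      have h := hw R
      rw [hg] at h
      linear_combination (w ^ 3 * (w - 1) * v ^ 3 + w ^ 2 * (1 - w) * (3 - w) * v ^ 2
        - w * (1 - w) * (w ^ 2 - 3 * w + 3) * v) * h
    · intro R _ _ u hu
      have hu' : u 0 = 1 := hu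
      refine ⟨?_, ?_, ?_⟩
      · show algebraMap ℂ R (om ^ 2) * u 1 ^ 3 - u 0 ^ 3 = _
        rw [hu']; simp; ring
      · show u 0 ^ 3 - algebraMap ℂ R om * u 1 ^ 3 = _
        rw [hu']; simp; ring
      · show algebraMap ℂ R (om - om ^ 2) * (u 0 * u 1 * u 2) = _
        rw [hu']; ring
    · intro R _ u hu
      have hu' : u 0 = 1 := hu
      rw [hu']; ring
    · intro R _ u hu
      have hu' : u 1 = 1 := hu
      rw [hu']; ring
  · refine ⟨0, 1, 1, -om, -1, om ^ 2, ?_, ?_, ?_, ?_, ?_, ?_, ?_, ?_, ?_, ?_, ?_, ?_, ?_⟩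
    · decide
    · decide
    · decide
    · decide
    · decide
    · decide
    · decide
    · decide
    · intro h; apply hne'; linear_combination h
    · intro R _ _ v
      simp only [map_neg, map_one, map_pow, map_sub]
      generalize hg : algebraMap ℂ R om = w
      have h := hw R
      rw [hg] at h
      linear_combination (-w * (1 - w) * (w ^ 2 - 3 * w + 3) * v ^ 2
        + w ^ 2 * (1 - w) * (3 - w) * v + w ^ 3 * (w - 1)) * h
    · intro R _ _ u hu
      have hu' : u 1 = 1 := hu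
      refine ⟨?_, ?_, ?_⟩
      · show u 0 ^ 3 - algebraMap ℂ R om * u 1 ^ 3 = _
        rw [hu']; simp; ring
      · show algebraMap ℂ R (om ^ 2) * u 1 ^ 3 - u 0 ^ 3 = _
        rw [hu']; simp; ring
      · show algebraMap ℂ R (om - om ^ 2) * (u 0 * u 1 * u 2) = _
        rw [hu']; ring
    · intro R _ u hu
      have hu' : u 1 = 1 := hu
      rw [hu']; ring
    · intro R _ u hu
      have hu' : u 0 = 1 := hu
      rw [hu']; ring
  · refine ⟨0, 0, -1, om ^ 2, 1, -om, ?_, ?_, ?_, ?_, ?_, ?_, ?_, ?_, ?_, ?_, ?_, ?_, ?_⟩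
    · decide
    · decide
    · decide
    · decide
    · decide
    · decide
    · decide
    · decide
    · intro h; apply hne; linear_combination h
    · intro R _ _ v
      simp only [map_neg, map_one, map_pow, map_sub]
      generalize hg : algebraMap ℂ R om = w
      have h := hw R
      rw [hg] at h
      linear_combination (-w * (1 - w) * (w ^ 2 - 3 * w + 3) * v ^ 2
        + w ^ 2 * (1 - w) * (3 - w) * v + w ^ 3 * (w - 1)) * h
    · intro R _ _ u hu
      have hu' : u 1 = 1 := hu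
      refine ⟨?_, ?_, ?_⟩
      · show algebraMap ℂ R (om ^ 2) * u 1 ^ 3 - u 0 ^ 3 = _
        rw [hu']; simp; ring
      · show u 0 ^ 3 - algebraMap ℂ R om * u 1 ^ 3 = _
        rw [hu']; simp; ring
      · show algebraMap ℂ R (om - om ^ 2) * (u 0 * u 1 * u 2) = _
        rw [hu']; ring
    · intro R _ u hu
      have hu' : u 1 = 1 := hu
      rw [hu']; ring
    · intro R _ u hu
      have hu' : u 1 = 1 := hu
      rw [hu']; ring

theorem phi_etale_ring_rel (c : Fin 3) : (frac JE c 0) ^ 3 + (frac JE c 1) ^ 3 + (frac JE c 2) ^ 3 = 0 := by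
  have h := aeval_frac_eq_zero JE c fE (mem_ofSet (Set.mem_singleton _))
  simpa [fE] using h

theorem phi_etale_ring_map (om : ℂ) {R S : Type} [CommRing R] [CommRing S] [Algebra ℂ R]
    [Algebra ℂ S] (f : R →ₐ[ℂ] S) (u : Fin 3 → R) (j : Fin 3) :
    f (phiv om u j) = phiv om (fun i => f (u i)) j := by
  fin_cases j <;> simp [phiv]

theorem phi_etale_ring_unit {B : Type} [CommRing B] (I : Ideal B)
    (hI : ∀ a ∈ I, ∀ b ∈ I, a * b = 0) (x y : B) (h : x * y - 1 ∈ I) : IsUnit x := by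
  have h2 := hI _ h _ h
  refine IsUnit.of_mul_eq_one (y * (2 - x * y)) ?_
  linear_combination -h2

theorem phi_etale_ring_constU {B : Type} [CommRing B] [Algebra ℂ B] (z : ℂ) (hz : z ≠ 0) :
    IsUnit (algebraMap ℂ B z) := (IsUnit.mk0 z hz).map (algebraMap ℂ B)

/-- consequences of the relations for a point of the localised chart -/
theorem phi_etale_ring_pt (om : ℂ) (c k : Fin 2)
    (ρ : Ch JE k.castSucc →ₐ[ℂ] PhR om c k)
    (hρ : ∀ a, ρ (frac JE k.castSucc a) *
      algebraMap _ (PhR om c k) (phiv om (frac JE c.castSucc) k.castSucc) =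
      algebraMap _ (PhR om c k) (phiv om (frac JE c.castSucc) a))
    {B : Type} [CommRing B] [Algebra ℂ B] (α : Ch JE k.castSucc →ₐ[ℂ] B)
    (g : PhR om c k →ₐ[ℂ] B) (hg : ∀ x, g (ρ x) = α x) :
    ∃ u : Fin 3 → B, (∀ i, u i = g (algebraMap _ (PhR om c k) (frac JE c.castSucc i))) ∧
      u c.castSucc = 1 ∧ u 0 ^ 3 + u 1 ^ 3 + u 2 ^ 3 = 0 ∧
      ∀ j, α (frac JE k.castSucc j) * phiv om u k.castSucc = phiv om u j := by
  refine ⟨fun i => g (algebraMap _ (PhR om c k) (frac JE c.castSucc i)), fun i => rfl, ?_, ?_, ?_⟩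
  · simp only [frac_self, map_one]
  · have h := phi_etale_ring_rel c.castSucc
    have h2 := congrArg (fun y => g (algebraMap _ (PhR om c k) y)) h
    simpa using h2
  · have hm : ∀ j, g (algebraMap _ (PhR om c k) (phiv om (frac JE c.castSucc) j)) =
        phiv om (fun i => g (algebraMap _ (PhR om c k) (frac JE c.castSucc i))) j := by
      intro j
      have := phi_etale_ring_map om (g.comp (IsScalarTower.toAlgHom ℂ (Ch JE c.castSucc) (PhR om c k)))
        (frac JE c.castSucc) j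
      exact this
    intro j
    rw [← hm, ← hm, ← hρ j, map_mul, hg]

theorem phi_etale_ring_inj (om : ℂ) (hom : om ^ 2 + om + 1 = 0) (c k : Fin 2)
    (ρ : Ch JE k.castSucc →ₐ[ℂ] PhR om c k)
    (hρ : ∀ a, ρ (frac JE k.castSucc a) *
      algebraMap _ (PhR om c k) (phiv om (frac JE c.castSucc) k.castSucc) =
      algebraMap _ (PhR om c k) (phiv om (frac JE c.castSucc) a))
    {B : Type} [CommRing B] [Algebra ℂ B] (α : Ch JE k.castSucc →ₐ[ℂ] B)
    (I : Ideal B) (hI : ∀ a ∈ I, ∀ b ∈ I, a * b = 0)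
    (g g' : PhR om c k →ₐ[ℂ] B) (hg : ∀ x, g (ρ x) = α x) (hg' : ∀ x, g' (ρ x) = α x)
    (hgg : ∀ x, g x - g' x ∈ I) : g = g' := by
  obtain ⟨c', k', a, b, a', b', hc3, hk3, n1, n2, n3, n4, n5, n6, hdet, hid, hphi, hrelc, hrelk⟩ :=
    phi_etale_ring_data om hom c k
  obtain ⟨u, hu, hu1, hu0, hut⟩ := phi_etale_ring_pt om c k ρ hρ α g hg
  obtain ⟨u', hu', hu1', hu0', hut'⟩ := phi_etale_ring_pt om c k ρ hρ α g' hg'
  obtain ⟨p1, p2, p3⟩ := hphi B u hu1
  obtain ⟨p1', p2', p3'⟩ := hphi B u' hu1'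
  have hT := hut k'
  have hS := hut 2
  have hT' := hut' k'
  have hS' := hut' 2
  rw [p1, p2] at hT
  rw [p1, p3] at hS
  rw [p1', p2'] at hT'
  rw [p1', p3'] at hS'
  have hr := hrelc B u hu1
  have hr' := hrelc B u' hu1'
  rw [hu0] at hr
  rw [hu0'] at hr'
  generalize α (frac JE k.castSucc k') = T at *
  generalize α (frac JE k.castSucc 2) = S at *
  have hD : (algebraMap ℂ B a' - T * algebraMap ℂ B a) *
      (algebraMap ℂ B a * u c' ^ 3 + algebraMap ℂ B b) = algebraMap ℂ B (a' * b - a * b') := by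
    simp only [map_sub, map_mul]
    linear_combination (-algebraMap ℂ B a) * hT
  have hDu : IsUnit (algebraMap ℂ B a' - T * algebraMap ℂ B a) := by
    have := phi_etale_ring_constU (B := B) _ hdet
    rw [← hD] at this
    exact isUnit_of_mul_isUnit_left this
  have hV : u c' ^ 3 = u' c' ^ 3 := by
    have : (algebraMap ℂ B a' - T * algebraMap ℂ B a) * (u c' ^ 3 - u' c' ^ 3) = 0 := by
      linear_combination hT' - hT
    exact sub_eq_zero.1 ((hDu.mul_right_eq_zero).1 this)
  have hW : u 2 ^ 3 = u' 2 ^ 3 := by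
    linear_combination hr' - hr - hV
  have hk : om - om ^ 2 ≠ 0 := by
    intro h
    have h1 : om * (1 - om) = 0 := by linear_combination h
    rcases mul_eq_zero.1 h1 with h2 | h2
    · rw [h2] at hom; norm_num at hom
    · have h3 : om = 1 := by linear_combination -h2
      rw [h3] at hom; norm_num at hom
  have hQ : u c' * u 2 = u' c' * u' 2 := by
    have hku := phi_etale_ring_constU (B := B) _ hk
    apply hku.mul_left_cancel
    rw [← hS, ← hS', hV]
  have h3u : IsUnit (3 : B) := by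
    have := phi_etale_ring_constU (B := B) 3 (by norm_num)
    have e9 : algebraMap ℂ B 3 = 3 := map_ofNat _ 3
    rwa [e9] at this
  obtain ⟨e1, e2⟩ := phi_etale_ring_uniq I hI h3u (u c') (u 2) (u' c') (u' 2) hV hW hQ
    (by linear_combination -hr) (by rw [hu, hu']; exact hgg _) (by rw [hu, hu']; exact hgg _)
  have hall : ∀ i, u i = u' i := by
    intro i
    rcases hc3 i with h | h | h
    · rw [h, hu1, hu1']
    · rw [h, e1]
    · rw [h, e2]
  have h9 : (g.comp (IsScalarTower.toAlgHom ℂ (Ch JE c.castSucc) (PhR om c k))) =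
      (g'.comp (IsScalarTower.toAlgHom ℂ (Ch JE c.castSucc) (PhR om c k))) := by
    apply ch_algHom_ext
    intro i
    have := hall i
    rw [hu, hu'] at this
    exact this
  have h10 : (g : PhR om c k →+* B) = (g' : PhR om c k →+* B) := by
    apply IsLocalization.ringHom_ext (Submonoid.powers (phiv om (frac JE c.castSucc) k.castSucc))
    apply RingHom.ext
    intro x
    exact DFunLike.congr_fun h9 x
  apply AlgHom.ext
  intro x
  exact DFunLike.congr_fun h10 x

theorem phi_etale_ring_surj (om : ℂ) (hom : om ^ 2 + om + 1 = 0) (c k : Fin 2)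
    (ρ : Ch JE k.castSucc →ₐ[ℂ] PhR om c k)
    (hρ : ∀ a, ρ (frac JE k.castSucc a) *
      algebraMap _ (PhR om c k) (phiv om (frac JE c.castSucc) k.castSucc) =
      algebraMap _ (PhR om c k) (phiv om (frac JE c.castSucc) a))
    {B : Type} [CommRing B] [Algebra ℂ B] (α : Ch JE k.castSucc →ₐ[ℂ] B)
    (I : Ideal B) (hI : ∀ a ∈ I, ∀ b ∈ I, a * b = 0)
    (f : PhR om c k →ₐ[ℂ] B ⧸ I) (hf : ∀ x, f (ρ x) = Ideal.Quotient.mkₐ ℂ I (α x)) :
    ∃ g : PhR om c k →ₐ[ℂ] B, (∀ x, g (ρ x) = α x) ∧ ∀ x, Ideal.Quotient.mkₐ ℂ I (g x) = f x := by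
  obtain ⟨c', k', a, b, a', b', hc3, hk3, n1, n2, n3, n4, n5, n6, hdet, hid, hphi, hrelc, hrelk⟩ :=
    phi_etale_ring_data om hom c k
  obtain ⟨v, hv, hv1, hv0, hvt⟩ := phi_etale_ring_pt om c k ρ hρ ((Ideal.Quotient.mkₐ ℂ I).comp α) f
    hf
  obtain ⟨p1, p2, p3⟩ := hphi _ v hv1
  have hT := hvt k'
  have hS := hvt 2
  rw [p1, p2] at hT
  rw [p1, p3] at hS
  have hr := hrelc _ v hv1
  rw [hv0] at hr
  obtain ⟨X0, hX0⟩ := Ideal.Quotient.mk_surjective (v c')
  obtain ⟨Z0, hZ0⟩ := Ideal.Quotient.mk_surjective (v 2)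
  rw [← hX0, AlgHom.comp_apply] at hT hS
  rw [← hX0, ← hZ0] at hr
  rw [← hZ0] at hS
  have hrA := hrelk _ (fun i => α (frac JE k.castSucc i)) (by simp only [frac_self, map_one])
  have hrA0 : α (frac JE k.castSucc 0) ^ 3 + α (frac JE k.castSucc 1) ^ 3 +
      α (frac JE k.castSucc 2) ^ 3 = 0 := by
    have h := phi_etale_ring_rel k.castSucc
    have h2 := congrArg α h
    simpa using h2
  simp only [hrA0] at hrA
  have hTk : ∀ j, j = k' → α (frac JE k.castSucc j) = α (frac JE k.castSucc k') := by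
    rintro j rfl; rfl
  set T := α (frac JE k.castSucc k') with hTdef
  set S := α (frac JE k.castSucc 2) with hSdef
  have mkC : ∀ z : ℂ, algebraMap ℂ (B ⧸ I) z = Ideal.Quotient.mk I (algebraMap ℂ B z) := fun z => rfl
  have mkA : ∀ z : B, Ideal.Quotient.mkₐ ℂ I z = Ideal.Quotient.mk I z := fun z => rfl
  simp only [mkC, mkA, ← map_pow, ← map_mul, ← map_add] at hT hS
  have hT1 := (Ideal.Quotient.eq.1 hT)
  have hS1 := (Ideal.Quotient.eq.1 hS)
  have hr1 : 1 + X0 ^ 3 + Z0 ^ 3 ∈ I := by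
    rw [← Ideal.Quotient.eq_zero_iff_mem]
    simp only [map_add, map_pow, map_one]
    exact hr.symm
  obtain ⟨id, hid1⟩ := (phi_etale_ring_constU (B := B) _ hdet).exists_left_inv
  have hD1 : (algebraMap ℂ B a' - T * algebraMap ℂ B a) *
      ((algebraMap ℂ B a * X0 ^ 3 + algebraMap ℂ B b) * id) - 1 ∈ I := by
    have h9 : (algebraMap ℂ B a' - T * algebraMap ℂ B a) *
      ((algebraMap ℂ B a * X0 ^ 3 + algebraMap ℂ B b) * id) - 1 =
        (-algebraMap ℂ B a * id) * (T * (algebraMap ℂ B a * X0 ^ 3 + algebraMap ℂ B b) -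
          (algebraMap ℂ B a' * X0 ^ 3 + algebraMap ℂ B b')) := by
      simp only [map_sub, map_mul] at hid1
      linear_combination hid1
    rw [h9]
    exact I.mul_mem_left _ hT1
  have hDu := phi_etale_ring_unit I hI _ _ hD1
  obtain ⟨D', hD'⟩ := hDu.exists_right_inv
  have hk : om - om ^ 2 ≠ 0 := by
    intro h
    have h1 : om * (1 - om) = 0 := by linear_combination h
    rcases mul_eq_zero.1 h1 with h2 | h2
    · rw [h2] at hom; norm_num at hom
    · have h3 : om = 1 := by linear_combination -h2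
      rw [h3] at hom; norm_num at hom
  have hku := phi_etale_ring_constU (B := B) _ hk
  obtain ⟨κ', hκ'⟩ := hku.exists_right_inv
  set κ := algebraMap ℂ B (om - om ^ 2) with hκdef
  set V := D' * (T * algebraMap ℂ B b - algebraMap ℂ B b') with hVdef
  have hDV : (algebraMap ℂ B a' - T * algebraMap ℂ B a) * V =
      T * algebraMap ℂ B b - algebraMap ℂ B b' := by
    rw [hVdef]
    linear_combination (T * algebraMap ℂ B b - algebraMap ℂ B b') * hD'
  have hTV : T * (algebraMap ℂ B a * V + algebraMap ℂ B b) =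
      algebraMap ℂ B a' * V + algebraMap ℂ B b' := by
    linear_combination -hDV
  set Q := κ' * (S * (algebraMap ℂ B a * V + algebraMap ℂ B b)) with hQdef
  have hκQ : κ * Q = S * (algebraMap ℂ B a * V + algebraMap ℂ B b) := by
    rw [hQdef]
    linear_combination (S * (algebraMap ℂ B a * V + algebraMap ℂ B b)) * hκ'
  have hQ3 : Q ^ 3 = V * (-1 - V) := by
    have h9 := hid B V
    have h10 : κ ^ 3 * (Q ^ 3 - V * (-1 - V)) = 0 := by
      have e1 : κ ^ 3 * Q ^ 3 = (S * (algebraMap ℂ B a * V + algebraMap ℂ B b)) ^ 3 := by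
        rw [← hκQ]; ring
      rw [← hTV] at h9
      linear_combination e1 - h9 - (algebraMap ℂ B a * V + algebraMap ℂ B b) ^ 3 * hrA
    exact sub_eq_zero.1 (((hku.pow 3).mul_right_eq_zero).1 h10)
  obtain ⟨i3, hi3⟩ : ∃ i3 : B, i3 * 3 = 1 := by
    have := phi_etale_ring_constU (B := B) 3 (by norm_num)
    obtain ⟨i3, hi3⟩ := this.exists_left_inv
    have e9 : algebraMap ℂ B 3 = 3 := map_ofNat _ 3
    exact ⟨i3, by rwa [e9] at hi3⟩
  have hVI : V - X0 ^ 3 ∈ I := by
    have h9 : V - X0 ^ 3 = D' * (T * (algebraMap ℂ B a * X0 ^ 3 + algebraMap ℂ B b) -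
          (algebraMap ℂ B a' * X0 ^ 3 + algebraMap ℂ B b')) := by
      rw [hVdef]
      linear_combination (X0 ^ 3) * hD'
    rw [h9]
    exact I.mul_mem_left _ hT1
  have hWI : (-1 - V) - Z0 ^ 3 ∈ I := by
    have h9 : (-1 - V) - Z0 ^ 3 = -(V - X0 ^ 3) - (1 + X0 ^ 3 + Z0 ^ 3) := by ring
    rw [h9]
    exact I.sub_mem (I.neg_mem hVI) hr1
  have hQI : Q - X0 * Z0 ∈ I := by
    have h9 : Q - X0 * Z0 = κ' * (S * (algebraMap ℂ B a * (V - X0 ^ 3))) +
        κ' * (S * (algebraMap ℂ B a * X0 ^ 3 + algebraMap ℂ B b) - κ * (X0 * Z0)) := by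
      rw [hQdef]
      linear_combination (X0 * Z0) * hκ'
    rw [h9]
    refine I.add_mem (I.mul_mem_left _ (I.mul_mem_left _ (I.mul_mem_left _ hVI)))
      (I.mul_mem_left _ hS1)
  obtain ⟨X, Z, hXI, hZI, hX3, hZ3, hXZ⟩ := phi_etale_ring_ex I hI i3 hi3 V (-1 - V) Q X0 Z0
    (by ring) hQ3 hVI hWI hQI
  let w : Fin 3 → B := fun i => if i = c.castSucc then 1 else if i = 2 then Z else X
  have hw1 : w c.castSucc = 1 := by simp [w]
  have hw2 : w 2 = Z := by simp [w, n2.symm]
  have hw3 : w c' = X := by simp [w, n1.symm, n3]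
  have hwrel : ∀ q ∈ JE.toIdeal, aeval w q = 0 := by
    apply aeval_ofSet
    rintro q rfl
    have := hrelc B w hw1
    simp only [fE, map_add, map_pow, aeval_X]
    rw [this, hw2, hw3, hX3, hZ3]
    ring
  obtain ⟨q1, q2, q3⟩ := hphi B w hw1
  rw [hw3, hX3] at q1 q2
  rw [hw3, hw2, hXZ] at q3
  have hφu : IsUnit (phiv om w k.castSucc) := by
    have h9 : (algebraMap ℂ B a' - T * algebraMap ℂ B a) * (phiv om w k.castSucc) =
        algebraMap ℂ B (a' * b - a * b') := by
      rw [q1]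
      simp only [map_sub, map_mul]
      linear_combination (-algebraMap ℂ B a) * hTV
    have := phi_etale_ring_constU (B := B) _ hdet
    rw [← h9] at this
    exact isUnit_of_mul_isUnit_right this
  let g0 : Ch JE c.castSucc →ₐ[ℂ] B := chLift JE c.castSucc w hw1 hwrel
  have hg0 : ∀ i, g0 (frac JE c.castSucc i) = w i := fun i => chLift_frac _ _ _ _ _ i
  have hg0p : ∀ j, g0 (phiv om (frac JE c.castSucc) j) = phiv om w j := by
    intro j
    rw [phi_etale_ring_map]
    congr 1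
    funext i
    exact hg0 i
  let g : PhR om c k →+* B := IsLocalization.Away.lift
    (phiv om (frac JE c.castSucc) k.castSucc) (g := (g0 : Ch JE c.castSucc →+* B)) (by
      show IsUnit (g0 (phiv om (frac JE c.castSucc) k.castSucc))
      rw [hg0p]
      exact hφu)
  have hgl : ∀ x, g (algebraMap _ (PhR om c k) x) = g0 x := fun x =>
    IsLocalization.Away.lift_eq _ _ x
  let gA : PhR om c k →ₐ[ℂ] B :=
    { g with
      commutes' := by
        intro r
        show g (algebraMap ℂ (PhR om c k) r) = _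
        rw [IsScalarTower.algebraMap_apply ℂ (Ch JE c.castSucc) (PhR om c k), hgl]
        exact g0.commutes r }
  have hgA : ∀ x, gA (algebraMap _ (PhR om c k) x) = g0 x := hgl
  refine ⟨gA, ?_, ?_⟩
  · have h9 : gA.comp ρ = α := by
      apply ch_algHom_ext
      intro j
      rw [AlgHom.comp_apply]
      apply hφu.mul_right_cancel
      have h10 : gA (ρ (frac JE k.castSucc j)) * phiv om w k.castSucc = phiv om w j := by
        rw [← hg0p k.castSucc, ← hgA, ← map_mul, hρ j, hgA, hg0p]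
      rw [h10]
      rcases hk3 j with h | h | h
      · rw [h, frac_self, map_one, one_mul]
      · rw [h, q2, q1, ← hTdef, hTV]
      · rw [h, q3, q1, ← hSdef, ← hκQ]
    intro x
    exact DFunLike.congr_fun h9 x
  · have h9 : ((Ideal.Quotient.mkₐ ℂ I).comp g0) =
        f.comp (IsScalarTower.toAlgHom ℂ (Ch JE c.castSucc) (PhR om c k)) := by
      apply ch_algHom_ext
      intro j
      rw [AlgHom.comp_apply, hg0, AlgHom.comp_apply]
      have h11 : f (IsScalarTower.toAlgHom ℂ (Ch JE c.castSucc) (PhR om c k)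
        (frac JE c.castSucc j)) = v j := (hv j).symm
      rw [h11]
      rcases hc3 j with h | h | h
      · rw [h, hw1, hv1, map_one]
      · rw [h, hw3, ← hX0]
        exact Ideal.Quotient.eq.2 hXI
      · rw [h, hw2, ← hZ0]
        exact Ideal.Quotient.eq.2 hZI
    have h10 : (((Ideal.Quotient.mkₐ ℂ I).comp gA : PhR om c k →ₐ[ℂ] B ⧸ I) :
        PhR om c k →+* B ⧸ I) = (f : PhR om c k →+* B ⧸ I) := by
      apply IsLocalization.ringHom_ext (Submonoid.powers (phiv om (frac JE c.castSucc) k.castSucc))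
      apply RingHom.ext
      intro x
      have := DFunLike.congr_fun h9 x
      show Ideal.Quotient.mkₐ ℂ I (gA (algebraMap _ (PhR om c k) x)) = _
      rw [hgA]
      exact this
    intro x
    exact DFunLike.congr_fun h10 x

/-- TARGET: the self map is étale on rings. -/
theorem phi_etale_ring (om : ℂ) (hom : om ^ 2 + om + 1 = 0) (c k : Fin 2)
    (ρ : Ch JE k.castSucc →ₐ[ℂ] PhR om c k)
    (hρ : ∀ a, ρ (frac JE k.castSucc a) *
      algebraMap _ (PhR om c k) (phiv om (frac JE c.castSucc) k.castSucc) =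
      algebraMap _ (PhR om c k) (phiv om (frac JE c.castSucc) a)) :
    ρ.toRingHom.Etale := by
  letI : Algebra (Ch JE k.castSucc) (PhR om c k) := ρ.toRingHom.toAlgebra
  have halg : ∀ x, algebraMap (Ch JE k.castSucc) (PhR om c k) x = ρ x := fun x => rfl
  haveI : IsScalarTower ℂ (Ch JE k.castSucc) (PhR om c k) :=
    IsScalarTower.of_algebraMap_eq (fun r => (ρ.commutes r).symm)
  haveI : IsNoetherianRing (Ch JE k.castSucc) :=
    isNoetherianRing_of_surjective _ _
      (aeval (frac JE k.castSucc) : MvPolynomial (Fin 3) ℂ →ₐ[ℂ] Ch JE k.castSucc).toRingHom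
      (aeval_frac_surjective JE k.castSucc)
  haveI : Algebra.FiniteType ℂ (Ch JE c.castSucc) :=
    Algebra.FiniteType.of_surjective
      (aeval (frac JE c.castSucc) : MvPolynomial (Fin 3) ℂ →ₐ[ℂ] Ch JE c.castSucc)
      (aeval_frac_surjective JE c.castSucc)
  haveI : Algebra.FinitePresentation (Ch JE c.castSucc) (PhR om c k) :=
    IsLocalization.Away.finitePresentation (phiv om (frac JE c.castSucc) k.castSucc)
  haveI : Algebra.FiniteType ℂ (PhR om c k) :=
    Algebra.FiniteType.trans (S := Ch JE c.castSucc) inferInstance inferInstance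
  haveI : Algebra.FiniteType (Ch JE k.castSucc) (PhR om c k) :=
    Algebra.FiniteType.of_restrictScalars_finiteType ℂ _ _
  haveI : Algebra.FinitePresentation (Ch JE k.castSucc) (PhR om c k) :=
    Algebra.FinitePresentation.of_finiteType.1 inferInstance
  haveI : Algebra.FormallyEtale (Ch JE k.castSucc) (PhR om c k) := by
    rw [Algebra.FormallyEtale.iff_comp_bijective]
    intro B _ _ I hI2
    have hI : ∀ a ∈ I, ∀ b ∈ I, a * b = 0 := by
      intro a ha b hb
      have : a * b ∈ I ^ 2 := by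
        rw [pow_two]; exact Ideal.mul_mem_mul ha hb
      rw [hI2] at this
      simpa using this
    letI : Algebra ℂ B :=
      ((algebraMap (Ch JE k.castSucc) B).comp (algebraMap ℂ (Ch JE k.castSucc))).toAlgebra
    haveI : IsScalarTower ℂ (Ch JE k.castSucc) B := IsScalarTower.of_algebraMap_eq (fun r => rfl)
    let α : Ch JE k.castSucc →ₐ[ℂ] B := IsScalarTower.toAlgHom ℂ _ _
    constructor
    · intro g g' h
      have h1 : g.restrictScalars ℂ = g'.restrictScalars ℂ := by
        refine phi_etale_ring_inj om hom c k ρ hρ α I hI _ _ (fun x => ?_) (fun x => ?_)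
          (fun x => ?_)
        · exact g.commutes x
        · exact g'.commutes x
        · exact Ideal.Quotient.eq.1 (DFunLike.congr_fun h x)
      ext x
      exact DFunLike.congr_fun h1 x
    · intro f
      obtain ⟨g, hg1, hg2⟩ := phi_etale_ring_surj om hom c k ρ hρ α I hI (f.restrictScalars ℂ)
        (fun x => f.commutes x)
      refine ⟨{ g.toRingHom with commutes' := hg1 }, ?_⟩
      ext x
      exact hg2 x
  show Algebra.Etale (Ch JE k.castSucc) (PhR om c k)
  exact {}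

end Pool.Agent.Helper304.Ses
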