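import Pool.Agent.Helper304.Ses.Phi
import Pool.Agent.Helper304.Ses.Ms1
import Pool.Agent.Helper304.Ses.Mc5

open MvPolynomial AlgebraicGeometry CategoryTheory Limits TopologicalSpace
open Pool.Agent.Helper198.Sch

namespace Pool.Agent.Helper304.Ses

attribute [local instance] MvPolynomial.gradedAlgebra

section
variable {σ : Type} (J : HI σ ℂ)

end

section scale
variable {σ R : Type} [CommRing R] (J : HI σ R) (lam : σ → Rˣ)

/-- scaling of the variables -/
noncomputable def scM : MvPolynomial σ R →ₐ[R] MvPolynomial σ R :=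
  aeval (fun a => C (lam a : R) * X a)

lemma scM_hom {f : MvPolynomial σ R} {n : ℕ} (hf : f.IsHomogeneous n) :
    (scM lam f).IsHomogeneous n := by
  have := hf.aeval (fun a => C (lam a : R) * X a) (n := 1)
    (fun a => by
      have h := (isHomogeneous_C σ (lam a : R)).mul (isHomogeneous_X R a)
      rwa [zero_add] at h)
  rw [one_mul] at this
  exact this

variable (hJ : J.toIdeal ≤ J.toIdeal.comap (scM lam).toRingHom)

/-- the graded ring map -/
noncomputable def scQ : qgrad J.toIdeal →+*ᵍ qgrad J.toIdeal where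
  toRingHom := Ideal.quotientMap J.toIdeal (scM lam).toRingHom hJ
  map_mem := by
    intro i x hx
    obtain ⟨f, hf, rfl⟩ := mem_qgrad.1 hx
    exact mk_mem_qgrad (scM_hom lam hf)

lemma scQ_mk (f : MvPolynomial σ R) : scQ J lam hJ (Ideal.Quotient.mk _ f) =
    Ideal.Quotient.mk J.toIdeal (scM lam f) := rfl

lemma scQ_gen (s : σ) : scQ J lam hJ (gen J s) = algebraMap R _ (lam s : R) * gen J s := by
  change scQ J lam hJ (Ideal.Quotient.mk _ (X s)) = _
  rw [scQ_mk, scM, aeval_X, map_mul]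
  rfl

lemma scQ_const (r : R) : scQ J lam hJ (algebraMap R _ r) = algebraMap R _ r := by
  change scQ J lam hJ (Ideal.Quotient.mk _ (C r)) = _
  rw [scQ_mk, scM, aeval_C]
  rfl

lemma scQ_gen' (s : σ) : gen J s =
    algebraMap R _ (((lam s)⁻¹ : Rˣ) : R) * scQ J lam hJ (gen J s) := by
  rw [scQ_gen, ← mul_assoc, ← map_mul, Units.inv_mul, map_one, one_mul]

lemma scQ_irr : HomogeneousIdeal.irrelevant (qgrad J.toIdeal) ≤
      HomogeneousIdeal.map (scQ J lam hJ) (HomogeneousIdeal.irrelevant (qgrad J.toIdeal)) := by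
  change (HomogeneousIdeal.irrelevant (qgrad J.toIdeal)).toIdeal ≤ _
  refine le_trans (V.irrelevant_le J) ?_
  rw [Ideal.span_le]
  rintro _ ⟨s, rfl⟩
  rw [scQ_gen' J lam hJ s]
  refine Ideal.mul_mem_left _ _ (Ideal.mem_map_of_mem _ ?_)
  exact HomogeneousIdeal.mem_irrelevant_of_mem _ one_pos (gen_mem J s)

/-- the map of schemes -/
noncomputable def scMap : V J ⟶ V J := Proj.map (scQ J lam hJ) (scQ_irr J lam hJ)

lemma sc_const_mem (r : R) : algebraMap R (MvPolynomial σ R ⧸ J.toIdeal) r ∈ qgrad J.toIdeal 0 :=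
  mk_mem_qgrad (isHomogeneous_C σ r)

lemma sc_hx (c : σ) : gen J c = scQ J lam hJ (gen J c) *
    algebraMap R (MvPolynomial σ R ⧸ J.toIdeal) (((lam c)⁻¹ : Rˣ) : R) := by
  rw [mul_comm]
  exact scQ_gen' J lam hJ c

/-- the map of chart rings -/
noncomputable def scCh (c : σ) : Ch J c →+* Ch J c :=
  (HomogeneousLocalization.awayMap (qgrad J.toIdeal) (sc_const_mem J _) (sc_hx J lam hJ c)).comp
    (HomogeneousLocalization.Away.map (scQ J lam hJ) (gen J c))

lemma chart_sc_aux (c : σ) : Proj.awayι (qgrad J.toIdeal) (gen J c) (gen_mem J c) one_pos ≫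
      Proj.map (scQ J lam hJ) (scQ_irr J lam hJ) =
    Spec.map (CommRingCat.ofHom ((HomogeneousLocalization.awayMap (qgrad J.toIdeal)
      (sc_const_mem J _) (sc_hx J lam hJ c)).comp
    (HomogeneousLocalization.Away.map (scQ J lam hJ) (gen J c)))) ≫
      Proj.awayι (qgrad J.toIdeal) (gen J c) (gen_mem J c) one_pos := by
  have h1 := Proj.awayι_comp_map (scQ J lam hJ) (scQ_irr J lam hJ) one_pos (gen J c) (gen_mem J c)
  have h2 : Spec.map (CommRingCat.ofHom (HomogeneousLocalization.awayMap (qgrad J.toIdeal)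
      (sc_const_mem J _) (sc_hx J lam hJ c))) ≫
      Proj.awayι (qgrad J.toIdeal) (scQ J lam hJ (gen J c))
        ((scQ J lam hJ).map_mem (gen_mem J c)) one_pos =
      Proj.awayι (qgrad J.toIdeal) (gen J c) (gen_mem J c) one_pos :=
    Proj.SpecMap_awayMap_awayι (qgrad J.toIdeal) ((scQ J lam hJ).map_mem (gen_mem J c)) one_pos
      (sc_const_mem J _) (sc_hx J lam hJ c)
  conv_lhs => rw [← h2]
  rw [Category.assoc, h1, ← Category.assoc, ← Spec.map_comp, ← CommRingCat.ofHom_comp]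

lemma chart_sc (c : σ) : V.chart J c ≫ scMap J lam hJ =
    Spec.map (CommRingCat.ofHom (scCh J lam hJ c)) ≫ V.chart J c :=
  chart_sc_aux J lam hJ c

lemma scCh_val (c a : σ) : chVal J c (scCh J lam hJ c (frac J c a)) =
    Localization.mk (scQ J lam hJ (gen J a) *
      algebraMap R (MvPolynomial σ R ⧸ J.toIdeal) (((lam c)⁻¹ : Rˣ) : R) ^ 1)
      (⟨gen J c ^ 1, ⟨1, rfl⟩⟩ : Submonoid.powers (gen J c)) := by
  change HomogeneousLocalization.val (HomogeneousLocalization.awayMap (qgrad J.toIdeal)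
      (sc_const_mem J _) (sc_hx J lam hJ c) (HomogeneousLocalization.Away.map (scQ J lam hJ) (gen J c)
        (HomogeneousLocalization.Away.mk (qgrad J.toIdeal) (gen_mem J c) 1 (gen J a) _))) = _
  rw [HomogeneousLocalization.Away.map_mk, HomogeneousLocalization.awayMap_mk]
  rfl

lemma scCh_frac (c a : σ) : scCh J lam hJ c (frac J c a) * algebraMap R (Ch J c) (lam c : R) =
    algebraMap R (Ch J c) (lam a : R) * frac J c a := by
  apply chVal_injective
  rw [map_mul, map_mul, scCh_val, AlgHom.commutes, AlgHom.commutes]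
  have h : chVal J c (frac J c a) =
    Localization.mk (gen J a) (⟨gen J c ^ 1, ⟨1, rfl⟩⟩ : Submonoid.powers (gen J c)) := rfl
  have h0 : ∀ r : R, algebraMap R (Localization.Away (gen J c)) r =
    Localization.mk (algebraMap R (MvPolynomial σ R ⧸ J.toIdeal) r) 1 := fun r => by
    rw [Localization.mk_one_eq_algebraMap, ← IsScalarTower.algebraMap_apply]
  rw [h, h0, h0, Localization.mk_mul, Localization.mk_mul]
  congr 1
  · rw [pow_one, scQ_gen, mul_assoc, ← map_mul, Units.inv_mul, map_one, mul_one]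
  · rw [one_mul, mul_one]

lemma scCh_const (c : σ) (r : R) : scCh J lam hJ c (algebraMap R (Ch J c) r) =
    algebraMap R (Ch J c) r := by
  change HomogeneousLocalization.awayMap (qgrad J.toIdeal)
      (sc_const_mem J _) (sc_hx J lam hJ c) (HomogeneousLocalization.Away.map (scQ J lam hJ) (gen J c)
        (HomogeneousLocalization.fromZeroRingHom (qgrad J.toIdeal)
    (Submonoid.powers (gen J c)) (algebraMap R (qgrad J.toIdeal 0) r))) = 
    HomogeneousLocalization.fromZeroRingHom (qgrad J.toIdeal)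
    (Submonoid.powers (gen J c)) (algebraMap R (qgrad J.toIdeal 0) r)
  have h : HomogeneousLocalization.Away.map (scQ J lam hJ) (gen J c)
        (HomogeneousLocalization.fromZeroRingHom (qgrad J.toIdeal)
    (Submonoid.powers (gen J c)) (algebraMap R (qgrad J.toIdeal 0) r)) =
    HomogeneousLocalization.fromZeroRingHom (qgrad J.toIdeal)
    (Submonoid.powers (scQ J lam hJ (gen J c))) (algebraMap R (qgrad J.toIdeal 0) r) := by
    apply HomogeneousLocalization.val_injective
    change Localization.mk (scQ J lam hJ (algebraMap R _ r)) _ = Localization.mk (algebraMap R _ r) _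
    congr 1
    · exact scQ_const J lam hJ r
    · exact Subtype.ext (map_one _)
  rw [h, HomogeneousLocalization.awayMap_fromZeroRingHom]

lemma scMap_str : scMap J lam hJ ≫ V.str J = V.str J := by
  apply (V.cover J).openCover.hom_ext
  intro (c : σ)
  change V.chart J c ≫ _ = V.chart J c ≫ _
  rw [← Category.assoc, chart_sc, Category.assoc, V.chart_str, ← Spec.map_comp,
    ← CommRingCat.ofHom_comp]
  congr 2
  ext r
  exact scCh_const J lam hJ c r

/-- the map of chart rings as algebra map -/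
noncomputable def scChA (c : σ) : Ch J c →ₐ[R] Ch J c where
  toRingHom := scCh J lam hJ c
  commutes' := scCh_const J lam hJ c

end scale

lemma om_ne_zero {om : ℂ} (hom : om ^ 2 + om + 1 = 0) : om ≠ 0 := by
  rintro rfl
  norm_num at hom

lemma om_cube {om : ℂ} (hom : om ^ 2 + om + 1 = 0) : om ^ 3 = 1 := by
  have : om ^ 3 - 1 = (om - 1) * (om ^ 2 + om + 1) := by ring
  rw [hom, mul_zero] at this
  exact sub_eq_zero.1 this

/-- TARGET 1: an automorphism without fixed closed points. -/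
theorem exists_tau (om : ℂ) (hom : om ^ 2 + om + 1 = 0) :
    ∃ τ : E ⟶ E, τ ≫ sE = sE ∧ ∀ c : Fin 3, ∃ τc : Ch JE c →ₐ[ℂ] Ch JE c,
      (∀ a : Fin 3, τc (frac JE c a) * algebraMap ℂ _ (om ^ (c : ℕ)) =
        algebraMap ℂ _ (om ^ (a : ℕ)) * frac JE c a) ∧
      V.chart JE c ≫ τ = Spec.map (CommRingCat.ofHom τc.toRingHom) ≫ V.chart JE c := by
  have h0 := om_ne_zero hom
  have h3 := om_cube hom
  let lam : Fin 3 → ℂˣ := fun a => Units.mk0 (om ^ (a : ℕ)) (pow_ne_zero _ h0)
  have hf : scM lam fE = fE := by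
    have hc : ∀ a : Fin 3, scM lam (X a) ^ 3 = (X a : MvPolynomial (Fin 3) ℂ) ^ 3 := by
      intro a
      rw [scM, aeval_X, mul_pow, ← C_pow]
      change C ((om ^ (a : ℕ)) ^ 3) * _ = _
      have e : (om ^ (a : ℕ)) ^ 3 = 1 := by rw [← pow_mul, mul_comm, pow_mul, h3, one_pow]
      rw [e, C_1, one_mul]
    unfold fE
    simp only [map_add, map_pow, hc]
  have hJ : JE.toIdeal ≤ JE.toIdeal.comap (scM lam).toRingHom := by
    have h1 : JE.toIdeal = Ideal.span {fE} := rfl
    rw [h1, Ideal.span_le]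
    intro f hf'
    have h2 : f = fE := hf'
    rw [h2]
    change scM lam fE ∈ Ideal.span ({fE} : Set (MvPolynomial (Fin 3) ℂ))
    rw [hf]
    exact Ideal.subset_span rfl
  refine ⟨scMap JE lam hJ, scMap_str JE lam hJ, fun c => ⟨scChA JE lam hJ c, fun a => ?_, ?_⟩⟩
  · exact scCh_frac JE lam hJ c a
  · exact chart_sc JE lam hJ c



/-- `τc` fixes the `phiv` -/
lemma tau_phiv {om : ℂ} (hom : om ^ 2 + om + 1 = 0) (c : Fin 3) (τc : Ch JE c →ₐ[ℂ] Ch JE c)
    (h : ∀ a : Fin 3, τc (frac JE c a) * algebraMap ℂ _ (om ^ (c : ℕ)) =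
        algebraMap ℂ _ (om ^ (a : ℕ)) * frac JE c a) (a : Fin 3) :
    τc (phiv om (frac JE c) a) = phiv om (frac JE c) a := by
  have h0 := om_ne_zero hom
  have h3 := om_cube hom
  have hu : ∀ n : ℕ, IsUnit (algebraMap ℂ (Ch JE c) (om ^ n)) := fun n =>
    (IsUnit.mk0 _ (pow_ne_zero n h0)).map _
  have hA : ∀ n : ℕ, algebraMap ℂ (Ch JE c) (om ^ n) ^ 3 = 1 := fun n => by
    rw [← map_pow, ← pow_mul, mul_comm, pow_mul, h3, one_pow, map_one]
  have hcube : ∀ a, τc (frac JE c a) ^ 3 = frac JE c a ^ 3 := by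
    intro a
    have h1 : (τc (frac JE c a) * algebraMap ℂ _ (om ^ (c : ℕ))) ^ 3 =
      (algebraMap ℂ _ (om ^ (a : ℕ)) * frac JE c a) ^ 3 := by rw [h a]
    rw [mul_pow, mul_pow, hA, hA, mul_one, one_mul] at h1
    exact h1
  have hprod : τc (frac JE c 0) * τc (frac JE c 1) * τc (frac JE c 2) =
      frac JE c 0 * frac JE c 1 * frac JE c 2 := by
    have h1 : (τc (frac JE c 0) * algebraMap ℂ _ (om ^ (c : ℕ))) *
        (τc (frac JE c 1) * algebraMap ℂ _ (om ^ (c : ℕ))) *
        (τc (frac JE c 2) * algebraMap ℂ _ (om ^ (c : ℕ))) =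
        (algebraMap ℂ _ (om ^ ((0 : Fin 3) : ℕ)) * frac JE c 0) *
        (algebraMap ℂ _ (om ^ ((1 : Fin 3) : ℕ)) * frac JE c 1) *
        (algebraMap ℂ _ (om ^ ((2 : Fin 3) : ℕ)) * frac JE c 2) := by
      rw [h 0, h 1, h 2]
    have h2 : algebraMap ℂ (Ch JE c) (om ^ ((0 : Fin 3) : ℕ)) *
        algebraMap ℂ (Ch JE c) (om ^ ((1 : Fin 3) : ℕ)) *
        algebraMap ℂ (Ch JE c) (om ^ ((2 : Fin 3) : ℕ)) = 1 := by
      rw [← map_mul, ← map_mul, ← pow_add, ← pow_add]
      change algebraMap ℂ (Ch JE c) (om ^ 3) = 1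
      rw [h3, map_one]
    have h4 := hA (c : ℕ)
    calc τc (frac JE c 0) * τc (frac JE c 1) * τc (frac JE c 2)
        = τc (frac JE c 0) * τc (frac JE c 1) * τc (frac JE c 2) *
          algebraMap ℂ (Ch JE c) (om ^ (c : ℕ)) ^ 3 := by rw [h4, mul_one]
      _ = (τc (frac JE c 0) * algebraMap ℂ _ (om ^ (c : ℕ))) *
        (τc (frac JE c 1) * algebraMap ℂ _ (om ^ (c : ℕ))) *
        (τc (frac JE c 2) * algebraMap ℂ _ (om ^ (c : ℕ))) := by ring
      _ = (algebraMap ℂ (Ch JE c) (om ^ ((0 : Fin 3) : ℕ)) *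
        algebraMap ℂ (Ch JE c) (om ^ ((1 : Fin 3) : ℕ)) *
        algebraMap ℂ (Ch JE c) (om ^ ((2 : Fin 3) : ℕ))) *
          (frac JE c 0 * frac JE c 1 * frac JE c 2) := by rw [h1]; ring
      _ = _ := by rw [h2, one_mul]
  fin_cases a
  · change τc (frac JE c 0 ^ 3 - algebraMap ℂ _ om * frac JE c 1 ^ 3) =
      frac JE c 0 ^ 3 - algebraMap ℂ _ om * frac JE c 1 ^ 3
    rw [map_sub, map_mul, AlgHom.commutes, map_pow τc (frac JE c 1), map_pow τc (frac JE c 0),
      hcube, hcube]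
  · change τc (algebraMap ℂ _ (om ^ 2) * frac JE c 1 ^ 3 - frac JE c 0 ^ 3) =
      algebraMap ℂ _ (om ^ 2) * frac JE c 1 ^ 3 - frac JE c 0 ^ 3
    rw [map_sub, map_mul, AlgHom.commutes, map_pow τc (frac JE c 1), map_pow τc (frac JE c 0),
      hcube, hcube]
  · change τc (algebraMap ℂ _ (om - om ^ 2) * (frac JE c 0 * frac JE c 1 * frac JE c 2)) =
      algebraMap ℂ _ (om - om ^ 2) * (frac JE c 0 * frac JE c 1 * frac JE c 2)
    rw [map_mul, map_mul, map_mul, hprod, AlgHom.commutes]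

/-- TARGET 2 -/
theorem tau_phi (om : ℂ) (hom : om ^ 2 + om + 1 = 0) (τ φ : E ⟶ E) (hφ : IsPhi om φ)
    (hτ : ∀ c : Fin 3, ∃ τc : Ch JE c →ₐ[ℂ] Ch JE c,
      (∀ a : Fin 3, τc (frac JE c a) * algebraMap ℂ _ (om ^ (c : ℕ)) =
        algebraMap ℂ _ (om ^ (a : ℕ)) * frac JE c a) ∧
      V.chart JE c ≫ τ = Spec.map (CommRingCat.ofHom τc.toRingHom) ≫ V.chart JE c) :
    τ ≫ φ = φ := by
  have hcov : ∀ x : V JE, ∃ i : Fin 2, x ∈ V.D JE i.castSucc := by
    intro x
    rcases E_cover 0 1 (by decide) x with h | h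
    · exact ⟨0, h⟩
    · exact ⟨1, h⟩
  apply (V.coverOf JE (fun i : Fin 2 => i.castSucc) hcov).openCover.hom_ext
  intro (c : Fin 2)
  change V.chart JE c.castSucc ≫ _ = V.chart JE c.castSucc ≫ _
  obtain ⟨τc, h1, h2⟩ := hτ c.castSucc
  have hspan : Ideal.span (Set.range fun k : Fin 2 => phiv om (frac JE c.castSucc) k.castSucc) =
      (⊤ : Ideal (Ch JE c.castSucc)) := by
    rw [← phiv_span om hom c]
    congr 1
    ext y
    simp only [Set.mem_range, Fin.exists_fin_two, Set.mem_insert_iff, Set.mem_singleton_iff]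
    constructor
    · rintro (h | h)
      · exact Or.inl h.symm
      · exact Or.inr h.symm
    · rintro (h | h)
      · exact Or.inl h.symm
      · exact Or.inr h.symm
  apply (Scheme.affineOpenCoverOfSpanRangeEqTop (R := .of (Ch JE c.castSucc)) _ hspan).openCover.hom_ext
  intro (k : Fin 2)
  change Spec.map (CommRingCat.ofHom (algebraMap (Ch JE c.castSucc) (PhR om c k))) ≫ _ =
    Spec.map (CommRingCat.ofHom (algebraMap (Ch JE c.castSucc) (PhR om c k))) ≫ _
  obtain ⟨ρ, hρ1, hρ2⟩ := hφ c k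
  have hfix := tau_phiv hom c.castSucc τc h1
  have hunit : IsUnit (algebraMap (Ch JE c.castSucc) (PhR om c k)
      (phiv om (frac JE c.castSucc) k.castSucc)) := IsLocalization.Away.algebraMap_isUnit _
  have hg : IsUnit (((algebraMap (Ch JE c.castSucc) (PhR om c k)).comp τc.toRingHom)
      (phiv om (frac JE c.castSucc) k.castSucc)) := by
    rw [RingHom.comp_apply]
    have : τc.toRingHom (phiv om (frac JE c.castSucc) k.castSucc) =
      phiv om (frac JE c.castSucc) k.castSucc := hfix _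
    rw [this]
    exact hunit
  let τB : PhR om c k →+* PhR om c k :=
    IsLocalization.Away.lift (phiv om (frac JE c.castSucc) k.castSucc) hg
  have hτB : τB.comp (algebraMap (Ch JE c.castSucc) (PhR om c k)) =
      (algebraMap (Ch JE c.castSucc) (PhR om c k)).comp τc.toRingHom :=
    IsLocalization.Away.lift_comp _ hg
  have hτB' : ∀ x, τB (algebraMap (Ch JE c.castSucc) (PhR om c k) x) =
      algebraMap (Ch JE c.castSucc) (PhR om c k) (τc x) := fun x => RingHom.congr_fun hτB x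
  have hρ : τB.comp ρ.toRingHom = ρ.toRingHom := by
    apply ch_ringHom_ext (R := ℂ)
    · intro r
      rw [RingHom.comp_apply]
      have e1 : ρ.toRingHom (algebraMap ℂ (Ch JE k.castSucc) r) =
          algebraMap (Ch JE c.castSucc) (PhR om c k) (algebraMap ℂ (Ch JE c.castSucc) r) := by
        have : ρ.toRingHom (algebraMap ℂ (Ch JE k.castSucc) r) = algebraMap ℂ (PhR om c k) r :=
          ρ.commutes r
        rw [this, ← IsScalarTower.algebraMap_apply]
      rw [e1, hτB', AlgHom.commutes]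
    · intro a
      rw [RingHom.comp_apply]
      apply hunit.mul_right_cancel
      have e2 : ρ.toRingHom (frac JE k.castSucc a) *
          algebraMap _ (PhR om c k) (phiv om (frac JE c.castSucc) k.castSucc) =
          algebraMap _ (PhR om c k) (phiv om (frac JE c.castSucc) a) := hρ1 a
      have e3 := congrArg τB e2
      rw [map_mul, hτB', hτB', hfix, hfix] at e3
      rw [e2, e3]
  have e4 : Spec.map (CommRingCat.ofHom (algebraMap (Ch JE c.castSucc) (PhR om c k))) ≫
      Spec.map (CommRingCat.ofHom τc.toRingHom) = Spec.map (CommRingCat.ofHom τB) ≫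
      Spec.map (CommRingCat.ofHom (algebraMap (Ch JE c.castSucc) (PhR om c k))) := by
    rw [← Spec.map_comp, ← Spec.map_comp, ← CommRingCat.ofHom_comp, ← CommRingCat.ofHom_comp, hτB]
  have e5 : Spec.map (CommRingCat.ofHom τB) ≫ Spec.map (CommRingCat.ofHom ρ.toRingHom) =
      Spec.map (CommRingCat.ofHom ρ.toRingHom) := by
    rw [← Spec.map_comp, ← CommRingCat.ofHom_comp, hρ]
  calc Spec.map (CommRingCat.ofHom (algebraMap (Ch JE c.castSucc) (PhR om c k))) ≫
        V.chart JE c.castSucc ≫ τ ≫ φ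
      = Spec.map (CommRingCat.ofHom (algebraMap (Ch JE c.castSucc) (PhR om c k))) ≫
        (V.chart JE c.castSucc ≫ τ) ≫ φ := by rw [Category.assoc]
    _ = (Spec.map (CommRingCat.ofHom (algebraMap (Ch JE c.castSucc) (PhR om c k))) ≫
        Spec.map (CommRingCat.ofHom τc.toRingHom)) ≫ V.chart JE c.castSucc ≫ φ := by
        rw [h2]; simp only [Category.assoc]
    _ = Spec.map (CommRingCat.ofHom τB) ≫
        Spec.map (CommRingCat.ofHom (algebraMap (Ch JE c.castSucc) (PhR om c k))) ≫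
        V.chart JE c.castSucc ≫ φ := by rw [e4, Category.assoc]
    _ = (Spec.map (CommRingCat.ofHom τB) ≫ Spec.map (CommRingCat.ofHom ρ.toRingHom)) ≫
        V.chart JE k.castSucc := by rw [hρ2, Category.assoc]
    _ = _ := by rw [e5, hρ2]


lemma ch_finType (c : Fin 3) : Algebra.FiniteType ℂ (Ch JE c) :=
  Algebra.FiniteType.of_surjective (aeval (frac JE c)) (aeval_frac_surjective JE c)

lemma max_ev (c : Fin 3) (m : Ideal (Ch JE c)) (hm : m.IsMaximal) :
    ∃ ev : Ch JE c →ₐ[ℂ] ℂ, ∀ x, ev x = 0 ↔ x ∈ m := by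
  have hft := ch_finType c
  letI : Field (Ch JE c ⧸ m) := Ideal.Quotient.field m
  have hft' : Algebra.FiniteType ℂ (Ch JE c ⧸ m) :=
    Algebra.FiniteType.of_surjective (Ideal.Quotient.mkₐ ℂ m) (Ideal.Quotient.mkₐ_surjective ℂ m)
  have hfin : Module.Finite ℂ (Ch JE c ⧸ m) := finite_of_finite_type_of_isJacobsonRing ℂ _
  have hbij : Function.Bijective (algebraMap ℂ (Ch JE c ⧸ m)) :=
    IsAlgClosed.algebraMap_bijective_of_isIntegral
  let e : ℂ ≃ₐ[ℂ] (Ch JE c ⧸ m) := AlgEquiv.ofBijective (Algebra.ofId ℂ _) hbij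
  refine ⟨(e.symm : (Ch JE c ⧸ m) →ₐ[ℂ] ℂ).comp (Ideal.Quotient.mkₐ ℂ m), fun x => ?_⟩
  rw [AlgHom.comp_apply]
  constructor
  · intro h
    have h1 : Ideal.Quotient.mkₐ ℂ m x = 0 := by
      apply e.symm.injective
      rw [map_zero]
      exact h
    exact Ideal.Quotient.eq_zero_iff_mem.1 h1
  · intro h
    have h1 : Ideal.Quotient.mkₐ ℂ m x = 0 := Ideal.Quotient.eq_zero_iff_mem.2 h
    rw [h1, map_zero]

/-- TARGET 3 -/
theorem tau_ne (om : ℂ) (hom : om ^ 2 + om + 1 = 0) (τ : E ⟶ E)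
    (hτ : ∀ c : Fin 3, ∃ τc : Ch JE c →ₐ[ℂ] Ch JE c,
      (∀ a : Fin 3, τc (frac JE c a) * algebraMap ℂ _ (om ^ (c : ℕ)) =
        algebraMap ℂ _ (om ^ (a : ℕ)) * frac JE c a) ∧
      V.chart JE c ≫ τ = Spec.map (CommRingCat.ofHom τc.toRingHom) ≫ V.chart JE c)
    (Q : E) (hQ : IsClosed {Q}) : τ Q ≠ Q := by
  intro hQe
  obtain ⟨c, hc⟩ := V.exists_mem_D JE Q
  obtain ⟨m, hmQ⟩ := (V.mem_range_chart JE c Q).2 hc
  obtain ⟨τc, h1, h2⟩ := hτ c
  have hinj : Function.Injective (V.chart JE c) := (V.chart JE c).isOpenEmbedding.injective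
  have e1 : V.chart JE c (Spec.map (CommRingCat.ofHom τc.toRingHom) m) = V.chart JE c m := by
    have h3 : (V.chart JE c ≫ τ) m =
      (Spec.map (CommRingCat.ofHom τc.toRingHom) ≫ V.chart JE c) m := by rw [h2]
    rw [Scheme.Hom.comp_apply, Scheme.Hom.comp_apply] at h3
    rw [← h3, hmQ, hQe]
  have e2 := hinj e1
  have hcl : IsClosed ({m} : Set (PrimeSpectrum (Ch JE c))) := by
    have h4 : ({m} : Set (Spec (.of (Ch JE c)))) = (V.chart JE c) ⁻¹' {Q} := by
      ext y
      simp only [Set.mem_singleton_iff, Set.mem_preimage]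
      constructor
      · rintro rfl; exact hmQ
      · intro h; exact hinj (h.trans hmQ.symm)
    have h5 : IsClosed ({m} : Set (Spec (.of (Ch JE c)))) := by
      rw [h4]
      exact hQ.preimage (V.chart JE c).continuous
    exact h5
  have hmax : m.asIdeal.IsMaximal := (PrimeSpectrum.isClosed_singleton_iff_isMaximal m).1 hcl
  obtain ⟨ev, hev⟩ := max_ev c m.asIdeal hmax
  have hmem2 : ∀ x, τc x ∈ m.asIdeal ↔ x ∈ m.asIdeal := by
    intro x
    have e3 : (Spec.map (CommRingCat.ofHom τc.toRingHom) m).asIdeal = m.asIdeal := by rw [e2]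
    have e4 : x ∈ (Spec.map (CommRingCat.ofHom τc.toRingHom) m).asIdeal ↔ τc x ∈ m.asIdeal := Iff.rfl
    rw [← e4, e3]
  have hfix : ∀ x, ev (τc x) = ev x := by
    intro x
    have h5 : ev (x - algebraMap ℂ _ (ev x)) = 0 := by
      rw [map_sub, AlgHom.commutes, Algebra.algebraMap_self, RingHom.id_apply, sub_self]
    have h7 := (hev _).2 ((hmem2 _).2 ((hev _).1 h5))
    rw [map_sub, AlgHom.commutes, map_sub, AlgHom.commutes, Algebra.algebraMap_self,
      RingHom.id_apply] at h7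
    exact sub_eq_zero.1 h7
  have h0 := om_ne_zero hom
  have h3 := om_cube hom
  have hne1 : om ≠ 1 := by rintro rfl; norm_num at hom
  have hne2 : om ^ 2 ≠ 1 := by
    intro h
    rw [h] at hom
    have : om = -2 := by linear_combination hom
    rw [this] at h
    norm_num at h
  have hne3 : om ^ 2 ≠ om := by
    intro h
    apply hne1
    have : om * (om - 1) = 0 := by linear_combination h
    exact sub_eq_zero.1 ((mul_eq_zero.1 this).resolve_left h0)
  have hpow : ∀ a b : Fin 3, a ≠ b → om ^ (a : ℕ) ≠ om ^ (b : ℕ) := by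
    intro a b hab h
    have k0 : om ^ ((0 : Fin 3) : ℕ) = 1 := pow_zero om
    have k1 : om ^ ((1 : Fin 3) : ℕ) = om := pow_one om
    have k2 : om ^ ((2 : Fin 3) : ℕ) = om ^ 2 := rfl
    fin_cases a <;> fin_cases b
    · exact hab rfl
    · exact hne1 (k1.symm.trans (h.symm.trans k0))
    · exact hne2 (k2.symm.trans (h.symm.trans k0))
    · exact hne1 (k1.symm.trans (h.trans k0))
    · exact hab rfl
    · exact hne3 (k2.symm.trans (h.symm.trans k1))
    · exact hne2 (k2.symm.trans (h.trans k0))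
    · exact hne3 (k2.symm.trans (h.trans k1))
    · exact hab rfl
  have hfrac : ∀ a, a ≠ c → ev (frac JE c a) = 0 := by
    intro a hac
    have h5 := congrArg ev (h1 a)
    rw [map_mul, map_mul, AlgHom.commutes, AlgHom.commutes, hfix, Algebra.algebraMap_self,
      RingHom.id_apply, RingHom.id_apply] at h5
    have h6 : (om ^ (a : ℕ) - om ^ (c : ℕ)) * ev (frac JE c a) = 0 := by linear_combination -h5
    exact (mul_eq_zero.1 h6).resolve_left (sub_ne_zero.2 (hpow a c hac))
  have hself : ev (frac JE c c) = 1 := by rw [frac_self, map_one]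
  have hrel : aeval (frac JE c) fE = 0 := aeval_frac_eq_zero JE c fE (Ideal.subset_span rfl)
  have hrel2 : ev (frac JE c 0) ^ 3 + ev (frac JE c 1) ^ 3 + ev (frac JE c 2) ^ 3 = 0 := by
    have h5 := congrArg ev hrel
    unfold fE at h5
    simpa only [map_add, map_pow, aeval_X, map_zero] using h5
  have h9 : (1 : ℂ) = 0 := by
    rw [← hrel2]
    fin_cases c
    · rw [hfrac 1 (by decide), hfrac 2 (by decide)]
      have h10 : ev (frac JE 0 0) = 1 := hself
      change (1 : ℂ) = ev (frac JE 0 0) ^ 3 + 0 ^ 3 + 0 ^ 3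
      rw [h10]; norm_num
    · rw [hfrac 0 (by decide), hfrac 2 (by decide)]
      have h10 : ev (frac JE 1 1) = 1 := hself
      change (1 : ℂ) = 0 ^ 3 + ev (frac JE 1 1) ^ 3 + 0 ^ 3
      rw [h10]; norm_num
    · rw [hfrac 0 (by decide), hfrac 1 (by decide)]
      have h10 : ev (frac JE 2 2) = 1 := hself
      change (1 : ℂ) = 0 ^ 3 + 0 ^ 3 + ev (frac JE 2 2) ^ 3
      rw [h10]; norm_num
  exact one_ne_zero h9

end Pool.Agent.Helper304.Ses
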