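import Pool.Agent.Helper304.Ses.Phi
import Pool.Agent.Helper304.Ses.Mc1
import Pool.Agent.Helper304.Ses.Mc3
import Pool.Agent.Helper304.Ses.Mc5
import Pool.Agent.Helper304.Ses.Mc6
import Pool.Agent.Helper304.Ses.Mc7

open MvPolynomial AlgebraicGeometry CategoryTheory Limits TopologicalSpace
open Pool.Agent.Helper198.Sch

namespace Pool.Agent.Helper304.Ses

attribute [local instance] MvPolynomial.gradedAlgebra

/-- the open cover of `E` by the localised charts -/
lemma exists_loc (om : ℂ) (hom : om ^ 2 + om + 1 = 0) (x : E) :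
    ∃ ck : Fin 2 × Fin 2, x ∈ Set.range
      (Spec.map (CommRingCat.ofHom (algebraMap (Ch JE ck.1.castSucc) (PhR om ck.1 ck.2))) ≫
        V.chart JE ck.1.castSucc) := by
  have h1 : ∃ c : Fin 2, x ∈ V.D JE c.castSucc := by
    rcases E_cover 0 1 (by decide) x with h | h
    · exact ⟨0, h⟩
    · exact ⟨1, h⟩
  obtain ⟨c, hc⟩ := h1
  obtain ⟨y, rfl⟩ := (V.mem_range_chart JE _ x).2 hc
  have h2 := phiv_span om hom c
  have h3 : ∃ k : Fin 2, phiv om (frac JE c.castSucc) k.castSucc ∉ y.asIdeal := by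
    by_contra hcon
    push Not at hcon
    have h4 : Ideal.span {phiv om (frac JE c.castSucc) 0, phiv om (frac JE c.castSucc) 1} ≤
        y.asIdeal := by
      rw [Ideal.span_le]
      rintro z (rfl | rfl)
      · exact hcon 0
      · exact hcon 1
    rw [h2] at h4
    exact y.isPrime.ne_top (top_le_iff.1 h4)
  obtain ⟨k, hk⟩ := h3
  refine ⟨(c, k), ?_⟩
  have h5 : y ∈ Set.range (PrimeSpectrum.comap (algebraMap (Ch JE c.castSucc) (PhR om c k))) := by
    rw [PrimeSpectrum.localization_away_comap_range (PhR om c k)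
      (phiv om (frac JE c.castSucc) k.castSucc)]
    exact hk
  obtain ⟨z, hz⟩ := h5
  refine ⟨z, ?_⟩
  subst hz
  exact Scheme.Hom.comp_apply (Spec.map (CommRingCat.ofHom (algebraMap (Ch JE c.castSucc)
    (PhR om c k)))) (V.chart JE c.castSucc) z

/-- the open cover of `E` by the localised charts -/
noncomputable def locCover (om : ℂ) (hom : om ^ 2 + om + 1 = 0) : E.AffineOpenCover where
  I₀ := Fin 2 × Fin 2
  X ck := .of (PhR om ck.1 ck.2)
  f ck := Spec.map (CommRingCat.ofHom (algebraMap (Ch JE ck.1.castSucc) (PhR om ck.1 ck.2))) ≫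
        V.chart JE ck.1.castSucc
  idx x := (exists_loc om hom x).choose
  covers x := (exists_loc om hom x).choose_spec
  map_prop ck := by
    have h1 : IsOpenImmersion (Spec.map (CommRingCat.ofHom
        (algebraMap (Ch JE ck.1.castSucc) (PhR om ck.1 ck.2)))) :=
      AlgebraicGeometry.IsOpenImmersion.of_isLocalization
        (phiv om (frac JE ck.1.castSucc) ck.2.castSucc)
    infer_instance

set_option backward.isDefEq.respectTransparency.types false in
lemma etale_phi (om : ℂ) (hom : om ^ 2 + om + 1 = 0) (φ : E ⟶ E) (hφ : IsPhi om φ) :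
    Etale φ := by
  have : HasRingHomProperty (@AlgebraicGeometry.Etale.{0}) RingHom.Etale := inferInstance
  have : IsZariskiLocalAtSource (@AlgebraicGeometry.Etale.{0}) := inferInstance
  apply IsZariskiLocalAtSource.of_openCover (P := @AlgebraicGeometry.Etale) (locCover om hom).openCover
  rintro ⟨c, k⟩
  change Etale ((Spec.map (CommRingCat.ofHom
    (algebraMap (Ch JE c.castSucc) (PhR om c k))) ≫ V.chart JE c.castSucc) ≫ φ)
  obtain ⟨ρ, h1, h2⟩ := hφ c k
  rw [Category.assoc, h2]
  have h3 : Etale (Spec.map (CommRingCat.ofHom ρ.toRingHom)) := by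
    rw [HasRingHomProperty.Spec_iff (P := @AlgebraicGeometry.Etale)]
    exact phi_etale_ring om hom c k ρ h1
  infer_instance

lemma quasiFinite_of_etale {X Y : Scheme.{0}} (f : X ⟶ Y) [Etale f] : LocallyQuasiFinite f := by
  constructor
  intro U hU V hV e
  have h1 := (HasRingHomProperty.iff_appLE (P := @Etale) (f := f)).1 inferInstance ⟨U, hU⟩ ⟨V, hV⟩ e
  have h2 : (f.appLE U V e).hom.Etale := h1
  algebraize [(f.appLE U V e).hom]
  change Algebra.QuasiFinite _ _
  infer_instance

/-- TARGET: everything above may be used. -/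
theorem exists_phi : ∃ φ : E ⟶ E, φ ≫ sE = sE ∧ IsFinite φ ∧ Etale φ ∧
    ∀ P : E, IsClosed {P} → ∃ Q Q' : E, Q ≠ Q' ∧ φ Q = P ∧ φ Q' = P := by
  obtain ⟨om, hom⟩ : ∃ om : ℂ, om ^ 2 + om + 1 = 0 := by
    obtain ⟨s, hs⟩ := IsAlgClosed.exists_pow_nat_eq (-3 : ℂ) (n := 2) (by norm_num)
    refine ⟨(-1 + s) / 2, ?_⟩
    linear_combination hs / 4
  obtain ⟨φ, h1, h2⟩ := exists_phi0 om hom
  obtain ⟨τ, h3, h4⟩ := exists_tau om hom
  have h5 := tau_phi om hom τ φ h2 h4
  have hE : IsProper sE := V_proper JE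
  have hint : IsIntegral E := E_integral
  have het : Etale φ := etale_phi om hom φ h2
  have hqf : LocallyQuasiFinite φ := quasiFinite_of_etale φ
  have hpr : IsProper φ := by
    have h6 : IsProper (φ ≫ sE) := by rw [h1]; exact hE
    exact IsProper.of_comp φ sE
  have hfin : IsFinite φ := IsFinite.of_isProper_of_locallyQuasiFinite φ
  refine ⟨φ, h1, hfin, het, ?_⟩
  have hcl : IsClosed (Set.range φ) := φ.isClosedMap.isClosed_range
  have hop : IsOpen (Set.range φ) := φ.isOpenMap.isOpen_range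
  have hne : Nonempty E := inferInstance
  have hsurj : Set.range φ = Set.univ := IsClopen.eq_univ ⟨hcl, hop⟩ (Set.range_nonempty φ)
  have hcpt : CompactSpace E := (quasiCompact_iff_compactSpace sE).1 inferInstance
  intro P hP
  have h7 : IsClosed (φ ⁻¹' {P}) := hP.preimage φ.continuous
  have h8 : (φ ⁻¹' {P}).Nonempty := by
    have h9 : P ∈ Set.range φ := by rw [hsurj]; trivial
    obtain ⟨Q, hQ⟩ := h9
    exact ⟨Q, hQ⟩
  obtain ⟨Q, hQ1, hQ2⟩ := h7.exists_closed_singleton h8
  refine ⟨τ Q, Q, tau_ne om hom τ h4 Q hQ2, ?_, hQ1⟩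
  rw [← Scheme.Hom.comp_apply, h5]
  exact hQ1

end Pool.Agent.Helper304.Ses
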