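import Pool.Agent.Helper304.Ses.Cov
import Pool.Agent.Helper304.Ses.Mg1

open MvPolynomial AlgebraicGeometry CategoryTheory Limits TopologicalSpace
open Pool.Agent.Helper198.Sch

namespace Pool.Agent.Helper304.Ses

attribute [local instance] MvPolynomial.gradedAlgebra

section
variable {σ : Type} (J : HI σ ℂ)

end

/-- glueing of chart maps -/
theorem exists_proj {σ τ : Type} (J : HI σ ℂ) (K : HI τ ℂ) {I : Type} (c : I → σ) (d : I → τ)
    (hW : ∀ x : V J, ∃ i, x ∈ V.D J (c i)) (ρ : ∀ i, Ch K (d i) →ₐ[ℂ] Ch J (c i))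
    (hc : ∀ i j a, res inf_le_left (secD J (c i) (ρ i (frac K (d i) a))) =
      (res inf_le_left (secD J (c i) (ρ i (frac K (d i) (d j)))) *
        res inf_le_right (secD J (c j) (ρ j (frac K (d j) a))) :
        Γ(V J, V.D J (c i) ⊓ V.D J (c j)))) :
    ∃ f : V J ⟶ V K, f ≫ V.str K = V.str J ∧
      ∀ i, V.chart J (c i) ≫ f =
        Spec.map (CommRingCat.ofHom (ρ i).toRingHom) ≫ V.chart K (d i) := by
  obtain ⟨f, hf1, hf2⟩ := exists_glue K (V.str J) (fun i => V.D J (c i)) hW d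
    (fun i => (secD J (c i)).comp (ρ i).toRingHom)
    (by
      intro i z
      show secD J (c i) (ρ i (algebraMap ℂ _ z)) = _
      rw [AlgHom.commutes]
      exact secD_const J (c i) z)
    hc
  refine ⟨f, hf1, fun i => ?_⟩
  have h1 := hf2 i
  have hiso1 : IsIso ((V.D J (c i)).toSpecΓ) := by
    have h := (isAffineOpen_D J (c i)).isoSpec_hom
    rw [← h]
    infer_instance
  have hiso2 : IsIso (CommRingCat.ofHom (R := Ch J (c i)) (S := Γ(V J, V.D J (c i)))
      (secD J (c i))) := by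
    rw [ConcreteCategory.isIso_iff_bijective]
    exact secD_bijective J (c i)
  have h2 : (V.D J (c i)).ι = (V.D J (c i)).toSpecΓ ≫
    Spec.map (CommRingCat.ofHom (R := Ch J (c i)) (S := Γ(V J, V.D J (c i))) (secD J (c i))) ≫
      V.chart J (c i) := (ι_D J (c i)).symm
  have h3 : CommRingCat.ofHom ((secD J (c i)).comp (ρ i).toRingHom) =
      CommRingCat.ofHom (ρ i).toRingHom ≫
        CommRingCat.ofHom (R := Ch J (c i)) (S := Γ(V J, V.D J (c i))) (secD J (c i)) := rfl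
  rw [h3, Spec.map_comp, h2] at h1
  simp only [Category.assoc] at h1
  rw [cancel_epi] at h1
  have hiso3 : IsIso (Spec.map (CommRingCat.ofHom (R := Ch J (c i)) (S := Γ(V J, V.D J (c i)))
      (secD J (c i)))) := inferInstance
  exact (cancel_epi _).1 h1

/-- the minor relation in the charts of the surface -/
theorem frac_minor (a b c d : Fin 3) :
    frac JS (some (c, d)) (some (a, b)) =
      frac JS (some (c, d)) (some (a, d)) * frac JS (some (c, d)) (some (c, b)) := by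
  have h := aeval_frac_eq_zero JS (some (c, d)) (UX a b * UX c d - UX a d * UX c b)
    (mem_ofSet (Or.inl (Or.inl (Or.inl ⟨a, b, c, d, rfl⟩))))
  unfold UX at h
  simp only [map_sub, map_mul, aeval_X] at h
  rw [frac_self, mul_one] at h
  exact sub_eq_zero.1 h

theorem frac_col (s : IX) (b : Fin 3) :
    frac JS s (some (0, b)) ^ 3 + frac JS s (some (1, b)) ^ 3 + frac JS s (some (2, b)) ^ 3 = 0 := by
  have h := aeval_frac_eq_zero JS s (UX 0 b ^ 3 + UX 1 b ^ 3 + UX 2 b ^ 3)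
    (mem_ofSet (Or.inl (Or.inl (Or.inr ⟨b, rfl⟩))))
  unfold UX at h
  simpa only [map_add, map_pow, aeval_X] using h

theorem frac_row (s : IX) (a : Fin 3) :
    frac JS s (some (a, 0)) ^ 3 + frac JS s (some (a, 1)) ^ 3 + frac JS s (some (a, 2)) ^ 3 = 0 := by
  have h := aeval_frac_eq_zero JS s (UX a 0 ^ 3 + UX a 1 ^ 3 + UX a 2 ^ 3)
    (mem_ofSet (Or.inl (Or.inr ⟨a, rfl⟩)))
  unfold UX at h
  simpa only [map_add, map_pow, aeval_X] using h

theorem JE_rel {B : Type} [CommRing B] [Algebra ℂ B] (u : Fin 3 → B)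
    (h : u 0 ^ 3 + u 1 ^ 3 + u 2 ^ 3 = 0) : ∀ f ∈ JE.toIdeal, aeval u f = 0 := by
  unfold JE
  apply aeval_ofSet
  intro f hf
  rw [Set.mem_singleton_iff.1 hf]
  unfold fE
  simpa only [map_add, map_pow, aeval_X] using h

/-- TARGET 1: the first projection. -/
theorem exists_f0 : ∃ f : XS ⟶ E, f ≫ sE = sX ∧ ∀ q : Fin 2 × Fin 2,
    ∃ ρ : Ch JE q.1.castSucc →ₐ[ℂ] Ch JS (eX q),
      (∀ a, ρ (frac JE _ a) = frac JS (eX q) (some (a, q.2.castSucc))) ∧
      V.chart JS (eX q) ≫ f =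
        Spec.map (CommRingCat.ofHom ρ.toRingHom) ≫ V.chart JE q.1.castSucc := by
  let ρ : ∀ q : Fin 2 × Fin 2, Ch JE q.1.castSucc →ₐ[ℂ] Ch JS (eX q) := fun q =>
    chLift JE q.1.castSucc (fun a => frac JS (eX q) (some (a, q.2.castSucc)))
      (frac_self JS (eX q)) (JE_rel _ (frac_col _ _))
  have hρ : ∀ q a, ρ q (frac JE _ a) = frac JS (eX q) (some (a, q.2.castSucc)) :=
    fun q a => chLift_frac JE _ _ _ _ a
  obtain ⟨f, hf1, hf2⟩ := exists_proj JS JE eX (fun q => q.1.castSucc) XS_cover ρ (by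
    intro q q' a
    rw [hρ, hρ, hρ]
    rw [secD_trans JS (eX q) (eX q') (some (a, q.2.castSucc)) _ inf_le_left inf_le_right,
      secD_trans JS (eX q) (eX q') (some (q'.1.castSucc, q.2.castSucc)) _ inf_le_left inf_le_right,
      mul_assoc, ← map_mul, ← map_mul]
    congr 3
    show frac JS (some (q'.1.castSucc, q'.2.castSucc)) (some (a, q.2.castSucc)) =
      frac JS (some (q'.1.castSucc, q'.2.castSucc)) (some (q'.1.castSucc, q.2.castSucc)) *
        frac JS (some (q'.1.castSucc, q'.2.castSucc)) (some (a, q'.2.castSucc))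
    rw [frac_minor, mul_comm])
  exact ⟨f, hf1, fun q => ⟨ρ q, hρ q, hf2 q⟩⟩

/-- TARGET 2: the second projection. -/
theorem exists_f1 : ∃ f : XS ⟶ E, f ≫ sE = sX ∧ ∀ q : Fin 2 × Fin 2,
    ∃ ρ : Ch JE q.2.castSucc →ₐ[ℂ] Ch JS (eX q),
      (∀ a, ρ (frac JE _ a) = frac JS (eX q) (some (q.1.castSucc, a))) ∧
      V.chart JS (eX q) ≫ f =
        Spec.map (CommRingCat.ofHom ρ.toRingHom) ≫ V.chart JE q.2.castSucc := by
  let ρ : ∀ q : Fin 2 × Fin 2, Ch JE q.2.castSucc →ₐ[ℂ] Ch JS (eX q) := fun q =>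
    chLift JE q.2.castSucc (fun a => frac JS (eX q) (some (q.1.castSucc, a)))
      (frac_self JS (eX q)) (JE_rel _ (frac_row _ _))
  have hρ : ∀ q a, ρ q (frac JE _ a) = frac JS (eX q) (some (q.1.castSucc, a)) :=
    fun q a => chLift_frac JE _ _ _ _ a
  obtain ⟨f, hf1, hf2⟩ := exists_proj JS JE eX (fun q => q.2.castSucc) XS_cover ρ (by
    intro q q' a
    rw [hρ, hρ, hρ]
    rw [secD_trans JS (eX q) (eX q') (some (q.1.castSucc, a)) _ inf_le_left inf_le_right,
      secD_trans JS (eX q) (eX q') (some (q.1.castSucc, q'.2.castSucc)) _ inf_le_left inf_le_right,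
      mul_assoc, ← map_mul, ← map_mul]
    congr 3
    exact frac_minor _ _ _ _)
  exact ⟨f, hf1, fun q => ⟨ρ q, hρ q, hf2 q⟩⟩

end Pool.Agent.Helper304.Ses
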