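import Pool.Agent.Helper304.Ses.Cov

open MvPolynomial AlgebraicGeometry CategoryTheory Limits TopologicalSpace
open Pool.Agent.Helper198.Sch

namespace Pool.Agent.Helper304.Ses

attribute [local instance] MvPolynomial.gradedAlgebra

instance ft_Ch {σ : Type} [Finite σ] (J : HI σ ℂ) (c : σ) : Algebra.FiniteType ℂ (Ch J c) :=
  Algebra.FiniteType.of_surjective (aeval (frac J c)) (aeval_frac_surjective J c)

theorem locFT_str {σ : Type} [Finite σ] (J : HI σ ℂ) : LocallyOfFiniteType (V.str J) := by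
  have : IsZariskiLocalAtSource (@LocallyOfFiniteType.{0}) :=
    HasRingHomProperty.instIsZariskiLocalAtSource (Q := RingHom.FiniteType)
  apply IsZariskiLocalAtSource.of_openCover (P := @LocallyOfFiniteType) (V.cover J).openCover
  intro (c : σ)
  change LocallyOfFiniteType (V.chart J c ≫ V.str J)
  rw [V.chart_str, HasRingHomProperty.Spec_iff (P := @LocallyOfFiniteType)]
  exact (RingHom.finiteType_algebraMap).2 (ft_Ch J c)

theorem jac_V {σ : Type} [Finite σ] (J : HI σ ℂ) : JacobsonSpace (V J) := by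
  have := locFT_str J
  exact LocallyOfFiniteType.jacobsonSpace (V.str J)

theorem const_mod {A : Type} [CommRing A] [Algebra ℂ A] [Algebra.FiniteType ℂ A] (m : Ideal A)
    [hm : m.IsMaximal] (a : A) : ∃ c : ℂ, a - algebraMap ℂ A c ∈ m := by
  let _ : Field (A ⧸ m) := Ideal.Quotient.field m
  have h1 : Module.Finite ℂ (A ⧸ m) := finite_of_finite_type_of_isJacobsonRing ℂ (A ⧸ m)
  have h2 : Algebra.IsIntegral ℂ (A ⧸ m) := Algebra.IsIntegral.of_finite ℂ (A ⧸ m)
  obtain ⟨c, hc⟩ := (IsAlgClosed.algebraMap_bijective_of_isIntegral (k := ℂ) (K := A ⧸ m)).2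
    (Ideal.Quotient.mk m a)
  refine ⟨c, ?_⟩
  rw [← Ideal.Quotient.eq]
  exact hc.symm

theorem max_of_closed {σ : Type} (J : HI σ ℂ) (c : σ) (P : Spec (.of (Ch J c)))
    (h : IsClosed {V.chart J c P}) : P.asIdeal.IsMaximal := by
  have h1 : IsClosed ((V.chart J c) ⁻¹' {V.chart J c P}) := h.preimage (V.chart J c).continuous
  have h2 : (V.chart J c) ⁻¹' {V.chart J c P} = {P} := by
    ext Q
    constructor
    · intro hQ
      exact (V.chart J c).isOpenEmbedding.injective hQ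
    · rintro rfl
      rfl
  rw [h2] at h1
  exact (PrimeSpectrum.isClosed_singleton_iff_isMaximal P).1 h1

theorem max_of_const {A : Type} [CommRing A] [Algebra ℂ A] (m : Ideal A) [hm : m.IsPrime]
    (h : ∀ a : A, ∃ c : ℂ, a - algebraMap ℂ A c ∈ m) : m.IsMaximal := by
  apply Ideal.Quotient.maximal_of_isField
  refine ⟨⟨0, 1, zero_ne_one⟩, mul_comm, ?_⟩
  intro a ha
  obtain ⟨a, rfl⟩ := Ideal.Quotient.mk_surjective a
  obtain ⟨c, hc⟩ := h a
  rw [← Ideal.Quotient.eq] at hc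
  have hc0 : c ≠ 0 := by
    rintro rfl
    rw [map_zero, map_zero] at hc
    exact ha hc
  refine ⟨Ideal.Quotient.mk m (algebraMap ℂ A c⁻¹), ?_⟩
  rw [hc, ← map_mul, ← map_mul, mul_inv_cancel₀ hc0, map_one, map_one]

theorem const_frac (q : Fin 2 × Fin 2) (P : Ideal (Ch JS (eX q))) [hP : P.IsPrime]
    (h0 : ∀ a, ∃ c : ℂ, frac JS (eX q) (some (a, q.2.castSucc)) - algebraMap ℂ _ c ∈ P)
    (h1 : ∀ b, ∃ c : ℂ, frac JS (eX q) (some (q.1.castSucc, b)) - algebraMap ℂ _ c ∈ P) :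
    P.IsMaximal := by
  apply max_of_const
  set φ := Ideal.Quotient.mk P with hφ
  have e0 : ∀ a, ∃ c : ℂ, φ (frac JS (eX q) (some (a, q.2.castSucc))) = φ (algebraMap ℂ _ c) :=
    fun a => (h0 a).imp fun c hc => Ideal.Quotient.eq.2 hc
  have e1 : ∀ b, ∃ c : ℂ, φ (frac JS (eX q) (some (q.1.castSucc, b))) = φ (algebraMap ℂ _ c) :=
    fun b => (h1 b).imp fun c hc => Ideal.Quotient.eq.2 hc
  choose α hα using e0
  choose β hβ using e1
  have hij : frac JS (eX q) (some (q.1.castSucc, q.2.castSucc)) = 1 := frac_self JS (eX q)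
  have e2 : ∀ a b, frac JS (eX q) (some (a, b)) =
      frac JS (eX q) (some (a, q.2.castSucc)) * frac JS (eX q) (some (q.1.castSucc, b)) := by
    intro a b
    have h := aeval_frac_eq_zero JS (eX q)
      (UX a b * UX q.1.castSucc q.2.castSucc - UX a q.2.castSucc * UX q.1.castSucc b)
      (mem_ofSet (Or.inl (Or.inl (Or.inl ⟨_, _, _, _, rfl⟩))))
    simp only [UX, map_sub, map_mul, aeval_X] at h
    rw [hij, mul_one] at h
    exact sub_eq_zero.1 h
  have e3 : ∀ a b, φ (frac JS (eX q) (some (a, b))) = φ (algebraMap ℂ _ (α a * β b)) := by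
    intro a b
    rw [e2, map_mul, hα, hβ, map_mul, map_mul]
  have e4 : ∃ c : ℂ, φ (frac JS (eX q) none) = φ (algebraMap ℂ _ c) := by
    have h := aeval_frac_eq_zero JS (eX q) (X none ^ 2 - qX) (mem_ofSet (Or.inr rfl))
    simp only [UX, qX, map_sub, map_add, map_mul, map_pow, aeval_X, map_ofNat] at h
    have h' := congrArg φ h
    simp only [map_sub, map_add, map_mul, map_pow, map_ofNat, map_zero, e3] at h'
    set t : ℂ := (α 0 * β 0) ^ 2 + 2 * (α 0 * β 1) ^ 2 + 2 * (α 1 * β 0) ^ 2 - (α 1 * β 1) ^ 2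
      with ht
    obtain ⟨s, hs⟩ := IsAlgClosed.exists_pow_nat_eq t (n := 2) (by norm_num)
    have h2 : (φ (frac JS (eX q) none) - φ (algebraMap ℂ _ s)) *
        (φ (frac JS (eX q) none) + φ (algebraMap ℂ _ s)) = 0 := by
      have h3 : φ (algebraMap ℂ _ s) ^ 2 = φ (algebraMap ℂ _ t) := by
        rw [← map_pow, ← map_pow, hs]
      have h4 : φ (algebraMap ℂ _ t) = (φ (algebraMap ℂ _ (α 0)) * φ (algebraMap ℂ _ (β 0))) ^ 2
          + 2 * (φ (algebraMap ℂ _ (α 0)) * φ (algebraMap ℂ _ (β 1))) ^ 2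
          + 2 * (φ (algebraMap ℂ _ (α 1)) * φ (algebraMap ℂ _ (β 0))) ^ 2
          - (φ (algebraMap ℂ _ (α 1)) * φ (algebraMap ℂ _ (β 1))) ^ 2 := by
        rw [ht]
        simp only [map_sub, map_add, map_mul, map_pow, map_ofNat]
      have h5 : (φ (frac JS (eX q) none) - φ (algebraMap ℂ _ s)) *
        (φ (frac JS (eX q) none) + φ (algebraMap ℂ _ s)) =
          φ (frac JS (eX q) none) ^ 2 - φ (algebraMap ℂ _ s) ^ 2 := by ring
      rw [h5, h3, h4]
      exact h'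
    rcases mul_eq_zero.1 h2 with h3 | h3
    · exact ⟨s, sub_eq_zero.1 h3⟩
    · refine ⟨-s, ?_⟩
      rw [map_neg, map_neg]
      exact eq_neg_of_add_eq_zero_left h3
  have e5 : ∀ i : IX, ∃ c : ℂ, φ (frac JS (eX q) i) = φ (algebraMap ℂ _ c) := by
    rintro (_ | ⟨a, b⟩)
    · exact e4
    · exact ⟨_, e3 a b⟩
  choose γ hγ using e5
  intro x
  obtain ⟨f, rfl⟩ := aeval_frac_surjective JS (eX q) x
  refine ⟨aeval γ f, ?_⟩
  rw [← Ideal.Quotient.eq]
  have h6 : (φ : Ch JS (eX q) →+* _).comp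
      (aeval (frac JS (eX q)) : MvPolynomial IX ℂ →ₐ[ℂ] Ch JS (eX q)).toRingHom =
      (φ.comp (algebraMap ℂ (Ch JS (eX q)))).comp
        (aeval γ : MvPolynomial IX ℂ →ₐ[ℂ] ℂ).toRingHom := by
    apply MvPolynomial.ringHom_ext
    · intro r
      simp
    · intro i
      simpa using hγ i
  exact DFunLike.congr_fun h6 f

/-- TARGET -/
theorem closed_of (f0 f1 : XS ⟶ E) (h0 : ∀ q : Fin 2 × Fin 2,
    ∃ ρ : Ch JE q.1.castSucc →ₐ[ℂ] Ch JS (eX q),
      (∀ a, ρ (frac JE _ a) = frac JS (eX q) (some (a, q.2.castSucc))) ∧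
      V.chart JS (eX q) ≫ f0 =
        Spec.map (CommRingCat.ofHom ρ.toRingHom) ≫ V.chart JE q.1.castSucc)
    (h1 : ∀ q : Fin 2 × Fin 2,
    ∃ ρ : Ch JE q.2.castSucc →ₐ[ℂ] Ch JS (eX q),
      (∀ a, ρ (frac JE _ a) = frac JS (eX q) (some (q.1.castSucc, a))) ∧
      V.chart JS (eX q) ≫ f1 =
        Spec.map (CommRingCat.ofHom ρ.toRingHom) ≫ V.chart JE q.2.castSucc)
    (x : XS) (hx0 : IsClosed {f0 x}) (hx1 : IsClosed {f1 x}) : IsClosed {x} := by
  have := jac_V JS
  apply isClosed_singleton_of_isLocallyClosed_singleton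
  obtain ⟨q, hq⟩ := XS_cover x
  rw [← V.mem_range_chart] at hq
  obtain ⟨P, rfl⟩ := hq
  have hP : P.asIdeal.IsPrime := P.2
  obtain ⟨ρ0, hρ0, hc0⟩ := h0 q
  obtain ⟨ρ1, hρ1, hc1⟩ := h1 q
  have k0 : f0 (V.chart JS (eX q) P) =
      V.chart JE q.1.castSucc (Spec.map (CommRingCat.ofHom ρ0.toRingHom) P) := by
    rw [← Scheme.Hom.comp_apply, hc0, Scheme.Hom.comp_apply]
  have k1 : f1 (V.chart JS (eX q) P) =
      V.chart JE q.2.castSucc (Spec.map (CommRingCat.ofHom ρ1.toRingHom) P) := by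
    rw [← Scheme.Hom.comp_apply, hc1, Scheme.Hom.comp_apply]
  rw [k0] at hx0
  rw [k1] at hx1
  have m0 := max_of_closed _ _ _ hx0
  have m1 := max_of_closed _ _ _ hx1
  have hmax : P.asIdeal.IsMaximal := by
    apply const_frac q P.asIdeal
    · intro a
      obtain ⟨c, hc⟩ := const_mod _ (hm := m0) (frac JE q.1.castSucc a)
      refine ⟨c, ?_⟩
      have h2 : ρ0 (frac JE q.1.castSucc a - algebraMap ℂ _ c) ∈ P.asIdeal := hc
      rw [map_sub, hρ0, AlgHom.commutes] at h2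
      exact h2
    · intro a
      obtain ⟨c, hc⟩ := const_mod _ (hm := m1) (frac JE q.2.castSucc a)
      refine ⟨c, ?_⟩
      have h2 : ρ1 (frac JE q.2.castSucc a - algebraMap ℂ _ c) ∈ P.asIdeal := hc
      rw [map_sub, hρ1, AlgHom.commutes] at h2
      exact h2
  have hcl : IsClosed {P} := (PrimeSpectrum.isClosed_singleton_iff_isMaximal P).2 hmax
  have h3 := hcl.isLocallyClosed.image (V.chart JS (eX q)).isOpenEmbedding.isInducing
    (V.chart JS (eX q)).isOpenEmbedding.isOpen_range.isLocallyClosed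
  rwa [Set.image_singleton] at h3

end Pool.Agent.Helper304.Ses
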