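import Pool.Agent.Helper304.Ses.Oone

open MvPolynomial AlgebraicGeometry CategoryTheory Limits TopologicalSpace
open Pool.Agent.Helper198.Sch

namespace Pool.Agent.Helper304.Ses

attribute [local instance] MvPolynomial.gradedAlgebra

section
variable {σ : Type} (J : HI σ ℂ)

/-- the coordinate `X a` as a section of `O(1)^1` -/
noncomputable def O1a_sec {I : Type} (e : I → σ) (he : ∀ x : V J, ∃ i, x ∈ V.D J (e i)) (a : σ) :
    ((O1 J e he).pow 1).Sec where
  s j := secD J (e j) (frac J (e j) a)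
  compat j k := by
    have h := (coord J e he a).compat j k
    have h2 : ((O1 J e he).pow 1).g j k = (O1 J e he).g j k := pow_one _
    rw [h2]
    exact h

theorem O1a_nonvan {I : Type} (e : I → σ) (he : ∀ x : V J, ∃ i, x ∈ V.D J (e i)) (a : σ) :
    (O1a_sec J e he a).nonvan = V.D J a := by
  have hj : ∀ j, (V J).basicOpen ((O1a_sec J e he a).s j) = V.D J (e j) ⊓ V.D J a :=
    fun j => basicOpen_secD J (e j) a
  unfold LB.Sec.nonvan
  apply le_antisymm
  · refine iSup_le fun j => ?_
    rw [hj j]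
    exact inf_le_right
  · intro y hy
    obtain ⟨j, hyj⟩ := he y
    have h1 : V.D J (e j) ⊓ V.D J a ≤ ⨆ i, (V J).basicOpen ((O1a_sec J e he a).s i) := by
      rw [← hj j]
      exact le_iSup (fun i => (V J).basicOpen ((O1a_sec J e he a).s i)) j
    exact h1 ⟨hyj, hy⟩

/-- TARGET -/
theorem O1_ample {I : Type} (e : I → σ) (he : ∀ x : V J, ∃ i, x ∈ V.D J (e i)) :
    (O1 J e he).IsAmple := by
  intro x
  obtain ⟨i, hi⟩ := he x
  refine ⟨1, le_refl 1, O1a_sec J e he (e i), ?_, ?_⟩
  · rw [O1a_nonvan]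
    exact hi
  · rw [O1a_nonvan]
    exact isAffineOpen_D J (e i)

end

end Pool.Agent.Helper304.Ses
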