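import Pool.Agent.Helper304.Ses.Oone

open MvPolynomial AlgebraicGeometry CategoryTheory Limits TopologicalSpace
open Pool.Agent.Helper198.Sch

namespace Pool.Agent.Helper304.Ses

attribute [local instance] MvPolynomial.gradedAlgebra

section
variable {σ : Type} (J : HI σ ℂ)

end

section InvAux

/-- sign change of the variable `w` on polynomials -/
noncomputable def psiW : MvPolynomial IX ℂ →ₐ[ℂ] MvPolynomial IX ℂ :=
  aeval (fun a : IX => match a with
    | none => - X none
    | some b => X (some b))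

theorem psiW_none : psiW (X none) = - X none := by
  unfold psiW; rw [aeval_X]

theorem psiW_some (b : Fin 3 × Fin 3) : psiW (X (some b)) = X (some b) := by
  unfold psiW; rw [aeval_X]

theorem psiW_hom {f : MvPolynomial IX ℂ} {n : ℕ} (hf : f.IsHomogeneous n) :
    (psiW f).IsHomogeneous n := by
  have h := hf.aeval (n := 1) (fun a : IX => (match a with
    | none => - X none
    | some b => X (some b) : MvPolynomial IX ℂ)) (by
      intro a
      cases a with
      | none => exact (isHomogeneous_X ℂ (none : IX)).neg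
      | some b => exact isHomogeneous_X ℂ (some b))
  rw [one_mul] at h
  exact h

theorem psiW_mem : JS.toIdeal ≤ JS.toIdeal.comap psiW.toRingHom := by
  have h0 : JS.toIdeal = Ideal.span setS := rfl
  rw [h0, Ideal.span_le]
  intro f hf
  refine Ideal.subset_span ?_
  have hU : ∀ a b, psiW.toRingHom (UX a b) = UX a b := fun a b => psiW_some (a, b)
  rcases hf with ((⟨a, b, c, d, rfl⟩ | ⟨b, rfl⟩) | ⟨a, rfl⟩) | hf
  · rw [map_sub, map_mul, map_mul, hU, hU, hU, hU]
    exact Or.inl (Or.inl (Or.inl ⟨a, b, c, d, rfl⟩))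
  · rw [map_add, map_add, map_pow, map_pow, map_pow, hU, hU, hU]
    exact Or.inl (Or.inl (Or.inr ⟨b, rfl⟩))
  · rw [map_add, map_add, map_pow, map_pow, map_pow, hU, hU, hU]
    exact Or.inl (Or.inr ⟨a, rfl⟩)
  · rw [Set.mem_singleton_iff] at hf
    subst hf
    refine Or.inr ?_
    rw [Set.mem_singleton_iff]
    unfold qX
    rw [map_sub, map_sub, map_add, map_add, map_mul, map_mul, map_pow, map_pow, map_pow, map_pow,
      map_pow, hU, hU, hU, hU]
    have h1 : psiW.toRingHom (X none) = - X none := psiW_none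
    have h2 : psiW.toRingHom 2 = 2 := map_ofNat _ 2
    rw [h1, h2]
    ring

/-- the graded ring map -/
noncomputable def gW : qgrad JS.toIdeal →+*ᵍ qgrad JS.toIdeal where
  toRingHom := Ideal.quotientMap JS.toIdeal psiW.toRingHom psiW_mem
  map_mem := by
    intro i x hx
    obtain ⟨f, hf, rfl⟩ := mem_qgrad.1 hx
    exact mk_mem_qgrad (psiW_hom hf)

theorem gW_mk (f : MvPolynomial IX ℂ) :
    gW (Ideal.Quotient.mk JS.toIdeal f) = Ideal.Quotient.mk JS.toIdeal (psiW f) := rfl

theorem gW_some (b : Fin 3 × Fin 3) : gW (gen JS (some b)) = gen JS (some b) := by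
  unfold gen
  rw [gW_mk, psiW_some]

theorem gW_none : gW (gen JS none) = - gen JS none := by
  unfold gen
  rw [gW_mk, psiW_none, map_neg]

theorem gW_pre (s : IX) : ∃ s0 ∈ qgrad JS.toIdeal 1, gW s0 = gen JS s := by
  cases s with
  | none =>
    refine ⟨- gen JS none, neg_mem (gen_mem JS none), ?_⟩
    rw [map_neg, gW_none, neg_neg]
  | some b => exact ⟨gen JS (some b), gen_mem JS _, gW_some b⟩

theorem gW_irr : HomogeneousIdeal.irrelevant (qgrad JS.toIdeal) ≤
      HomogeneousIdeal.map gW (HomogeneousIdeal.irrelevant (qgrad JS.toIdeal)) := by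
  change (HomogeneousIdeal.irrelevant (qgrad JS.toIdeal)).toIdeal ≤ _
  refine le_trans (V.irrelevant_le JS) ?_
  rw [Ideal.span_le]
  rintro _ ⟨s, rfl⟩
  obtain ⟨s0, h0, h1⟩ := gW_pre s
  rw [← h1]
  refine Ideal.mem_map_of_mem _ ?_
  exact HomogeneousIdeal.mem_irrelevant_of_mem _ one_pos h0

/-- the involution -/
noncomputable def sgW : XS ⟶ XS := Proj.map gW gW_irr

theorem gW_le {s : IX} {s0 : MvPolynomial IX ℂ ⧸ JS.toIdeal} (h1 : gW s0 = gen JS s) :
    Submonoid.powers s0 ≤ (Submonoid.powers (gen JS s)).comap gW := by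
  rw [Submonoid.powers_le]
  exact ⟨1, by simp [h1]⟩

/-- an affine chart -/
noncomputable def awW (s0 : MvPolynomial IX ℂ ⧸ JS.toIdeal) (h0 : s0 ∈ qgrad JS.toIdeal 1) :
    Spec (.of (HomogeneousLocalization.Away (qgrad JS.toIdeal) s0)) ⟶ XS :=
  Proj.awayι (qgrad JS.toIdeal) s0 h0 one_pos

/-- a ring map -/
noncomputable def tW (s : IX) (s0 : MvPolynomial IX ℂ ⧸ JS.toIdeal) (h1 : gW s0 = gen JS s) :
    HomogeneousLocalization.Away (qgrad JS.toIdeal) s0 →+* Ch JS s :=
  HomogeneousLocalization.map gW (gW_le h1)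

theorem sgW_chart (s : IX) (s0 : MvPolynomial IX ℂ ⧸ JS.toIdeal) (h0 : s0 ∈ qgrad JS.toIdeal 1)
    (h1 : gW s0 = gen JS s) :
    V.chart JS s ≫ sgW = Spec.map (CommRingCat.ofHom (tW s s0 h1)) ≫ awW s0 h0 :=
  V.awayι_comp_map' gW gW_irr one_pos s0 h0 (gen JS s) (gen_mem JS s) h1 (gW_le h1)

/-- constants -/
noncomputable def kW (s0 : MvPolynomial IX ℂ ⧸ JS.toIdeal) :
    ℂ →+* HomogeneousLocalization.Away (qgrad JS.toIdeal) s0 :=
  (HomogeneousLocalization.fromZeroRingHom (qgrad JS.toIdeal)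
    (Submonoid.powers s0)).comp (algebraMap ℂ (qgrad JS.toIdeal 0))

theorem awW_str (s0 : MvPolynomial IX ℂ ⧸ JS.toIdeal) (h0 : s0 ∈ qgrad JS.toIdeal 1) :
    awW s0 h0 ≫ sX = Spec.map (CommRingCat.ofHom (kW s0)) := by
  have h := Proj.awayι_toSpecZero (qgrad JS.toIdeal) s0 h0 one_pos
  have h2 : awW s0 h0 ≫ sX = (Proj.awayι (qgrad JS.toIdeal) s0 h0 one_pos ≫
      Proj.toSpecZero (qgrad JS.toIdeal)) ≫
    Spec.map (CommRingCat.ofHom (algebraMap ℂ (qgrad JS.toIdeal 0))) :=
      (Category.assoc _ _ _).symm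
  rw [h2, h, ← Spec.map_comp]
  rfl

theorem sgW_str : sgW ≫ sX = sX := by
  apply (V.cover JS).openCover.hom_ext
  intro (s : IX)
  change V.chart JS s ≫ _ = V.chart JS s ≫ _
  obtain ⟨s0, h0, h1⟩ := gW_pre s
  rw [← Category.assoc, sgW_chart s s0 h0 h1, Category.assoc, V.chart_str, awW_str,
    ← Spec.map_comp, ← CommRingCat.ofHom_comp]
  congr 2
  ext r
  apply HomogeneousLocalization.val_injective
  change (Localization.mk (gW (Ideal.Quotient.mk JS.toIdeal (C r))) ⟨gW 1, _⟩ :
    Localization.Away (gen JS s)) = Localization.mk (Ideal.Quotient.mk JS.toIdeal (C r)) ⟨1, _⟩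
  congr 1
  · rw [gW_mk]
    congr 1
    exact psiW.commutes r
  · apply Subtype.ext
    simp

/-- the map of the chart rings -/
noncomputable def tauW (c : Fin 3 × Fin 3) : Ch JS (some c) →ₐ[ℂ] Ch JS (some c) where
  toRingHom := HomogeneousLocalization.map gW (P := Submonoid.powers (gen JS (some c)))
    (Q := Submonoid.powers (gen JS (some c))) (gW_le (gW_some c))
  commutes' := by
    intro r
    apply HomogeneousLocalization.val_injective
    change (Localization.mk (gW (Ideal.Quotient.mk JS.toIdeal (C r))) ⟨gW 1, _⟩ :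
      Localization.Away (gen JS (some c))) =
      Localization.mk (Ideal.Quotient.mk JS.toIdeal (C r)) ⟨1, _⟩
    congr 1
    · rw [gW_mk]
      congr 1
      exact psiW.commutes r
    · apply Subtype.ext
      simp

theorem tauW_frac (c : Fin 3 × Fin 3) (a b : IX)
    (h : gW (gen JS a) = gen JS b) : tauW c (frac JS (some c) a) = frac JS (some c) b := by
  apply HomogeneousLocalization.val_injective
  unfold frac
  change (Localization.mk (gW (gen JS a)) ⟨gW (gen JS (some c) ^ 1), _⟩ :
    Localization.Away (gen JS (some c))) = Localization.mk (gen JS b) ⟨gen JS (some c) ^ 1, _⟩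
  congr 1
  apply Subtype.ext
  simp [gW_some]

theorem tauW_none (c : Fin 3 × Fin 3) :
    tauW c (frac JS (some c) none) = - frac JS (some c) none := by
  apply chVal_injective
  rw [map_neg]
  change (Localization.mk (gW (gen JS none)) ⟨gW (gen JS (some c) ^ 1), _⟩ :
    Localization.Away (gen JS (some c))) = - Localization.mk (gen JS none) ⟨gen JS (some c) ^ 1, _⟩
  rw [Localization.neg_mk]
  congr 1
  · exact gW_none
  · apply Subtype.ext
    simp [gW_some]

end InvAux

/-- TARGET: the involution `w → -w` of the surface -/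
theorem exists_inv : ∃ (σ : XS ⟶ XS), σ ≫ sX = sX ∧ ∀ c : Fin 3 × Fin 3,
    ∃ τ : Ch JS (some c) →ₐ[ℂ] Ch JS (some c),
      (∀ a, τ (frac JS (some c) (some a)) = frac JS (some c) (some a)) ∧
      τ (frac JS (some c) none) = - frac JS (some c) none ∧
      V.chart JS (some c) ≫ σ = Spec.map (CommRingCat.ofHom τ.toRingHom) ≫ V.chart JS (some c) :=
  ⟨sgW, sgW_str, fun c => ⟨tauW c, fun a => tauW_frac c _ _ (gW_some a), tauW_none c,
    sgW_chart (some c) (gen JS (some c)) (gen_mem JS _) (gW_some c)⟩⟩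

end Pool.Agent.Helper304.Ses
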