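import Pool.Agent.Helper304.Ses.Oone

open MvPolynomial AlgebraicGeometry CategoryTheory Limits TopologicalSpace
open Pool.Agent.Helper198.Sch

namespace Pool.Agent.Helper304.Ses

attribute [local instance] MvPolynomial.gradedAlgebra

section
variable {σ : Type} (J : HI σ ℂ)

end


/-- a ring map is determined by the morphism to the spectrum -/
theorem fx_faithful {T : Scheme.{0}} (W : T.Opens) {R : CommRingCat.{0}} (φ φ' : R ⟶ Γ(T, W))
    (h : W.toSpecΓ ≫ Spec.map φ = W.toSpecΓ ≫ Spec.map φ') : φ = φ' := by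
  have h1 := congrArg Scheme.Hom.appTop h
  rw [Scheme.Hom.comp_appTop, Scheme.Hom.comp_appTop, Scheme.Opens.toSpecΓ_appTop,
    Scheme.ΓSpecIso_naturality_assoc, Scheme.ΓSpecIso_naturality_assoc, Iso.cancel_iso_hom_left,
    Iso.cancel_iso_inv_right] at h1
  exact h1

theorem fx_key {X T : Scheme.{0}} {R : CommRingCat.{0}} (u : Spec R ⟶ X) [IsOpenImmersion u]
    (U : X.Opens) (sec : R ⟶ Γ(X, U)) (hι : U.toSpecΓ ≫ Spec.map sec ≫ u = U.ι)
    (W : T.Opens) (t : T ⟶ X) (hW : W ≤ t ⁻¹ᵁ U) :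
    (W.toSpecΓ ≫ Spec.map (sec ≫ t.appLE U W hW)) ≫ u = W.ι ≫ t := by
  rw [Spec.map_comp, Category.assoc, Category.assoc, Scheme.Opens.toSpecΓ_SpecMap_appLE_assoc, hι,
    Scheme.Hom.resLE_comp_ι]

theorem fx_key' {X T : Scheme.{0}} {R : CommRingCat.{0}} (u : Spec R ⟶ X) [IsOpenImmersion u]
    (U : X.Opens) (sec : R ⟶ Γ(X, U)) (hι : U.toSpecΓ ≫ Spec.map sec ≫ u = U.ι)
    (W : T.Opens) (t : T ⟶ X) (hW : W ≤ t ⁻¹ᵁ U) (k : W.toScheme ⟶ Spec R) (hk : k ≫ u = W.ι ≫ t) :
    k = W.toSpecΓ ≫ Spec.map (sec ≫ t.appLE U W hW) := by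
  rw [← cancel_mono u, hk, fx_key u U sec hι W t hW]

theorem fx_cond {X : Scheme.{0}} (s : X ⟶ SpecC) (σ : X ⟶ X) (hσ : σ ≫ s = s) :
    fixι s σ hσ ≫ σ = fixι s σ hσ := by
  have h := pullback.condition (f := pullback.diagonal s)
    (g := pullback.lift (𝟙 X) σ (by rw [hσ, Category.id_comp]))
  have h1 := congrArg (fun f => f ≫ pullback.fst s s) h
  have h2 := congrArg (fun f => f ≫ pullback.snd s s) h
  simp only [Category.assoc, pullback.diagonal_fst, pullback.diagonal_snd, pullback.lift_fst,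
    pullback.lift_snd, Category.comp_id] at h1 h2
  unfold fixι
  rw [← h2, h1]

theorem fx_lift {X T : Scheme.{0}} (s : X ⟶ SpecC) (σ : X ⟶ X) (hσ : σ ≫ s = s) (t : T ⟶ X)
    (ht : t ≫ σ = t) : ∃ l, l ≫ fixι s σ hσ = t := by
  refine ⟨pullback.lift t t ?_, pullback.lift_snd _ _ _⟩
  apply pullback.hom_ext
  · rw [Category.assoc, Category.assoc, pullback.diagonal_fst]
    erw [pullback.lift_fst]
  · rw [Category.assoc, Category.assoc, pullback.diagonal_snd]
    erw [pullback.lift_snd]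
    rw [Category.comp_id, ht]

theorem fx_general {X : Scheme.{0}} (s : X ⟶ SpecC) [IsSeparated s] (σ : X ⟶ X) (hσ : σ ≫ s = s)
    (R : CommRingCat.{0}) (u : Spec R ⟶ X) [IsOpenImmersion u] (U : X.Opens)
    (hU : IsAffineOpen U) (sec : R ⟶ Γ(X, U)) (hsec : Function.Surjective sec.hom)
    (hι : U.toSpecΓ ≫ Spec.map sec ≫ u = U.ι) (hrange : u.opensRange = U) (τ : R ⟶ R)
    (h3 : u ≫ σ = Spec.map τ ≫ u) (I : Ideal R) (hI1 : ∀ r, τ.hom r - r ∈ I)
    (hI2 : ∀ (B : CommRingCat.{0}) (ρ : R ⟶ B), τ ≫ ρ = ρ → ∀ r ∈ I, ρ.hom r = 0) :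
    (fixι s σ hσ).ker.ideal ⟨U, hU⟩ = I.map sec.hom := by
  haveI : IsClosedImmersion (fixι s σ hσ) := by
    unfold fixι
    infer_instance
  rw [Scheme.Hom.ker_apply]
  apply le_antisymm
  · intro g hg
    rw [RingHom.mem_ker] at hg
    obtain ⟨r, rfl⟩ := hsec g
    apply Ideal.mem_map_of_mem
    -- the quotient
    let B : CommRingCat.{0} := CommRingCat.of (R ⧸ I)
    let q : R ⟶ B := CommRingCat.ofHom (Ideal.Quotient.mk I)
    have hq : τ ≫ q = q := by
      ext x
      show Ideal.Quotient.mk I (τ.hom x) = Ideal.Quotient.mk I x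
      rw [Ideal.Quotient.eq]
      exact hI1 x
    obtain ⟨t, htd⟩ : ∃ t : Spec B ⟶ X, t = Spec.map q ≫ u := ⟨_, rfl⟩
    have ht : t ≫ σ = t := by
      rw [htd, Category.assoc, h3, ← Category.assoc, ← Spec.map_comp, hq]
    obtain ⟨l, hl⟩ := fx_lift s σ hσ t ht
    have htU : (⊤ : (Spec B).Opens) ≤ t ⁻¹ᵁ U := by
      intro x _
      show t x ∈ U
      rw [← hrange, htd]
      exact ⟨Spec.map q x, rfl⟩
    have h4 : t.appLE U ⊤ htU (sec.hom r) = 0 := by
      have e1 : ∀ (t : Spec B ⟶ X) (hl : l ≫ fixι s σ hσ = t) (htU : (⊤ : (Spec B).Opens) ≤ t ⁻¹ᵁ U),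
          t.appLE U ⊤ htU (sec.hom r) = 0 := by
        rintro t rfl htU
        rw [Scheme.Hom.comp_appLE, CommRingCat.comp_apply]
        erw [hg]
        exact map_zero _
      exact e1 t hl htU
    have h5 := fx_key' u U sec hι ⊤ t htU ((⊤ : (Spec B).Opens).ι ≫ Spec.map q) (by
      rw [Category.assoc, htd])
    have h6 : q ≫ (Scheme.ΓSpecIso B).inv = sec ≫ t.appLE U ⊤ htU := by
      apply fx_faithful
      rw [← h5, Scheme.Opens.toSpecΓ_top, Spec.map_comp, Category.assoc,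
        toSpecΓ_SpecMap_ΓSpecIso_inv_assoc]
    have h7 : (Scheme.ΓSpecIso B).inv.hom (q.hom r) = 0 := by
      have := congrArg (fun f => f.hom r) h6
      exact this.trans h4
    have h8 : q.hom r = 0 := by
      have := congrArg (Scheme.ΓSpecIso B).hom.hom h7
      rw [map_zero] at this
      rw [← this, ← CommRingCat.comp_apply, Iso.inv_hom_id]
      rfl
    exact Ideal.Quotient.eq_zero_iff_mem.1 h8
  · rw [Ideal.map_le_iff_le_comap]
    intro r hr
    rw [Ideal.mem_comap, RingHom.mem_ker]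
    have h4 := fx_key u U sec hι ((fixι s σ hσ) ⁻¹ᵁ U) (fixι s σ hσ) le_rfl
    have h5 := fx_key' u U sec hι ((fixι s σ hσ) ⁻¹ᵁ U) (fixι s σ hσ) le_rfl
      ((((fixι s σ hσ) ⁻¹ᵁ U).toSpecΓ ≫ Spec.map (sec ≫ (fixι s σ hσ).appLE U _ le_rfl)) ≫ Spec.map τ) (by
        rw [Category.assoc, ← h3, ← Category.assoc, h4, Category.assoc, fx_cond])
    rw [Category.assoc, ← Spec.map_comp] at h5
    have h6 := fx_faithful _ _ _ h5
    have h7 := hI2 _ _ h6 r hr
    rw [Scheme.Hom.app_eq_appLE]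
    exact h7

theorem fx_sep : IsSeparated sX := by
  haveI h1 : IsSeparated (Proj.toSpecZero (qgrad JS.toIdeal)) := inferInstance
  haveI h2 : IsSeparated (Spec.map (CommRingCat.ofHom (algebraMap ℂ (qgrad JS.toIdeal 0)))) :=
    inferInstance
  exact MorphismProperty.comp_mem @IsSeparated _ _ h1 h2

theorem fx_mod (c : Fin 3 × Fin 3)
    (τ : Ch JS (some c) →ₐ[ℂ] Ch JS (some c))
    (h1 : ∀ a, τ (frac JS (some c) (some a)) = frac JS (some c) (some a))
    (h2 : τ (frac JS (some c) none) = - frac JS (some c) none) (r : Ch JS (some c)) :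
    τ r - r ∈ Ideal.span {frac JS (some c) none} := by
  rw [← Ideal.Quotient.eq]
  have h : (Ideal.Quotient.mkₐ ℂ (Ideal.span {frac JS (some c) none})).comp τ =
      Ideal.Quotient.mkₐ ℂ (Ideal.span {frac JS (some c) none}) := by
    apply ch_algHom_ext
    intro a
    rw [AlgHom.comp_apply]
    cases a with
    | none =>
      rw [h2, map_neg]
      have : Ideal.Quotient.mkₐ ℂ (Ideal.span {frac JS (some c) none}) (frac JS (some c) none) = 0 :=
        Ideal.Quotient.eq_zero_iff_mem.2 (Ideal.mem_span_singleton_self _)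
      rw [this, neg_zero]
    | some a => rw [h1]
  exact DFunLike.congr_fun h r

/-- TARGET: the closed subscheme of fixed points of the involution is `w = 0`. -/
theorem fix_ideal (σ : XS ⟶ XS) (hσ : σ ≫ sX = sX) (c : Fin 3 × Fin 3)
    (τ : Ch JS (some c) →ₐ[ℂ] Ch JS (some c))
    (h1 : ∀ a, τ (frac JS (some c) (some a)) = frac JS (some c) (some a))
    (h2 : τ (frac JS (some c) none) = - frac JS (some c) none)
    (h3 : V.chart JS (some c) ≫ σ =
      Spec.map (CommRingCat.ofHom τ.toRingHom) ≫ V.chart JS (some c)) :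
    (fixι sX σ hσ).ker.ideal ⟨V.D JS (some c), isAffineOpen_D JS (some c)⟩ =
      Ideal.span {secD JS (some c) (frac JS (some c) none)} := by
  haveI := fx_sep
  have h := fx_general sX σ hσ (.of (Ch JS (some c))) (V.chart JS (some c)) (V.D JS (some c))
    (isAffineOpen_D JS (some c)) (CommRingCat.ofHom (R := Ch JS (some c)) (S := Γ(V JS, V.D JS (some c)))
      (secD JS (some c))) (secD_bijective JS (some c)).2
    (ι_D JS (some c)) (V.opensRange_chart JS (some c)) (CommRingCat.ofHom τ.toRingHom) h3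
    (Ideal.span {frac JS (some c) none}) (fx_mod c τ h1 h2) (by
      intro B ρ hρ r hr
      have hf : ρ.hom (frac JS (some c) none) = 0 := by
        have e1 := congrArg (fun f => f.hom (frac JS (some c) none)) hρ
        have e2 : ρ.hom (τ (frac JS (some c) none)) = ρ.hom (frac JS (some c) none) := e1
        rw [h2, map_neg] at e2
        have e3 : (2 : B) * ρ.hom (frac JS (some c) none) = 0 := by
          linear_combination -e2
        have e4 : IsUnit (2 : B) := by
          have e5 : IsUnit (algebraMap ℂ (Ch JS (some c)) 2) :=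
            (isUnit_iff_ne_zero.2 (two_ne_zero : (2 : ℂ) ≠ 0)).map _
          have e6 := e5.map ρ.hom
          rw [map_ofNat, map_ofNat] at e6
          exact e6
        exact (e4.mul_right_eq_zero).1 e3
      rw [Ideal.mem_span_singleton] at hr
      obtain ⟨d, rfl⟩ := hr
      rw [map_mul, hf, zero_mul])
  rw [h, Ideal.map_span, Set.image_singleton]
  rfl

end Pool.Agent.Helper304.Ses
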