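import Pool.Agent.Helper304.Ses.Md4
import Pool.Agent.Helper304.Ses.Mc1

open AlgebraicGeometry CategoryTheory Limits TopologicalSpace
open Pool.Agent.Helper198.Sch

namespace Pool.Agent.Helper304.Ses

theorem XS_proper : IsProper sX := V_proper JS

end Pool.Agent.Helper304.Ses
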