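import Pool.Agent.Helper304.Ses.Cov
import Pool.Agent.Helper304.Ses.XSp
import Pool.Agent.Helper304.Ses.Md6
import Pool.Agent.Helper304.Ses.Md7a
import Pool.Agent.Helper304.Ses.Md7b

open MvPolynomial AlgebraicGeometry CategoryTheory Limits TopologicalSpace
open Pool.Agent.Helper198.Sch

namespace Pool.Agent.Helper304.Ses

attribute [local instance] MvPolynomial.gradedAlgebra

section
variable {σ : Type} (J : HI σ ℂ)

end

/-- TARGET 1: points in the image of a chart. -/
theorem mem_basicOpen_chart {σ : Type} (J : HI σ ℂ) (c : σ) (f : Ch J c)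
    (P : Spec (.of (Ch J c))) :
    V.chart J c P ∈ (V J).basicOpen (secD J c f) ↔ f ∉ P.asIdeal := by
  have hmem : V.chart J c P ∈ V.D J c := (V.mem_range_chart J c _).1 ⟨P, rfl⟩
  have hx : (V.D J c).ι ⟨V.chart J c P, hmem⟩ = V.chart J c P := rfl
  set x : (V.D J c).toScheme := ⟨V.chart J c P, hmem⟩
  have h := congrArg (fun g : (V.D J c).toScheme ⟶ V J => g x) (ι_D J c)
  simp only [Scheme.Hom.comp_apply] at h
  have hP : Spec.map (CommRingCat.ofHom (R := Ch J c) (S := Γ(V J, V.D J c)) (secD J c))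
      ((V.D J c).toSpecΓ x) = P :=
    (V.chart J c).isOpenEmbedding.injective (h.trans hx)
  have h1 : V.chart J c P ∈ (V J).basicOpen (secD J c f) ↔
      x ∈ (V.D J c).toSpecΓ ⁻¹ᵁ PrimeSpectrum.basicOpen (secD J c f) := by
    rw [Scheme.Opens.toSpecΓ_preimage_basicOpen]
    exact Iff.rfl
  rw [h1]
  rw [← hP]
  exact Iff.rfl

/-- the evaluation at a point of the surface -/
theorem bx4_ne : bx 1 2 2 (-1) 4 ≠ 0 := by
  intro h
  have hI : ∀ a ∈ Ideal.span (Set.range (relB 1 2 2 (-1))),
      (MvPolynomial.aeval (![0, -1, 0, -1, 1] : Fin 5 → ℂ)) a = 0 := by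
    intro a ha
    have h2 : Ideal.span (Set.range (relB 1 2 2 (-1))) ≤
        RingHom.ker (MvPolynomial.aeval (![0, -1, 0, -1, 1] : Fin 5 → ℂ)).toRingHom := by
      rw [Ideal.span_le]
      rintro _ ⟨i, rfl⟩
      rw [SetLike.mem_coe, RingHom.mem_ker]
      fin_cases i
      · simp [relB]; norm_num
      · simp [relB]; norm_num
      · simp [relB]
    exact h2 ha
  have h3 := (Ideal.Quotient.eq_zero_iff_mem).1 h
  have h4 := hI _ h3
  simp at h4

theorem eX_ne (q : Fin 2 × Fin 2) (hne : ((V.D JS (eX q) : XS.Opens) : Set XS).Nonempty) :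
    frac JS (eX q) none ≠ 0 := by
  intro h0
  have := XS_integral
  have h1 : V.D JS (eX q) ⊓ V.D JS none = ⊥ := by
    rw [← basicOpen_secD, h0, map_zero, Scheme.basicOpen_zero]
  obtain ⟨e, _, _, _, _, he⟩ := XS_chart00
  have h2 : frac JS (some (0, 0)) none ≠ 0 := by
    intro h
    rw [h, map_zero] at he
    exact bx4_ne he.symm
  have h3 : (V.D JS (some (0, 0)) ⊓ V.D JS none : XS.Opens) ≠ ⊥ := by
    rw [← basicOpen_secD]
    intro h
    rw [basicOpen_eq_bot_iff] at h
    apply h2
    apply (secD_bijective JS (some (0, 0))).1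
    rw [h, map_zero]
  have h4 : ((V.D JS none : XS.Opens) : Set XS).Nonempty := by
    by_contra hc
    apply h3
    rw [Set.not_nonempty_iff_eq_empty] at hc
    ext x
    have : x ∉ (V.D JS none : XS.Opens) := by
      intro hx
      have : x ∈ ((V.D JS none : XS.Opens) : Set XS) := hx
      rw [hc] at this
      exact this
    simp [this]
  have h5 := nonempty_preirreducible_inter (V.D JS (eX q)).isOpen (V.D JS none).isOpen hne h4
  obtain ⟨x, hx⟩ := h5
  have h6 : x ∈ (V.D JS (eX q) ⊓ V.D JS none : XS.Opens) := hx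
  rw [h1] at h6
  exact h6

theorem regular_aux (q : Fin 2 × Fin 2) (W : XS.affineOpens)
    (h : (W : XS.Opens) ≤ V.D JS (eX q)) :
    res h (secD JS (eX q) (frac JS (eX q) none)) ∈ nonZeroDivisors Γ(XS, W) := by
  have := XS_integral
  by_cases hW : ((W : XS.Opens) : Set XS).Nonempty
  · have : Nonempty (W : XS.Opens) := ⟨⟨hW.some, hW.some_mem⟩⟩
    have : IsDomain Γ(XS, W) := IsIntegral.component_integral _
    apply mem_nonZeroDivisors_of_ne_zero
    intro h0
    have hinj : Function.Injective (res h) := map_injective_of_isIntegral XS (homOfLE h)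
    have h1 : secD JS (eX q) (frac JS (eX q) none) = 0 := hinj (by rw [h0, map_zero])
    have h2 : frac JS (eX q) none = 0 := (secD_bijective JS (eX q)).1 (by rw [h1, map_zero])
    exact eX_ne q (hW.mono h) h2
  · have hb : (W : XS.Opens) = ⊥ := by
      ext x
      rw [Set.not_nonempty_iff_eq_empty] at hW
      rw [hW]
      simp
    have : Subsingleton Γ(XS, W) := by
      rw [hb]
      infer_instance
    rw [Subsingleton.elim (res h (secD JS (eX q) (frac JS (eX q) none))) 1]
    exact one_mem _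

/-- TARGET 2 -/
theorem exists_sigma : ∃ (σ : XS ⟶ XS) (hσ : σ ≫ sX = sX) (F : Cartier (fixι sX σ hσ))
    (y y2 : F.N.Sec) (η : XS), F.N.IsAmple ∧ η ∉ F.one.nonvan ∧ η ∈ y.nonvan ∧
    ∃ i : F.N.ι, η ∈ F.N.U i ∧
      ∀ c : ℂ, η ∈ XS.basicOpen (y2.s i - cst sX _ c * y.s i) := by
  obtain ⟨σ, hσ, hτ⟩ := exists_inv
  have hcl : IsClosedImmersion (fixι sX σ hσ) := by
    have := XS_proper
    unfold fixι
    infer_instance
  let F : Cartier (fixι sX σ hσ) :=
    { closed := hcl
      N := O1 JS eX XS_cover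
      one := coord JS eX XS_cover none
      ideal := by
        intro q W h
        obtain ⟨τ, h1, h2, h3⟩ := hτ (q.1.castSucc, q.2.castSucc)
        have h4 := fix_ideal σ hσ (q.1.castSucc, q.2.castSucc) τ h1 h2 h3
        have h5 := (fixι sX σ hσ).ker.map_ideal (U := W)
          (V := ⟨V.D JS (some (q.1.castSucc, q.2.castSucc)), isAffineOpen_D JS _⟩) h
        rw [← h5, h4, Ideal.map_span, Set.image_singleton]
        rfl
      regular := by
        intro q W h
        exact regular_aux q W h }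
  obtain ⟨P, hP, hP4, hP0⟩ := exists_eta good_params.1
  obtain ⟨e, he1, he2, he3, he4, he5⟩ := XS_chart00
  let P' : Spec (.of (Ch JS (some (0, 0)))) :=
    ⟨P.comap e.toRingEquiv.toRingHom, Ideal.IsPrime.comap _⟩
  have hmem : ∀ f : Ch JS (some (0, 0)), f ∈ P'.asIdeal ↔ e f ∈ P := fun f => Iff.rfl
  let η : XS := V.chart JS (some (0, 0)) P'
  have hη0 : η ∈ V.D JS (some (0, 0)) := (V.mem_range_chart JS _ _).1 ⟨P', rfl⟩
  refine ⟨σ, hσ, F, coord JS eX XS_cover (some (1, 0)), coord JS eX XS_cover (some (0, 0)), η,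
    O1_ample JS eX XS_cover, ?_, ?_, (0, 0), hη0, ?_⟩
  · intro h
    have h' : η ∈ ⨆ q, XS.basicOpen (secD JS (eX q) (frac JS (eX q) none)) := h
    rw [Opens.mem_iSup] at h'
    obtain ⟨q, hq⟩ := h'
    rw [basicOpen_secD] at hq
    have h6 : η ∈ V.D JS (some (0, 0)) ⊓ V.D JS none := ⟨hη0, hq.2⟩
    rw [← basicOpen_secD] at h6
    have h7 := (mem_basicOpen_chart JS (some (0, 0)) _ P').1 h6
    apply h7
    rw [hmem, he5]
    exact hP4
  · show η ∈ ⨆ q, XS.basicOpen (secD JS (eX q) (frac JS (eX q) (some (1, 0))))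
    rw [Opens.mem_iSup]
    refine ⟨(0, 0), ?_⟩
    have h7 := (mem_basicOpen_chart JS (some (0, 0)) (frac JS (some (0, 0)) (some (1, 0))) P').2
      (by
        rw [hmem, he1]
        have := hP0 0
        rwa [map_zero, sub_zero] at this)
    exact h7
  · intro c
    have h8 : (secD JS (some (0, 0)) (1 - algebraMap ℂ _ c * frac JS (some (0, 0)) (some (1, 0)))) =
        secD JS (some (0, 0)) (frac JS (some (0, 0)) (some (0, 0))) -
          cst sX (V.D JS (some (0, 0))) c *
            secD JS (some (0, 0)) (frac JS (some (0, 0)) (some (1, 0))) := by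
      rw [map_sub, map_mul, secD_const, frac_self]
    have h9 := (mem_basicOpen_chart JS (some (0, 0))
      (1 - algebraMap ℂ _ c * frac JS (some (0, 0)) (some (1, 0))) P').2 (by
        rw [hmem, map_sub, map_mul, map_one, he1]
        intro h10
        have h11 : e (algebraMap ℂ _ c) = algebraMap ℂ _ c := e.toAlgHom.commutes c
        rw [h11] at h10
        by_cases hc : c = 0
        · rw [hc, map_zero, zero_mul, sub_zero] at h10
          exact hP.ne_top ((Ideal.eq_top_iff_one _).2 h10)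
        · apply hP0 (c⁻¹)
          have h12 := P.mul_mem_left (algebraMap ℂ _ (-c⁻¹)) h10
          have h13 : algebraMap ℂ (BS 1 2 2 (-1)) (-c⁻¹) *
              (1 - algebraMap ℂ (BS 1 2 2 (-1)) c * bx 1 2 2 (-1) 0) =
              bx 1 2 2 (-1) 0 - algebraMap ℂ (BS 1 2 2 (-1)) c⁻¹ := by
            have h14 : algebraMap ℂ (BS 1 2 2 (-1)) c⁻¹ * algebraMap ℂ (BS 1 2 2 (-1)) c = 1 := by
              rw [← map_mul, inv_mul_cancel₀ hc, map_one]
            rw [map_neg]
            linear_combination (bx 1 2 2 (-1) 0) * h14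
          rw [h13] at h12
          exact h12)
    rw [h8] at h9
    exact h9

end Pool.Agent.Helper304.Ses
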