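import Pool.Agent.Helper304.Ses.Ma8
import Pool.Agent.Helper304.Ses.Mb3
import Pool.Agent.Helper304.Ses.Mc8
import Pool.Agent.Helper304.Ses.Md5
import Pool.Agent.Helper304.Ses.Md5b
import Pool.Agent.Helper304.Ses.Md7c

open AlgebraicGeometry CategoryTheory Limits TopologicalSpace
open Pool.Agent.Helper198.Sch

namespace Pool.Agent.Helper304.Ses

theorem E_proper : IsProper sE := V_proper JE

theorem exists_f : ∃ f : Fin 2 → (XS ⟶ E), (∀ i, f i ≫ sE = sX) ∧
    ∀ x : XS, (∀ i, IsClosed {f i x}) → IsClosed {x} := by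
  obtain ⟨f0, h0, h0'⟩ := exists_f0
  obtain ⟨f1, h1, h1'⟩ := exists_f1
  refine ⟨![f0, f1], ?_, ?_⟩
  · intro i
    fin_cases i
    · exact h0
    · exact h1
  · intro x hx
    exact closed_of f0 f1 h0' h1' x (hx 0) (hx 1)

theorem main : ∃ (X : Scheme.{0}) (s : X ⟶ SpecC) (L : LB X),
    IsIntegral X ∧ Smooth s ∧ IsProper s ∧ L.IsAmple ∧ HasLargeAlgPi1 s ∧
    ∀ (X' : Scheme.{0}) (p : X' ⟶ X), IsCover p → epsDiag s L p ≤ 2 := by
  have := E_integral
  have := E_proper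
  have := XS_integral
  have := XS_proper
  obtain ⟨φ, hφ, hfin, het, h2⟩ := exists_phi
  obtain ⟨f, hf, hcl⟩ := exists_f
  obtain ⟨P, hP⟩ := E_point
  obtain ⟨σ, hσ, F, y, y2, η, hA, hw, hy, i0, hi0, hyc⟩ := exists_sigma
  exact ⟨XS, sX, F.N, XS_integral, XS_smooth, XS_proper, hA,
    large_of sX sE f hf hcl E_dim P hP φ hφ h2,
    fun X' p hp => upper_bound sX σ hσ F y y2 η hw hy i0 hi0 hyc p hp⟩

end Pool.Agent.Helper304.Ses

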