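import Pool.Agent.Helper304.Ses.Rings

open MvPolynomial

namespace Pool.Agent.Helper304.Ses

theorem eta_const {F : Type} [CommRing F] [IsDomain F] [Algebra ℂ F] (x : F) (p : Polynomial ℂ)
    (hp : p ≠ 0) (h : Polynomial.aeval x p = 0) : ∃ c : ℂ, x = algebraMap ℂ F c := by
  have hx : IsIntegral ℂ x := (isAlgebraic_iff_isIntegral).mp ⟨p, hp, h⟩
  obtain ⟨c, hc⟩ := minpoly.mem_range_of_degree_eq_one ℂ x
    (IsAlgClosed.degree_eq_one_of_irreducible ℂ (minpoly.irreducible hx))
  exact ⟨c, hc.symm⟩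

theorem eta_ne {R : Type} [CommRing R] (A B : R) (hA : A ≠ 0) :
    Polynomial.C A * Polynomial.X ^ 2 + Polynomial.C B ≠ 0 := by
  intro h0
  have h1 := congrArg (fun p : Polynomial R => p.coeff 2) h0
  simp only [Polynomial.coeff_add, Polynomial.coeff_C_mul_X_pow, Polynomial.coeff_C,
    Polynomial.coeff_zero] at h1
  simp at h1
  exact hA h1

theorem eta_rel {al be ga de : ℂ} {F : Type} [CommRing F] [Algebra ℂ F]
    (g : BS al be ga de →ₐ[ℂ] F) :
    1 + g (bx al be ga de 0) ^ 3 + g (bx al be ga de 1) ^ 3 = 0 ∧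
    1 + g (bx al be ga de 2) ^ 3 + g (bx al be ga de 3) ^ 3 = 0 ∧
    g (bx al be ga de 4) ^ 2 = algebraMap ℂ F al + algebraMap ℂ F be * g (bx al be ga de 2) ^ 2
      + algebraMap ℂ F ga * g (bx al be ga de 0) ^ 2
      + algebraMap ℂ F de * g (bx al be ga de 0) ^ 2 * g (bx al be ga de 2) ^ 2 := by
  let G : MvPolynomial (Fin 5) ℂ →ₐ[ℂ] F := g.comp (Ideal.Quotient.mkₐ ℂ _)
  have hG : ∀ i, G (relB al be ga de i) = 0 := by
    intro i
    show g (Ideal.Quotient.mk _ (relB al be ga de i)) = 0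
    have hm : relB al be ga de i ∈ Ideal.span (Set.range (relB al be ga de)) :=
      Ideal.subset_span (Set.mem_range_self i)
    rw [Ideal.Quotient.eq_zero_iff_mem.mpr hm, map_zero]
  have hX : ∀ i, G (X i) = g (bx al be ga de i) := fun i => rfl
  have hC : ∀ c, G (C c) = algebraMap ℂ F c := fun c => G.commutes c
  refine ⟨?_, ?_, ?_⟩
  · have := hG 0
    simp only [relB, Matrix.cons_val_zero, map_add, map_one, map_pow, hX] at this
    exact this
  · have := hG 1
    simp only [relB, Matrix.cons_val_one, Matrix.cons_val_zero, map_add, map_one, map_pow, hX] at this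
    exact this
  · have := hG 2
    simp only [relB, Matrix.cons_val, map_add, map_sub, map_mul, map_pow, hX, hC] at this
    exact sub_eq_zero.mp this

theorem eta_ind {al be ga de : ℂ} {F : Type} [CommRing F] [Algebra ℂ F]
    (g : BS al be ga de →ₐ[ℂ] F) (T : F → Prop) (hc : ∀ c, T (algebraMap ℂ F c))
    (hadd : ∀ a b, T a → T b → T (a + b)) (hmul : ∀ a b, T a → T b → T (a * b))
    (hx : ∀ i, T (g (bx al be ga de i))) (b : BS al be ga de) : T (g b) := by
  obtain ⟨p, rfl⟩ := Ideal.Quotient.mk_surjective b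
  induction p using MvPolynomial.induction_on with
  | C a =>
    have : g (Ideal.Quotient.mk _ (C a)) = algebraMap ℂ F a := g.commutes a
    rw [this]
    exact hc a
  | add p q hp hq =>
    rw [map_add, map_add]
    exact hadd _ _ hp hq
  | mul_X p i hp =>
    rw [map_mul, map_mul]
    exact hmul _ _ hp (hx i)

theorem eta_alg {al be ga de : ℂ} (h : Good al be ga de) {F : Type} [CommRing F] [IsDomain F]
    [Algebra ℂ F] (g : BS al be ga de →ₐ[ℂ] F) (hg : Function.Surjective g)
    (hw : g (bx al be ga de 4) = 0) (b : F) (hb : b ≠ 0) :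
    ∃ r : Polynomial ℂ, r ≠ 0 ∧ b ∣ Polynomial.aeval (g (bx al be ga de 0)) r := by
  obtain ⟨r1, r2, r3⟩ := eta_rel g
  let f : Polynomial ℂ →ₐ[ℂ] F := Polynomial.aeval (g (bx al be ga de 0))
  let _ : Algebra (Polynomial ℂ) F := f.toRingHom.toAlgebra
  have hf : ∀ p, algebraMap (Polynomial ℂ) F p = f p := fun p => rfl
  have hfX : f Polynomial.X = g (bx al be ga de 0) := Polynomial.aeval_X _
  have hfC : ∀ c, f (Polynomial.C c) = algebraMap ℂ F c := fun c => Polynomial.aeval_C _ c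
  have ax : IsAlgebraic (Polynomial ℂ) (g (bx al be ga de 0)) := by
    rw [← hfX, ← hf]
    exact isAlgebraic_algebraMap _
  have ac : ∀ c : ℂ, IsAlgebraic (Polynomial ℂ) (algebraMap ℂ F c) := by
    intro c
    rw [← hfC, ← hf]
    exact isAlgebraic_algebraMap _
  have a1 : IsAlgebraic (Polynomial ℂ) (1 : F) := isAlgebraic_one
  have az : IsAlgebraic (Polynomial ℂ) (g (bx al be ga de 1)) := by
    have e : g (bx al be ga de 1) ^ 3 = -(1 + g (bx al be ga de 0) ^ 3) := by
      linear_combination r1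
    refine IsAlgebraic.of_pow (n := 3) (by norm_num) ?_
    rw [e]
    exact (a1.add (ax.pow 3)).neg
  have ay : IsAlgebraic (Polynomial ℂ) (g (bx al be ga de 2)) := by
    refine ⟨Polynomial.C (Polynomial.C be + Polynomial.C de * Polynomial.X ^ 2) * Polynomial.X ^ 2 +
      Polynomial.C (Polynomial.C al + Polynomial.C ga * Polynomial.X ^ 2), ?_, ?_⟩
    · refine eta_ne _ _ ?_
      intro h0
      have h1 := congrArg (fun p : Polynomial ℂ => p.coeff 0) h0
      simp at h1
      exact h.hbe h1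
    · simp only [map_add, map_mul, map_pow, Polynomial.aeval_X, Polynomial.aeval_C, hf, hfX, hfC]
      rw [hw] at r3
      linear_combination -r3
  have av : IsAlgebraic (Polynomial ℂ) (g (bx al be ga de 3)) := by
    have e : g (bx al be ga de 3) ^ 3 = -(1 + g (bx al be ga de 2) ^ 3) := by
      linear_combination r2
    refine IsAlgebraic.of_pow (n := 3) (by norm_num) ?_
    rw [e]
    exact (a1.add (ay.pow 3)).neg
  have aw : IsAlgebraic (Polynomial ℂ) (g (bx al be ga de 4)) := by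
    rw [hw]
    exact isAlgebraic_zero
  have hall : IsAlgebraic (Polynomial ℂ) b := by
    obtain ⟨b', rfl⟩ := hg b
    refine eta_ind g (fun t => IsAlgebraic (Polynomial ℂ) t) ac (fun _ _ p q => p.add q)
      (fun _ _ p q => p.mul q) ?_ b'
    intro i
    fin_cases i
    · exact ax
    · exact az
    · exact ay
    · exact av
    · exact aw
  obtain ⟨r, hr0, hr⟩ := hall.exists_nonzero_dvd (mem_nonZeroDivisors_of_ne_zero hb)
  exact ⟨r, hr0, hr⟩

theorem eta_field {al be ga de : ℂ} (h : Good al be ga de) {F : Type} [CommRing F] [IsDomain F]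
    [Algebra ℂ F] (g : BS al be ga de →ₐ[ℂ] F) (hg : Function.Surjective g)
    (hw : g (bx al be ga de 4) = 0) (c : ℂ)
    (hx : g (bx al be ga de 0) = algebraMap ℂ F c) : IsField F := by
  obtain ⟨r1, r2, r3⟩ := eta_rel g
  have hinj : Function.Injective (algebraMap ℂ F) := (algebraMap ℂ F).injective
  have hz : ∃ e, g (bx al be ga de 1) = algebraMap ℂ F e := by
    refine eta_const _ (Polynomial.X ^ 3 + Polynomial.C (1 + c ^ 3)) ?_ ?_
    · exact (Polynomial.monic_X_pow_add_C _ (by norm_num)).ne_zero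
    · simp only [map_add, map_pow, Polynomial.aeval_X, Polynomial.aeval_C, map_one]
      rw [hx] at r1
      linear_combination r1
  have hne : be + de * c ^ 2 ≠ 0 := by
    intro h0
    rw [hw, hx] at r3
    have h1 : algebraMap ℂ F (al + ga * c ^ 2) = 0 := by
      have h2 : algebraMap ℂ F (be + de * c ^ 2) = 0 := by rw [h0, map_zero]
      simp only [map_add, map_mul, map_pow] at h2 ⊢
      linear_combination -r3 - g (bx al be ga de 2) ^ 2 * h2
    have h3 : al + ga * c ^ 2 = 0 := by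
      apply hinj
      rw [h1, map_zero]
    apply h.det
    linear_combination de * h3 - ga * h0
  have hy : ∃ e, g (bx al be ga de 2) = algebraMap ℂ F e := by
    refine eta_const _ (Polynomial.C (be + de * c ^ 2) * Polynomial.X ^ 2 +
      Polynomial.C (al + ga * c ^ 2)) ?_ ?_
    · exact eta_ne _ _ hne
    · simp only [map_add, map_mul, map_pow, Polynomial.aeval_X, Polynomial.aeval_C]
      rw [hw, hx] at r3
      linear_combination -r3
  obtain ⟨e, he⟩ := hy
  have hv : ∃ e, g (bx al be ga de 3) = algebraMap ℂ F e := by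
    refine eta_const _ (Polynomial.X ^ 3 + Polynomial.C (1 + e ^ 3)) ?_ ?_
    · exact (Polynomial.monic_X_pow_add_C _ (by norm_num)).ne_zero
    · simp only [map_add, map_pow, Polynomial.aeval_X, Polynomial.aeval_C, map_one]
      rw [he] at r2
      linear_combination r2
  have hall : ∀ b : F, ∃ e, b = algebraMap ℂ F e := by
    intro b
    obtain ⟨b', rfl⟩ := hg b
    refine eta_ind g (fun t => ∃ e, t = algebraMap ℂ F e) (fun c => ⟨c, rfl⟩) ?_ ?_ ?_ b'
    · rintro _ _ ⟨p, rfl⟩ ⟨q, rfl⟩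
      exact ⟨p + q, by rw [map_add]⟩
    · rintro _ _ ⟨p, rfl⟩ ⟨q, rfl⟩
      exact ⟨p * q, by rw [map_mul]⟩
    · intro i
      fin_cases i
      · exact ⟨c, hx⟩
      · exact hz
      · exact ⟨e, he⟩
      · exact hv
      · exact ⟨0, by rw [map_zero]; exact hw⟩
  refine ⟨⟨0, 1, zero_ne_one⟩, mul_comm, ?_⟩
  intro a ha
  obtain ⟨e', rfl⟩ := hall a
  have he' : e' ≠ 0 := by
    rintro rfl
    exact ha (map_zero _)
  exact ⟨algebraMap ℂ F e'⁻¹, by rw [← map_mul, mul_inv_cancel₀ he', map_one]⟩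

/-- TARGET 1: the quotient by a prime like this one has dimension one. -/
theorem eta_dim {al be ga de : ℂ} (h : Good al be ga de) (P : Ideal (BS al be ga de))
    (hP : P.IsPrime) (hw : bx al be ga de 4 ∈ P)
    (hx : ∀ c : ℂ, bx al be ga de 0 - algebraMap ℂ _ c ∉ P)
    (Q : Ideal (BS al be ga de)) (hQ : Q.IsPrime) (hPQ : P ≤ Q) (hne : P ≠ Q) : Q.IsMaximal := by
  have : IsDomain (BS al be ga de ⧸ P) := Ideal.Quotient.isDomain P
  have : IsDomain (BS al be ga de ⧸ Q) := Ideal.Quotient.isDomain Q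
  obtain ⟨b, hbQ, hbP⟩ : ∃ b ∈ Q, b ∉ P := by
    by_contra hcon
    push Not at hcon
    exact hne (le_antisymm hPQ hcon)
  have hwP : Ideal.Quotient.mkₐ ℂ P (bx al be ga de 4) = 0 := Ideal.Quotient.eq_zero_iff_mem.mpr hw
  have hwQ : Ideal.Quotient.mkₐ ℂ Q (bx al be ga de 4) = 0 :=
    Ideal.Quotient.eq_zero_iff_mem.mpr (hPQ hw)
  have hb0 : Ideal.Quotient.mkₐ ℂ P b ≠ 0 := by
    intro h0
    exact hbP (Ideal.Quotient.eq_zero_iff_mem.mp h0)
  obtain ⟨r, hr0, q, hq⟩ := eta_alg h (Ideal.Quotient.mkₐ ℂ P) (Ideal.Quotient.mkₐ_surjective ℂ P)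
    hwP (Ideal.Quotient.mkₐ ℂ P b) hb0
  obtain ⟨q', rfl⟩ := Ideal.Quotient.mkₐ_surjective ℂ P q
  have hmem : Polynomial.aeval (bx al be ga de 0) r ∈ Q := by
    have h1 : Ideal.Quotient.mkₐ ℂ P (Polynomial.aeval (bx al be ga de 0) r - b * q') = 0 := by
      rw [map_sub, map_mul, ← Polynomial.aeval_algHom_apply, hq, sub_self]
    have h2 : Polynomial.aeval (bx al be ga de 0) r - b * q' ∈ P :=
      Ideal.Quotient.eq_zero_iff_mem.mp h1
    have h3 := Q.add_mem (hPQ h2) (Q.mul_mem_right q' hbQ)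
    simpa using h3
  obtain ⟨c, hc⟩ := eta_const (Ideal.Quotient.mkₐ ℂ Q (bx al be ga de 0)) r hr0 (by
    rw [Polynomial.aeval_algHom_apply]
    exact Ideal.Quotient.eq_zero_iff_mem.mpr hmem)
  have hF : IsField (BS al be ga de ⧸ Q) := eta_field h (F := BS al be ga de ⧸ Q)
    (Ideal.Quotient.mkₐ ℂ Q) (Ideal.Quotient.mkₐ_surjective ℂ Q) hwQ c hc
  exact Ideal.Quotient.maximal_of_isField Q hF

/-- TARGET 2 -/
theorem eta_not_max {al be ga de : ℂ} (P : Ideal (BS al be ga de))
    (hP : P.IsPrime) (hx : ∀ c : ℂ, bx al be ga de 0 - algebraMap ℂ _ c ∉ P) :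
    ¬ P.IsMaximal := by
  intro hmax
  let _ : Field (BS al be ga de ⧸ P) := Ideal.Quotient.field P
  have : Algebra.FiniteType ℂ (BS al be ga de ⧸ P) := inferInstance
  have : Module.Finite ℂ (BS al be ga de ⧸ P) :=
    finite_of_finite_type_of_isJacobsonRing ℂ (BS al be ga de ⧸ P)
  have : Algebra.IsIntegral ℂ (BS al be ga de ⧸ P) := inferInstance
  obtain ⟨c, hc⟩ := (IsAlgClosed.algebraMap_bijective_of_isIntegral
    (k := ℂ) (K := BS al be ga de ⧸ P)).2 (Ideal.Quotient.mk P (bx al be ga de 0))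
  apply hx c
  rw [← Ideal.Quotient.eq_zero_iff_mem, map_sub, sub_eq_zero]
  exact hc.symm

end Pool.Agent.Helper304.Ses
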