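import Pool.Agent.Helper304.Ses.Md7c
import Pool.Agent.Helper304.Ses.Mr8

open MvPolynomial AlgebraicGeometry CategoryTheory Limits TopologicalSpace
open Pool.Agent.Helper198.Sch

namespace Pool.Agent.Helper304.Ses

attribute [local instance] MvPolynomial.gradedAlgebra

theorem es_locFT_str {σ : Type} [Finite σ] (J : HI σ ℂ) : LocallyOfFiniteType (V.str J) := by
  have : IsZariskiLocalAtSource (@LocallyOfFiniteType.{0}) :=
    HasRingHomProperty.instIsZariskiLocalAtSource (Q := RingHom.FiniteType)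
  apply IsZariskiLocalAtSource.of_openCover (P := @LocallyOfFiniteType) (V.cover J).openCover
  intro (c : σ)
  change LocallyOfFiniteType (V.chart J c ≫ V.str J)
  rw [V.chart_str, HasRingHomProperty.Spec_iff (P := @LocallyOfFiniteType)]
  exact (RingHom.finiteType_algebraMap).2
    (Algebra.FiniteType.of_surjective (aeval (frac J c)) (aeval_frac_surjective J c))

theorem es_jac_V {σ : Type} [Finite σ] (J : HI σ ℂ) : JacobsonSpace (V J) := by
  have := es_locFT_str J
  exact LocallyOfFiniteType.jacobsonSpace (V.str J)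

theorem es_max_of_closed {σ : Type} (J : HI σ ℂ) (c : σ) (P : Spec (.of (Ch J c)))
    (h : IsClosed {V.chart J c P}) : P.asIdeal.IsMaximal := by
  have h1 : IsClosed ((V.chart J c) ⁻¹' {V.chart J c P}) := h.preimage (V.chart J c).continuous
  have h2 : (V.chart J c) ⁻¹' {V.chart J c P} = {P} := by
    ext Q
    constructor
    · intro hQ
      exact (V.chart J c).isOpenEmbedding.injective hQ
    · rintro rfl
      rfl
  rw [h2] at h1
  exact (PrimeSpectrum.isClosed_singleton_iff_isMaximal P).1 h1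

theorem es_res_cst {X : Scheme.{0}} (s : X ⟶ SpecC) {U W : X.Opens} (h : W ≤ U) (z : ℂ) :
    res h (cst s U z) = cst s W z := by
  unfold cst res
  rw [← CommRingCat.comp_apply, Category.assoc, Category.assoc, ← X.presheaf.map_comp]
  rfl

theorem es_chart (q : Fin 2 × Fin 2) : ∃ al be ga de : ℂ, Good al be ga de ∧
    ∃ e : Ch JS (eX q) ≃ₐ[ℂ] BS al be ga de,
      e (frac JS (eX q) (some ((1 - q.1).castSucc, q.2.castSucc))) = bx al be ga de 0 ∧
      e (frac JS (eX q) none) = bx al be ga de 4 := by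
  obtain ⟨g1, g2, g3, g4⟩ := good_params
  obtain ⟨i, j⟩ := q
  fin_cases i <;> fin_cases j
  · obtain ⟨e, h1, -, -, -, h5⟩ := XS_chart 0 0 1 1 1 2 2 (-1)
      (Or.inl ⟨rfl, rfl, rfl, rfl, rfl, rfl, rfl, rfl⟩)
    exact ⟨_, _, _, _, g1, e, h1, h5⟩
  · obtain ⟨e, h1, -, -, -, h5⟩ := XS_chart 0 1 1 0 2 1 (-1) 2
      (Or.inr (Or.inr (Or.inl ⟨rfl, rfl, rfl, rfl, rfl, rfl, rfl, rfl⟩)))
    exact ⟨_, _, _, _, g3, e, h1, h5⟩
  · obtain ⟨e, h1, -, -, -, h5⟩ := XS_chart 1 0 0 1 2 (-1) 1 2
      (Or.inr (Or.inl ⟨rfl, rfl, rfl, rfl, rfl, rfl, rfl, rfl⟩))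
    exact ⟨_, _, _, _, g2, e, h1, h5⟩
  · obtain ⟨e, h1, -, -, -, h5⟩ := XS_chart 1 1 0 0 (-1) 2 2 1
      (Or.inr (Or.inr (Or.inr ⟨rfl, rfl, rfl, rfl, rfl, rfl, rfl, rfl⟩)))
    exact ⟨_, _, _, _, g4, e, h1, h5⟩

theorem es_key (c' : IX) (hc' : c' = some (0, 0)) (P' : Spec (.of (Ch JS c')))
    (q : Fin 2 × Fin 2) (k : ℂ)
    (η : XS) (hη : η = V.chart JS c' P') (hq : η ∈ V.D JS (eX q))
    (h1 : frac JS c' (some ((1 - q.1).castSucc, 0)) -
      algebraMap ℂ _ k * frac JS c' (some (q.1.castSucc, 0)) ∉ P'.asIdeal) :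
    η ∈ (V JS).basicOpen (secD JS (eX q)
      (frac JS (eX q) (some ((1 - q.1).castSucc, q.2.castSucc)) - algebraMap ℂ _ k)) := by
  have hP' : P'.asIdeal.IsPrime := P'.2
  have h00 : η ∈ V.D JS c' := by
    rw [hη]
    exact (V.mem_range_chart JS _ _).1 ⟨P', rfl⟩
  set c : IX := eX q with hc
  let W : (V JS).Opens := V.D JS c ⊓ V.D JS c'
  have hW : η ∈ W := ⟨hq, h00⟩
  have hle : W ≤ V.D JS c := inf_le_left
  have hle' : W ≤ V.D JS c' := inf_le_right
  -- the section on W
  have t1 := secD_trans JS c c' (some ((1 - q.1).castSucc, q.2.castSucc)) W hle hle'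
  have t2 := secD_trans JS c c' c W hle hle'
  rw [frac_self, map_one, map_one] at t2
  have hcs : res hle (secD JS c (algebraMap ℂ _ k)) = res hle' (secD JS c' (algebraMap ℂ _ k)) := by
    rw [secD_const, secD_const, es_res_cst, es_res_cst]
  have hfac : res hle (secD JS c (frac JS c (some ((1 - q.1).castSucc, q.2.castSucc)) -
        algebraMap ℂ _ k)) =
      res hle (secD JS c (frac JS c c')) *
        res hle' (secD JS c' (frac JS c' (some ((1 - q.1).castSucc, q.2.castSucc)) -
          algebraMap ℂ _ k * frac JS c' c)) := by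
    rw [map_sub, map_sub, t1, hcs, map_sub, map_sub, map_mul, map_mul]
    linear_combination (- res hle' (secD JS c' (algebraMap ℂ _ k))) * t2
  have hu : η ∈ (V JS).basicOpen (res hle (secD JS c (frac JS c c'))) := by
    have e1 : (V JS).basicOpen (res hle (secD JS c (frac JS c c'))) =
        W ⊓ (V JS).basicOpen (secD JS c (frac JS c c')) := Scheme.basicOpen_res _ _ _
    rw [e1, basicOpen_secD]
    exact ⟨hW, hq, h00⟩
  have hv : η ∈ (V JS).basicOpen (res hle' (secD JS c'
      (frac JS c' (some ((1 - q.1).castSucc, q.2.castSucc)) -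
          algebraMap ℂ _ k * frac JS c' c))) := by
    have e1 : (V JS).basicOpen (res hle' (secD JS c'
      (frac JS c' (some ((1 - q.1).castSucc, q.2.castSucc)) -
          algebraMap ℂ _ k * frac JS c' c))) =
        W ⊓ (V JS).basicOpen (secD JS c'
      (frac JS c' (some ((1 - q.1).castSucc, q.2.castSucc)) -
          algebraMap ℂ _ k * frac JS c' c)) := Scheme.basicOpen_res _ _ _
    rw [e1]
    refine ⟨hW, ?_⟩
    rw [hη]
    refine (mem_basicOpen_chart JS c' _ P').2 ?_
    have p0 : ∀ d : IX, d = some (0, 0) → ∀ a b : Fin 3, frac JS d (some (a, b)) =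
        frac JS d (some (a, 0)) * frac JS d (some (0, b)) := by
      rintro _ rfl a b
      exact XS_chart_prod _ _
    have p1 : frac JS c' (some ((1 - q.1).castSucc, q.2.castSucc)) =
        frac JS c' (some ((1 - q.1).castSucc, 0)) * frac JS c' (some (0, q.2.castSucc)) :=
      p0 c' hc' _ _
    have p2 : frac JS c' c =
        frac JS c' (some (q.1.castSucc, 0)) * frac JS c' (some (0, q.2.castSucc)) :=
      p0 c' hc' _ _
    have p3 : frac JS c' (some ((1 - q.1).castSucc, q.2.castSucc)) -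
          algebraMap ℂ _ k * frac JS c' c =
        (frac JS c' (some ((1 - q.1).castSucc, 0)) -
          algebraMap ℂ _ k * frac JS c' (some (q.1.castSucc, 0))) *
          frac JS c' (some (0, q.2.castSucc)) := by
      rw [p1, p2]
      ring
    rw [p3]
    intro hmem
    rcases hP'.mem_or_mem hmem with h | h
    · exact h1 h
    · have h3 : η ∈ (V JS).basicOpen (secD JS c' (frac JS c' c)) := by
        rw [basicOpen_secD]
        exact ⟨h00, hq⟩
      rw [hη] at h3
      apply (mem_basicOpen_chart JS c' _ P').1 h3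
      rw [p2]
      exact P'.asIdeal.mul_mem_left _ h
  have hb : η ∈ (V JS).basicOpen (res hle (secD JS c
      (frac JS c (some ((1 - q.1).castSucc, q.2.castSucc)) - algebraMap ℂ _ k))) := by
    rw [hfac, Scheme.basicOpen_mul]
    exact ⟨hu, hv⟩
  have e1 : (V JS).basicOpen (res hle (secD JS c
      (frac JS c (some ((1 - q.1).castSucc, q.2.castSucc)) - algebraMap ℂ _ k))) =
        W ⊓ (V JS).basicOpen (secD JS c
      (frac JS c (some ((1 - q.1).castSucc, q.2.castSucc)) - algebraMap ℂ _ k)) :=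
    Scheme.basicOpen_res _ _ _
  rw [e1] at hb
  exact hb.2

/-- TARGET -/
theorem eta_spec (P : Ideal (BS 1 2 2 (-1))) (hP : P.IsPrime) (hP4 : bx 1 2 2 (-1) 4 ∈ P)
    (hP0 : ∀ c : ℂ, bx 1 2 2 (-1) 0 - algebraMap ℂ _ c ∉ P)
    (e : Ch JS (some (0, 0)) ≃ₐ[ℂ] BS 1 2 2 (-1))
    (he1 : e (frac JS (some (0, 0)) (some (1, 0))) = bx 1 2 2 (-1) 0)
    (he2 : e (frac JS (some (0, 0)) (some (2, 0))) = bx 1 2 2 (-1) 1)
    (he3 : e (frac JS (some (0, 0)) (some (0, 1))) = bx 1 2 2 (-1) 2)
    (he4 : e (frac JS (some (0, 0)) (some (0, 2))) = bx 1 2 2 (-1) 3)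
    (he5 : e (frac JS (some (0, 0)) none) = bx 1 2 2 (-1) 4)
    (P' : Spec (.of (Ch JS (some (0, 0)))))
    (hmem : ∀ f : Ch JS (some (0, 0)), f ∈ P'.asIdeal ↔ e f ∈ P)
    (η : XS) (hη : η = V.chart JS (some (0, 0)) P') :
    (∀ z : XS, η ⤳ z → z = η ∨ IsClosed {z}) ∧ ¬ IsClosed {η} := by
  have hP' : P'.asIdeal.IsPrime := P'.2
  have h00 : η ∈ V.D JS (some (0, 0)) := by
    rw [hη]
    exact (V.mem_range_chart JS _ _).1 ⟨P', rfl⟩
  constructor
  · intro z hz
    obtain ⟨q, hzq⟩ := XS_cover z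
    have hq : η ∈ V.D JS (eX q) := hz.mem_open (V.D JS (eX q)).isOpen hzq
    obtain ⟨Q', hQ'⟩ := (V.mem_range_chart JS _ _).2 hzq
    obtain ⟨P1, hP1⟩ := (V.mem_range_chart JS _ _).2 hq
    have hspec : P1 ⤳ Q' := by
      rw [← (V.chart JS (eX q)).isOpenEmbedding.isInducing.specializes_iff, hP1, hQ']
      exact hz
    have hle : P1.asIdeal ≤ Q'.asIdeal := (PrimeSpectrum.le_iff_specializes _ _).2 hspec
    obtain ⟨al, be, ga, de, hgood, eq, hx, hw⟩ := es_chart q
    have hP1p : P1.asIdeal.IsPrime := P1.2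
    have hQp : Q'.asIdeal.IsPrime := Q'.2
    have hw1 : frac JS (eX q) none ∈ P1.asIdeal := by
      by_contra hcon
      have h1 := (mem_basicOpen_chart JS (eX q) _ P1).2 hcon
      rw [basicOpen_secD, hP1] at h1
      have h2 : η ∈ (V JS).basicOpen (secD JS (some (0, 0)) (frac JS (some (0, 0)) none)) := by
        rw [basicOpen_secD]
        exact ⟨h00, h1.2⟩
      rw [hη] at h2
      apply (mem_basicOpen_chart JS (some (0, 0)) _ P').1 h2
      rw [hmem, he5]
      exact hP4
    have hx1 : ∀ k : ℂ, frac JS (eX q) (some ((1 - q.1).castSucc, q.2.castSucc)) -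
        algebraMap ℂ _ k ∉ P1.asIdeal := by
      intro k
      rw [← mem_basicOpen_chart JS (eX q) _ P1, hP1]
      refine es_key (some (0, 0)) rfl P' q k η hη hq ?_
      rw [hmem]
      have hal : e (algebraMap ℂ _ k) = algebraMap ℂ _ k := e.toAlgHom.commutes k
      have hsf : frac JS (some (0, 0)) (some (0, 0)) = 1 := frac_self _ _
      obtain ⟨i, j⟩ := q
      fin_cases i
      · intro h
        have h' : e (frac JS (some (0, 0)) (some (1, 0)) -
          algebraMap ℂ _ k * frac JS (some (0, 0)) (some (0, 0))) ∈ P := h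
        rw [hsf, mul_one, map_sub, he1, hal] at h'
        exact hP0 k h'
      · intro h
        have h' : e (frac JS (some (0, 0)) (some (0, 0)) -
          algebraMap ℂ _ k * frac JS (some (0, 0)) (some (1, 0))) ∈ P := h
        rw [hsf, map_sub, map_mul, map_one, he1, hal] at h'
        by_cases hk : k = 0
        · rw [hk, map_zero, zero_mul, sub_zero] at h'
          exact hP.ne_top ((Ideal.eq_top_iff_one _).2 h')
        · apply hP0 (k⁻¹)
          have h12 := P.mul_mem_left (algebraMap ℂ _ (-k⁻¹)) h'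
          have h13 : algebraMap ℂ (BS 1 2 2 (-1)) (-k⁻¹) *
              (1 - algebraMap ℂ (BS 1 2 2 (-1)) k * bx 1 2 2 (-1) 0) =
              bx 1 2 2 (-1) 0 - algebraMap ℂ (BS 1 2 2 (-1)) k⁻¹ := by
            have h14 : algebraMap ℂ (BS 1 2 2 (-1)) k⁻¹ * algebraMap ℂ (BS 1 2 2 (-1)) k = 1 := by
              rw [← map_mul, inv_mul_cancel₀ hk, map_one]
            rw [map_neg]
            linear_combination (bx 1 2 2 (-1) 0) * h14
          rw [h13] at h12
          exact h12
    by_cases hPQ : P1.asIdeal = Q'.asIdeal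
    · left
      have : P1 = Q' := PrimeSpectrum.ext hPQ
      rw [← hQ', ← hP1, this]
    · right
      have hes : Function.Surjective (eq.symm.toRingEquiv.toRingHom) := eq.symm.surjective
      have hmax : (Q'.asIdeal.comap eq.symm.toRingEquiv.toRingHom).IsMaximal := by
        refine eta_dim hgood (P1.asIdeal.comap eq.symm.toRingEquiv.toRingHom)
          (Ideal.IsPrime.comap _) ?_ ?_ _ (Ideal.IsPrime.comap _) (Ideal.comap_mono hle) ?_
        · show eq.symm (bx al be ga de 4) ∈ P1.asIdeal
          rw [← hw, eq.symm_apply_apply]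
          exact hw1
        · intro k hk
          have hk' : eq.symm (bx al be ga de 0 - algebraMap ℂ _ k) ∈ P1.asIdeal := hk
          have hal : eq.symm (algebraMap ℂ _ k) = algebraMap ℂ _ k := eq.symm.toAlgHom.commutes k
          rw [map_sub, ← hx, eq.symm_apply_apply, hal] at hk'
          exact hx1 k hk'
        · intro h
          apply hPQ
          exact Ideal.comap_injective_of_surjective _ hes h
      have hmax' : Q'.asIdeal.IsMaximal := by
        have h1 : Q'.asIdeal = (Q'.asIdeal.comap eq.symm.toRingEquiv.toRingHom).comap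
            eq.toRingEquiv.toRingHom := by
          ext x
          show x ∈ Q'.asIdeal ↔ eq.symm (eq x) ∈ Q'.asIdeal
          rw [eq.symm_apply_apply]
        rw [h1]
        exact Ideal.comap_isMaximal_of_surjective _ eq.surjective
      have := es_jac_V JS
      apply isClosed_singleton_of_isLocallyClosed_singleton
      have hcl : IsClosed {Q'} := (PrimeSpectrum.isClosed_singleton_iff_isMaximal Q').2 hmax'
      have h3 := hcl.isLocallyClosed.image (V.chart JS (eX q)).isOpenEmbedding.isInducing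
        (V.chart JS (eX q)).isOpenEmbedding.isOpen_range.isLocallyClosed
      rw [Set.image_singleton] at h3
      have hQ'' : V.chart JS (eX q) Q' = z := hQ'
      rwa [hQ''] at h3
  · intro hcl
    rw [hη] at hcl
    have hm := es_max_of_closed JS _ _ hcl
    refine eta_not_max P hP hP0 ?_
    have h1 : P = P'.asIdeal.comap e.symm.toRingEquiv.toRingHom := by
      ext x
      show x ∈ P ↔ e.symm x ∈ P'.asIdeal
      rw [hmem, e.apply_symm_apply]
    rw [h1]
    exact Ideal.comap_isMaximal_of_surjective _ e.symm.surjective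

end Pool.Agent.Helper304.Ses
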