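import Pool.Agent.Helper304.Ses.Md7c
import Pool.Agent.Helper304.Ses.Md9

open MvPolynomial AlgebraicGeometry CategoryTheory Limits TopologicalSpace
open Pool.Agent.Helper198.Sch

namespace Pool.Agent.Helper304.Ses

attribute [local instance] MvPolynomial.gradedAlgebra

/-- TARGET 2 -/
theorem exists_sigma2 : ∃ (σ : XS ⟶ XS) (hσ : σ ≫ sX = sX) (F : Cartier (fixι sX σ hσ))
    (y y2 : F.N.Sec) (η : XS), F.N.IsAmple ∧ η ∉ F.one.nonvan ∧ η ∈ y.nonvan ∧
    ((∀ z : XS, η ⤳ z → z = η ∨ IsClosed {z}) ∧ ¬ IsClosed {η}) ∧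
    ∃ i : F.N.ι, η ∈ F.N.U i ∧
      ∀ c : ℂ, η ∈ XS.basicOpen (y2.s i - cst sX _ c * y.s i) := by
  obtain ⟨σ, hσ, hτ⟩ := exists_inv
  have hcl : IsClosedImmersion (fixι sX σ hσ) := by
    have := XS_proper
    unfold fixι
    infer_instance
  let F : Cartier (fixι sX σ hσ) :=
    { closed := hcl
      N := O1 JS eX XS_cover
      one := coord JS eX XS_cover none
      ideal := by
        intro q W h
        obtain ⟨τ, h1, h2, h3⟩ := hτ (q.1.castSucc, q.2.castSucc)
        have h4 := fix_ideal σ hσ (q.1.castSucc, q.2.castSucc) τ h1 h2 h3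
        have h5 := (fixι sX σ hσ).ker.map_ideal (U := W)
          (V := ⟨V.D JS (some (q.1.castSucc, q.2.castSucc)), isAffineOpen_D JS _⟩) h
        rw [← h5, h4, Ideal.map_span, Set.image_singleton]
        rfl
      regular := by
        intro q W h
        exact regular_aux q W h }
  obtain ⟨P, hP, hP4, hP0⟩ := exists_eta good_params.1
  obtain ⟨e, he1, he2, he3, he4, he5⟩ := XS_chart00
  let P' : Spec (.of (Ch JS (some (0, 0)))) :=
    ⟨P.comap e.toRingEquiv.toRingHom, Ideal.IsPrime.comap _⟩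
  have hmem : ∀ f : Ch JS (some (0, 0)), f ∈ P'.asIdeal ↔ e f ∈ P := fun f => Iff.rfl
  let η : XS := V.chart JS (some (0, 0)) P'
  have hη0 : η ∈ V.D JS (some (0, 0)) := (V.mem_range_chart JS _ _).1 ⟨P', rfl⟩
  refine ⟨σ, hσ, F, coord JS eX XS_cover (some (1, 0)), coord JS eX XS_cover (some (0, 0)), η,
    O1_ample JS eX XS_cover, ?_, ?_,
    eta_spec P hP hP4 hP0 e he1 he2 he3 he4 he5 P' hmem η rfl, (0, 0), hη0, ?_⟩
  · intro h
    have h' : η ∈ ⨆ q, XS.basicOpen (secD JS (eX q) (frac JS (eX q) none)) := h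
    rw [Opens.mem_iSup] at h'
    obtain ⟨q, hq⟩ := h'
    rw [basicOpen_secD] at hq
    have h6 : η ∈ V.D JS (some (0, 0)) ⊓ V.D JS none := ⟨hη0, hq.2⟩
    rw [← basicOpen_secD] at h6
    have h7 := (mem_basicOpen_chart JS (some (0, 0)) _ P').1 h6
    apply h7
    rw [hmem, he5]
    exact hP4
  · show η ∈ ⨆ q, XS.basicOpen (secD JS (eX q) (frac JS (eX q) (some (1, 0))))
    rw [Opens.mem_iSup]
    refine ⟨(0, 0), ?_⟩
    have h7 := (mem_basicOpen_chart JS (some (0, 0)) (frac JS (some (0, 0)) (some (1, 0))) P').2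
      (by
        rw [hmem, he1]
        have := hP0 0
        rwa [map_zero, sub_zero] at this)
    exact h7
  · intro c
    have h8 : (secD JS (some (0, 0)) (1 - algebraMap ℂ _ c * frac JS (some (0, 0)) (some (1, 0)))) =
        secD JS (some (0, 0)) (frac JS (some (0, 0)) (some (0, 0))) -
          cst sX (V.D JS (some (0, 0))) c *
            secD JS (some (0, 0)) (frac JS (some (0, 0)) (some (1, 0))) := by
      rw [map_sub, map_mul, secD_const, frac_self]
    have h9 := (mem_basicOpen_chart JS (some (0, 0))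
      (1 - algebraMap ℂ _ c * frac JS (some (0, 0)) (some (1, 0))) P').2 (by
        rw [hmem, map_sub, map_mul, map_one, he1]
        intro h10
        have h11 : e (algebraMap ℂ _ c) = algebraMap ℂ _ c := e.toAlgHom.commutes c
        rw [h11] at h10
        by_cases hc : c = 0
        · rw [hc, map_zero, zero_mul, sub_zero] at h10
          exact hP.ne_top ((Ideal.eq_top_iff_one _).2 h10)
        · apply hP0 (c⁻¹)
          have h12 := P.mul_mem_left (algebraMap ℂ _ (-c⁻¹)) h10
          have h13 : algebraMap ℂ (BS 1 2 2 (-1)) (-c⁻¹) *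
              (1 - algebraMap ℂ (BS 1 2 2 (-1)) c * bx 1 2 2 (-1) 0) =
              bx 1 2 2 (-1) 0 - algebraMap ℂ (BS 1 2 2 (-1)) c⁻¹ := by
            have h14 : algebraMap ℂ (BS 1 2 2 (-1)) c⁻¹ * algebraMap ℂ (BS 1 2 2 (-1)) c = 1 := by
              rw [← map_mul, inv_mul_cancel₀ hc, map_one]
            rw [map_neg]
            linear_combination (bx 1 2 2 (-1) 0) * h14
          rw [h13] at h12
          exact h12)
    rw [h8] at h9
    exact h9

end Pool.Agent.Helper304.Ses
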