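import Pool.Agent.Helper198.SchP
import Pool.Agent.Helper304.Ses.Fin
import Pool.Agent.Helper304.Ses.Main
import Pool.Agent.Helper304.Ses.Md4s
import Pool.Agent.Helper304.Ses.Md10

open AlgebraicGeometry CategoryTheory Limits TopologicalSpace
open Pool.Agent.Helper198.Sch

namespace Pool.Agent.Helper304.Ses

attribute [local instance] MvPolynomial.gradedAlgebra

/-- renumbering the ten coordinates. -/
noncomputable def e10 : Fin (9 + 1) ≃ IX :=
  (Fintype.equivFinOfCardEq (by simp [IX] : Fintype.card IX = 9 + 1)).symm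

theorem XS_projective : Seshadri.IsProjective sX :=
  ⟨9, emb JS e10, inferInstanceAs (IsClosedImmersion (emb JS e10)), emb_str _ _⟩

open Pool.Agent.Helper304.Seshadri in
theorem main2 : ∃ (X : Scheme.{0}) (s : X ⟶ Seshadri.SpecC) (L : Seshadri.LB X),
    Seshadri.IsSmoothProjectiveSurface s ∧ Seshadri.IsAmple L ∧ Seshadri.HasLargeAlgPi1 s ∧
    ∀ (X' : Scheme.{0}) (p : X' ⟶ X), Seshadri.IsCover p → Seshadri.epsDiag s L p ≤ 2 := by
  have := E_integral
  have := E_proper
  have := XS_integral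
  have := XS_proper
  obtain ⟨φ, hφ, hfin, het, h2⟩ := exists_phi
  obtain ⟨f, hf, hcl⟩ := exists_f
  obtain ⟨P, hP⟩ := E_point
  obtain ⟨σ, hσ, F, y, y2, η, hA, hw, hy, ⟨hspec, hnc⟩, i0, hi0, hyc⟩ := exists_sigma2
  refine ⟨XS, sX, toNew F.N, ⟨XS_integral, XS_smooth2, XS_projective⟩, ample_new F.N hA,
    large_new (large_of sX sE f hf hcl E_dim P hP φ hφ h2), fun X' p hp => ?_⟩
  exact new_upper sX σ hσ F y y2 η hw hy i0 hi0 hyc hspec hnc p hp

end Pool.Agent.Helper304.Ses
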