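import Pool.Agent.Helper304.Ses.Ex
import Pool.Agent.Helper198.SchM

open MvPolynomial AlgebraicGeometry CategoryTheory Limits TopologicalSpace
open Pool.Agent.Helper198.Sch

namespace Pool.Agent.Helper304.Ses

attribute [local instance] MvPolynomial.gradedAlgebra

/-- the equations of the surface -/
structure XS_chart_Sat {E : Type} [CommRing E] (u : IX → E) : Prop where
  minor : ∀ a b c d, u (some (a, b)) * u (some (c, d)) = u (some (a, d)) * u (some (c, b))
  col : ∀ b, u (some (0, b)) ^ 3 + u (some (1, b)) ^ 3 + u (some (2, b)) ^ 3 = 0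
  row : ∀ a, u (some (a, 0)) ^ 3 + u (some (a, 1)) ^ 3 + u (some (a, 2)) ^ 3 = 0
  quad : u none ^ 2 = u (some (0, 0)) ^ 2 + 2 * u (some (0, 1)) ^ 2 + 2 * u (some (1, 0)) ^ 2
    - u (some (1, 1)) ^ 2

lemma XS_chart_sat_iff {E : Type} [CommRing E] [Algebra ℂ E] (u : IX → E) :
    (∀ f ∈ setS, aeval u f = 0) ↔ XS_chart_Sat u := by
  constructor
  · intro h
    refine ⟨fun a b c d => ?_, fun b => ?_, fun a => ?_, ?_⟩
    · have := h _ (Or.inl (Or.inl (Or.inl ⟨a, b, c, d, rfl⟩)))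
      simpa [UX, sub_eq_zero] using this
    · have := h _ (Or.inl (Or.inl (Or.inr ⟨b, rfl⟩)))
      simpa [UX] using this
    · have := h _ (Or.inl (Or.inr ⟨a, rfl⟩))
      simpa [UX] using this
    · have := h _ (Or.inr rfl)
      simpa [UX, qX, sub_eq_zero] using this
  · rintro h f (((⟨a, b, c, d, rfl⟩ | ⟨b, rfl⟩) | ⟨a, rfl⟩) | rfl)
    · simp [UX, h.minor a b c d]
    · simp [UX, h.col b]
    · simp [UX, h.row a]
    · simp [UX, qX, h.quad]

lemma XS_chart_ann {E : Type} [CommRing E] [Algebra ℂ E] (u : IX → E) (h : XS_chart_Sat u) :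
    ∀ f ∈ JS.toIdeal, aeval u f = 0 :=
  aeval_ofSet u ((XS_chart_sat_iff u).2 h)

lemma XS_chart_sat_frac (c : IX) : XS_chart_Sat (frac JS c) :=
  (XS_chart_sat_iff _).1 (fun f hf => aeval_frac_eq_zero JS c f (mem_ofSet hf))

section chart

variable (i j i' j' : Fin 3) (al be ga de : ℂ)

/-- the column vector -/
noncomputable def XS_chart_xi (a : Fin 3) : BS al be ga de :=
  if a = i then 1 else if a = 2 then bx al be ga de 1 else bx al be ga de 0

/-- the row vector -/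
noncomputable def XS_chart_eta (b : Fin 3) : BS al be ga de :=
  if b = j then 1 else if b = 2 then bx al be ga de 3 else bx al be ga de 2

/-- the universal point -/
noncomputable def XS_chart_u : IX → BS al be ga de
  | none => bx al be ga de 4
  | some (a, b) => XS_chart_xi i al be ga de a * XS_chart_eta j al be ga de b

lemma XS_chart_rel (k : Fin 3) :
    (Ideal.Quotient.mk (Ideal.span (Set.range (relB al be ga de))) (relB al be ga de k) :
      BS al be ga de) = 0 :=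
  Ideal.Quotient.eq_zero_iff_mem.2 (Ideal.subset_span ⟨k, rfl⟩)

lemma XS_chart_rel0 : 1 + bx al be ga de 0 ^ 3 + bx al be ga de 1 ^ 3 = 0 :=
  XS_chart_rel al be ga de 0

lemma XS_chart_rel1 : 1 + bx al be ga de 2 ^ 3 + bx al be ga de 3 ^ 3 = 0 :=
  XS_chart_rel al be ga de 1

lemma XS_chart_rel2 : bx al be ga de 4 ^ 2 =
    algebraMap ℂ _ al + algebraMap ℂ _ be * bx al be ga de 2 ^ 2
      + algebraMap ℂ _ ga * bx al be ga de 0 ^ 2
      + algebraMap ℂ _ de * bx al be ga de 0 ^ 2 * bx al be ga de 2 ^ 2 :=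
  sub_eq_zero.1 (XS_chart_rel al be ga de 2)

/-- the quadratic relation in the chart -/
def XS_chart_Q (i j i' j' : Fin 3) (al be ga de : ℂ) : Prop :=
  ∀ (E : Type) [CommRing E] [Algebra ℂ E] (ξ η : Fin 3 → E), ξ i = 1 → η j = 1 →
    (ξ 0 * η 0) ^ 2 + 2 * (ξ 0 * η 1) ^ 2 + 2 * (ξ 1 * η 0) ^ 2 - (ξ 1 * η 1) ^ 2 =
      algebraMap ℂ E al + algebraMap ℂ E be * η j' ^ 2 + algebraMap ℂ E ga * ξ i' ^ 2
        + algebraMap ℂ E de * ξ i' ^ 2 * η j' ^ 2

variable {i j i' j' al be ga de}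

lemma XS_chart_cube {E : Type} [CommRing E] (hi : (i = 0 ∧ i' = 1) ∨ (i = 1 ∧ i' = 0))
    (ξ : Fin 3 → E) : ξ 0 ^ 3 + ξ 1 ^ 3 + ξ 2 ^ 3 = ξ i ^ 3 + ξ i' ^ 3 + ξ 2 ^ 3 := by
  rcases hi with ⟨rfl, rfl⟩ | ⟨rfl, rfl⟩ <;> ring

lemma XS_chart_xi_i : XS_chart_xi i al be ga de i = 1 := by simp [XS_chart_xi]
lemma XS_chart_xi_i' (hi : (i = 0 ∧ i' = 1) ∨ (i = 1 ∧ i' = 0)) :
    XS_chart_xi i al be ga de i' = bx al be ga de 0 := by
  rcases hi with ⟨rfl, rfl⟩ | ⟨rfl, rfl⟩ <;> simp [XS_chart_xi]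
lemma XS_chart_xi_2 (hi : (i = 0 ∧ i' = 1) ∨ (i = 1 ∧ i' = 0)) :
    XS_chart_xi i al be ga de 2 = bx al be ga de 1 := by
  rcases hi with ⟨rfl, rfl⟩ | ⟨rfl, rfl⟩ <;> simp [XS_chart_xi]
lemma XS_chart_eta_j : XS_chart_eta j al be ga de j = 1 := by simp [XS_chart_eta]
lemma XS_chart_eta_j' (hj : (j = 0 ∧ j' = 1) ∨ (j = 1 ∧ j' = 0)) :
    XS_chart_eta j al be ga de j' = bx al be ga de 2 := by
  rcases hj with ⟨rfl, rfl⟩ | ⟨rfl, rfl⟩ <;> simp [XS_chart_eta]
lemma XS_chart_eta_2 (hj : (j = 0 ∧ j' = 1) ∨ (j = 1 ∧ j' = 0)) :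
    XS_chart_eta j al be ga de 2 = bx al be ga de 3 := by
  rcases hj with ⟨rfl, rfl⟩ | ⟨rfl, rfl⟩ <;> simp [XS_chart_eta]

lemma XS_chart_sat_u (hi : (i = 0 ∧ i' = 1) ∨ (i = 1 ∧ i' = 0))
    (hj : (j = 0 ∧ j' = 1) ∨ (j = 1 ∧ j' = 0)) (hQ : XS_chart_Q i j i' j' al be ga de) :
    XS_chart_Sat (XS_chart_u i j al be ga de) := by
  have hx := XS_chart_cube hi (XS_chart_xi i al be ga de)
  rw [XS_chart_xi_i, XS_chart_xi_i' hi, XS_chart_xi_2 hi] at hx
  have hy := XS_chart_cube hj (XS_chart_eta j al be ga de)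
  rw [XS_chart_eta_j, XS_chart_eta_j' hj, XS_chart_eta_2 hj] at hy
  have r0 := XS_chart_rel0 al be ga de
  have r1 := XS_chart_rel1 al be ga de
  refine ⟨fun a b c d => ?_, fun b => ?_, fun a => ?_, ?_⟩
  · simp only [XS_chart_u]; ring
  · simp only [XS_chart_u]
    have hx2 := XS_chart_xi_2 (al := al) (be := be) (ga := ga) (de := de) hi
    rw [hx2]
    linear_combination (XS_chart_eta j al be ga de b ^ 3) * (hx + r0)
  · simp only [XS_chart_u]
    have hx2 := XS_chart_eta_2 (al := al) (be := be) (ga := ga) (de := de) hj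
    rw [hx2]
    linear_combination (XS_chart_xi i al be ga de a ^ 3) * (hy + r1)
  · simp only [XS_chart_u]
    have := hQ (BS al be ga de) (XS_chart_xi i al be ga de) (XS_chart_eta j al be ga de)
      XS_chart_xi_i XS_chart_eta_j
    rw [this, XS_chart_xi_i' hi, XS_chart_eta_j' hj, XS_chart_rel2]

/-- forward -/
noncomputable def XS_chart_to (hi : (i = 0 ∧ i' = 1) ∨ (i = 1 ∧ i' = 0))
    (hj : (j = 0 ∧ j' = 1) ∨ (j = 1 ∧ j' = 0)) (hQ : XS_chart_Q i j i' j' al be ga de) :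
    Ch JS (some (i, j)) →ₐ[ℂ] BS al be ga de :=
  chLift JS (some (i, j)) (XS_chart_u i j al be ga de)
    (by simp only [XS_chart_u, XS_chart_xi_i, XS_chart_eta_j, mul_one])
    (XS_chart_ann _ (XS_chart_sat_u hi hj hQ))

variable (i j i' j') in
/-- the images of the variables -/
noncomputable def XS_chart_v : Fin 5 → Ch JS (some (i, j)) :=
  ![frac JS (some (i, j)) (some (i', j)), frac JS (some (i, j)) (some (2, j)),
    frac JS (some (i, j)) (some (i, j')), frac JS (some (i, j)) (some (i, 2)),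
    frac JS (some (i, j)) none]

lemma XS_chart_prod (a b : Fin 3) : frac JS (some (i, j)) (some (a, b)) =
    frac JS (some (i, j)) (some (a, j)) * frac JS (some (i, j)) (some (i, b)) := by
  have h := (XS_chart_sat_frac (some (i, j))).minor a b i j
  rw [frac_self, mul_one] at h
  exact h

lemma XS_chart_relv (hi : (i = 0 ∧ i' = 1) ∨ (i = 1 ∧ i' = 0))
    (hj : (j = 0 ∧ j' = 1) ∨ (j = 1 ∧ j' = 0)) (hQ : XS_chart_Q i j i' j' al be ga de) (k : Fin 3) :
    aeval (XS_chart_v i j i' j') (relB al be ga de k) = 0 := by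
  have hs := XS_chart_sat_frac (some (i, j))
  have hc : frac JS (some (i, j)) (some (i, j)) = 1 := frac_self _ _
  fin_cases k
  · have h1 := hs.col j
    have h2 := XS_chart_cube hi (fun a => frac JS (some (i, j)) (some (a, j)))
    simp only [hc] at h2
    have h3 : 1 + frac JS (some (i, j)) (some (i', j)) ^ 3 + frac JS (some (i, j)) (some (2, j)) ^ 3 = 0 := by
      linear_combination h1 - h2
    simpa [relB, XS_chart_v] using h3
  · have h1 := hs.row i
    have h2 := XS_chart_cube hj (fun a => frac JS (some (i, j)) (some (i, a)))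
    simp only [hc] at h2
    have h3 : 1 + frac JS (some (i, j)) (some (i, j')) ^ 3 + frac JS (some (i, j)) (some (i, 2)) ^ 3 = 0 := by
      linear_combination h1 - h2
    simpa [relB, XS_chart_v] using h3
  · have h1 := hs.quad
    have h2 := hQ _ (fun a => frac JS (some (i, j)) (some (a, j)))
      (fun b => frac JS (some (i, j)) (some (i, b))) hc hc
    simp only [← XS_chart_prod] at h2
    rw [h2] at h1
    have h3 := sub_eq_zero.2 h1
    simpa [relB, XS_chart_v, MvPolynomial.aeval_C] using h3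

/-- backward -/
noncomputable def XS_chart_from (hi : (i = 0 ∧ i' = 1) ∨ (i = 1 ∧ i' = 0))
    (hj : (j = 0 ∧ j' = 1) ∨ (j = 1 ∧ j' = 0)) (hQ : XS_chart_Q i j i' j' al be ga de) :
    BS al be ga de →ₐ[ℂ] Ch JS (some (i, j)) :=
  Ideal.Quotient.liftₐ _ (aeval (XS_chart_v i j i' j')) (by
    have h2 : Ideal.span (Set.range (relB al be ga de)) ≤
        RingHom.ker (aeval (XS_chart_v i j i' j') : MvPolynomial (Fin 5) ℂ →ₐ[ℂ] _).toRingHom := by
      rw [Ideal.span_le]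
      rintro _ ⟨k, rfl⟩
      exact XS_chart_relv hi hj hQ k
    intro f hf
    exact h2 hf)

lemma XS_chart_from_bx (hi : (i = 0 ∧ i' = 1) ∨ (i = 1 ∧ i' = 0))
    (hj : (j = 0 ∧ j' = 1) ∨ (j = 1 ∧ j' = 0)) (hQ : XS_chart_Q i j i' j' al be ga de) (k : Fin 5) :
    XS_chart_from hi hj hQ (bx al be ga de k) = XS_chart_v i j i' j' k := by
  change aeval _ (X k) = _
  rw [aeval_X]

lemma XS_chart_to_frac (hi : (i = 0 ∧ i' = 1) ∨ (i = 1 ∧ i' = 0))
    (hj : (j = 0 ∧ j' = 1) ∨ (j = 1 ∧ j' = 0)) (hQ : XS_chart_Q i j i' j' al be ga de) (k : Fin 5) :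
    XS_chart_to hi hj hQ (XS_chart_v i j i' j' k) = bx al be ga de k := by
  fin_cases k
  · change XS_chart_to hi hj hQ (frac JS (some (i, j)) (some (i', j))) = bx al be ga de 0
    rw [XS_chart_to, chLift_frac]
    simp only [XS_chart_u, XS_chart_xi_i' hi, XS_chart_eta_j, mul_one]
  · change XS_chart_to hi hj hQ (frac JS (some (i, j)) (some (2, j))) = bx al be ga de 1
    rw [XS_chart_to, chLift_frac]
    simp only [XS_chart_u, XS_chart_xi_2 hi, XS_chart_eta_j, mul_one]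
  · change XS_chart_to hi hj hQ (frac JS (some (i, j)) (some (i, j'))) = bx al be ga de 2
    rw [XS_chart_to, chLift_frac]
    simp only [XS_chart_u, XS_chart_xi_i, XS_chart_eta_j' hj, one_mul]
  · change XS_chart_to hi hj hQ (frac JS (some (i, j)) (some (i, 2))) = bx al be ga de 3
    rw [XS_chart_to, chLift_frac]
    simp only [XS_chart_u, XS_chart_xi_i, XS_chart_eta_2 hj, one_mul]
  · change XS_chart_to hi hj hQ (frac JS (some (i, j)) none) = bx al be ga de 4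
    rw [XS_chart_to, chLift_frac]
    rfl

lemma XS_chart_from_xi (hi : (i = 0 ∧ i' = 1) ∨ (i = 1 ∧ i' = 0))
    (hj : (j = 0 ∧ j' = 1) ∨ (j = 1 ∧ j' = 0)) (hQ : XS_chart_Q i j i' j' al be ga de) (a : Fin 3) :
    XS_chart_from hi hj hQ (XS_chart_xi i al be ga de a) = frac JS (some (i, j)) (some (a, j)) := by
  have h0 : XS_chart_from hi hj hQ (bx al be ga de 0) = frac JS (some (i, j)) (some (i', j)) :=
    XS_chart_from_bx hi hj hQ 0
  have h1 : XS_chart_from hi hj hQ (bx al be ga de 1) = frac JS (some (i, j)) (some (2, j)) :=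
    XS_chart_from_bx hi hj hQ 1
  have hc : frac JS (some (i, j)) (some (i, j)) = 1 := frac_self _ _
  have ha : a = i ∨ a = i' ∨ a = 2 := by
    rcases hi with ⟨rfl, rfl⟩ | ⟨rfl, rfl⟩ <;> fin_cases a <;> simp
  rcases ha with rfl | rfl | rfl
  · rw [XS_chart_xi_i, map_one, hc]
  · rw [XS_chart_xi_i' hi, h0]
  · rw [XS_chart_xi_2 hi, h1]

lemma XS_chart_from_eta (hi : (i = 0 ∧ i' = 1) ∨ (i = 1 ∧ i' = 0))
    (hj : (j = 0 ∧ j' = 1) ∨ (j = 1 ∧ j' = 0)) (hQ : XS_chart_Q i j i' j' al be ga de) (a : Fin 3) :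
    XS_chart_from hi hj hQ (XS_chart_eta j al be ga de a) = frac JS (some (i, j)) (some (i, a)) := by
  have h0 : XS_chart_from hi hj hQ (bx al be ga de 2) = frac JS (some (i, j)) (some (i, j')) :=
    XS_chart_from_bx hi hj hQ 2
  have h1 : XS_chart_from hi hj hQ (bx al be ga de 3) = frac JS (some (i, j)) (some (i, 2)) :=
    XS_chart_from_bx hi hj hQ 3
  have hc : frac JS (some (i, j)) (some (i, j)) = 1 := frac_self _ _
  have ha : a = j ∨ a = j' ∨ a = 2 := by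
    rcases hj with ⟨rfl, rfl⟩ | ⟨rfl, rfl⟩ <;> fin_cases a <;> simp
  rcases ha with rfl | rfl | rfl
  · rw [XS_chart_eta_j, map_one, hc]
  · rw [XS_chart_eta_j' hj, h0]
  · rw [XS_chart_eta_2 hj, h1]

lemma XS_chart_gen (hi : (i = 0 ∧ i' = 1) ∨ (i = 1 ∧ i' = 0))
    (hj : (j = 0 ∧ j' = 1) ∨ (j = 1 ∧ j' = 0)) (hQ : XS_chart_Q i j i' j' al be ga de) :
    ∃ e : Ch JS (some (i, j)) ≃ₐ[ℂ] BS al be ga de,
      e (frac JS (some (i, j)) (some (i', j))) = bx al be ga de 0 ∧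
      e (frac JS (some (i, j)) (some (2, j))) = bx al be ga de 1 ∧
      e (frac JS (some (i, j)) (some (i, j'))) = bx al be ga de 2 ∧
      e (frac JS (some (i, j)) (some (i, 2))) = bx al be ga de 3 ∧
      e (frac JS (some (i, j)) none) = bx al be ga de 4 := by
  refine ⟨AlgEquiv.ofAlgHom (XS_chart_to hi hj hQ) (XS_chart_from hi hj hQ) ?_ ?_,
    XS_chart_to_frac hi hj hQ 0, XS_chart_to_frac hi hj hQ 1, XS_chart_to_frac hi hj hQ 2,
    XS_chart_to_frac hi hj hQ 3, XS_chart_to_frac hi hj hQ 4⟩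
  · apply Ideal.Quotient.algHom_ext
    apply MvPolynomial.algHom_ext
    intro s
    change XS_chart_to hi hj hQ (XS_chart_from hi hj hQ (bx al be ga de s)) = bx al be ga de s
    rw [XS_chart_from_bx, XS_chart_to_frac]
  · apply ch_algHom_ext
    rintro (_ | ⟨a, b⟩)
    · rw [AlgHom.comp_apply, AlgHom.id_apply, XS_chart_to, chLift_frac]
      exact XS_chart_from_bx hi hj hQ 4
    · rw [AlgHom.comp_apply, AlgHom.id_apply, XS_chart_to, chLift_frac]
      change XS_chart_from hi hj hQ (XS_chart_xi i al be ga de a * XS_chart_eta j al be ga de b) = _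
      rw [map_mul, XS_chart_from_xi, XS_chart_from_eta, ← XS_chart_prod]

end chart

/-- The charts of the surface (the other index of `{0, 1}` is `1 - i`). -/
theorem XS_chart (i j i' j' : Fin 3) (al be ga de : ℂ)
    (h : (i = 0 ∧ i' = 1 ∧ j = 0 ∧ j' = 1 ∧ al = 1 ∧ be = 2 ∧ ga = 2 ∧ de = -1) ∨
      (i = 1 ∧ i' = 0 ∧ j = 0 ∧ j' = 1 ∧ al = 2 ∧ be = -1 ∧ ga = 1 ∧ de = 2) ∨
      (i = 0 ∧ i' = 1 ∧ j = 1 ∧ j' = 0 ∧ al = 2 ∧ be = 1 ∧ ga = -1 ∧ de = 2) ∨
      (i = 1 ∧ i' = 0 ∧ j = 1 ∧ j' = 0 ∧ al = -1 ∧ be = 2 ∧ ga = 2 ∧ de = 1)) :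
    ∃ e : Ch JS (some (i, j)) ≃ₐ[ℂ] BS al be ga de,
      e (frac JS (some (i, j)) (some (i', j))) = bx al be ga de 0 ∧
      e (frac JS (some (i, j)) (some (2, j))) = bx al be ga de 1 ∧
      e (frac JS (some (i, j)) (some (i, j'))) = bx al be ga de 2 ∧
      e (frac JS (some (i, j)) (some (i, 2))) = bx al be ga de 3 ∧
      e (frac JS (some (i, j)) none) = bx al be ga de 4 := by
  rcases h with ⟨rfl, rfl, rfl, rfl, rfl, rfl, rfl, rfl⟩ | ⟨rfl, rfl, rfl, rfl, rfl, rfl, rfl, rfl⟩ |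
    ⟨rfl, rfl, rfl, rfl, rfl, rfl, rfl, rfl⟩ | ⟨rfl, rfl, rfl, rfl, rfl, rfl, rfl, rfl⟩
  · apply XS_chart_gen (Or.inl ⟨rfl, rfl⟩) (Or.inl ⟨rfl, rfl⟩)
    intro E _ _ ξ η h1 h2
    rw [h1, h2]
    simp only [map_one, map_neg, map_ofNat]
    ring
  · apply XS_chart_gen (Or.inr ⟨rfl, rfl⟩) (Or.inl ⟨rfl, rfl⟩)
    intro E _ _ ξ η h1 h2
    rw [h1, h2]
    simp only [map_one, map_neg, map_ofNat]
    ring
  · apply XS_chart_gen (Or.inl ⟨rfl, rfl⟩) (Or.inr ⟨rfl, rfl⟩)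
    intro E _ _ ξ η h1 h2
    rw [h1, h2]
    simp only [map_one, map_neg, map_ofNat]
    ring
  · apply XS_chart_gen (Or.inr ⟨rfl, rfl⟩) (Or.inr ⟨rfl, rfl⟩)
    intro E _ _ ξ η h1 h2
    rw [h1, h2]
    simp only [map_one, map_neg, map_ofNat]
    ring

/-- four of the charts cover the surface -/
theorem XS_cover0 (P : XS) : ∃ q : Fin 2 × Fin 2, P ∈ V.D JS (some (q.1.castSucc, q.2.castSucc)) := by
  by_contra hcon
  push Not at hcon
  have hs : XS_chart_Sat (gen JS) := by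
    apply (XS_chart_sat_iff _).1
    intro f hf
    have h1 : aeval (gen JS) = Ideal.Quotient.mkₐ ℂ JS.toIdeal := by
      apply MvPolynomial.algHom_ext
      intro s
      rw [aeval_X]
      rfl
    rw [h1]
    exact Ideal.Quotient.eq_zero_iff_mem.2 (mem_ofSet hf)
  obtain ⟨c, hc⟩ := V.exists_mem_D JS P
  rw [V.mem_D_iff] at hc
  have hp : ((ProjectiveSpectrum.asHomogeneousIdeal (𝒜 := qgrad JS.toIdeal) P).toIdeal).IsPrime :=
    ProjectiveSpectrum.isPrime P
  have hmem : ∀ a b : Fin 2, gen JS (some (a.castSucc, b.castSucc)) ∈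
      (ProjectiveSpectrum.asHomogeneousIdeal (𝒜 := qgrad JS.toIdeal) P).toIdeal := by
    intro a b
    have := hcon (a, b)
    rw [V.mem_D_iff, not_not] at this
    exact this
  have hc' : gen JS c ∉ (ProjectiveSpectrum.asHomogeneousIdeal (𝒜 := qgrad JS.toIdeal) P).toIdeal := hc
  generalize (ProjectiveSpectrum.asHomogeneousIdeal (𝒜 := qgrad JS.toIdeal) P).toIdeal = I at hp hmem hc'
  have h00 : gen JS (some (0, 0)) ∈ I := hmem 0 0
  have h01 : gen JS (some (0, 1)) ∈ I := hmem 0 1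
  have h10 : gen JS (some (1, 0)) ∈ I := hmem 1 0
  have h11 : gen JS (some (1, 1)) ∈ I := hmem 1 1
  have key : ∀ x y z : MvPolynomial IX ℂ ⧸ JS.toIdeal, x ∈ I → y ∈ I → x ^ 3 + y ^ 3 + z ^ 3 = 0 → z ∈ I := by
    intro x y z hx hy h
    apply hp.mem_of_pow_mem 3
    have h1 : z ^ 3 = -(x ^ 3 + y ^ 3) := by linear_combination h
    rw [h1]
    exact I.neg_mem (I.add_mem (I.pow_mem_of_mem hx 3 (by norm_num)) (I.pow_mem_of_mem hy 3 (by norm_num)))
  have h20 := key _ _ _ h00 h10 (hs.col 0)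
  have h21 := key _ _ _ h01 h11 (hs.col 1)
  have h02 := key _ _ _ h00 h01 (hs.row 0)
  have h12 := key _ _ _ h10 h11 (hs.row 1)
  have h22 := key _ _ _ h20 h21 (hs.row 2)
  have hn : gen JS none ∈ I := by
    apply hp.mem_of_pow_mem 2
    rw [hs.quad]
    exact I.sub_mem (I.add_mem (I.add_mem (I.pow_mem_of_mem h00 2 (by norm_num))
      (I.mul_mem_left _ (I.pow_mem_of_mem h01 2 (by norm_num))))
      (I.mul_mem_left _ (I.pow_mem_of_mem h10 2 (by norm_num)))) (I.pow_mem_of_mem h11 2 (by norm_num))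
  apply hc'
  rcases c with _ | ⟨a, b⟩
  · exact hn
  · fin_cases a <;> fin_cases b
    · exact h00
    · exact h01
    · exact h02
    · exact h10
    · exact h11
    · exact h12
    · exact h20
    · exact h21
    · exact h22

end Pool.Agent.Helper304.Ses
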