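import Pool.Agent.Helper304.Ses.Rings

/-! Affine coordinate rings of the curve and of the surface. -/

open MvPolynomial

namespace Pool.Agent.Helper304.Ses

theorem h396_prime_of_map {R S : Type*} [CommRing R] [CommRing S] (i : R →+* S)
    (hi : Function.Injective i) (f : Polynomial R) (hf : f.Monic)
    (hp : Prime (f.map i)) : Prime f := by
  refine ⟨?_, ?_, ?_⟩
  · rintro rfl
    exact hp.ne_zero (by simp)
  · intro hu
    exact hp.not_isUnit (hu.map (Polynomial.mapRingHom i))
  · intro g h hgh
    have h0 : f.map i ∣ g.map i * h.map i := by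
      rw [← Polynomial.map_mul]
      exact (Polynomial.map_dvd_map i hi hf).2 hgh
    rcases hp.dvd_or_dvd h0 with h1 | h1
    · exact Or.inl ((Polynomial.map_dvd_map i hi hf).1 h1)
    · exact Or.inr ((Polynomial.map_dvd_map i hi hf).1 h1)

/-- `V³ + (1 + y³)` -/
noncomputable def h396_f (R : Type*) [CommRing R] : Polynomial (Polynomial R) :=
  Polynomial.X ^ 3 + Polynomial.C (1 + Polynomial.X ^ 3)

theorem h396_f_monic (R : Type*) [CommRing R] : (h396_f R).Monic :=
  Polynomial.monic_X_pow_add_C _ (by norm_num)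

theorem h396_f_map {R S : Type*} [CommRing R] [CommRing S] (i : R →+* S) :
    (h396_f R).map (Polynomial.mapRingHom i) = h396_f S := by
  unfold h396_f
  simp

theorem h396_f_irr (K : Type*) [Field K] [CharZero K] : Irreducible (h396_f K) := by
  have h1 : Prime (Polynomial.X - Polynomial.C (-1) : Polynomial K) := Polynomial.prime_X_sub_C _
  have hP : (Ideal.span {(Polynomial.X - Polynomial.C (-1) : Polynomial K)}).IsPrime :=
    (Ideal.span_singleton_prime h1.ne_zero).2 h1
  have hc : (1 + Polynomial.X ^ 3 : Polynomial K) =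
      (Polynomial.X - Polynomial.C (-1)) * (Polynomial.X ^ 2 - Polynomial.X + 1) := by
    rw [Polynomial.C_neg, Polynomial.C_1]
    ring
  have hdeg : (h396_f K).degree = 3 := Polynomial.degree_X_pow_add_C (by norm_num) _
  refine Polynomial.irreducible_of_eisenstein_criterion hP ?_ ?_ ?_ ?_
    (h396_f_monic K).isPrimitive
  · rw [(h396_f_monic K).leadingCoeff]
    intro h
    exact hP.ne_top ((Ideal.eq_top_iff_one _).2 h)
  · intro n hn
    rw [hdeg] at hn
    have hn' : n < 3 := by exact_mod_cast hn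
    unfold h396_f
    rw [Polynomial.coeff_add, Polynomial.coeff_X_pow, if_neg (by omega), zero_add,
      Polynomial.coeff_C]
    split_ifs
    · rw [hc]
      exact Ideal.mul_mem_right _ _ (Ideal.mem_span_singleton_self _)
    · exact Ideal.zero_mem _
  · rw [hdeg]
    norm_num
  · unfold h396_f
    rw [Polynomial.coeff_add, Polynomial.coeff_X_pow, if_neg (by norm_num), zero_add,
      Polynomial.coeff_C_zero, Ideal.span_singleton_pow, Ideal.mem_span_singleton, hc, sq]
    intro h
    have h2 := (mul_dvd_mul_iff_left h1.ne_zero).1 h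
    rw [Polynomial.dvd_iff_isRoot, Polynomial.IsRoot] at h2
    simp at h2
    norm_num at h2

theorem h396_f_prime (K : Type*) [Field K] [CharZero K] : Prime (h396_f K) :=
  (h396_f_irr K).prime

theorem h396_quad_not_sq (K : Type*) [Field K] [CharZero K] (α β : K) (hα : α ≠ 0) (hβ : β ≠ 0)
    (p : Polynomial K) : p ^ 2 ≠ Polynomial.C α + Polynomial.C β * Polynomial.X ^ 2 := by
  intro h
  have hdeg : (Polynomial.C α + Polynomial.C β * Polynomial.X ^ 2 : Polynomial K).natDegree = 2 := by
    rw [add_comm, Polynomial.natDegree_add_C]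
    exact Polynomial.natDegree_C_mul_X_pow 2 β hβ
  have h1 : p.natDegree = 1 := by
    have h2 := congrArg Polynomial.natDegree h
    rw [Polynomial.natDegree_pow, hdeg] at h2
    omega
  have hp := Polynomial.eq_X_add_C_of_natDegree_le_one h1.le
  obtain ⟨a, ha⟩ : ∃ a, a = p.coeff 1 := ⟨_, rfl⟩
  obtain ⟨b, hb⟩ : ∃ b, b = p.coeff 0 := ⟨_, rfl⟩
  rw [← ha, ← hb] at hp
  rw [hp] at h
  have e0 := congrArg (Polynomial.eval 0) h
  have e1 := congrArg (Polynomial.eval 1) h
  have e2 := congrArg (Polynomial.eval (-1)) h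
  simp at e0 e1 e2
  have h3 : 4 * (a * b) = 0 := by linear_combination e1 - e2
  have h4 : a * b = 0 := by
    rcases mul_eq_zero.1 h3 with h5 | h5
    · norm_num at h5
    · exact h5
  rcases mul_eq_zero.1 h4 with h5 | h5
  · apply hβ
    rw [h5] at e1
    linear_combination e0 - e1
  · apply hα
    rw [← e0, h5]
    norm_num

/-- the cubic over the fraction field -/
noncomputable def h396_fL (K : Type) [Field K] : Polynomial (FractionRing (Polynomial K)) :=
  (h396_f K).map (algebraMap (Polynomial K) (FractionRing (Polynomial K)))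

theorem h396_fL_irr (K : Type) [Field K] [CharZero K] : Irreducible (h396_fL K) :=
  ((h396_f_monic K).irreducible_iff_irreducible_map_fraction_map
    (K := FractionRing (Polynomial K))).1 (h396_f_irr K)

theorem h396_not_sq_L (K : Type) [Field K] [CharZero K] (α β : K) (hα : α ≠ 0) (hβ : β ≠ 0)
    (g : AdjoinRoot (h396_fL K)) :
    g ^ 2 ≠ AdjoinRoot.of (h396_fL K) (algebraMap (Polynomial K) (FractionRing (Polynomial K))
      (Polynomial.C α + Polynomial.C β * Polynomial.X ^ 2)) := by
  intro h
  have _hI : Fact (Irreducible (h396_fL K)) := ⟨h396_fL_irr K⟩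
  have hmon : (h396_fL K).Monic := (h396_f_monic K).map _
  have hfin : Module.finrank (FractionRing (Polynomial K)) (AdjoinRoot (h396_fL K)) = 3 := by
    rw [(AdjoinRoot.powerBasis' hmon).finrank, AdjoinRoot.powerBasis'_dim]
    unfold h396_fL
    rw [(h396_f_monic K).natDegree_map]
    exact Polynomial.natDegree_X_pow_add_C
  obtain ⟨q, hq⟩ : ∃ q : Polynomial K, q = Polynomial.C α + Polynomial.C β * Polynomial.X ^ 2 :=
    ⟨_, rfl⟩
  rw [← hq] at h
  have hq0 : q ≠ 0 := by
    intro h0
    have h1 := congrArg (Polynomial.eval 0) (hq.symm.trans h0)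
    simp at h1
    exact hα h1
  have hN := congrArg (Algebra.norm (FractionRing (Polynomial K))) h
  rw [map_pow, ← AdjoinRoot.algebraMap_eq, Algebra.norm_algebraMap, hfin] at hN
  obtain ⟨n, hn⟩ : ∃ n, n = Algebra.norm (FractionRing (Polynomial K)) g := ⟨_, rfl⟩
  rw [← hn] at hN
  obtain ⟨Q, hQ⟩ : ∃ Q, Q = algebraMap (Polynomial K) (FractionRing (Polynomial K)) q := ⟨_, rfl⟩
  rw [← hQ] at hN
  have hQ0 : Q ≠ 0 := by
    rw [hQ]
    intro h0
    exact hq0 ((IsFractionRing.injective (Polynomial K) (FractionRing (Polynomial K)))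
      (by rw [h0, map_zero]))
  have hsq : (n / Q) ^ 2 = Q := by
    rw [div_pow, hN]
    field_simp
  obtain ⟨p, hp⟩ := IsIntegrallyClosed.exists_algebraMap_eq_of_isIntegral_pow
    (R := Polynomial K) (K := FractionRing (Polynomial K)) (x := n / Q) (n := 2) (by norm_num)
    (by rw [hsq, hQ]; exact isIntegral_algebraMap)
  rw [← hp, hQ, ← map_pow] at hsq
  have h2 := IsFractionRing.injective (Polynomial K) (FractionRing (Polynomial K)) hsq
  rw [hq] at h2
  exact h396_quad_not_sq K α β hα hβ p h2

/-- the coordinate ring of the curve -/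
abbrev h396_A1 : Type := AdjoinRoot (h396_f ℂ)

theorem h396_A1_domain : IsDomain h396_A1 := AdjoinRoot.isDomain_of_prime (h396_f_prime ℂ)

/-- next ring -/
abbrev h396_A3 : Type := AdjoinRoot (h396_f h396_A1)

theorem h396_root3 (R : Type*) [CommRing R] :
    (AdjoinRoot.root (h396_f R)) ^ 3 + AdjoinRoot.of (h396_f R) (1 + Polynomial.X ^ 3) = 0 := by
  have h := AdjoinRoot.eval₂_root (h396_f R)
  conv at h =>
    lhs
    arg 3
    unfold h396_f
  rw [Polynomial.eval₂_add, Polynomial.eval₂_pow, Polynomial.eval₂_X, Polynomial.eval₂_C] at h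
  exact h

/-- constant coefficient -/
noncomputable def h396_lin (s t : ℂ) : h396_A1 :=
  AdjoinRoot.of (h396_f ℂ) (Polynomial.C s + Polynomial.C t * Polynomial.X ^ 2)

/-- the quadratic polynomial -/
noncomputable def h396_q0 (al be ga de : ℂ) : Polynomial h396_A1 :=
  Polynomial.C (h396_lin al ga) + Polynomial.C (h396_lin be de) * Polynomial.X ^ 2

/-- its image -/
noncomputable def h396_q (al be ga de : ℂ) : h396_A3 :=
  AdjoinRoot.of (h396_f h396_A1) (h396_q0 al be ga de)

/-- the last equation -/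
noncomputable def h396_f4 (al be ga de : ℂ) : Polynomial h396_A3 :=
  Polynomial.X ^ 2 - Polynomial.C (h396_q al be ga de)

/-- last ring -/
abbrev h396_A4 (al be ga de : ℂ) : Type := AdjoinRoot (h396_f4 al be ga de)

theorem h396_lin_ne (s t : ℂ) (hs : s ≠ 0) : h396_lin s t ≠ 0 := by
  intro h
  have hinj : Function.Injective (AdjoinRoot.of (h396_f ℂ)) := by
    apply AdjoinRoot.of.injective_of_degree_ne_zero
    have hdeg : (h396_f ℂ).degree = 3 := Polynomial.degree_X_pow_add_C (by norm_num) _
    rw [hdeg]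
    norm_num
  have h1 : (Polynomial.C s + Polynomial.C t * Polynomial.X ^ 2 : Polynomial ℂ) = 0 := by
    apply hinj
    rw [map_zero]
    exact h
  have h2 := congrArg (Polynomial.eval 0) h1
  simp at h2
  exact hs h2

theorem h396_A4_domain {al be ga de : ℂ} (hal : al ≠ 0) (hbe : be ≠ 0) :
    IsDomain (h396_A4 al be ga de) := by
  have _d1 : IsDomain h396_A1 := h396_A1_domain
  have _c0 : CharZero (FractionRing h396_A1) := by
    exact charZero_of_injective_ringHom (RingHom.injective
      ((algebraMap h396_A1 (FractionRing h396_A1)).comp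
        ((AdjoinRoot.of (h396_f ℂ)).comp Polynomial.C)))
  obtain ⟨j, hj⟩ : ∃ j : Polynomial h396_A1 →+* FractionRing (Polynomial (FractionRing h396_A1)),
    j = (algebraMap (Polynomial (FractionRing h396_A1))
      (FractionRing (Polynomial (FractionRing h396_A1)))).comp
      (Polynomial.mapRingHom (algebraMap h396_A1 (FractionRing h396_A1))) := ⟨_, rfl⟩
  have hinjK : Function.Injective (algebraMap h396_A1 (FractionRing h396_A1)) :=
    IsFractionRing.injective _ _
  have hjinj : Function.Injective j := by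
    rw [hj, RingHom.coe_comp]
    exact (IsFractionRing.injective _ _).comp (Polynomial.map_injective _ hinjK)
  have hfj : (h396_f h396_A1).map j = h396_fL (FractionRing h396_A1) := by
    rw [hj, ← Polynomial.map_map, h396_f_map]
    rfl
  have hroot : Polynomial.eval₂ ((AdjoinRoot.of (h396_fL (FractionRing h396_A1))).comp j)
      (AdjoinRoot.root (h396_fL (FractionRing h396_A1))) (h396_f h396_A1) = 0 := by
    rw [← Polynomial.eval₂_map, hfj]
    exact AdjoinRoot.eval₂_root _
  obtain ⟨i3, hi3⟩ : ∃ i3 : h396_A3 →+* AdjoinRoot (h396_fL (FractionRing h396_A1)),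
    i3 = AdjoinRoot.lift ((AdjoinRoot.of (h396_fL (FractionRing h396_A1))).comp j)
      (AdjoinRoot.root (h396_fL (FractionRing h396_A1))) hroot := ⟨_, rfl⟩
  have hi3inj : Function.Injective i3 := by
    rw [injective_iff_map_eq_zero]
    intro a ha
    obtain ⟨g, rfl⟩ := AdjoinRoot.mk_surjective a
    rw [hi3, AdjoinRoot.lift_mk, ← Polynomial.eval₂_map] at ha
    have h1 : AdjoinRoot.mk (h396_fL (FractionRing h396_A1)) (g.map j) = 0 := by
      rw [← AdjoinRoot.aeval_eq]
      exact ha
    rw [AdjoinRoot.mk_eq_zero, ← hfj] at h1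
    rw [AdjoinRoot.mk_eq_zero]
    exact (Polynomial.map_dvd_map j hjinj (h396_f_monic _)).1 h1
  have hi3q : i3 (h396_q al be ga de) = AdjoinRoot.of (h396_fL (FractionRing h396_A1))
      (algebraMap (Polynomial (FractionRing h396_A1))
        (FractionRing (Polynomial (FractionRing h396_A1)))
      (Polynomial.C (algebraMap h396_A1 (FractionRing h396_A1) (h396_lin al ga)) +
        Polynomial.C (algebraMap h396_A1 (FractionRing h396_A1) (h396_lin be de)) *
          Polynomial.X ^ 2)) := by
    unfold h396_q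
    rw [hi3, AdjoinRoot.lift_of, RingHom.comp_apply, hj, RingHom.comp_apply]
    congr 2
    unfold h396_q0
    simp
  have hmonic : (h396_f4 al be ga de).Monic := Polynomial.monic_X_pow_sub_C _ (by norm_num)
  have hirr : Irreducible (h396_fL (FractionRing h396_A1)) := h396_fL_irr _
  have _fact : Fact (Irreducible (h396_fL (FractionRing h396_A1))) := ⟨hirr⟩
  apply AdjoinRoot.isDomain_of_prime
  apply h396_prime_of_map i3 hi3inj _ hmonic
  have hmap : (h396_f4 al be ga de).map i3 =
      Polynomial.X ^ 2 - Polynomial.C (i3 (h396_q al be ga de)) := by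
    unfold h396_f4
    simp
  rw [hmap]
  apply Irreducible.prime
  apply X_pow_sub_C_irreducible_of_prime Nat.prime_two
  intro b
  rw [hi3q]
  exact h396_not_sq_L _ _ _
    (fun h0 => h396_lin_ne al ga hal (hinjK (by rw [h0, map_zero])))
    (fun h0 => h396_lin_ne be de hbe (hinjK (by rw [h0, map_zero]))) b

/-- constants of the last ring -/
noncomputable def h396_c4 (al be ga de : ℂ) : ℂ →+* h396_A4 al be ga de :=
  (AdjoinRoot.of (h396_f4 al be ga de)).comp ((AdjoinRoot.of (h396_f h396_A1)).comp
    (Polynomial.C.comp ((AdjoinRoot.of (h396_f ℂ)).comp Polynomial.C)))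

noncomputable def h396_x (al be ga de : ℂ) : h396_A4 al be ga de :=
  AdjoinRoot.of (h396_f4 al be ga de) (AdjoinRoot.of (h396_f h396_A1)
    (Polynomial.C (AdjoinRoot.of (h396_f ℂ) Polynomial.X)))
noncomputable def h396_z (al be ga de : ℂ) : h396_A4 al be ga de :=
  AdjoinRoot.of (h396_f4 al be ga de) (AdjoinRoot.of (h396_f h396_A1)
    (Polynomial.C (AdjoinRoot.root (h396_f ℂ))))
noncomputable def h396_y (al be ga de : ℂ) : h396_A4 al be ga de :=
  AdjoinRoot.of (h396_f4 al be ga de) (AdjoinRoot.of (h396_f h396_A1) Polynomial.X)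
noncomputable def h396_v (al be ga de : ℂ) : h396_A4 al be ga de :=
  AdjoinRoot.of (h396_f4 al be ga de) (AdjoinRoot.root (h396_f h396_A1))
noncomputable def h396_w (al be ga de : ℂ) : h396_A4 al be ga de :=
  AdjoinRoot.root (h396_f4 al be ga de)

/-- the map from the polynomial ring -/
noncomputable def h396_psi0 (al be ga de : ℂ) : MvPolynomial (Fin 5) ℂ →+* h396_A4 al be ga de :=
  MvPolynomial.eval₂Hom (h396_c4 al be ga de)
    ![h396_x al be ga de, h396_z al be ga de, h396_y al be ga de, h396_v al be ga de,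
      h396_w al be ga de]

theorem h396_rel1 (al be ga de : ℂ) :
    1 + h396_x al be ga de ^ 3 + h396_z al be ga de ^ 3 = 0 := by
  have h := congrArg (fun t : h396_A1 => AdjoinRoot.of (h396_f4 al be ga de)
    (AdjoinRoot.of (h396_f h396_A1) (Polynomial.C t))) (h396_root3 ℂ)
  simp only [map_add, map_pow, map_one, map_zero] at h
  unfold h396_x h396_z
  linear_combination h

theorem h396_rel2 (al be ga de : ℂ) :
    1 + h396_y al be ga de ^ 3 + h396_v al be ga de ^ 3 = 0 := by
  have h := congrArg (fun t : h396_A3 => AdjoinRoot.of (h396_f4 al be ga de) t)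
    (h396_root3 h396_A1)
  simp only [map_add, map_pow, map_one, map_zero] at h
  unfold h396_y h396_v
  linear_combination h

theorem h396_rel3 (al be ga de : ℂ) :
    h396_w al be ga de ^ 2 = h396_c4 al be ga de al + h396_c4 al be ga de be *
      h396_y al be ga de ^ 2 + h396_c4 al be ga de ga * h396_x al be ga de ^ 2 +
      h396_c4 al be ga de de * h396_x al be ga de ^ 2 * h396_y al be ga de ^ 2 := by
  have h := AdjoinRoot.eval₂_root (h396_f4 al be ga de)
  conv at h =>
    lhs
    arg 3
    unfold h396_f4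
  rw [Polynomial.eval₂_sub, Polynomial.eval₂_pow, Polynomial.eval₂_X, Polynomial.eval₂_C] at h
  unfold h396_q h396_q0 h396_lin at h
  simp only [map_add, map_pow, map_mul] at h
  unfold h396_w h396_x h396_y h396_c4
  simp only [RingHom.comp_apply]
  linear_combination h

theorem h396_univ (al be ga de : ℂ) (S : Type) [CommRing S] (c : ℂ →+* S) (x z y v w : S)
    (r1 : 1 + x ^ 3 + z ^ 3 = 0) (r2 : 1 + y ^ 3 + v ^ 3 = 0)
    (r3 : w ^ 2 = c al + c be * y ^ 2 + c ga * x ^ 2 + c de * x ^ 2 * y ^ 2) :
    ∃ χ : h396_A4 al be ga de →+* S, (∀ r, χ (h396_c4 al be ga de r) = c r) ∧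
      χ (h396_x al be ga de) = x ∧ χ (h396_z al be ga de) = z ∧ χ (h396_y al be ga de) = y ∧
      χ (h396_v al be ga de) = v ∧ χ (h396_w al be ga de) = w := by
  have e1 : Polynomial.eval₂ (Polynomial.eval₂RingHom c x) z (h396_f ℂ) = 0 := by
    unfold h396_f
    simp only [Polynomial.eval₂_add, Polynomial.eval₂_pow, Polynomial.eval₂_X,
      Polynomial.eval₂_C, Polynomial.coe_eval₂RingHom, Polynomial.eval₂_one]
    linear_combination r1
  obtain ⟨χ1, hχ1⟩ : ∃ χ1 : h396_A1 →+* S,
    χ1 = AdjoinRoot.lift (Polynomial.eval₂RingHom c x) z e1 := ⟨_, rfl⟩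
  have k1 : ∀ p, χ1 (AdjoinRoot.of (h396_f ℂ) p) = Polynomial.eval₂ c x p := by
    intro p
    rw [hχ1, AdjoinRoot.lift_of]
    rfl
  have k1r : χ1 (AdjoinRoot.root (h396_f ℂ)) = z := by
    rw [hχ1, AdjoinRoot.lift_root]
  have e3 : Polynomial.eval₂ (Polynomial.eval₂RingHom χ1 y) v (h396_f h396_A1) = 0 := by
    unfold h396_f
    simp only [Polynomial.eval₂_add, Polynomial.eval₂_pow, Polynomial.eval₂_X,
      Polynomial.eval₂_C, Polynomial.coe_eval₂RingHom, Polynomial.eval₂_one]
    linear_combination r2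
  obtain ⟨χ3, hχ3⟩ : ∃ χ3 : h396_A3 →+* S,
    χ3 = AdjoinRoot.lift (Polynomial.eval₂RingHom χ1 y) v e3 := ⟨_, rfl⟩
  have k3 : ∀ p, χ3 (AdjoinRoot.of (h396_f h396_A1) p) = Polynomial.eval₂ χ1 y p := by
    intro p
    rw [hχ3, AdjoinRoot.lift_of]
    rfl
  have k3r : χ3 (AdjoinRoot.root (h396_f h396_A1)) = v := by
    rw [hχ3, AdjoinRoot.lift_root]
  have kq : χ3 (h396_q al be ga de) =
      c al + c be * y ^ 2 + c ga * x ^ 2 + c de * x ^ 2 * y ^ 2 := by
    unfold h396_q h396_q0 h396_lin
    rw [k3]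
    simp only [Polynomial.eval₂_add, Polynomial.eval₂_mul, Polynomial.eval₂_pow,
      Polynomial.eval₂_X, Polynomial.eval₂_C, k1]
    ring
  have e4 : Polynomial.eval₂ χ3 w (h396_f4 al be ga de) = 0 := by
    unfold h396_f4
    rw [Polynomial.eval₂_sub, Polynomial.eval₂_pow, Polynomial.eval₂_X, Polynomial.eval₂_C, kq, r3,
      sub_self]
  refine ⟨AdjoinRoot.lift χ3 w e4, ?_, ?_, ?_, ?_, ?_, ?_⟩
  · intro r
    unfold h396_c4
    simp only [RingHom.comp_apply]
    rw [AdjoinRoot.lift_of, k3, Polynomial.eval₂_C, k1, Polynomial.eval₂_C]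
  · unfold h396_x
    rw [AdjoinRoot.lift_of, k3, Polynomial.eval₂_C, k1, Polynomial.eval₂_X]
  · unfold h396_z
    rw [AdjoinRoot.lift_of, k3, Polynomial.eval₂_C, k1r]
  · unfold h396_y
    rw [AdjoinRoot.lift_of, k3, Polynomial.eval₂_X]
  · unfold h396_v
    rw [AdjoinRoot.lift_of, k3r]
  · unfold h396_w
    rw [AdjoinRoot.lift_root]

theorem h396_BS_rel (al be ga de : ℂ) (i : Fin 3) :
    (Ideal.Quotient.mk (Ideal.span (Set.range (relB al be ga de)))) (relB al be ga de i) = 0 :=
  Ideal.Quotient.eq_zero_iff_mem.2 (Ideal.subset_span ⟨i, rfl⟩)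

theorem BS_isDomain {al be ga de : ℂ} (h : Good al be ga de) : IsDomain (BS al be ga de) := by
  have hdom : IsDomain (h396_A4 al be ga de) := h396_A4_domain h.hal h.hbe
  have hker : ∀ a ∈ Ideal.span (Set.range (relB al be ga de)), h396_psi0 al be ga de a = 0 := by
    have h1 : Ideal.span (Set.range (relB al be ga de)) ≤ RingHom.ker (h396_psi0 al be ga de) := by
      rw [Ideal.span_le]
      rintro _ ⟨i, rfl⟩
      show h396_psi0 al be ga de (relB al be ga de i) = 0
      fin_cases i
      · have e := h396_rel1 al be ga de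
        simpa [relB, h396_psi0] using e
      · have e := h396_rel2 al be ga de
        simpa [relB, h396_psi0] using e
      · have e := h396_rel3 al be ga de
        rw [← sub_eq_zero] at e
        simpa [relB, h396_psi0] using e
    intro a ha
    exact h1 ha
  obtain ⟨ψ, hψ⟩ : ∃ ψ : BS al be ga de →+* h396_A4 al be ga de,
    ψ = Ideal.Quotient.lift _ (h396_psi0 al be ga de) hker := ⟨_, rfl⟩
  have hψmk : ∀ p, ψ (Ideal.Quotient.mk _ p) = h396_psi0 al be ga de p := by
    intro p
    rw [hψ, Ideal.Quotient.lift_mk]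
  have q1 := h396_BS_rel al be ga de 0
  have q2 := h396_BS_rel al be ga de 1
  have q3 := h396_BS_rel al be ga de 2
  have q1' : 1 + bx al be ga de 0 ^ 3 + bx al be ga de 1 ^ 3 = 0 := by
    have e : Ideal.Quotient.mk (Ideal.span (Set.range (relB al be ga de)))
      (1 + X 0 ^ 3 + X 1 ^ 3) = 0 := q1
    rw [map_add, map_add, map_one, map_pow, map_pow] at e
    exact e
  have q2' : 1 + bx al be ga de 2 ^ 3 + bx al be ga de 3 ^ 3 = 0 := by
    have e : Ideal.Quotient.mk (Ideal.span (Set.range (relB al be ga de)))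
      (1 + X 2 ^ 3 + X 3 ^ 3) = 0 := q2
    rw [map_add, map_add, map_one, map_pow, map_pow] at e
    exact e
  obtain ⟨c, hc⟩ : ∃ c : ℂ →+* BS al be ga de,
    c = (Ideal.Quotient.mk (Ideal.span (Set.range (relB al be ga de)))).comp MvPolynomial.C :=
      ⟨_, rfl⟩
  have hcr : ∀ r, c r = Ideal.Quotient.mk (Ideal.span (Set.range (relB al be ga de)))
      (MvPolynomial.C r) := by
    intro r
    rw [hc]
    rfl
  have q3' : bx al be ga de 4 ^ 2 = c al + c be * bx al be ga de 2 ^ 2 +
      c ga * bx al be ga de 0 ^ 2 + c de * bx al be ga de 0 ^ 2 * bx al be ga de 2 ^ 2 := by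
    rw [← sub_eq_zero]
    simp only [hcr, bx, ← map_pow, ← map_mul, ← map_add, ← map_sub]
    exact q3
  obtain ⟨χ, k0, k1, k2, k3, k4, k5⟩ := h396_univ al be ga de (BS al be ga de) c _ _ _ _ _
    q1' q2' q3'
  have hcomp : χ.comp ψ = RingHom.id _ := by
    apply Ideal.Quotient.ringHom_ext
    apply MvPolynomial.ringHom_ext
    · intro r
      simp only [RingHom.comp_apply, RingHom.id_apply]
      rw [hψmk]
      unfold h396_psi0
      rw [MvPolynomial.coe_eval₂Hom, MvPolynomial.eval₂_C, k0, hcr]
    · intro i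
      simp only [RingHom.comp_apply, RingHom.id_apply]
      rw [hψmk]
      unfold h396_psi0
      rw [MvPolynomial.coe_eval₂Hom, MvPolynomial.eval₂_X]
      fin_cases i
      · exact k1
      · exact k2
      · exact k3
      · exact k4
      · exact k5
  have hinj : Function.Injective ψ := by
    intro a b hab
    have e1 : χ (ψ a) = a := congrArg (fun f : BS al be ga de →+* BS al be ga de => f a) hcomp
    have e2 : χ (ψ b) = b := congrArg (fun f : BS al be ga de →+* BS al be ga de => f b) hcomp
    rw [← e1, ← e2, hab]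
  exact hinj.isDomain ψ

end Pool.Agent.Helper304.Ses
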