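import Pool.Agent.Helper304.Ses.Rings

/-! Affine coordinate rings of the curve and of the surface. -/

open MvPolynomial

namespace Pool.Agent.Helper304.Ses

theorem bm_root {K : Type*} [CommRing K] [IsDomain K] (ψ : ℂ →+* K) (s : K) (hs : s ^ 3 = 1) :
    ∃ s' : ℂ, s' ^ 3 = 1 ∧ s = ψ s' := by
  obtain ⟨r, hr⟩ := IsAlgClosed.exists_pow_nat_eq (-3 : ℂ) (n := 2) (by norm_num)
  obtain ⟨om, hom⟩ : ∃ om : ℂ, om ^ 2 + om + 1 = 0 := by
    refine ⟨(-1 + r) / 2, ?_⟩
    have : ((-1 + r) / 2) ^ 2 + (-1 + r) / 2 + 1 = (r ^ 2 + 3) / 4 := by ring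
    rw [this, hr]; norm_num
  have h3 : om ^ 3 = 1 := by
    have : om ^ 3 - 1 = (om - 1) * (om ^ 2 + om + 1) := by ring
    rw [hom, mul_zero] at this
    exact sub_eq_zero.1 this
  have hom' : ψ om ^ 2 + ψ om + 1 = 0 := by
    rw [← map_pow, ← map_add, ← map_one ψ, ← map_add, hom, map_zero]
  have h3' : ψ om ^ 3 = 1 := by rw [← map_pow, h3, map_one]
  have hprod : (s - 1) * (s - ψ om) * (s - ψ om ^ 2) = 0 := by
    have e : (s - 1) * (s - ψ om) * (s - ψ om ^ 2) =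
        (s ^ 3 - 1) + (ψ om ^ 2 + ψ om + 1) * (s - s ^ 2)
          + (1 - ψ om ^ 3) + (ψ om ^ 3 - 1) * s := by ring
    rw [e, hs, hom', h3']; ring
  rcases mul_eq_zero.1 hprod with h | h
  · rcases mul_eq_zero.1 h with h | h
    · exact ⟨1, one_pow 3, by rw [map_one]; exact sub_eq_zero.1 h⟩
    · exact ⟨om, h3, sub_eq_zero.1 h⟩
  · refine ⟨om ^ 2, ?_, by rw [map_pow]; exact sub_eq_zero.1 h⟩
    rw [← pow_mul, mul_comm, pow_mul, h3, one_pow]

/-- the argument in a domain -/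
theorem bm_dom {K : Type*} [CommRing K] [IsDomain K] (ψ : ℂ →+* K) {al be ga de : ℂ}
    (h : Good al be ga de) (x z y v w : K) (r0 : 1 + x ^ 3 + z ^ 3 = 0) (r1 : 1 + y ^ 3 + v ^ 3 = 0)
    (r2 : w ^ 2 = ψ al + ψ be * y ^ 2 + ψ ga * x ^ 2 + ψ de * x ^ 2 * y ^ 2)
    (hw : ∀ a b, (a = x ∨ a = z) → (b = y ∨ b = v) → w * a ^ 2 * b ^ 2 = 0 ∧
      z ^ 2 * (x * (ψ ga + ψ de * y ^ 2)) * b ^ 2 = 0 ∧
      v ^ 2 * (y * (ψ be + ψ de * x ^ 2)) * a ^ 2 = 0) : False := by
  have hinj : Function.Injective ψ := ψ.injective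
  have ha : ∃ a, (a = x ∨ a = z) ∧ a ≠ 0 := by
    by_contra hcon
    push Not at hcon
    rw [hcon x (Or.inl rfl), hcon z (Or.inr rfl)] at r0
    norm_num at r0
  have hb : ∃ b, (b = y ∨ b = v) ∧ b ≠ 0 := by
    by_contra hcon
    push Not at hcon
    rw [hcon y (Or.inl rfl), hcon v (Or.inr rfl)] at r1
    norm_num at r1
  obtain ⟨a, ha1, ha0⟩ := ha
  obtain ⟨b, hb1, hb0⟩ := hb
  obtain ⟨e1, e2, e3⟩ := hw a b ha1 hb1
  have ha2 : a ^ 2 ≠ 0 := pow_ne_zero 2 ha0
  have hb2 : b ^ 2 ≠ 0 := pow_ne_zero 2 hb0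
  have hw0 : w = 0 := by
    have h1 := (mul_eq_zero.1 e1).resolve_right hb2
    exact (mul_eq_zero.1 h1).resolve_right ha2
  have e2' := (mul_eq_zero.1 e2).resolve_right hb2
  have e3' := (mul_eq_zero.1 e3).resolve_right ha2
  rw [hw0] at r2
  have q0 : ψ al + ψ be * y ^ 2 + ψ ga * x ^ 2 + ψ de * x ^ 2 * y ^ 2 = 0 := by
    rw [← r2]; ring
  have hdet : ψ al * ψ de ≠ ψ be * ψ ga := by
    intro h0
    rw [← map_mul, ← map_mul] at h0
    exact h.det (hinj h0)
  have hg : ψ ga + ψ de * y ^ 2 ≠ 0 := by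
    intro h0
    apply hdet
    have h1 : ψ al + ψ be * y ^ 2 = 0 := by
      have : ψ al + ψ be * y ^ 2 = (ψ al + ψ be * y ^ 2 + ψ ga * x ^ 2 + ψ de * x ^ 2 * y ^ 2) -
        x ^ 2 * (ψ ga + ψ de * y ^ 2) := by ring
      rw [this, q0, h0]; ring
    have h2 : ψ al * ψ de - ψ be * ψ ga = ψ de * (ψ al + ψ be * y ^ 2) -
      ψ be * (ψ ga + ψ de * y ^ 2) := by ring
    rw [h1, h0, mul_zero, mul_zero, sub_zero] at h2
    exact sub_eq_zero.1 h2
  have hb' : ψ be + ψ de * x ^ 2 ≠ 0 := by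
    intro h0
    apply hdet
    have h1 : ψ al + ψ ga * x ^ 2 = 0 := by
      have : ψ al + ψ ga * x ^ 2 = (ψ al + ψ be * y ^ 2 + ψ ga * x ^ 2 + ψ de * x ^ 2 * y ^ 2) -
        y ^ 2 * (ψ be + ψ de * x ^ 2) := by ring
      rw [this, q0, h0]; ring
    have h2 : ψ al * ψ de - ψ be * ψ ga = ψ de * (ψ al + ψ ga * x ^ 2) -
      ψ ga * (ψ be + ψ de * x ^ 2) := by ring
    rw [h1, h0, mul_zero, mul_zero, sub_zero] at h2
    exact sub_eq_zero.1 h2
  have hx : x ^ 2 = 0 ∨ (x ^ 2) ^ 3 = 1 := by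
    rcases mul_eq_zero.1 e2' with h1 | h1
    · right
      have hz : z = 0 := pow_eq_zero_iff (two_ne_zero) |>.1 h1
      rw [hz] at r0
      have h2 : x ^ 3 = -1 := by linear_combination r0
      calc (x ^ 2) ^ 3 = (x ^ 3) ^ 2 := by ring
        _ = 1 := by rw [h2]; ring
    · left
      rw [(mul_eq_zero.1 h1).resolve_right hg]; ring
  have hy : y ^ 2 = 0 ∨ (y ^ 2) ^ 3 = 1 := by
    rcases mul_eq_zero.1 e3' with h1 | h1
    · right
      have hz : v = 0 := pow_eq_zero_iff (two_ne_zero) |>.1 h1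
      rw [hz] at r1
      have h2 : y ^ 3 = -1 := by linear_combination r1
      calc (y ^ 2) ^ 3 = (y ^ 3) ^ 2 := by ring
        _ = 1 := by rw [h2]; ring
    · left
      rw [(mul_eq_zero.1 h1).resolve_right hb']; ring
  rcases hx with hx | hx
  · rcases hy with hy | hy
    · rw [hx, hy] at q0
      simp only [mul_zero, add_zero] at q0
      exact h.hal (hinj (by rw [q0, map_zero]))
    · obtain ⟨t, ht, hyt⟩ := bm_root ψ _ hy
      rw [hx, hyt] at q0
      refine h.h1 t ht (hinj ?_)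
      rw [map_zero, map_add, map_mul]
      linear_combination q0
  · obtain ⟨s, hs, hxs⟩ := bm_root ψ _ hx
    rcases hy with hy | hy
    · rw [hxs, hy] at q0
      refine h.h3 s hs (hinj ?_)
      rw [map_zero, map_add, map_mul]
      linear_combination q0
    · obtain ⟨t, ht, hyt⟩ := bm_root ψ _ hy
      rw [hxs, hyt] at q0
      refine h.h5 s t hs ht (hinj ?_)
      simp only [map_zero, map_add, map_mul]
      linear_combination q0

/-- The surface is given by `3` equations in `5` variables; the six (products of) Jacobian minors below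
generate the unit ideal. -/
theorem BS_minors {al be ga de : ℂ} (h : Good al be ga de) :
    Ideal.span {f : BS al be ga de | ∃ a ∈ ({bx al be ga de 0, bx al be ga de 1} : Set (BS al be ga de)),
      ∃ b ∈ ({bx al be ga de 2, bx al be ga de 3} : Set (BS al be ga de)),
      f = bx al be ga de 4 * a ^ 2 * b ^ 2 ∨
      f = bx al be ga de 1 ^ 2 * (bx al be ga de 0 *
        (algebraMap ℂ _ ga + algebraMap ℂ _ de * bx al be ga de 2 ^ 2)) * b ^ 2 ∨
      f = bx al be ga de 3 ^ 2 * (bx al be ga de 2 *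
        (algebraMap ℂ _ be + algebraMap ℂ _ de * bx al be ga de 0 ^ 2)) * a ^ 2} = ⊤ := by
  by_contra hne
  obtain ⟨m, hm, hle⟩ := Ideal.exists_le_maximal _ hne
  have hdom : IsDomain (BS al be ga de ⧸ m) := Ideal.Quotient.isDomain m
  have hrel : ∀ i, (Ideal.Quotient.mk (Ideal.span (Set.range (relB al be ga de))))
      (relB al be ga de i) = 0 :=
    fun i => Ideal.Quotient.eq_zero_iff_mem.2 (Ideal.subset_span ⟨i, rfl⟩)
  have r0 : (1 : BS al be ga de) + bx al be ga de 0 ^ 3 + bx al be ga de 1 ^ 3 = 0 := hrel 0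
  have r1 : (1 : BS al be ga de) + bx al be ga de 2 ^ 3 + bx al be ga de 3 ^ 3 = 0 := hrel 1
  have r2 : bx al be ga de 4 ^ 2 - (algebraMap ℂ (BS al be ga de) al +
      algebraMap ℂ (BS al be ga de) be * bx al be ga de 2 ^ 2 +
      algebraMap ℂ (BS al be ga de) ga * bx al be ga de 0 ^ 2 +
      algebraMap ℂ (BS al be ga de) de * bx al be ga de 0 ^ 2 * bx al be ga de 2 ^ 2) = 0 := hrel 2
  let φ : BS al be ga de →+* BS al be ga de ⧸ m := Ideal.Quotient.mk m
  have hφ : ∀ f, f ∈ {f : BS al be ga de | ∃ a ∈ ({bx al be ga de 0, bx al be ga de 1} : Set (BS al be ga de)),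
      ∃ b ∈ ({bx al be ga de 2, bx al be ga de 3} : Set (BS al be ga de)),
      f = bx al be ga de 4 * a ^ 2 * b ^ 2 ∨
      f = bx al be ga de 1 ^ 2 * (bx al be ga de 0 *
        (algebraMap ℂ _ ga + algebraMap ℂ _ de * bx al be ga de 2 ^ 2)) * b ^ 2 ∨
      f = bx al be ga de 3 ^ 2 * (bx al be ga de 2 *
        (algebraMap ℂ _ be + algebraMap ℂ _ de * bx al be ga de 0 ^ 2)) * a ^ 2} → φ f = 0 :=
    fun f hf => Ideal.Quotient.eq_zero_iff_mem.2 (hle (Ideal.subset_span hf))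
  refine bm_dom (φ.comp (algebraMap ℂ (BS al be ga de))) h (φ (bx al be ga de 0))
    (φ (bx al be ga de 1)) (φ (bx al be ga de 2)) (φ (bx al be ga de 3)) (φ (bx al be ga de 4))
    ?_ ?_ ?_ ?_
  · have := congrArg φ r0
    simpa only [map_add, map_one, map_pow, map_zero] using this
  · have := congrArg φ r1
    simpa only [map_add, map_one, map_pow, map_zero] using this
  · have := congrArg φ (sub_eq_zero.1 r2)
    simp only [map_add, map_mul, map_pow] at this
    exact this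
  · intro a b ha hb
    have key : ∀ a' ∈ ({bx al be ga de 0, bx al be ga de 1} : Set (BS al be ga de)),
      ∀ b' ∈ ({bx al be ga de 2, bx al be ga de 3} : Set (BS al be ga de)),
        φ (bx al be ga de 4) * (φ a') ^ 2 * (φ b') ^ 2 = 0 ∧
        φ (bx al be ga de 1) ^ 2 * (φ (bx al be ga de 0) *
        ((φ.comp (algebraMap ℂ (BS al be ga de))) ga + (φ.comp (algebraMap ℂ (BS al be ga de))) de *
          φ (bx al be ga de 2) ^ 2)) * (φ b') ^ 2 = 0 ∧
        φ (bx al be ga de 3) ^ 2 * (φ (bx al be ga de 2) *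
        ((φ.comp (algebraMap ℂ (BS al be ga de))) be + (φ.comp (algebraMap ℂ (BS al be ga de))) de *
          φ (bx al be ga de 0) ^ 2)) * (φ a') ^ 2 = 0 := by
      intro a' ha' b' hb'
      have k1 := hφ _ ⟨a', ha', b', hb', Or.inl rfl⟩
      have k2 := hφ _ ⟨a', ha', b', hb', Or.inr (Or.inl rfl)⟩
      have k3 := hφ _ ⟨a', ha', b', hb', Or.inr (Or.inr rfl)⟩
      simp only [map_mul, map_pow, map_add] at k1 k2 k3
      exact ⟨k1, k2, k3⟩
    rcases ha with rfl | rfl <;> rcases hb with rfl | rfl <;> exact key _ (by simp) _ (by simp)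

end Pool.Agent.Helper304.Ses
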