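import Pool.Agent.Helper304.Ses.Rings

/-! Affine coordinate rings of the curve and of the surface. -/

open MvPolynomial

namespace Pool.Agent.Helper304.Ses

theorem smooth_away_jacobian' {R S ι σ : Type} [CommRing R] [CommRing S] [Algebra R S] [Finite σ]
    [Finite ι] (P : Algebra.PreSubmersivePresentation R S ι σ)
    (S' : Type) [CommRing S'] [Algebra S S'] [Algebra R S'] [IsScalarTower R S S']
    [IsLocalization.Away P.jacobian S'] : Algebra.IsStandardSmooth R S' := by
  have hu : IsUnit (algebraMap S S' P.jacobian) :=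
    IsLocalization.Away.algebraMap_isUnit P.jacobian
  let Q : Algebra.PreSubmersivePresentation S S' Unit Unit :=
    Algebra.PreSubmersivePresentation.localizationAway S' P.jacobian
  have hQ : Q.jacobian = algebraMap S S' P.jacobian :=
    Algebra.PreSubmersivePresentation.localizationAway_jacobian P.jacobian
  have hj : IsUnit (Q.comp P).jacobian := by
    rw [Algebra.PreSubmersivePresentation.comp_jacobian_eq_jacobian_smul_jacobian,
      Algebra.smul_def, IsUnit.mul_iff, hQ]
    exact ⟨hu, hu⟩
  let W : Algebra.SubmersivePresentation R S' (Unit ⊕ ι) (Unit ⊕ σ) :=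
    { Q.comp P with jacobian_isUnit := hj }
  exact W.isStandardSmooth

theorem BS_away_of {al be ga de : ℂ} (m : Fin 3 → Fin 5) (hm : Function.Injective m)
    (f : BS al be ga de)
    (hf : Associated (algebraMap (MvPolynomial (Fin 5) ℂ) (BS al be ga de)
      (Matrix.of fun i j => pderiv (m i) (relB al be ga de j)).det) f) :
    Algebra.IsStandardSmooth ℂ (Localization.Away f) := by
  classical
  let P : Algebra.PreSubmersivePresentation ℂ (BS al be ga de) (Fin 5) (Fin 3) :=
    Algebra.PreSubmersivePresentation.naive (v := relB al be ga de) m hm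
  have hP : P.jacobian = algebraMap (MvPolynomial (Fin 5) ℂ) (BS al be ga de)
      (Matrix.of fun i j => pderiv (m i) (relB al be ga de j)).det := by
    rw [Algebra.PreSubmersivePresentation.jacobian_eq_jacobiMatrix_det]
    have h1 : P.jacobiMatrix = Matrix.of fun i j => pderiv (m i) (relB al be ga de j) := by
      apply Matrix.ext
      intro i j
      exact Algebra.PreSubmersivePresentation.jacobiMatrix_naive _ _ _ _ i j
    rw [h1]
    rfl
  have hA : Associated P.jacobian f := by rw [hP]; exact hf
  haveI : IsLocalization.Away P.jacobian (Localization.Away f) :=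
    IsLocalization.Away.of_associated hA.symm
  exact smooth_away_jacobian' P (Localization.Away f)

theorem BS_away_of' {al be ga de : ℂ} (m : Fin 3 → Fin 5) (hm : Function.Injective m)
    (g : MvPolynomial (Fin 5) ℂ)
    (hdet : (Matrix.of fun i j => pderiv (m i) (relB al be ga de j)).det = C 18 * g)
    (f : BS al be ga de) (hf : f = algebraMap (MvPolynomial (Fin 5) ℂ) (BS al be ga de) g) :
    Algebra.IsStandardSmooth ℂ (Localization.Away f) := by
  apply BS_away_of m hm
  rw [hdet, map_mul, ← hf]
  have hu : IsUnit (C 18 : MvPolynomial (Fin 5) ℂ) := (IsUnit.mk0 (18 : ℂ) (by norm_num)).map C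
  have hu' := hu.map (algebraMap (MvPolynomial (Fin 5) ℂ) (BS al be ga de))
  exact (associated_isUnit_mul_left_iff hu').2 (Associated.refl f)

/-- the Jacobian minors of the surface: for `f` one of the functions in `BS_minors`, the localisation at `f` is smooth. -/
theorem BS_smooth_away {al be ga de : ℂ} (a b : Fin 5) (ha : a = 0 ∨ a = 1) (hb : b = 2 ∨ b = 3) :
    Algebra.IsStandardSmooth ℂ (Localization.Away
      (bx al be ga de 4 * bx al be ga de a ^ 2 * bx al be ga de b ^ 2)) ∧
    Algebra.IsStandardSmooth ℂ (Localization.Away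
      (bx al be ga de 1 ^ 2 * (bx al be ga de 0 *
        (algebraMap ℂ _ ga + algebraMap ℂ _ de * bx al be ga de 2 ^ 2)) * bx al be ga de b ^ 2)) ∧
    Algebra.IsStandardSmooth ℂ (Localization.Away
      (bx al be ga de 3 ^ 2 * (bx al be ga de 2 *
        (algebraMap ℂ _ be + algebraMap ℂ _ de * bx al be ga de 0 ^ 2)) * bx al be ga de a ^ 2)) := by
  classical
  have h18 : (C 18 : MvPolynomial (Fin 5) ℂ) = 18 := map_ofNat C 18
  refine ⟨?_, ?_, ?_⟩
  · apply BS_away_of' ![a, b, 4] _ (X 4 * X a ^ 2 * X b ^ 2)
    · rw [Matrix.det_fin_three, h18]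
      rcases ha with rfl | rfl <;> rcases hb with rfl | rfl <;>
      · simp [relB, pderiv_X, Pi.single_apply]
        ring
    · simp only [bx, map_mul, map_pow]
      rfl
    · rcases ha with rfl | rfl <;> rcases hb with rfl | rfl <;> decide
  · apply BS_away_of' ![0, b, 1] _ (X 1 ^ 2 * (X 0 * (C ga + C de * X 2 ^ 2)) * X b ^ 2)
    · rw [Matrix.det_fin_three, h18]
      rcases hb with rfl | rfl <;>
      · simp [relB, pderiv_X, Pi.single_apply]
        ring
    · simp only [bx, map_mul, map_pow, map_add]
      rfl
    · rcases hb with rfl | rfl <;> decide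
  · apply BS_away_of' ![a, 2, 3] _ (X 3 ^ 2 * (X 2 * (C be + C de * X 0 ^ 2)) * X a ^ 2)
    · rw [Matrix.det_fin_three, h18]
      rcases ha with rfl | rfl <;>
      · simp [relB, pderiv_X, Pi.single_apply]
        ring
    · simp only [bx, map_mul, map_pow, map_add]
      rfl
    · rcases ha with rfl | rfl <;> decide

end Pool.Agent.Helper304.Ses
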