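import Pool.Agent.Helper304.Ses.Rings

/-! Affine coordinate rings of the curve and of the surface. -/

open MvPolynomial

namespace Pool.Agent.Helper304.Ses

theorem t_aux1 {t : ℂ} (ht : t ^ 3 = 1) (h : (t - 2) ^ 3 = (1 + 2 * t) ^ 3) : False := by
  have h1 : 9 * t ^ 2 - 3 * t + 8 = 0 := by linear_combination (-1/2) * h - (7/2) * ht
  have h2 : t = -5/3 := by linear_combination (1/21) * (h1 + 3 * t * h1 - 27 * ht)
  rw [h2] at h1
  norm_num at h1

theorem t_aux2 {t : ℂ} (ht : t ^ 3 = 1) (h : (2 + t) ^ 3 = (1 - 2 * t) ^ 3) : False := by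
  have h1 : 3 * t ^ 2 - 9 * t - 8 = 0 := by linear_combination (-1/2) * h + (9/2) * ht
  have h2 : t = -3/5 := by linear_combination (-1/35) * (3 * h1 + t * h1 - 3 * ht)
  rw [h2] at h1
  norm_num at h1

theorem t_aux3 {a b t : ℂ} (ht : t ^ 3 = 1) (hab : a ^ 3 + b ^ 3 ≠ 0) : a + b * t ≠ 0 := by
  intro h
  apply hab
  linear_combination (a ^ 2 - a * (b * t) + b ^ 2 * t ^ 2) * h - b ^ 3 * ht

theorem cube_eq {s u v : ℂ} (hs : s ^ 3 = 1) (h : s * u = v) : u ^ 3 = v ^ 3 := by
  rw [← h, mul_pow, hs, one_mul]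

/-- A point of the ramification curve at which `x` is transcendental. -/
theorem exists_eta {al be ga de : ℂ} (h : Good al be ga de) :
    ∃ P : Ideal (BS al be ga de), P.IsPrime ∧ bx al be ga de 4 ∈ P ∧
      ∀ c : ℂ, bx al be ga de 0 - algebraMap ℂ _ c ∉ P := by
  classical
  let K := AlgebraicClosure (RatFunc ℂ)
  let x0 : K := algebraMap (RatFunc ℂ) K RatFunc.X
  have hx0 : ∀ c : ℂ, x0 - algebraMap ℂ K c ≠ 0 := by
    intro c hc
    have h1 : algebraMap (RatFunc ℂ) K RatFunc.X = algebraMap (RatFunc ℂ) K (algebraMap ℂ (RatFunc ℂ) c) := by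
      rw [← IsScalarTower.algebraMap_apply]
      exact sub_eq_zero.mp hc
    have h2 : (RatFunc.X : RatFunc ℂ) = algebraMap ℂ (RatFunc ℂ) c :=
      (algebraMap (RatFunc ℂ) K).injective h1
    have h3 : algebraMap (Polynomial ℂ) (RatFunc ℂ) Polynomial.X =
        algebraMap (Polynomial ℂ) (RatFunc ℂ) (Polynomial.C c) := by
      rw [RatFunc.algebraMap_X, RatFunc.algebraMap_C, h2]
      rfl
    have h4 := RatFunc.algebraMap_injective ℂ h3
    exact Polynomial.X_ne_C c h4
  have hq : algebraMap ℂ K be + algebraMap ℂ K de * x0 ^ 2 ≠ 0 := by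
    intro hq
    obtain ⟨c, hc⟩ := IsAlgClosed.exists_pow_nat_eq (-be / de) (n := 2) (by norm_num)
    have h1 : (x0 - algebraMap ℂ K c) * (x0 - algebraMap ℂ K (-c)) = 0 := by
      have h2 : algebraMap ℂ K de ≠ 0 := by
        intro h0
        exact h.hde ((map_eq_zero (algebraMap ℂ K)).mp h0)
      apply (mul_eq_zero.mp _).resolve_left h2
      have h3 : algebraMap ℂ K de * algebraMap ℂ K (c ^ 2) = - algebraMap ℂ K be := by
        rw [hc, ← map_mul, ← map_neg]
        congr 1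
        have := h.hde
        field_simp
      rw [map_neg]
      rw [map_pow] at h3
      linear_combination hq - h3
    rcases mul_eq_zero.mp h1 with h2 | h2
    · exact hx0 _ h2
    · exact hx0 _ h2
  obtain ⟨z, hz⟩ := IsAlgClosed.exists_pow_nat_eq (-(1 + x0 ^ 3)) (n := 3) (by norm_num)
  obtain ⟨y, hy⟩ := IsAlgClosed.exists_pow_nat_eq
    (-(algebraMap ℂ K al + algebraMap ℂ K ga * x0 ^ 2) /
      (algebraMap ℂ K be + algebraMap ℂ K de * x0 ^ 2)) (n := 2) (by norm_num)
  obtain ⟨v, hv⟩ := IsAlgClosed.exists_pow_nat_eq (-(1 + y ^ 3)) (n := 3) (by norm_num)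
  let f : Fin 5 → K := ![x0, z, y, v, 0]
  let ψ : MvPolynomial (Fin 5) ℂ →ₐ[ℂ] K := MvPolynomial.aeval f
  have hψ : ∀ a ∈ Ideal.span (Set.range (relB al be ga de)), ψ a = 0 := by
    intro a ha
    have hle : Ideal.span (Set.range (relB al be ga de)) ≤ RingHom.ker ψ := by
      rw [Ideal.span_le]
      rintro _ ⟨i, rfl⟩
      rw [SetLike.mem_coe, RingHom.mem_ker]
      fin_cases i
      · simp only [relB, ψ, f]
        simp
        linear_combination hz
      · simp only [relB, ψ, f]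
        simp
        linear_combination hv
      · simp only [relB, ψ, f]
        simp
        rw [eq_div_iff hq] at hy
        linear_combination -hy
    exact RingHom.mem_ker.mp (hle ha)
  let φ : BS al be ga de →+* K := Ideal.Quotient.lift _ ψ.toRingHom (by
    intro a ha; exact hψ a ha)
  have hφ : ∀ a, φ (Ideal.Quotient.mk _ a) = ψ a := fun a => Ideal.Quotient.lift_mk _ _ _
  refine ⟨RingHom.ker φ, RingHom.ker_isPrime φ, ?_, ?_⟩
  · rw [RingHom.mem_ker]
    change φ (Ideal.Quotient.mk _ (X 4)) = 0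
    rw [hφ]
    simp [ψ, f]
  · intro c hc
    rw [RingHom.mem_ker] at hc
    have h1 : φ (bx al be ga de 0) = x0 := by
      change φ (Ideal.Quotient.mk _ (X 0)) = x0
      rw [hφ]
      simp [ψ, f]
    have h2 : φ (algebraMap ℂ _ c) = algebraMap ℂ K c := by
      have : (algebraMap ℂ (BS al be ga de) c) = Ideal.Quotient.mk _ (C c) := rfl
      rw [this, hφ]
      simp only [ψ]
      rw [MvPolynomial.aeval_C]
    rw [map_sub, h1, h2] at hc
    exact hx0 c hc

theorem good_params : Good 1 2 2 (-1) ∧ Good 2 (-1) 1 2 ∧ Good 2 1 (-1) 2 ∧ Good (-1) 2 2 1 := by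
  refine ⟨⟨?_, ?_, ?_, ?_, ?_, ?_, ?_, ?_, ?_, ?_⟩, ⟨?_, ?_, ?_, ?_, ?_, ?_, ?_, ?_, ?_, ?_⟩,
    ⟨?_, ?_, ?_, ?_, ?_, ?_, ?_, ?_, ?_, ?_⟩, ⟨?_, ?_, ?_, ?_, ?_, ?_, ?_, ?_, ?_, ?_⟩⟩
  all_goals try norm_num
  all_goals try (intro t ht; exact t_aux3 ht (by norm_num))
  all_goals try (intro t ht h; exact t_aux3 ht (a := 2) (b := -1) (by norm_num) (by linear_combination h))
  all_goals try (intro t ht h; exact t_aux3 ht (a := 2) (b := 1) (by norm_num) (by linear_combination h))
  · intro s t hs ht h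
    exact t_aux1 ht (cube_eq hs (u := t - 2) (v := 1 + 2 * t) (by linear_combination -h))
  · intro s t hs ht h
    exact t_aux1 ht (cube_eq hs (u := 1 + 2 * t) (v := t - 2) (by linear_combination h)).symm
  · intro s t hs ht h
    have h3 := cube_eq hs (u := 1 - 2 * t) (v := 2 + t) (by linear_combination -h)
    exact t_aux2 ht h3.symm
  · intro s t hs ht h
    have h3 := cube_eq hs (u := 2 + t) (v := 1 - 2 * t) (by linear_combination h)
    exact t_aux2 ht h3

end Pool.Agent.Helper304.Ses
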