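import Pool.Agent.Helper304.Ses.Ex
import Pool.Agent.Helper198.SchO
import Pool.Agent.Helper304.Ses.Md1
import Pool.Agent.Helper304.Ses.Mr4
import Pool.Agent.Helper304.Ses.Mr5a
import Pool.Agent.Helper304.Ses.Mr5c
import Pool.Agent.Helper304.Ses.Mr7

open MvPolynomial AlgebraicGeometry CategoryTheory Limits TopologicalSpace
open Pool.Agent.Helper198.Sch

namespace Pool.Agent.Helper304.Ses

attribute [local instance] MvPolynomial.gradedAlgebra

/-- for the four charts of the covering: the chart ring is one of the rings `BS` in general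
position -/
theorem chart_equiv833 (q : Fin 2 × Fin 2) : ∃ al be ga de : ℂ, Good al be ga de ∧
    Nonempty (Ch JS (some (q.1.castSucc, q.2.castSucc)) ≃ₐ[ℂ] BS al be ga de) := by
  obtain ⟨g1, g2, g3, g4⟩ := good_params
  obtain ⟨i, j⟩ := q
  fin_cases i <;> fin_cases j
  · obtain ⟨e, -⟩ := XS_chart 0 0 1 1 1 2 2 (-1) (Or.inl ⟨rfl, rfl, rfl, rfl, rfl, rfl, rfl, rfl⟩)
    exact ⟨_, _, _, _, g1, ⟨e⟩⟩
  · obtain ⟨e, -⟩ := XS_chart 0 1 1 0 2 1 (-1) 2
      (Or.inr (Or.inr (Or.inl ⟨rfl, rfl, rfl, rfl, rfl, rfl, rfl, rfl⟩)))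
    exact ⟨_, _, _, _, g3, ⟨e⟩⟩
  · obtain ⟨e, -⟩ := XS_chart 1 0 0 1 2 (-1) 1 2
      (Or.inr (Or.inl ⟨rfl, rfl, rfl, rfl, rfl, rfl, rfl, rfl⟩))
    exact ⟨_, _, _, _, g2, ⟨e⟩⟩
  · obtain ⟨e, -⟩ := XS_chart 1 1 0 0 (-1) 2 2 1
      (Or.inr (Or.inr (Or.inr ⟨rfl, rfl, rfl, rfl, rfl, rfl, rfl, rfl⟩)))
    exact ⟨_, _, _, _, g4, ⟨e⟩⟩

theorem chart_domain833 (q : Fin 2 × Fin 2) :
    IsDomain (Ch JS (some (q.1.castSucc, q.2.castSucc))) := by
  obtain ⟨al, be, ga, de, hg, ⟨e⟩⟩ := chart_equiv833 q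
  have := BS_isDomain hg
  exact e.toMulEquiv.isDomain _

/-- coordinates of a point of the surface -/
noncomputable def uu833 (z : ℂ) : IX → ℂ
  | none => 2
  | some (a, b) => (![1, 1, z] : Fin 3 → ℂ) a * (![1, 1, z] : Fin 3 → ℂ) b

theorem uu_sat833 (z : ℂ) (hz : z ^ 3 = -2) : ∀ f ∈ setS, aeval (uu833 z) f = 0 := by
  have hx : (![1, 1, z] : Fin 3 → ℂ) 0 = 1 := rfl
  have hx1 : (![1, 1, z] : Fin 3 → ℂ) 1 = 1 := rfl
  have hx2 : (![1, 1, z] : Fin 3 → ℂ) 2 = z := rfl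
  rintro f (((⟨a, b, c, d, rfl⟩ | ⟨b, rfl⟩) | ⟨a, rfl⟩) | rfl)
  · simp only [UX, map_sub, map_mul, aeval_X, uu833]
    ring
  · simp only [UX, map_add, map_pow, aeval_X, uu833, hx, hx1, hx2]
    rw [mul_pow, mul_pow, hz]
    ring
  · simp only [UX, map_add, map_pow, aeval_X, uu833, hx, hx1, hx2]
    rw [mul_pow, mul_pow, hz]
    ring
  · simp only [qX, UX, map_sub, map_add, map_mul, map_pow, aeval_X, uu833, hx, hx1, map_ofNat]
    norm_num

/-- a ring homomorphism of the first chart ring to the complex numbers -/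
theorem exists_pt833 : ∃ φ : Ch JS (some (0, 0)) →ₐ[ℂ] ℂ, ∀ q : Fin 2 × Fin 2,
    φ (frac JS (some (0, 0)) (some (q.1.castSucc, q.2.castSucc))) = 1 := by
  obtain ⟨z, hz⟩ : ∃ z : ℂ, z ^ 3 = -2 := IsAlgClosed.exists_pow_nat_eq (-2 : ℂ) (by norm_num)
  have hc : uu833 z (some (0, 0)) = 1 := by simp [uu833]
  have hu : ∀ f ∈ JS.toIdeal, aeval (uu833 z) f = 0 :=
    aeval_ofSet (uu833 z) (uu_sat833 z hz)
  refine ⟨chLift JS (some (0, 0)) (uu833 z) hc hu, ?_⟩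
  rintro ⟨a, b⟩
  rw [chLift_frac]
  fin_cases a <;> fin_cases b <;> simp [uu833]

/-- TARGET 1 -/
theorem XS_integral : IsIntegral XS := by
  obtain ⟨φ, hφ⟩ := exists_pt833
  have hprime : (RingHom.ker (φ : Ch JS (some (0, 0)) →+* ℂ)).IsPrime := RingHom.ker_isPrime _
  let y : Spec (.of (Ch JS (some (0, 0)))) :=
    (⟨RingHom.ker (φ : Ch JS (some (0, 0)) →+* ℂ), hprime⟩ : PrimeSpectrum _)
  refine V.isIntegral_of_charts JS (ι := Fin 2 × Fin 2)
    (fun q => some (q.1.castSucc, q.2.castSucc)) (fun P => XS_cover0 P) (fun q => chart_domain833 q)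
    (V.chart JS (some (0, 0)) y) ?_
  intro q
  rw [V.chart_mem_D]
  intro hmem
  have h2 : φ (frac JS (some (0, 0)) (some (q.1.castSucc, q.2.castSucc))) = 0 := hmem
  rw [hφ q] at h2
  exact one_ne_zero h2



theorem BS_smooth833 {al be ga de : ℂ} (h : Good al be ga de) :
    Algebra.Smooth ℂ (BS al be ga de) := by
  rw [← RingHom.smooth_algebraMap, RingHom.smooth_iff_locally_isStandardSmooth]
  refine ⟨_, BS_minors h, ?_⟩
  rintro t ⟨a, ha, b, hb, ht⟩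
  rw [← IsScalarTower.algebraMap_eq, RingHom.isStandardSmooth_algebraMap]
  obtain ⟨a', ha', rfl⟩ : ∃ a' : Fin 5, (a' = 0 ∨ a' = 1) ∧ a = bx al be ga de a' := by
    rcases ha with rfl | rfl
    · exact ⟨0, Or.inl rfl, rfl⟩
    · exact ⟨1, Or.inr rfl, rfl⟩
  obtain ⟨b', hb', rfl⟩ : ∃ b' : Fin 5, (b' = 2 ∨ b' = 3) ∧ b = bx al be ga de b' := by
    rcases hb with rfl | rfl
    · exact ⟨2, Or.inl rfl, rfl⟩
    · exact ⟨3, Or.inr rfl, rfl⟩
  obtain ⟨s1, s2, s3⟩ := BS_smooth_away (al := al) (be := be) (ga := ga) (de := de) a' b' ha' hb'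
  rcases ht with rfl | rfl | rfl
  · exact s1
  · exact s2
  · exact s3

theorem Ch_smooth833 (q : Fin 2 × Fin 2) :
    Algebra.Smooth ℂ (Ch JS (some (q.1.castSucc, q.2.castSucc))) := by
  obtain ⟨al, be, ga, de, hg, ⟨e⟩⟩ := chart_equiv833 q
  have := BS_smooth833 hg
  exact Algebra.Smooth.of_equiv e.symm

set_option backward.isDefEq.respectTransparency.types false in
/-- TARGET 2 -/
theorem XS_smooth : Smooth sX := by
  apply IsZariskiLocalAtSource.of_openCover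
    (V.coverOf JS (ι := Fin 2 × Fin 2)
      (fun q => some (q.1.castSucc, q.2.castSucc)) (fun P => XS_cover0 P)).openCover
  intro (q : Fin 2 × Fin 2)
  change Smooth (V.chart JS (some (q.1.castSucc, q.2.castSucc)) ≫ V.str JS)
  rw [V.chart_str, HasRingHomProperty.Spec_iff (P := @Smooth)]
  exact RingHom.smooth_algebraMap.2 (Ch_smooth833 q)

end Pool.Agent.Helper304.Ses
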