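import Pool.Agent.Helper304.Ses.Ex

open AlgebraicGeometry CategoryTheory Limits TopologicalSpace
open Pool.Agent.Helper198.Sch

namespace Pool.Agent.Helper304.Ses

/-! Module A -/

theorem upper_bound {X : Scheme.{0}} (s : X ⟶ SpecC) [IsIntegral X] [IsProper s] (σ : X ⟶ X)
    (hσ : σ ≫ s = s) (F : Cartier (fixι s σ hσ)) (y y2 : F.N.Sec) (η : X)
    (hw : η ∉ F.one.nonvan) (hy : η ∈ y.nonvan)
    (hyc : ∀ (c : ℂ) (i : F.N.ι), η ∈ F.N.U i → η ∈ X.basicOpen (y2.s i - cst s _ c * y.s i))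
    {X' : Scheme.{0}} (p : X' ⟶ X) (hp : IsCover p) : epsDiag s F.N p ≤ 2 := by
  sorry

/-! Module B -/

theorem large_of {X E : Scheme.{0}} (s : X ⟶ SpecC) (sE : E ⟶ SpecC) [IsIntegral X] [IsProper s]
    [IsIntegral E] [IsProper sE] (f : Fin 2 → (X ⟶ E)) (hf : ∀ i, f i ≫ sE = s)
    (hcl : ∀ x : X, (∀ i, IsClosed {f i x}) → IsClosed {x})
    (hE : ∀ x : E, IsClosed {x} ∨ ∀ y : E, x ⤳ y)
    (P0 : E) (hP0 : IsClosed {P0})
    (φ : E ⟶ E) [IsFinite φ] [Etale φ] (hφ : φ ≫ sE = sE)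
    (h2 : ∀ P : E, IsClosed {P} → ∃ Q Q' : E, Q ≠ Q' ∧ φ Q = P ∧ φ Q' = P) :
    HasLargeAlgPi1 s := by
  sorry

/-! Module C -/

theorem E_integral : IsIntegral E := by
  sorry

theorem E_proper : IsProper sE := by
  sorry

theorem E_dim : ∀ x : E, IsClosed {x} ∨ ∀ y : E, x ⤳ y := by
  sorry

theorem E_point : ∃ P : E, IsClosed {P} := by
  sorry

theorem exists_phi : ∃ φ : E ⟶ E, φ ≫ sE = sE ∧ IsFinite φ ∧ Etale φ ∧
    ∀ P : E, IsClosed {P} → ∃ Q Q' : E, Q ≠ Q' ∧ φ Q = P ∧ φ Q' = P := by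
  sorry

/-! Module D -/

theorem XS_integral : IsIntegral XS := by
  sorry

theorem XS_proper : IsProper sX := by
  sorry

theorem XS_smooth : Smooth sX := by
  sorry

theorem exists_f : ∃ f : Fin 2 → (XS ⟶ E), (∀ i, f i ≫ sE = sX) ∧
    ∀ x : XS, (∀ i, IsClosed {f i x}) → IsClosed {x} := by
  sorry

theorem exists_sigma : ∃ (σ : XS ⟶ XS) (hσ : σ ≫ sX = sX) (F : Cartier (fixι sX σ hσ))
    (y y2 : F.N.Sec) (η : XS), F.N.IsAmple ∧ η ∉ F.one.nonvan ∧ η ∈ y.nonvan ∧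
    ∀ (c : ℂ) (i : F.N.ι), η ∈ F.N.U i → η ∈ XS.basicOpen (y2.s i - cst sX _ c * y.s i) := by
  sorry

theorem main : ∃ (X : Scheme.{0}) (s : X ⟶ SpecC) (L : LB X),
    IsIntegral X ∧ Smooth s ∧ IsProper s ∧ L.IsAmple ∧ HasLargeAlgPi1 s ∧
    ∀ (X' : Scheme.{0}) (p : X' ⟶ X), IsCover p → epsDiag s L p ≤ 2 := by
  have := E_integral
  have := E_proper
  have := XS_integral
  have := XS_proper
  obtain ⟨φ, hφ, hfin, het, h2⟩ := exists_phi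
  obtain ⟨f, hf, hcl⟩ := exists_f
  obtain ⟨P, hP⟩ := E_point
  obtain ⟨σ, hσ, F, y, y2, η, hA, hw, hy, hyc⟩ := exists_sigma
  exact ⟨XS, sX, F.N, XS_integral, XS_smooth, XS_proper, hA,
    large_of sX sE f hf hcl E_dim P hP φ hφ h2,
    fun X' p hp => upper_bound sX σ hσ F y y2 η hw hy hyc p hp⟩

end Pool.Agent.Helper304.Ses
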