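import Pool.Agent.Helper304.Ses.SecD

open MvPolynomial AlgebraicGeometry CategoryTheory Limits TopologicalSpace
open Pool.Agent.Helper198.Sch

namespace Pool.Agent.Helper304.Ses

attribute [local instance] MvPolynomial.gradedAlgebra

/-- the formulas for the self map of degree `3` of the Fermat cubic -/
noncomputable def phiv (om : ℂ) {R : Type} [CommRing R] [Algebra ℂ R] (u : Fin 3 → R) :
    Fin 3 → R :=
  ![u 0 ^ 3 - algebraMap ℂ R om * u 1 ^ 3, algebraMap ℂ R (om ^ 2) * u 1 ^ 3 - u 0 ^ 3,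
    algebraMap ℂ R (om - om ^ 2) * (u 0 * u 1 * u 2)]

/-- the localisation of the chart ring `Ch JE c` at the coordinate `k` of `phiv` -/
abbrev PhR (om : ℂ) (c k : Fin 2) : Type :=
  Localization.Away (phiv om (frac JE c.castSucc) k.castSucc)

/-- `φ` is given by the formulas `phiv` -/
def IsPhi (om : ℂ) (φ : E ⟶ E) : Prop :=
  ∀ c k : Fin 2, ∃ ρ : Ch JE k.castSucc →ₐ[ℂ] PhR om c k,
    (∀ a, ρ (frac JE k.castSucc a) *
      algebraMap _ (PhR om c k) (phiv om (frac JE c.castSucc) k.castSucc) =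
      algebraMap _ (PhR om c k) (phiv om (frac JE c.castSucc) a)) ∧
    Spec.map (CommRingCat.ofHom (algebraMap (Ch JE c.castSucc) (PhR om c k))) ≫
      V.chart JE c.castSucc ≫ φ = Spec.map (CommRingCat.ofHom ρ.toRingHom) ≫ V.chart JE k.castSucc

end Pool.Agent.Helper304.Ses
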