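import Mathlib

/-!
Line bundles given by transition functions, effective Cartier divisors, blow-ups, nef line
bundles and Seshadri numbers on complex schemes.
-/

open AlgebraicGeometry CategoryTheory Limits

namespace Pool.Agent.Helper304.Seshadri

/-! ### Points, open sets, functions -/

/-- The set of points of the scheme `S`. -/
def Pt (S : Scheme.{0}) : Type := S

/-- The Zariski topology on the set of points. -/
instance (S : Scheme.{0}) : TopologicalSpace (Pt S) := inferInstanceAs (TopologicalSpace S)

/-- The map on points given by a morphism of schemes. -/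
def onPt {T S : Scheme.{0}} (f : T ⟶ S) (x : Pt T) : Pt S := f x

/-- The Zariski open subsets of the scheme `S`. -/
def Op (S : Scheme.{0}) : Type := S.Opens

/-- The point `x` lies in the open set `U`. -/
def IsIn {S : Scheme.{0}} (x : Pt S) (U : Op S) : Prop :=
  Membership.mem (γ := S.Opens) U x

/-- `V` is contained in `U`. -/
def Sub {S : Scheme.{0}} (V U : Op S) : Prop := LE.le (α := S.Opens) V U

/-- The intersection of two open sets. -/
def cap {S : Scheme.{0}} (U V : Op S) : Op S := Min.min (α := S.Opens) U V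

/-- The inverse image of an open set. -/
def pre {T S : Scheme.{0}} (f : T ⟶ S) (U : Op S) : Op T := (f ⁻¹ᵁ U : T.Opens)

/-- The open set `U` is affine. -/
def IsAff {S : Scheme.{0}} (U : Op S) : Prop := IsAffineOpen (X := S) U

/-- The ring of functions on the open set `U`. -/
noncomputable def Fn (S : Scheme.{0}) (U : Op S) : CommRingCat.{0} := Γ(S, U)

/-- Restriction of functions from the open set `U` to the smaller open set `V`. -/
noncomputable def res {S : Scheme.{0}} {U V : Op S} (h : Sub V U) : Fn S U →+* Fn S V :=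
  (S.presheaf.map (homOfLE (X := S.Opens) h).op).hom

/-- Pull back of functions along a morphism of schemes. -/
noncomputable def pb {T S : Scheme.{0}} (f : T ⟶ S) (U : Op S) : Fn S U →+* Fn T (pre f U) :=
  (f.app U).hom

/-- The open set of all points of `U` at which the function `t` is invertible. -/
def nonzero {S : Scheme.{0}} {U : Op S} (t : Fn S U) : Op S :=
  (S.basicOpen (U := U) t : S.Opens)

theorem sub_refl {S : Scheme.{0}} (U : Op S) : Sub U U := by
  unfold Sub
  exact le_refl (α := S.Opens) _

theorem sub_trans {S : Scheme.{0}} {U V W : Op S} (h : Sub W V) (h' : Sub V U) : Sub W U := by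
  unfold Sub at *
  exact le_trans (α := S.Opens) h h'

theorem sub_cap {S : Scheme.{0}} {U V W : Op S} (h : Sub W U) (h' : Sub W V) :
    Sub W (cap U V) := by
  unfold Sub cap at *
  exact le_inf (α := S.Opens) h h'

theorem cap_left {S : Scheme.{0}} (U V : Op S) : Sub (cap U V) U := by
  unfold Sub cap
  exact inf_le_left (α := S.Opens)

theorem cap_right {S : Scheme.{0}} (U V : Op S) : Sub (cap U V) V := by
  unfold Sub cap
  exact inf_le_right (α := S.Opens)

theorem pre_sub {T S : Scheme.{0}} (f : T ⟶ S) {U V : Op S} (h : Sub V U) :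
    Sub (pre f V) (pre f U) := by
  unfold Sub pre at *
  exact f.preimage_mono h

theorem res_res {S : Scheme.{0}} {U V W : Op S} (h : Sub V U) (h' : Sub W V) (x : Fn S U) :
    res h' (res h x) = res (sub_trans h' h) x := by
  have e : ∀ {U V W : S.Opens} (h : V ≤ U) (h' : W ≤ V) (x : Γ(S, U)),
      (S.presheaf.map (homOfLE h').op).hom ((S.presheaf.map (homOfLE h).op).hom x) =
      (S.presheaf.map (homOfLE (h'.trans h)).op).hom x := by
    intro U V W h h' x
    rw [← CommRingCat.comp_apply, ← S.presheaf.map_comp]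
    rfl
  exact e h h' x

theorem res_self {S : Scheme.{0}} {U : Op S} (h : Sub U U) (x : Fn S U) : res h x = x := by
  have e : ∀ {U : S.Opens} (h : U ≤ U) (x : Γ(S, U)),
      (S.presheaf.map (homOfLE h).op).hom x = x := by
    intro U h x
    rw [Subsingleton.elim (homOfLE h).op (𝟙 (Opposite.op U)), S.presheaf.map_id]
    rfl
  exact e h x

theorem pb_res {T S : Scheme.{0}} (f : T ⟶ S) {U V : Op S} (h : Sub V U) (x : Fn S U) :
    pb f V (res h x) = res (pre_sub f h) (pb f U x) := by
  have e : ∀ {U V : S.Opens} (h : V ≤ U) (x : Γ(S, U)),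
      (f.app V).hom ((S.presheaf.map (homOfLE h).op).hom x) =
      (T.presheaf.map (homOfLE (f.preimage_mono h)).op).hom ((f.app U).hom x) := by
    intro U V h x
    rw [← CommRingCat.comp_apply, ← CommRingCat.comp_apply, f.naturality]
    rfl
  exact e h x

/-! ### Line bundles -/

/-- Functions `g i j` on `U i ∩ U j` are transition functions of a line bundle: the `U i` cover
`S`, `g i i = 1` and `g i j * g j k = g i k` on `U i ∩ U j ∩ U k`. -/
def IsCocycle {S : Scheme.{0}} {I : Type} (U : I → Op S) (g : ∀ i j, Fn S (cap (U i) (U j))) :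
    Prop :=
  (∀ x : Pt S, ∃ i, IsIn x (U i)) ∧ (∀ i, g i i = 1) ∧
    ∀ (i j k : I) (W : Op S) (h1 : Sub W (cap (U i) (U j))) (h2 : Sub W (cap (U j) (U k)))
      (h3 : Sub W (cap (U i) (U k))), res h1 (g i j) * res h2 (g j k) = res h3 (g i k)

/-- A line bundle on the scheme `S`, given by an open covering and transition functions. -/
structure LB (S : Scheme.{0}) where
  /-- index set of the covering -/
  I : Type
  /-- the open sets of the covering -/
  U : I → Op S
  /-- the transition functions -/
  g : ∀ i j, Fn S (cap (U i) (U j))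
  ok : IsCocycle U g

/-- Functions `s i` on the sets `U i` form a global section of the line bundle `L`:
`s i = g i j * s j` on `U i ∩ U j`. -/
def IsSection {S : Scheme.{0}} (L : LB S) (s : ∀ i, Fn S (L.U i)) : Prop :=
  ∀ (i j : L.I) (W : Op S) (h : Sub W (cap (L.U i) (L.U j))) (hi : Sub W (L.U i))
    (hj : Sub W (L.U j)), res hi (s i) = res h (L.g i j) * res hj (s j)

/-- The global sections of the line bundle `L`. -/
structure Sec {S : Scheme.{0}} (L : LB S) where
  /-- the local functions -/
  s : ∀ i, Fn S (L.U i)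
  ok : IsSection L s

/-- The section `t` does not vanish at the point `x`. -/
def NonzeroAt {S : Scheme.{0}} {L : LB S} (t : Sec L) (x : Pt S) : Prop :=
  ∃ i, IsIn x (nonzero (t.s i))

theorem cap_l {S : Scheme.{0}} (U V U' V' : Op S) :
    Sub (cap (cap U V) (cap U' V')) (cap U U') := by
  unfold Sub cap
  exact inf_le_inf (α := S.Opens) (inf_le_left (α := S.Opens)) (inf_le_left (α := S.Opens))

theorem cap_r {S : Scheme.{0}} (U V U' V' : Op S) :
    Sub (cap (cap U V) (cap U' V')) (cap V V') := by
  unfold Sub cap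
  exact inf_le_inf (α := S.Opens) (inf_le_right (α := S.Opens)) (inf_le_right (α := S.Opens))

theorem cap_swap {S : Scheme.{0}} (U V : Op S) : Sub (cap U V) (cap V U) := by
  unfold Sub cap
  exact le_inf (α := S.Opens) (inf_le_right (α := S.Opens)) (inf_le_left (α := S.Opens))

theorem pre_cap {T S : Scheme.{0}} (f : T ⟶ S) (U V : Op S) :
    Sub (cap (pre f U) (pre f V)) (pre f (cap U V)) := by
  unfold Sub cap pre
  exact le_refl (α := T.Opens) _

/-- transition functions of the tensor product -/
noncomputable def tensorG {S : Scheme.{0}} (L M : LB S) (i j : L.I × M.I) :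
    Fn S (cap (cap (L.U i.1) (M.U i.2)) (cap (L.U j.1) (M.U j.2))) :=
  res (cap_l (L.U i.1) (M.U i.2) (L.U j.1) (M.U j.2)) (L.g i.1 j.1) *
    res (cap_r (L.U i.1) (M.U i.2) (L.U j.1) (M.U j.2)) (M.g i.2 j.2)

theorem tensor_ok {S : Scheme.{0}} (L M : LB S) :
    IsCocycle (fun i : L.I × M.I => cap (L.U i.1) (M.U i.2)) (tensorG L M) := by
  refine ⟨fun x => ?_, fun i => ?_, fun i j k W h1 h2 h3 => ?_⟩
  · obtain ⟨i, hi⟩ := L.ok.1 x
    obtain ⟨j, hj⟩ := M.ok.1 x
    refine ⟨(i, j), ?_⟩
    unfold IsIn cap
    exact ⟨hi, hj⟩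
  · unfold tensorG
    rw [L.ok.2.1, M.ok.2.1, map_one, map_one]
    exact one_mul 1
  · unfold tensorG
    simp only [map_mul, res_res]
    have a := L.ok.2.2 i.1 j.1 k.1 W (sub_trans h1 (cap_l _ _ _ _)) (sub_trans h2 (cap_l _ _ _ _))
      (sub_trans h3 (cap_l _ _ _ _))
    have b := M.ok.2.2 i.2 j.2 k.2 W (sub_trans h1 (cap_r _ _ _ _)) (sub_trans h2 (cap_r _ _ _ _))
      (sub_trans h3 (cap_r _ _ _ _))
    rw [← a, ← b]
    ring

/-- The tensor product of two line bundles. -/
noncomputable def tensor {S : Scheme.{0}} (L M : LB S) : LB S where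
  I := L.I × M.I
  U := fun i => cap (L.U i.1) (M.U i.2)
  g := tensorG L M
  ok := tensor_ok L M

/-- transition functions of the dual -/
noncomputable def dualG {S : Scheme.{0}} (L : LB S) (i j : L.I) : Fn S (cap (L.U i) (L.U j)) :=
  res (cap_swap (L.U i) (L.U j)) (L.g j i)

theorem dual_ok {S : Scheme.{0}} (L : LB S) : IsCocycle L.U (dualG L) := by
  refine ⟨L.ok.1, fun i => ?_, fun i j k W h1 h2 h3 => ?_⟩
  · unfold dualG
    rw [L.ok.2.1, map_one]
  · unfold dualG
    simp only [res_res]
    rw [← L.ok.2.2 k j i W (sub_trans h2 (cap_swap _ _)) (sub_trans h1 (cap_swap _ _))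
      (sub_trans h3 (cap_swap _ _)), mul_comm]

/-- The dual of a line bundle. -/
noncomputable def dual {S : Scheme.{0}} (L : LB S) : LB S where
  I := L.I
  U := L.U
  g := dualG L
  ok := dual_ok L

/-- transition functions of a power -/
noncomputable def powG {S : Scheme.{0}} (L : LB S) (n : ℕ) (i j : L.I) :
    Fn S (cap (L.U i) (L.U j)) :=
  L.g i j ^ n

theorem pow_ok {S : Scheme.{0}} (L : LB S) (n : ℕ) : IsCocycle L.U (powG L n) := by
  refine ⟨L.ok.1, fun i => ?_, fun i j k W h1 h2 h3 => ?_⟩
  · unfold powG
    rw [L.ok.2.1, one_pow]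
  · unfold powG
    simp only [map_pow]
    rw [← mul_pow, L.ok.2.2 i j k W h1 h2 h3]

/-- The `n`-th tensor power of a line bundle, `n ≥ 0`. -/
noncomputable def pow {S : Scheme.{0}} (L : LB S) (n : ℕ) : LB S where
  I := L.I
  U := L.U
  g := powG L n
  ok := pow_ok L n

/-- transition functions of the pull back -/
noncomputable def pullG {T S : Scheme.{0}} (f : T ⟶ S) (L : LB S) (i j : L.I) :
    Fn T (cap (pre f (L.U i)) (pre f (L.U j))) :=
  res (pre_cap f (L.U i) (L.U j)) (pb f (cap (L.U i) (L.U j)) (L.g i j))

theorem pull_ok {T S : Scheme.{0}} (f : T ⟶ S) (L : LB S) :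
    IsCocycle (fun i => pre f (L.U i)) (pullG f L) := by
  refine ⟨fun x => L.ok.1 (onPt f x), fun i => ?_, fun i j k W h1 h2 h3 => ?_⟩
  · unfold pullG
    rw [L.ok.2.1, map_one]
    exact map_one _
  · unfold pullG
    simp only [res_res]
    have a := L.ok.2.2 i j k (cap (cap (L.U i) (L.U j)) (L.U k)) (cap_left _ _)
      (sub_cap (sub_trans (cap_left _ _) (cap_right _ _)) (cap_right _ _))
      (sub_cap (sub_trans (cap_left _ _) (cap_left _ _)) (cap_right _ _))
    have hW : Sub W (pre f (cap (cap (L.U i) (L.U j)) (L.U k))) := by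
      have e1 : Sub W (pre f (L.U i)) := sub_trans h1 (cap_left _ _)
      have e2 : Sub W (pre f (L.U j)) := sub_trans h1 (cap_right _ _)
      have e3 : Sub W (pre f (L.U k)) := sub_trans h2 (cap_right _ _)
      exact sub_trans (sub_cap (sub_trans (sub_cap e1 e2) (pre_cap f _ _)) e3) (pre_cap f _ _)
    have b := congrArg (fun z => res hW (pb f _ z)) a
    simp only [map_mul, pb_res, res_res] at b
    exact b

/-- The pull back of a line bundle along a morphism. -/
noncomputable def pull {T S : Scheme.{0}} (f : T ⟶ S) (L : LB S) : LB T where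
  I := L.I
  U := fun i => pre f (L.U i)
  g := pullG f L
  ok := pull_ok f L

/-- The line bundle `L` on the (quasi-compact) scheme `S` is ample: every point has a
neighbourhood which is affine and is the set of points at which some section of a positive
power of `L` does not vanish. -/
def IsAmple {S : Scheme.{0}} (L : LB S) : Prop :=
  ∀ x : Pt S, ∃ n : ℕ, 1 ≤ n ∧ ∃ (t : Sec (pow L n)) (W : Op S), IsAff W ∧ IsIn x W ∧
    ∀ y : Pt S, IsIn y W ↔ NonzeroAt t y

/-! ### Blow-ups -/

/-- The ideal of the functions on the open set `V` that vanish on `Z`. -/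
noncomputable def idealOn {Z S : Scheme.{0}} (j : Z ⟶ S) (V : Op S) : Ideal (Fn S V) :=
  RingHom.ker (pb j V)

/-- The section `e` of the line bundle `N` is not a zero divisor and defines `Z`: on every affine
open subset `V` of `N.U i` the ideal of `Z` is generated by `e i`, which is not a zero divisor
on `V`. -/
def IsEquation {Z S : Scheme.{0}} (j : Z ⟶ S) (N : LB S) (e : Sec N) : Prop :=
  ∀ (i : N.I) (V : Op S) (h : Sub V (N.U i)), IsAff V →
    idealOn j V = Ideal.span {res h (e.s i)} ∧ res h (e.s i) ∈ nonZeroDivisors (Fn S V)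

/-- `j : Z ⟶ S` is (the inclusion of) an effective Cartier divisor with line bundle `N = O(Z)`
and canonical section `e`, whose zero scheme is `Z`. -/
structure Cartier {Z S : Scheme.{0}} (j : Z ⟶ S) where
  closed : IsClosedImmersion j
  /-- the line bundle `O(Z)` -/
  N : LB S
  /-- the canonical section of `O(Z)` -/
  e : Sec N
  ok : IsEquation j N e

/-- `β : B ⟶ V` is the blow-up of `V` along the closed subscheme `i : W ⟶ V`: the inverse image
of `W` in `B` is an effective Cartier divisor, and every morphism `f : T ⟶ V` for which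
the inverse image of `W` is an effective Cartier divisor factors uniquely through `β`. -/
def IsBlowup {B V W : Scheme.{0}} (β : B ⟶ V) (i : W ⟶ V) : Prop :=
  Nonempty (Cartier (pullback.snd i β)) ∧
    ∀ (T : Scheme.{0}) (f : T ⟶ V), Nonempty (Cartier (pullback.snd i f)) →
      ∃! g : T ⟶ B, g ≫ β = f

/-! ### Nef line bundles and Seshadri numbers -/

/-- The spectrum of the complex numbers. -/
noncomputable def SpecC : Scheme.{0} := Spec (CommRingCat.of ℂ)

/-- `C` is an integral proper curve over the complex numbers. -/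
structure IsCurve {C : Scheme.{0}} (sC : C ⟶ SpecC) : Prop where
  integral : IsIntegral C
  proper : IsProper sC
  dim : topologicalKrullDim (Pt C) = 1

/-- The degree of the line bundle `L` on the integral proper curve `C` is negative: some positive
power of the dual of `L` has a non-zero section with a zero. -/
def IsNegative {C : Scheme.{0}} (L : LB C) : Prop :=
  ∃ (n : ℕ) (t : Sec (pow (dual L) n)), 1 ≤ n ∧ (∃ x : Pt C, NonzeroAt t x) ∧
    ∃ x : Pt C, ¬ NonzeroAt t x

/-- The line bundle `D` on the proper complex scheme `V` is nef: for no integral proper curve `C`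
with a morphism `h : C ⟶ V` the degree of `h^* D` is negative. -/
def IsNef {V : Scheme.{0}} (sV : V ⟶ SpecC) (D : LB V) : Prop :=
  ∀ (C : Scheme.{0}) (h : C ⟶ V), IsCurve (h ≫ sV) → ¬ IsNegative (pull h D)

/-- The line bundle `β^* M^n ⊗ O(-m E)` on the blow-up `B`, where `N = O(E)`. -/
noncomputable def twist {B V : Scheme.{0}} (β : B ⟶ V) (M : LB V) (N : LB B) (m n : ℕ) : LB B :=
  tensor (pow (pull β M) n) (dual (pow N m))

/-- The Seshadri number of the line bundle `M` on `V` along `i : W ⟶ V`: the supremum of all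
`m / n`, where `m, n` are natural numbers, `n ≥ 1`, such that the line bundle
`β^* M^n ⊗ O(-m E)` on the blow-up `β : B ⟶ V` of `W` is nef. -/
noncomputable def seshadri {V W : Scheme.{0}} (sV : V ⟶ SpecC) (M : LB V) (i : W ⟶ V) :
    ENNReal :=
  sSup {t : ENNReal | ∃ (B : Scheme.{0}) (β : B ⟶ V) (E : Cartier (pullback.snd i β)) (m n : ℕ),
    IsBlowup β i ∧ 1 ≤ n ∧ IsNef (β ≫ sV) (twist β M E.N m n) ∧ t = (m : ENNReal) / (n : ENNReal)}

/-- The product `X' × X'` over the complex numbers. -/
noncomputable def square {X' : Scheme.{0}} (s' : X' ⟶ SpecC) : Scheme.{0} := pullback s' s'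

/-- The structure morphism of the product. -/
noncomputable def squareStr {X' : Scheme.{0}} (s' : X' ⟶ SpecC) : square s' ⟶ SpecC :=
  pullback.fst s' s' ≫ s'

/-- The morphism `p̃ = p × p : X' × X' ⟶ X × X`. -/
noncomputable def prodMap {X X' : Scheme.{0}} (s : X ⟶ SpecC) (p : X' ⟶ X) :
    square (p ≫ s) ⟶ square s :=
  pullback.map (p ≫ s) (p ≫ s) s s p p (𝟙 SpecC) (Category.comp_id _) (Category.comp_id _)

/-- The line bundle `M_p = p̃^* (p₁^* L ⊗ p₂^* L)` on `X' × X'`. -/
noncomputable def Mp {X X' : Scheme.{0}} (s : X ⟶ SpecC) (L : LB X) (p : X' ⟶ X) :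
    LB (square (p ≫ s)) :=
  pull (prodMap s p) (tensor (pull (pullback.fst s s) L) (pull (pullback.snd s s) L))

/-- `ε(M_p; D')`: for a morphism `p : X' ⟶ X` of complex schemes and a line bundle `L` on `X`, the
Seshadri number of the line bundle `M_p` along the diagonal of `X' × X'`. -/
noncomputable def epsDiag {X X' : Scheme.{0}} (s : X ⟶ SpecC) (L : LB X) (p : X' ⟶ X) : ENNReal :=
  seshadri (squareStr (p ≫ s)) (Mp s L p) (pullback.diagonal (p ≫ s))

/-! ### Coverings -/

/-- `p : X' ⟶ X` is a connected finite étale covering. -/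
structure IsCover {X X' : Scheme.{0}} (p : X' ⟶ X) : Prop where
  finite : IsFinite p
  etale : Etale p
  connected : ConnectedSpace (Pt X')

/-- The algebraic fundamental group of `X` is large: the algebraic universal cover of `X`
contains no complete subvariety of positive dimension.  That is: a non-constant morphism
`h : Z ⟶ X` from an integral proper complex scheme `Z` does not lift to all connected finite
étale coverings of `X`. -/
def HasLargeAlgPi1 {X : Scheme.{0}} (s : X ⟶ SpecC) : Prop :=
  ∀ (Z : Scheme.{0}) (h : Z ⟶ X), IsIntegral Z → IsProper (h ≫ s) →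
    (∃ a b : Pt Z, onPt h a ≠ onPt h b) →
    ∃ (X' : Scheme.{0}) (p : X' ⟶ X), IsCover p ∧ ¬ ∃ g : Z ⟶ X', g ≫ p = h

attribute [local instance] MvPolynomial.gradedAlgebra

/-- Complex projective `n`-space `Proj ℂ[x_0, ..., x_n]`. -/
noncomputable def PSpace (n : ℕ) : Scheme.{0} :=
  Proj (MvPolynomial.homogeneousSubmodule (Fin (n + 1)) ℂ)

/-- The structure morphism of projective `n`-space. -/
noncomputable def PSpaceStr (n : ℕ) : PSpace n ⟶ SpecC :=
  Proj.toSpecZero (MvPolynomial.homogeneousSubmodule (Fin (n + 1)) ℂ) ≫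
    Spec.map (CommRingCat.ofHom
      (algebraMap ℂ (MvPolynomial.homogeneousSubmodule (Fin (n + 1)) ℂ 0)))

/-- `X` is projective over the complex numbers: a closed subscheme of some projective space. -/
def IsProjective {X : Scheme.{0}} (s : X ⟶ SpecC) : Prop :=
  ∃ (n : ℕ) (i : X ⟶ PSpace n), IsClosedImmersion i ∧ i ≫ PSpaceStr n = s

/-- `X` is a smooth projective complex surface (with the structure morphism `s`): integral, smooth
of relative dimension `2` and projective over the complex numbers. -/
structure IsSmoothProjectiveSurface {X : Scheme.{0}} (s : X ⟶ SpecC) : Prop where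
  integral : IsIntegral X
  smooth : SmoothOfRelativeDimension 2 s
  projective : IsProjective s

end Pool.Agent.Helper304.Seshadri
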