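import Pool.Agent.Helper304.Ses.Ex

open MvPolynomial AlgebraicGeometry CategoryTheory Limits TopologicalSpace
open Pool.Agent.Helper198.Sch

namespace Pool.Agent.Helper304.Ses

attribute [local instance] MvPolynomial.gradedAlgebra

variable {σ : Type}

/-- the elements of the chart ring as functions on the open set `D J c` -/
noncomputable def secD (J : HI σ ℂ) (c : σ) : Ch J c →+* Γ(V J, V.D J c) :=
  (Proj.awayToSection (qgrad J.toIdeal) (gen J c)).hom

end Pool.Agent.Helper304.Ses
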